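import Mathlib

namespace Pool.Agent.Lib.MP_4da284_al

universe u

/- The Witt algebra: all derivations `f d/dt` of the ring of Laurent polynomials,
with the commutator bracket. -/
abbrev Witt (k : Type u) [Field k] : Type u :=
  Derivation k (LaurentPolynomial k) (LaurentPolynomial k)

/- Relations of the Weyl algebra in `m` variables: `inl i` is `s_i` and `inr i` is `d_i`. -/
inductive WeylRel (k : Type u) [Field k] (m : ℕ) :
    FreeAlgebra k (Fin m ⊕ Fin m) → FreeAlgebra k (Fin m ⊕ Fin m) → Prop
  | ss (i j : Fin m) : WeylRel k m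
      (FreeAlgebra.ι k (Sum.inl i) * FreeAlgebra.ι k (Sum.inl j))
      (FreeAlgebra.ι k (Sum.inl j) * FreeAlgebra.ι k (Sum.inl i))
  | dd (i j : Fin m) : WeylRel k m
      (FreeAlgebra.ι k (Sum.inr i) * FreeAlgebra.ι k (Sum.inr j))
      (FreeAlgebra.ι k (Sum.inr j) * FreeAlgebra.ι k (Sum.inr i))
  | ds (i j : Fin m) : WeylRel k m
      (FreeAlgebra.ι k (Sum.inr i) * FreeAlgebra.ι k (Sum.inl j))
      (FreeAlgebra.ι k (Sum.inl j) * FreeAlgebra.ι k (Sum.inr i) + if i = j then 1 else 0)

/- The Weyl algebra `A_m`. -/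
abbrev Weyl (k : Type u) [Field k] (m : ℕ) : Type u := RingQuot (WeylRel k m)

/- Relations of the first Weyl algebra localised at `t`: generator `0` is `t`,
generator `1` is its inverse and generator `2` is `d`. -/
inductive LocRel (k : Type u) [Field k] : FreeAlgebra k (Fin 3) → FreeAlgebra k (Fin 3) → Prop
  | mul_inv : LocRel k (FreeAlgebra.ι k 0 * FreeAlgebra.ι k 1) 1
  | inv_mul : LocRel k (FreeAlgebra.ι k 1 * FreeAlgebra.ι k 0) 1
  | dt : LocRel k (FreeAlgebra.ι k 2 * FreeAlgebra.ι k 0) (FreeAlgebra.ι k 0 * FreeAlgebra.ι k 2 + 1)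

/- The first Weyl algebra localised at `t`. -/
abbrev LocWeyl (k : Type u) [Field k] : Type u := RingQuot (LocRel k)

/- A primitive ideal is the annihilator of a simple left module. -/
def IsPrimitiveIdeal {R : Type u} [Ring R] (Q : Ideal R) : Prop :=
  ∃ (M : Type u) (_ : AddCommGroup M) (_ : Module R M),
    IsSimpleModule R M ∧ Module.annihilator R M = Q

attribute [local instance 100] LieRing.ofAssociativeRing in
/- The map of enveloping algebras induced by a map of Lie algebras. -/
noncomputable def envMap {k g h : Type u} [Field k] [LieRing g] [LieAlgebra k g]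
    [LieRing h] [LieAlgebra k h] (π : g →ₗ⁅k⁆ h) :
    UniversalEnvelopingAlgebra k g →ₐ[k] UniversalEnvelopingAlgebra k h :=
  UniversalEnvelopingAlgebra.lift k ((UniversalEnvelopingAlgebra.ι k).comp π)

end Pool.Agent.Lib.MP_4da284_al
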