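import Mathlib

namespace Pool.Agent.Lib.MP_4da284_al

open AddMonoidAlgebra

noncomputable section

variable {k : Type*} [Field k]

section Lin

variable {G H : Type*} [AddCommGroup G] [AddCommGroup H]
variable {M N : Type*} [AddCommGroup M] [Module k M] [AddCommGroup N] [Module k N]

variable (k) in
def mono (g : G) : k[G] := single g 1

theorem mono_mul (g h : G) : mono k g * mono k h = mono k (g + h) := by
  simp [mono, single_mul_single]

theorem mono_zero : mono k (0 : G) = 1 := rfl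

variable (k) in
def linG (F : G → M) : k[G] →ₗ[k] M :=
  Finsupp.linearCombination k F ∘ₗ (coeffLinearEquiv k).toLinearMap

omit [AddCommGroup G] in
theorem linG_mono (F : G → M) (g : G) : linG k F (mono k g) = F g := by
  simp [linG, mono]

theorem mono_ind {P : k[G] → Prop} (h0 : P 0) (hadd : ∀ f g, P f → P g → P (f + g))
    (hs : ∀ (r : k) (g : G), P (r • mono k g)) (f : k[G]) : P f := by
  induction f using AddMonoidAlgebra.induction_linear with
  | zero => exact h0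
  | add f g hf hg => exact hadd f g hf hg
  | single n r =>
    have := hs r n
    rwa [mono, smul_single, smul_eq_mul, mul_one] at this

theorem lin_ext {φ ψ : k[G] →ₗ[k] M} (h : ∀ g, φ (mono k g) = ψ (mono k g)) (f : k[G]) :
    φ f = ψ f := by
  induction f using mono_ind with
  | h0 => simp
  | hadd f g hf hg => rw [map_add, map_add, hf, hg]
  | hs r g => rw [map_smul, map_smul, h]

theorem map_linG (ρ : M →ₗ[k] N) (F : G → M) (f : k[G]) :
    ρ (linG k F f) = linG k (fun g => ρ (F g)) f :=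
  lin_ext (φ := ρ ∘ₗ linG k F) (fun g => by simp [linG_mono]) f

theorem linG_add (F F' : G → M) (f : k[G]) :
    linG k (fun g => F g + F' g) f = linG k F f + linG k F' f :=
  lin_ext (ψ := linG k F + linG k F') (fun g => by simp [linG_mono]) f

theorem linG_smul (r : k) (F : G → M) (f : k[G]) :
    linG k (fun g => r • F g) f = r • linG k F f :=
  lin_ext (ψ := r • linG k F) (fun g => by simp [linG_mono]) f

theorem linG_zero (f : k[G]) : linG k (fun _ : G => (0 : M)) f = 0 :=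
  lin_ext (ψ := 0) (fun g => by simp [linG_mono]) f

theorem linG_d1 (F : G → M) (a b : G) (h : ∀ g, F (a + g) = F (b + g)) (f : k[G]) :
    linG k F ((mono k a - mono k b) * f) = 0 :=
  lin_ext (φ := linG k F ∘ₗ LinearMap.mulLeft k (mono k a - mono k b)) (ψ := 0) (fun g => by
    simp [sub_mul, mono_mul, linG_mono, h]) f

theorem linG_d2 (F F' : G → M) (a b : G)
    (h : ∀ g, F (a + a + g) - (2 : k) • F (a + b + g) + F (b + b + g) = F' g) (f : k[G]) :
    linG k F ((mono k a - mono k b) ^ 2 * f) = linG k F' f :=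
  lin_ext (φ := linG k F ∘ₗ LinearMap.mulLeft k ((mono k a - mono k b) ^ 2)) (fun g => by
    have : (mono k a - mono k b) ^ 2 * mono k g = mono k a * mono k a * mono k g -
        (2 : k) • (mono k a * mono k b * mono k g) + mono k b * mono k b * mono k g := by
      rw [two_smul]; ring
    simp only [LinearMap.comp_apply, LinearMap.mulLeft_apply, this, mono_mul, map_add, map_sub,
      map_smul, linG_mono, h]) f

variable (k) in
def push (π : G →+ H) : k[G] →ₐ[k] k[H] := mapDomainAlgHom k k π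

theorem push_mono (π : G →+ H) (g : G) : push k π (mono k g) = mono k (π g) := by
  simp [push, mono]

theorem linG_push (π : G →+ H) (c : H) (F : H → M) (f : k[G]) :
    linG k (fun g => F (π g + c)) f = linG k F (push k π f * mono k c) :=
  lin_ext (ψ := linG k F ∘ₗ LinearMap.mulRight k (mono k c) ∘ₗ (push k π).toLinearMap)
    (fun g => by simp [linG_mono, push_mono, mono_mul]) f

theorem linG_mul {E : Type*} [Ring E] [Algebra k E] (F F' : G → E) (f f' : k[G]) :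
    linG k F f * linG k F' f' = linG k (fun g : G × G => F g.1 * F' g.2)
      (push k (AddMonoidHom.inl G G) f * push k (AddMonoidHom.inr G G) f') := by
  induction f using mono_ind with
  | h0 => simp
  | hadd f g hf hg => simp only [map_add, add_mul, hf, hg]
  | hs r g =>
    induction f' using mono_ind with
    | h0 => simp
    | hadd f g hf hg => simp only [map_add, mul_add, hf, hg]
    | hs s g' =>
      simp only [map_smul, smul_mul_smul_comm, push_mono, mono_mul, linG_mono]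
      simp

end Lin

section Families

variable {E : Type*} [Ring E] [Algebra k E]

structure OnePoint (α : k) (x X : ℤ → E) : Prop where
  add : ∀ m n, x (m + n) = x m * x n
  XX : ∀ a b, X (a + 2) * X b - (2 : k) • (X (a + 1) * X (b + 1)) + X a * X (b + 2) =
    (2 * α) • x (a + b + 2)
  Xx : ∀ a b, X (a + 2) * x b - (2 : k) • (X (a + 1) * x (b + 1)) + X a * x (b + 2) = 0

structure Cross (x X y Y : ℤ → E) : Prop where
  xy : ∀ m n, x m * y n = y n * x m
  xY : ∀ m n, x m * Y n = Y n * x m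
  Xy : ∀ m n, X m * y n = y n * X m
  XY : ∀ m n, X m * Y n = Y n * X m

theorem Cross.symm {x X y Y : ℤ → E} (h : Cross x X y Y) : Cross y Y x X :=
  ⟨fun m n => (h.xy n m).symm, fun m n => (h.Xy n m).symm, fun m n => (h.xY n m).symm,
    fun m n => (h.XY n m).symm⟩

theorem OnePoint.of_theta (lam : k) (x : ℤ → E) (θ : E) (hx : ∀ m n, x (m + n) = x m * x n)
    (hθ : ∀ n : ℤ, θ * x n = x n * (θ + (n : k) • 1)) :
    OnePoint (lam * (1 - lam)) x (fun n => x n * (θ + (lam * n) • 1)) := by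
  have h1 : ∀ a b : ℤ, x a * (θ + (lam * a) • 1) * x b =
      x (a + b) * θ + (b + lam * a) • x (a + b) := by
    intro a b
    rw [mul_assoc, add_mul, hθ, hx]
    simp only [mul_add, smul_mul_assoc, mul_smul_comm, one_mul, mul_one, mul_assoc]
    module
  have h2 : ∀ a b : ℤ, x a * (θ + (lam * a) • 1) * (x b * (θ + (lam * b) • 1)) =
      x (a + b) * θ * θ + (b + lam * a + lam * b) • (x (a + b) * θ) +
        ((b + lam * a) * (lam * b)) • x (a + b) := by
    intro a b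
    rw [← mul_assoc, h1]
    simp only [mul_add, add_mul, smul_mul_assoc, mul_smul_comm, mul_one]
    module
  refine ⟨hx, fun a b => ?_, fun a b => ?_⟩
  · simp only [h2]
    rw [show a + 2 + b = a + b + 2 by ring, show a + 1 + (b + 1) = a + b + 2 by ring,
      show a + (b + 2) = a + b + 2 by ring]
    push_cast
    module
  · simp only [h1]
    rw [show a + 2 + b = a + b + 2 by ring, show a + 1 + (b + 1) = a + b + 2 by ring,
      show a + (b + 2) = a + b + 2 by ring]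
    push_cast
    module

variable (k) in
def t1 : k[ℤ × ℤ × ℤ] := mono k (1, 0, 0)
variable (k) in
def t2 : k[ℤ × ℤ × ℤ] := mono k (0, 1, 0)
variable (k) in
def t3 : k[ℤ × ℤ × ℤ] := mono k (0, 0, 1)

theorem kill23 {α : k} {x X : ℤ → E} (h : OnePoint α x X) (P : ℤ → E) (f : k[ℤ × ℤ × ℤ]) :
    linG k (fun g : ℤ × ℤ × ℤ => P g.1 * (X g.2.1 * X g.2.2)) ((t2 k - t3 k) ^ 3 * f) = 0 := by
  rw [pow_succ, mul_assoc, t2, t3,
    linG_d2 _ (fun g => P g.1 * (2 * α) • x (g.2.1 + g.2.2 + 2)), linG_d1]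
  · rintro ⟨a, b, c⟩
    simp only [Prod.mk_add_mk, zero_add]
    congr 3; ring
  · rintro ⟨a, b, c⟩
    simp only [Prod.mk_add_mk, zero_add, add_zero]
    rw [← h.XX, add_comm (1 + 1) b, add_comm (1 + 1) c, add_comm 1 b, add_comm 1 c,
      one_add_one_eq_two, mul_add, mul_sub, mul_smul_comm]

theorem kill13 {α : k} {x X : ℤ → E} (h : OnePoint α x X) (P : ℤ → E) (f : k[ℤ × ℤ × ℤ]) :
    linG k (fun g : ℤ × ℤ × ℤ => P g.2.1 * (X g.1 * X g.2.2)) ((t1 k - t3 k) ^ 3 * f) = 0 := by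
  rw [pow_succ, mul_assoc, t1, t3,
    linG_d2 _ (fun g => P g.2.1 * (2 * α) • x (g.1 + g.2.2 + 2)), linG_d1]
  · rintro ⟨a, b, c⟩
    simp only [Prod.mk_add_mk, zero_add]
    congr 3; ring
  · rintro ⟨a, b, c⟩
    simp only [Prod.mk_add_mk, zero_add, add_zero]
    rw [← h.XX, add_comm (1 + 1) a, add_comm (1 + 1) c, add_comm 1 a, add_comm 1 c,
      one_add_one_eq_two, mul_add, mul_sub, mul_smul_comm]

theorem surv12 {α : k} {x X : ℤ → E} (h : OnePoint α x X) (P : ℤ → E) (f : k[ℤ × ℤ × ℤ]) :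
    linG k (fun g : ℤ × ℤ × ℤ => X g.1 * X g.2.1 * P g.2.2) ((t1 k - t2 k) ^ 2 * f) =
      linG k (fun g : ℤ × ℤ × ℤ => (2 * α) • (x (g.1 + g.2.1 + 2) * P g.2.2)) f := by
  rw [t1, t2, linG_d2]
  rintro ⟨a, b, c⟩
  simp only [Prod.mk_add_mk, zero_add, add_zero]
  rw [← smul_mul_assoc (2 * α), ← h.XX, add_comm (1 + 1) a, add_comm (1 + 1) b, add_comm 1 a,
    add_comm 1 b, one_add_one_eq_two, add_mul, sub_mul, smul_mul_assoc]

variable (k) in
def Vel (e : ℤ → E) (g : ℤ × ℤ) : E :=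
  linG k (fun a : ℤ × ℤ × ℤ => e a.1 * e a.2.1 * e a.2.2)
    ((t1 k - t2 k) ^ 2 * (t1 k - t3 k) ^ 3 * (t2 k - t3 k) ^ 3 * mono k (g.1 - 2, 0, g.2))

variable (k) in
def dxy : k[ℤ × ℤ] := mono k (1, 0) - mono k (0, 1)

theorem Vel_eq {α β : k} {x X y Y : ℤ → E} (hx : OnePoint α x X) (hy : OnePoint β y Y)
    (hc : Cross x X y Y) (g : ℤ × ℤ) :
    Vel k (fun n => X n + Y n) g =
      linG k (fun a : ℤ × ℤ => (2 * α) • (x a.1 * Y a.2) + (2 * β) • (y a.1 * X a.2))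
        (dxy k ^ 6 * mono k g) := by
  have hsplit : (fun a : ℤ × ℤ × ℤ => (X a.1 + Y a.1) * (X a.2.1 + Y a.2.1) * (X a.2.2 + Y a.2.2)) =
      fun a : ℤ × ℤ × ℤ => (((X a.1 + Y a.1) * (X a.2.1 * X a.2.2) +
        (X a.1 + Y a.1) * (Y a.2.1 * Y a.2.2)) + (Y a.2.1 * (X a.1 * X a.2.2) +
        X a.2.1 * (Y a.1 * Y a.2.2))) + (X a.1 * X a.2.1 * Y a.2.2 + Y a.1 * Y a.2.1 * X a.2.2) := by
    funext a
    rw [← mul_assoc (Y a.2.1), ← hc.XY, ← mul_assoc (X a.2.1), hc.XY a.2.1]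
    noncomm_ring
  set m := mono k ((g.1 - 2, 0, g.2) : ℤ × ℤ × ℤ) with hm
  have e23 : (t1 k - t2 k) ^ 2 * (t1 k - t3 k) ^ 3 * (t2 k - t3 k) ^ 3 * m =
      (t2 k - t3 k) ^ 3 * ((t1 k - t2 k) ^ 2 * (t1 k - t3 k) ^ 3 * m) := by ring
  have e13 : (t1 k - t2 k) ^ 2 * (t1 k - t3 k) ^ 3 * (t2 k - t3 k) ^ 3 * m =
      (t1 k - t3 k) ^ 3 * ((t1 k - t2 k) ^ 2 * (t2 k - t3 k) ^ 3 * m) := by ring
  have e12 : (t1 k - t2 k) ^ 2 * (t1 k - t3 k) ^ 3 * (t2 k - t3 k) ^ 3 * m =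
      (t1 k - t2 k) ^ 2 * ((t1 k - t3 k) ^ 3 * (t2 k - t3 k) ^ 3 * m) := by ring
  rw [Vel, hsplit, linG_add, linG_add, linG_add, linG_add, linG_add, ← hm]
  have z1 := kill23 hx (fun n => X n + Y n) ((t1 k - t2 k) ^ 2 * (t1 k - t3 k) ^ 3 * m)
  have z2 := kill23 hy (fun n => X n + Y n) ((t1 k - t2 k) ^ 2 * (t1 k - t3 k) ^ 3 * m)
  have z3 := kill13 hx Y ((t1 k - t2 k) ^ 2 * (t2 k - t3 k) ^ 3 * m)
  have z4 := kill13 hy X ((t1 k - t2 k) ^ 2 * (t2 k - t3 k) ^ 3 * m)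
  have z5 := surv12 hx Y ((t1 k - t3 k) ^ 3 * (t2 k - t3 k) ^ 3 * m)
  have z6 := surv12 hy X ((t1 k - t3 k) ^ 3 * (t2 k - t3 k) ^ 3 * m)
  rw [← e23] at z1 z2
  rw [← e13] at z3 z4
  rw [← e12] at z5 z6
  rw [z1, z2, z3, z4, z5, z6, add_zero, add_zero, zero_add, ← linG_add]
  let π : ℤ × ℤ × ℤ →+ ℤ × ℤ := AddMonoidHom.mk' (fun a => (a.1 + a.2.1, a.2.2)) (by
    rintro ⟨a, b, c⟩ ⟨a', b', c'⟩
    simp only [Prod.mk_add_mk, Prod.mk.injEq, and_true]; ring)
  have := linG_push π (2, 0)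
    (fun a : ℤ × ℤ => (2 * α) • (x a.1 * Y a.2) + (2 * β) • (y a.1 * X a.2))
    ((t1 k - t3 k) ^ 3 * (t2 k - t3 k) ^ 3 * m)
  simp only [π, AddMonoidHom.mk'_apply, Prod.mk_add_mk, add_zero] at this
  rw [this]
  refine congrArg (linG k _) ?_
  simp only [map_mul, map_pow, map_sub, t1, t2, t3, hm, push_mono, AddMonoidHom.mk'_apply,
    add_zero, zero_add, mul_assoc, mono_mul, Prod.mk_add_mk, sub_add_cancel, dxy]
  ring

variable (k) in
def Zel (e : ℤ → E) (g : ℤ × ℤ) : E :=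
  linG k (fun a : (ℤ × ℤ) × (ℤ × ℤ) => Vel k e a.1 * Vel k e a.2)
    ((mono k ((0, 1), (0, 0)) - mono k ((0, 0), (0, 1))) ^ 2 *
      (mono k ((0, 1), (0, 0)) - mono k ((0, 0), (1, 0))) ^ 2 * mono k ((g.1, g.2 - 2), (0, 0)))

theorem map_Vel {U : Type*} [Ring U] [Algebra k U] (ρ : U →ₐ[k] E) (e : ℤ → U) (g : ℤ × ℤ) :
    ρ (Vel k e g) = Vel k (fun n => ρ (e n)) g := by
  have := map_linG ρ.toLinearMap (fun a : ℤ × ℤ × ℤ => e a.1 * e a.2.1 * e a.2.2)
  simp only [AlgHom.toLinearMap_apply, map_mul] at this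
  rw [Vel, this, Vel]

theorem map_Zel {U : Type*} [Ring U] [Algebra k U] (ρ : U →ₐ[k] E) (e : ℤ → U) (g : ℤ × ℤ) :
    ρ (Zel k e g) = Zel k (fun n => ρ (e n)) g := by
  have := map_linG ρ.toLinearMap (fun a : (ℤ × ℤ) × (ℤ × ℤ) => Vel k e a.1 * Vel k e a.2)
  simp only [AlgHom.toLinearMap_apply, map_mul, map_Vel] at this
  rw [Zel, this, Zel]

theorem kill_mixed {β : k} {y Y : ℤ → E} (hy : OnePoint β y Y) (P Q : ℤ → E)
    (f : k[(ℤ × ℤ) × (ℤ × ℤ)]) :
    linG k (fun a : (ℤ × ℤ) × (ℤ × ℤ) => P a.1.1 * (Y a.1.2 * y a.2.1) * Q a.2.2)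
      ((mono k ((0, 1), (0, 0)) - mono k ((0, 0), (1, 0))) ^ 2 * f) = 0 := by
  rw [linG_d2 _ (fun _ => 0), linG_zero]
  rintro ⟨⟨p, q⟩, p', q'⟩
  simp only [Prod.mk_add_mk, zero_add, add_zero]
  have := congrArg (fun z => P p * z * Q q') (hy.Xx q p')
  simp only [mul_add, add_mul, mul_sub, sub_mul, mul_smul_comm, smul_mul_assoc, mul_zero,
    zero_mul] at this
  rw [add_comm (1 + 1) q, add_comm (1 + 1) p', add_comm 1 q, add_comm 1 p', one_add_one_eq_two]
  exact this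

theorem surv_pure {β : k} {y Y : ℤ → E} (hy : OnePoint β y Y) (P : ℤ → E)
    (f : k[(ℤ × ℤ) × (ℤ × ℤ)]) :
    linG k (fun a : (ℤ × ℤ) × (ℤ × ℤ) => P (a.1.1 + a.2.1) * (Y a.1.2 * Y a.2.2))
      ((mono k ((0, 1), (0, 0)) - mono k ((0, 0), (0, 1))) ^ 2 * f) =
    linG k (fun a : (ℤ × ℤ) × (ℤ × ℤ) =>
      (2 * β) • (P (a.1.1 + a.2.1) * y (a.1.2 + a.2.2 + 2))) f := by
  rw [linG_d2]
  rintro ⟨⟨p, q⟩, p', q'⟩
  simp only [Prod.mk_add_mk, zero_add, add_zero]
  rw [← mul_smul_comm (2 * β), ← hy.XX, add_comm (1 + 1) q, add_comm (1 + 1) q', add_comm 1 q,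
    add_comm 1 q', one_add_one_eq_two, mul_add, mul_sub, mul_smul_comm]

theorem Zel_eq {α β : k} {x X y Y : ℤ → E} (hx : OnePoint α x X) (hy : OnePoint β y Y)
    (hc : Cross x X y Y) (g : ℤ × ℤ) :
    Zel k (fun n => X n + Y n) g =
      linG k (fun a : ℤ × ℤ => (8 * α * β * α) • (x a.1 * y a.2) + (8 * α * β * β) • (y a.1 * x a.2))
        (dxy k ^ 14 * mono k g) := by
  set v : ℤ × ℤ → E := fun a => (2 * α) • (x a.1 * Y a.2) + (2 * β) • (y a.1 * X a.2) with hv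
  set ω : k[(ℤ × ℤ) × (ℤ × ℤ)] := push k (AddMonoidHom.inl _ _) (dxy k ^ 6) *
    push k (AddMonoidHom.inr _ _) (dxy k ^ 6) with hω
  have h1 : ∀ f, linG k (fun a : (ℤ × ℤ) × (ℤ × ℤ) =>
      Vel k (fun n => X n + Y n) a.1 * Vel k (fun n => X n + Y n) a.2) f =
      linG k (fun a : (ℤ × ℤ) × (ℤ × ℤ) => v a.1 * v a.2) (ω * f) := by
    intro f
    refine lin_ext (ψ := linG k (fun a : (ℤ × ℤ) × (ℤ × ℤ) => v a.1 * v a.2) ∘ₗ
      LinearMap.mulLeft k ω) (fun a => ?_) f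
    rw [linG_mono, Vel_eq hx hy hc, Vel_eq hx hy hc, linG_mul, LinearMap.comp_apply,
      LinearMap.mulLeft_apply]
    refine congrArg (linG k (fun a : (ℤ × ℤ) × (ℤ × ℤ) => v a.1 * v a.2)) ?_
    rw [map_mul, map_mul, push_mono, push_mono, hω]
    have : mono k a = mono k (AddMonoidHom.inl _ _ a.1) * mono k (AddMonoidHom.inr _ _ a.2) := by
      rw [mono_mul]; simp
    rw [this]; ring
  have hsplit : (fun a : (ℤ × ℤ) × (ℤ × ℤ) => v a.1 * v a.2) = fun a : (ℤ × ℤ) × (ℤ × ℤ) =>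
      ((4 * α * β) • (x a.1.1 * (Y a.1.2 * y a.2.1) * X a.2.2) +
       (4 * α * β) • (y a.1.1 * (X a.1.2 * x a.2.1) * Y a.2.2)) +
      ((4 * α * α) • (x (a.1.1 + a.2.1) * (Y a.1.2 * Y a.2.2)) +
       (4 * β * β) • (y (a.1.1 + a.2.1) * (X a.1.2 * X a.2.2))) := by
    funext a
    have e1 : x (a.1.1 + a.2.1) * (Y a.1.2 * Y a.2.2) = x a.1.1 * Y a.1.2 * (x a.2.1 * Y a.2.2) := by
      rw [hx.add, mul_assoc, ← mul_assoc (x a.2.1), hc.xY]; noncomm_ring
    have e2 : y (a.1.1 + a.2.1) * (X a.1.2 * X a.2.2) = y a.1.1 * X a.1.2 * (y a.2.1 * X a.2.2) := by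
      rw [hy.add, mul_assoc, ← mul_assoc (y a.2.1), ← hc.Xy]; noncomm_ring
    rw [e1, e2]
    simp only [hv, mul_add, add_mul, smul_mul_assoc, mul_smul_comm, mul_assoc]
    module
  set A : k[(ℤ × ℤ) × (ℤ × ℤ)] := mono k ((0, 1), (0, 0)) - mono k ((0, 0), (0, 1)) with hA
  set B : k[(ℤ × ℤ) × (ℤ × ℤ)] := mono k ((0, 1), (0, 0)) - mono k ((0, 0), (1, 0)) with hB
  set m : k[(ℤ × ℤ) × (ℤ × ℤ)] := mono k ((g.1, g.2 - 2), (0, 0)) with hm
  have eA : ω * (A ^ 2 * B ^ 2 * m) = A ^ 2 * (ω * B ^ 2 * m) := by ring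
  have eB : ω * (A ^ 2 * B ^ 2 * m) = B ^ 2 * (ω * A ^ 2 * m) := by ring
  have z1 := kill_mixed hy x X (ω * A ^ 2 * m)
  have z2 := kill_mixed hx y Y (ω * A ^ 2 * m)
  have z3 := surv_pure hy x (ω * B ^ 2 * m)
  have z4 := surv_pure hx y (ω * B ^ 2 * m)
  rw [← hB, ← eB] at z1 z2
  rw [← hA, ← eA] at z3 z4
  rw [Zel, h1, hsplit, linG_add, linG_add, linG_add, linG_smul, linG_smul, linG_smul, linG_smul,
    ← hA, ← hB, ← hm, z1, z2, z3, z4, smul_zero, add_zero, zero_add, ← linG_smul, ← linG_smul,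
    ← linG_add]
  let π : (ℤ × ℤ) × (ℤ × ℤ) →+ ℤ × ℤ := AddMonoidHom.mk' (fun a => a.1 + a.2) (by
    intro a b
    simp only [Prod.fst_add, Prod.snd_add]; abel)
  have := linG_push π (0, 2)
    (fun a : ℤ × ℤ => (8 * α * β * α) • (x a.1 * y a.2) + (8 * α * β * β) • (y a.1 * x a.2))
    (ω * B ^ 2 * m)
  simp only [π, AddMonoidHom.mk'_apply, Prod.fst_add, Prod.snd_add, add_zero] at this
  have hp : ∀ (φ : ℤ × ℤ →+ (ℤ × ℤ) × (ℤ × ℤ)), (∀ a, π (φ a) = a) →
      push k π (push k φ (dxy k)) = dxy k := by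
    intro φ hφ
    simp only [dxy, map_sub, push_mono, hφ]
  have e : push k π (ω * B ^ 2 * m) * mono k (0, 2) = dxy k ^ 14 * mono k g := by
    rw [map_mul, map_mul, hω, map_mul, map_pow, map_pow, map_pow, map_pow, map_pow,
      hp _ (by intro a; simp [π]), hp _ (by intro a; simp [π]), hB, map_sub, hm, push_mono,
      push_mono, push_mono, mul_assoc, mono_mul]
    simp only [π, AddMonoidHom.mk'_apply, Prod.mk_add_mk, add_zero, zero_add, sub_add_cancel, dxy]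
    ring
  rw [← e, ← this]
  refine congrArg (fun F => linG k F (ω * B ^ 2 * m)) ?_
  funext a
  module

end Families

end

end Pool.Agent.Lib.MP_4da284_al
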