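import Pool.Agent.Lib.MP_4da284_al.Rigid

namespace Pool.Agent.Lib.MP_4da284_al

open MvPolynomial

noncomputable section

section Lift

variable {k : Type*} [Field k]

open scoped IsMulCommutative in
theorem exists_lift {σ L A : Type*} [CommRing L] [Algebra k L] [Ring A] [Algebra k A]
    (f : L →ₐ[k] A) (a : σ → A) (h1 : ∀ i j, a i * a j = a j * a i)
    (h2 : ∀ g i, f g * a i = a i * f g) :
    ∃ Φ : MvPolynomial σ L →ₐ[k] A, (∀ g, Φ (C g) = f g) ∧ ∀ i, Φ (X i) = a i := by
  let S : Set A := Set.range f ∪ Set.range a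
  have hS : ∀ x ∈ S, ∀ y ∈ S, x * y = y * x := by
    rintro x (⟨g, rfl⟩ | ⟨i, rfl⟩) y (⟨g', rfl⟩ | ⟨j, rfl⟩)
    · rw [← map_mul, ← map_mul, mul_comm]
    · exact h2 _ _
    · exact (h2 _ _).symm
    · exact h1 _ _
  have := Algebra.isMulCommutative_adjoin k hS
  let f' : L →ₐ[k] Algebra.adjoin k S :=
    f.codRestrict _ (fun g => Algebra.subset_adjoin (Or.inl ⟨g, rfl⟩))
  let a' : σ → Algebra.adjoin k S := fun i => ⟨a i, Algebra.subset_adjoin (Or.inr ⟨i, rfl⟩)⟩
  refine ⟨(Algebra.adjoin k S).val.comp (aevalTower f' a'), ?_, ?_⟩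
  · intro g; simp [f']
  · intro i; simp [a']

end Lift

section Cmap

variable {k V C₀ : Type*} [Field k] [CommRing C₀] [Algebra k C₀]

def cmap (δ : C₀ →ₗ[k] C₀) : MvPolynomial V C₀ →ₗ[k] MvPolynomial V C₀ :=
  (AddMonoidAlgebra.coeffLinearEquiv k).symm.toLinearMap ∘ₗ Finsupp.mapRange.linearMap δ ∘ₗ
    (AddMonoidAlgebra.coeffLinearEquiv k).toLinearMap

@[simp] theorem coeff_cmap (δ : C₀ →ₗ[k] C₀) (p : MvPolynomial V C₀) (e : V →₀ ℕ) :
    coeff e (cmap δ p) = δ (coeff e p) := rfl

theorem cmap_monomial (δ : C₀ →ₗ[k] C₀) (b : V →₀ ℕ) (g : C₀) :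
    cmap δ (monomial b g) = monomial b (δ g) := by
  classical
  ext e
  simp only [coeff_cmap, coeff_monomial]
  split_ifs <;> simp

theorem cmap_mul (δ : Derivation k C₀ C₀) (p q : MvPolynomial V C₀) :
    cmap δ.toLinearMap (p * q) = p * cmap δ.toLinearMap q + cmap δ.toLinearMap p * q := by
  classical
  ext e
  simp only [coeff_cmap, coeff_mul, coeff_add, map_sum, ← Finset.sum_add_distrib]
  refine Finset.sum_congr rfl fun x _ => ?_
  simp [Derivation.leibniz, mul_comm]

theorem cmap_C (δ : C₀ →ₗ[k] C₀) (g : C₀) : cmap δ (C g : MvPolynomial V C₀) = C (δ g) :=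
  cmap_monomial δ 0 g

theorem cmap_X (δ : Derivation k C₀ C₀) (j : V) :
    cmap δ.toLinearMap (X j : MvPolynomial V C₀) = 0 := by
  rw [X, cmap_monomial]; simp

def cder (δ : Derivation k C₀ C₀) : Derivation k (MvPolynomial V C₀) (MvPolynomial V C₀) :=
  Derivation.mk' (cmap δ.toLinearMap) (fun p q => by
    rw [cmap_mul, smul_eq_mul, smul_eq_mul, mul_comm q])

theorem cder_apply (δ : Derivation k C₀ C₀) (p : MvPolynomial V C₀) :
    cder δ p = cmap δ.toLinearMap p := rfl

def mulC : C₀ →ₐ[k] Module.End k (MvPolynomial V C₀) :=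
  (Algebra.lmul k (MvPolynomial V C₀)).comp (IsScalarTower.toAlgHom k C₀ (MvPolynomial V C₀))

@[simp] theorem mulC_apply (g : C₀) (p : MvPolynomial V C₀) : mulC (k := k) g p = C g * p := rfl

def momOp (δ : V → Derivation k C₀ C₀) (j : V) : Module.End k (MvPolynomial V C₀) :=
  LinearMap.mulLeft k (X j) + cmap (δ j).toLinearMap

theorem momOp_apply (δ : V → Derivation k C₀ C₀) (j : V) (p : MvPolynomial V C₀) :
    momOp δ j p = X j * p + cmap (δ j).toLinearMap p := rfl

theorem momOp_mulC (δ : V → Derivation k C₀ C₀) (j : V) (g : C₀) :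
    momOp δ j * mulC g = mulC g * momOp δ j + mulC (δ j g) := by
  refine LinearMap.ext fun p => ?_
  simp only [Module.End.mul_apply, LinearMap.add_apply, momOp_apply, mulC_apply, cmap_mul, cmap_C]
  simp only [Derivation.coeFn_coe]
  ring

theorem momOp_comm (δ : V → Derivation k C₀ C₀) (i j : V)
    (h : ∀ g, δ i (δ j g) = δ j (δ i g)) :
    momOp δ i * momOp δ j = momOp δ j * momOp δ i := by
  refine LinearMap.ext fun p => ?_
  have : cmap (δ i).toLinearMap (cmap (δ j).toLinearMap p) =
      cmap (δ j).toLinearMap (cmap (δ i).toLinearMap p) := by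
    ext e; simp [h]
  simp only [Module.End.mul_apply, momOp_apply, map_add, cmap_mul, cmap_X, this]
  ring

end Cmap

section Filtration

variable {k V C₀ : Type*} [Field k] [CommRing C₀] [Algebra k C₀] (m : MonomialOrder V)

variable (k C₀) in
def filLE (s : m.syn) : Submodule k (MvPolynomial V C₀) where
  carrier := {q | ∀ e, coeff e q ≠ 0 → m.toSyn e ≤ s}
  add_mem' := by
    intro p q hp hq e he
    rw [coeff_add] at he
    by_cases h : coeff e p = 0
    · exact hq e (by simpa [h] using he)
    · exact hp e h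
  zero_mem' := by intro e he; simp at he
  smul_mem' := by
    intro r p hp e he
    exact hp e (fun h => he (by rw [coeff_smul, h, smul_zero]))

variable (k C₀) in
def filLT (s : m.syn) : Submodule k (MvPolynomial V C₀) where
  carrier := {q | ∀ e, coeff e q ≠ 0 → m.toSyn e < s}
  add_mem' := by
    intro p q hp hq e he
    rw [coeff_add] at he
    by_cases h : coeff e p = 0
    · exact hq e (by simpa [h] using he)
    · exact hp e h
  zero_mem' := by intro e he; simp at he
  smul_mem' := by
    intro r p hp e he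
    exact hp e (fun h => he (by rw [coeff_smul, h, smul_zero]))

theorem coeff_mul_ne' {p q : MvPolynomial V C₀} {e : V →₀ ℕ} (h : coeff e (p * q) ≠ 0) :
    ∃ a b, coeff a p ≠ 0 ∧ coeff b q ≠ 0 ∧ a + b = e := by
  classical
  obtain ⟨a, ha, b, hb, e⟩ := Finset.mem_add.mp (support_mul p q (mem_support_iff.mpr h))
  exact ⟨a, b, mem_support_iff.mp ha, mem_support_iff.mp hb, e⟩

variable {m}

theorem mul_LE_LE {p q : MvPolynomial V C₀} {s t : m.syn} (hp : p ∈ filLE k C₀ m s)
    (hq : q ∈ filLE k C₀ m t) : p * q ∈ filLE k C₀ m (s + t) := by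
  intro e he
  obtain ⟨a, b, ha, hb, rfl⟩ := coeff_mul_ne' he
  rw [map_add]
  exact add_le_add (hp a ha) (hq b hb)

theorem mul_LE_LT {p q : MvPolynomial V C₀} {s t : m.syn} (hp : p ∈ filLE k C₀ m s)
    (hq : q ∈ filLT k C₀ m t) : p * q ∈ filLT k C₀ m (s + t) := by
  intro e he
  obtain ⟨a, b, ha, hb, rfl⟩ := coeff_mul_ne' he
  rw [map_add]
  exact add_lt_add_of_le_of_lt (hp a ha) (hq b hb)

theorem monomial_LE (b : V →₀ ℕ) (g : C₀) : monomial b g ∈ filLE k C₀ m (m.toSyn b) := by
  classical
  intro e he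
  rw [coeff_monomial] at he
  split_ifs at he with h
  · rw [h]
  · exact absurd rfl he

theorem self_LE (p : MvPolynomial V C₀) : p ∈ filLE k C₀ m (m.toSyn (m.degree p)) :=
  fun _ he => m.le_degree (mem_support_iff.mpr he)

theorem cmap_LE (δ : C₀ →ₗ[k] C₀) {p : MvPolynomial V C₀} {s : m.syn} (hp : p ∈ filLE k C₀ m s) :
    cmap δ p ∈ filLE k C₀ m s :=
  fun e he => hp e (fun h => he (by rw [coeff_cmap, h, map_zero]))

theorem LT_LE {p : MvPolynomial V C₀} {s : m.syn} (hp : p ∈ filLT k C₀ m s) :
    p ∈ filLE k C₀ m s := fun e he => (hp e he).le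

theorem LE_LT {p : MvPolynomial V C₀} {s t : m.syn} (hp : p ∈ filLE k C₀ m s) (h : s < t) :
    p ∈ filLT k C₀ m t := fun e he => (hp e he).trans_lt h

theorem LT_mono {p : MvPolynomial V C₀} {s t : m.syn} (hp : p ∈ filLT k C₀ m s) (h : s ≤ t) :
    p ∈ filLT k C₀ m t := fun e he => (hp e he).trans_le h

end Filtration

theorem finsupp_ind {V : Type*} {P : (V →₀ ℕ) → Prop} (h0 : P 0)
    (hs : ∀ b j, P b → P (Finsupp.single j 1 + b)) (b : V →₀ ℕ) : P b := by
  induction b using Finsupp.induction with
  | zero => exact h0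
  | single_add a n f _ _ ih =>
    clear * - ih hs
    induction n with
    | zero => simpa using ih
    | succ n ihn =>
      have := hs _ a ihn
      rwa [← add_assoc, ← Finsupp.single_add, add_comm 1 n] at this

theorem rigid_of_diffOp {k V C₀ A : Type*} [Field k] [CommRing C₀] [IsDomain C₀] [Algebra k C₀]
    [Ring A] [Algebra k A] (m : MonomialOrder V) (hC : Rigid k C₀)
    (δ : V → Derivation k C₀ C₀) (pos : C₀ →ₐ[k] A) (D : V → A)
    (hDD : ∀ i j, D i * D j = D j * D i)
    (hDp : ∀ j g, D j * pos g = pos g * D j + pos (δ j g))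
    (hgen : Algebra.adjoin k (Set.range pos ∪ Set.range D) = ⊤)
    (act : A →ₐ[k] Module.End k (MvPolynomial V C₀))
    (hap : ∀ g, act (pos g) = mulC g) (haD : ∀ j, act (D j) = momOp δ j) : Rigid k A := by
  classical
  obtain ⟨mom, -, hmom⟩ := exists_lift (σ := V) (Algebra.ofId k A) D hDD (fun g i => by
    simpa using Algebra.commutes g (D i))
  let N : MvPolynomial V C₀ →ₗ[k] A :=
    (Finsupp.lsum k (fun b : V →₀ ℕ =>
      (LinearMap.mulRight k (mom (monomial b 1))) ∘ₗ pos.toLinearMap)) ∘ₗ
      (AddMonoidAlgebra.coeffLinearEquiv k).toLinearMap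
  have hN : ∀ b g, N (monomial b g) = pos g * mom (monomial b 1) := by
    intro b g
    simp [N, monomial]
  have hmom' : ∀ b j, mom (monomial (Finsupp.single j 1 + b) 1) = D j * mom (monomial b 1) := by
    intro b j
    rw [monomial_single_add, pow_one, map_mul, hmom]
  have hNact : ∀ P : A, ∀ r, N (act P r) = P * N r := by
    intro P
    have hP : P ∈ Algebra.adjoin k (Set.range pos ∪ Set.range D) := by rw [hgen]; trivial
    induction hP using Algebra.adjoin_induction with
    | mem x hx =>
      intro r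
      rcases hx with ⟨g, rfl⟩ | ⟨j, rfl⟩
      · induction r using MvPolynomial.induction_on' with
        | monomial b h => rw [hap, mulC_apply, C_mul_monomial, hN, hN, map_mul, mul_assoc]
        | add p q hp hq => rw [map_add, map_add, hp, hq, map_add, mul_add]
      · induction r using MvPolynomial.induction_on' with
        | monomial b h =>
          have : X j * monomial b h = monomial (Finsupp.single j 1 + b) h := by
            rw [monomial_single_add, pow_one]
          rw [haD, momOp_apply, cmap_monomial, this, map_add, hN, hN, hN, hmom', ← mul_assoc,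
            ← mul_assoc, hDp, add_mul]
          rfl
        | add p q hp hq => rw [map_add, map_add, hp, hq, map_add, mul_add]
    | algebraMap c =>
      intro r
      rw [AlgHom.commutes, Module.algebraMap_end_apply, map_smul, Algebra.smul_def]
    | add x y _ _ hx hy => intro r; rw [map_add, LinearMap.add_apply, map_add, hx, hy, add_mul]
    | mul x y _ _ hx hy => intro r; rw [map_mul, Module.End.mul_apply, hx, hy, mul_assoc]
  let ev : A →ₗ[k] MvPolynomial V C₀ :=
    (LinearMap.applyₗ (1 : MvPolynomial V C₀)) ∘ₗ act.toLinearMap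
  have hev : ∀ P, ev P = act P 1 := fun P => rfl
  have hNev : ∀ P, N (ev P) = P := by
    intro P
    rw [hev, hNact, one_def, hN, ← one_def, map_one, map_one, mul_one, mul_one]
  have hinj : Function.Injective ev := Function.LeftInverse.injective hNev
  have hA : ∀ b : V →₀ ℕ, ∀ (s : m.syn) (r : MvPolynomial V C₀), r ∈ filLE k C₀ m s →
      act (mom (monomial b 1)) r - monomial b 1 * r ∈ filLT k C₀ m (m.toSyn b + s) := by
    intro b
    induction b using finsupp_ind with
    | h0 =>
      intro s r _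
      rw [← one_def, ← one_def, map_one, map_one, Module.End.one_apply, one_mul, sub_self]
      exact zero_mem _
    | hs b j ih =>
      intro s r hr
      have h1 := ih s r hr
      have hX : (X j : MvPolynomial V C₀) ∈ filLE k C₀ m (m.toSyn (Finsupp.single j 1)) :=
        monomial_LE _ _
      have hpos : m.toSyn b + s < m.toSyn (Finsupp.single j 1 + b) + s := by
        rw [map_add, add_assoc]
        apply lt_add_of_pos_left
        rw [m.toSyn_lt_iff_ne_zero, Ne, m.toSyn_eq_zero_iff]
        simp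
      have h2 : act (mom (monomial b 1)) r ∈ filLE k C₀ m (m.toSyn b + s) := by
        have := add_mem (LT_LE h1) (mul_LE_LE (monomial_LE b (1 : C₀)) hr)
        simpa using this
      have h3 := mul_LE_LT hX h1
      rw [← add_assoc, ← map_add] at h3
      have h4 := LE_LT (cmap_LE (δ j).toLinearMap h2) hpos
      have := add_mem h3 h4
      convert this using 1
      rw [hmom', map_mul, Module.End.mul_apply, haD, momOp_apply, monomial_single_add, pow_one]
      ring
  have hB : ∀ p r : MvPolynomial V C₀,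
      act (N p) r - p * r ∈ filLT k C₀ m (m.toSyn (m.degree p) + m.toSyn (m.degree r)) := by
    intro p r
    have hp : p = ∑ b ∈ p.support, monomial b (coeff b p) := p.as_sum
    have : act (N p) r - p * r = ∑ b ∈ p.support,
        C (coeff b p) * (act (mom (monomial b 1)) r - monomial b 1 * r) := by
      conv_lhs => rw [hp]
      rw [map_sum, map_sum, LinearMap.sum_apply, Finset.sum_mul, ← Finset.sum_sub_distrib]
      refine Finset.sum_congr rfl fun b _ => ?_
      rw [hN, map_mul, Module.End.mul_apply, hap, mulC_apply, mul_sub, ← mul_assoc,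
        C_mul_monomial, mul_one]
    rw [this]
    refine Submodule.sum_mem _ fun b hb => ?_
    have h1 := mul_LE_LT (monomial_LE (k := k) (m := m) 0 (coeff b p)) (hA b _ r (self_LE r))
    refine LT_mono h1 ?_
    rw [map_zero, zero_add]
    exact add_le_add_left (m.le_degree hb) _
  refine Rigid.step m hC ev hinj fun P Q hP hQ => ?_
  have hP' : ev P ≠ 0 := fun h => hP (hinj (by rw [h, map_zero]))
  have hQ' : ev Q ≠ 0 := fun h => hQ (hinj (by rw [h, map_zero]))
  have h1 := hB (ev P) (ev Q)
  rw [hNev, ← map_add, ← m.degree_mul hP' hQ'] at h1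
  have h2 : ev (P * Q) = ev P * ev Q + (act P (ev Q) - ev P * ev Q) := by
    rw [hev, map_mul, Module.End.mul_apply, ← hev]; ring
  rw [← m.degree_mul hP' hQ', ← m.leadingCoeff_mul, h2]
  by_cases h0 : act P (ev Q) - ev P * ev Q = 0
  · rw [h0, add_zero]; exact ⟨rfl, rfl⟩
  · have h3 := h1 _ (mem_support_iff.mp (m.degree_mem_support h0))
    exact ⟨m.degree_add_of_lt h3, m.leadingCoeff_add_of_lt h3⟩

end

end Pool.Agent.Lib.MP_4da284_al
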