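import Pool.Agent.Lib.MP_4da284_al.H44ThmA

namespace Pool.Agent.Lib.MP_4da284_al.Q2

open Q1

noncomputable section

universe u

section Base

open MvPolynomial

/- the discriminant times the product of the variables -/
def dlt (k I : Type*) [Field k] [Fintype I] [DecidableEq I] : MvPolynomial I k :=
  disc k (id : I → I) * ∏ i, X i

/- The coordinate ring of the configuration space of distinct nonzero points. -/
structure Base2 (k : Type*) [Field k] {I A : Type*} [Fintype I] [DecidableEq I] [CommRing A]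
    [Algebra k A] (t : I → A) (d : I → Derivation k A A) : Prop where
  hd : ∀ i j, d i (t j) = if i = j then 1 else 0
  udlt : IsUnit (aeval t (dlt k I))
  surj : ∀ a, ∃ (r : ℕ) (a0 : MvPolynomial I k), aeval t (dlt k I) ^ r * a = aeval t a0
  inj : Function.Injective (aeval t : MvPolynomial I k →ₐ[k] A)

variable {k : Type u} [Field k]

theorem dlt_ne_zero {I : Type*} [Fintype I] [DecidableEq I] : dlt k I ≠ 0 :=
  mul_ne_zero disc_ne_zero (Finset.prod_ne_zero_iff.2 fun i _ => X_ne_zero i)

theorem exists_base2 (k : Type u) [Field k] (I : Type) [Fintype I] [DecidableEq I] :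
    ∃ (A : Type u) (_ : CommRing A) (_ : Algebra k A) (t : I → A) (d : I → Derivation k A A),
      Base2 k t d := by
  let A := Localization.Away (dlt k I)
  let t : I → A := fun i => algebraMap (MvPolynomial I k) A (X i)
  have ht : ∀ a, aeval t a = algebraMap (MvPolynomial I k) A a := by
    intro a
    have : (aeval t : MvPolynomial I k →ₐ[k] A) = IsScalarTower.toAlgHom k (MvPolynomial I k) A :=
      MvPolynomial.algHom_ext fun i => by simp [t]
    rw [this]; rfl
  have hu : IsUnit (algebraMap (MvPolynomial I k) A (dlt k I)) :=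
    IsLocalization.Away.algebraMap_isUnit _
  have hder : ∀ i, ∃ δ : Derivation k A A, ∀ j, δ (t j) = if i = j then 1 else 0 := by
    intro i
    let φ : MvPolynomial I k →ₐ[k] TrivSqZeroExt A A :=
      aeval fun j => TrivSqZeroExt.inl (t j) + TrivSqZeroExt.inr (if i = j then 1 else 0)
    have hφ : ∀ a, (φ a).fst = algebraMap (MvPolynomial I k) A a := by
      intro a
      have : (TrivSqZeroExt.fstHom k A A).comp φ = IsScalarTower.toAlgHom k (MvPolynomial I k) A :=
        MvPolynomial.algHom_ext fun i => by simp [φ, t]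
      exact DFunLike.congr_fun this a
    have hφu : ∀ y : Submonoid.powers (dlt k I), IsUnit (φ y) := by
      intro y
      rw [TrivSqZeroExt.isUnit_iff_isUnit_fst, hφ]
      exact IsLocalization.map_units A y
    let ψ : A →ₐ[k] TrivSqZeroExt A A := IsLocalization.liftAlgHom hφu
    have hψ0 : ∀ a, ψ (algebraMap (MvPolynomial I k) A a) = φ a := fun a =>
      IsLocalization.lift_eq hφu a
    have hψ : ∀ a, (ψ a).fst = a := by
      intro a
      have : ((TrivSqZeroExt.fstHom k A A).comp ψ).toRingHom = RingHom.id A := by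
        refine IsLocalization.ringHom_ext (Submonoid.powers (dlt k I)) ?_
        refine RingHom.ext fun a => ?_
        change (ψ (algebraMap (MvPolynomial I k) A a)).fst = _
        rw [hψ0, hφ]; rfl
      exact DFunLike.congr_fun this a
    refine ⟨Derivation.mk' (((TrivSqZeroExt.sndHom A A).restrictScalars k).comp ψ.toLinearMap) ?_,
      ?_⟩
    · intro a b
      change (ψ (a * b)).snd = a • (ψ b).snd + b • (ψ a).snd
      rw [map_mul, TrivSqZeroExt.snd_mul, hψ, hψ, op_smul_eq_smul]
    · intro j
      change (ψ (algebraMap (MvPolynomial I k) A (X j))).snd = _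
      rw [hψ0]; simp [φ]
  choose d hd using hder
  refine ⟨A, inferInstance, inferInstance, t, d, hd, by rw [ht]; exact hu, ?_, ?_⟩
  · intro a
    obtain ⟨r, a0, h⟩ := IsLocalization.Away.surj (dlt k I) a
    exact ⟨r, a0, by rw [ht, ht, mul_comm, h]⟩
  · intro a b h
    rw [ht, ht] at h
    exact IsLocalization.injective A
      (powers_le_nonZeroDivisors_of_noZeroDivisors (dlt_ne_zero (k := k) (I := I))) h

variable {I A : Type*} [Fintype I] [DecidableEq I] [CommRing A] [Algebra k A]
  {t : I → A} {d : I → Derivation k A A}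

theorem Base2.unit (hB : Base2 k t d) (i j : I) (hij : i ≠ j) : IsUnit (t i - t j) := by
  have := map_dvd (aeval t : MvPolynomial I k →ₐ[k] A)
    ((dvd_disc (A := k) (id : I → I) hij).mul_right (∏ i, X i))
  rw [map_sub, aeval_X, aeval_X] at this
  exact isUnit_of_dvd_unit this hB.udlt

theorem Base2.tunit (hB : Base2 k t d) (i : I) : IsUnit (t i) := by
  have := map_dvd (aeval t : MvPolynomial I k →ₐ[k] A)
    ((Finset.dvd_prod_of_mem (fun i => (X i : MvPolynomial I k)) (Finset.mem_univ i)).mul_left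
      (disc k (id : I → I)))
  rw [aeval_X] at this
  exact isUnit_of_dvd_unit this hB.udlt

theorem Base2.der_ext (hB : Base2 k t d) (δ : Derivation k A A) (h : ∀ i, δ (t i) = 0) : δ = 0 := by
  have h0 : ∀ a0 : MvPolynomial I k, δ (aeval t a0) = 0 := by
    intro a0
    induction a0 using MvPolynomial.induction_on with
    | C a => simp
    | add p q hp hq => simp only [map_add, hp, hq, add_zero]
    | mul_X p w hp => simp [hp, h]
  ext a
  obtain ⟨r, a0, ha⟩ := hB.surj a
  have := congrArg δ ha
  rw [h0, Derivation.leibniz, ← map_pow, h0, smul_zero, add_zero, smul_eq_mul, map_pow] at this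
  exact ((hB.udlt.pow r).mul_right_eq_zero).1 this

theorem Base2.Df_t (hB : Base2 k t d) (f : Polynomial k) (j : I) :
    Df t d f (t j) = Polynomial.aeval (t j) f := by
  simp [Df_apply, hB.hd]

theorem Base2.Df_br (hB : Base2 k t d) (f g : Polynomial k) (a : A) :
    Df t d f (Df t d g a) - Df t d g (Df t d f a) =
      Df t d (f * Polynomial.derivative g - Polynomial.derivative f * g) a := by
  have := hB.der_ext (⁅Df t d f, Df t d g⁆ -
    Df t d (f * Polynomial.derivative g - Polynomial.derivative f * g)) (by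
      intro i
      simp only [Derivation.sub_apply, Derivation.commutator_apply, hB.Df_t, Derivation.map_aeval,
        smul_eq_mul, map_sub, map_mul]
      ring)
  rw [sub_eq_zero] at this
  rw [← this, Derivation.commutator_apply]

theorem Base2.exists_j (hB : Base2 k t d) : ∃ j0 : LP k I →ₐ[k] A, Function.Injective j0 ∧
    (∀ i, j0 (tt k i) = t i) ∧
    ∀ a, ∃ (r : ℕ) (a0 : LP k I), j0 (psi k (disc k id)) ^ r * a = j0 a0 := by
  let f : Multiplicative (I → ℤ) →* Aˣ :=
    { toFun := fun β => ∏ i, (hB.tunit i).unit ^ β.toAdd i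
      map_one' := by simp
      map_mul' := fun β γ => by simp [zpow_add, Finset.prod_mul_distrib] }
  let j0 : LP k I →ₐ[k] A := AddMonoidAlgebra.lift k A (I → ℤ) ((Units.coeHom A).comp f)
  have h1 : ∀ i, j0 (tt k i) = t i := by
    intro i
    have : f (Multiplicative.ofAdd (Pi.single i 1)) = (hB.tunit i).unit := by
      change ∏ j, (hB.tunit j).unit ^ (Pi.single i 1 : I → ℤ) j = _
      rw [Finset.prod_eq_single i]
      · simp
      · intro j _ hj; simp [hj]
      · simp
    simp [j0, tt, mono, this]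
  have h2 : ∀ F, j0 (psi k F) = aeval t F := by
    intro F
    have : j0.comp (psi k) = aeval t := MvPolynomial.algHom_ext fun i => by simp [psi_X, h1]
    exact DFunLike.congr_fun this F
  refine ⟨j0, (injective_iff_map_eq_zero _).2 fun G hG => ?_, h1, fun a => ?_⟩
  · obtain ⟨s, G1, hG1⟩ := exists_clear G
    have h3 : G1 = 0 := hB.inj (by rw [← h2, hG1, map_mul, hG, mul_zero, map_zero])
    rwa [h3, map_zero, eq_comm, (isUnit_psi_prod.pow s).mul_right_eq_zero] at hG1
  · obtain ⟨r, a0, ha⟩ := hB.surj a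
    obtain ⟨w, hw⟩ := (isUnit_psi_prod (k := k) (I := I)).exists_left_inv
    refine ⟨r, w ^ r * psi k a0, ?_⟩
    have h3 : w * psi k (dlt k I) = psi k (disc k id) := by
      rw [dlt, map_mul, mul_left_comm, hw, mul_one]
    rw [map_mul, h2 a0, ← ha, ← h2, ← h3, map_mul, mul_pow, map_pow, mul_assoc]

theorem sep_perm2 {V : Type*} [AddCommGroup V] [Module k V] (hB : Base2 k t d) (ι : A →ₐ[k] Module.End k V)
    (S : Equiv.Perm I → Module.End k V) (hS : ∀ σ, S σ ∈ adNil ι) (w : V)
    (h : ∀ p : MvPolynomial I k,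
      ∑ σ : Equiv.Perm I, S σ (ι (MvPolynomial.aeval (fun i => t (σ i)) p) w) = 0) (a : A) :
    S 1 (ι a w) = 0 := by
  let L : I → Module.End k (MvPolynomial I k →ₗ[k] V) := fun i =>
    LinearMap.llcomp k _ V V (ι (t i))
  let Rr : I → Module.End k (MvPolynomial I k →ₗ[k] V) := fun i =>
    LinearMap.lcomp k V (LinearMap.mulLeft k (MvPolynomial.X i))
  let Tm : Equiv.Perm I → Module.End k V → (MvPolynomial I k →ₗ[k] V) := fun σ x =>
    x ∘ₗ LinearMap.applyₗ w ∘ₗ ι.toLinearMap ∘ₗ
      (MvPolynomial.aeval (fun i => t (σ i)) : MvPolynomial I k →ₐ[k] A).toLinearMap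
  have hTm : ∀ σ x p, Tm σ x p = x (ι (MvPolynomial.aeval (fun i => t (σ i)) p) w) :=
    fun _ _ _ => rfl
  have hcomm : ∀ a b : A, ι a * ι b = ι b * ι a := fun a b => by
    rw [← map_mul, mul_comm, map_mul]
  have h1 := sep L Rr
    (fun a b => LinearMap.ext fun T => LinearMap.ext fun p =>
      LinearMap.congr_fun (hcomm (t a) (t b)) (T p))
    (fun a b => LinearMap.ext fun T => LinearMap.ext fun p => rfl)
    (fun a b => LinearMap.ext fun T => LinearMap.ext fun p => by
      simp [Rr, mul_left_comm])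
    (fun a b hab T T' hT => LinearMap.ext fun p => unit_inj ι (hB.unit a b hab) (by
      have := LinearMap.congr_fun hT p
      simpa [L] using this))
    (fun σ : Equiv.Perm I => (σ : I → I)) DFunLike.coe_injective Finset.univ
    (fun σ => Tm σ (S σ)) (by
      intro σ _ m
      obtain ⟨r, hr⟩ := hS σ (t (σ m))
      refine ⟨r, ?_⟩
      have : ∀ (r : ℕ) x, ((L (σ m) - Rr m) ^ r) (Tm σ x) = Tm σ ((ad k (ι (t (σ m))) ^ r) x) := by
        intro r
        induction r with
        | zero => intro x; rfl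
        | succ r ih =>
          intro x
          rw [pow_succ, pow_succ, Module.End.mul_apply, Module.End.mul_apply, ← ih]
          congr 1
          refine LinearMap.ext fun p => ?_
          simp [L, Rr, hTm, ad_apply]
      rw [this, hr]
      exact LinearMap.ext fun p => rfl) (by
      refine LinearMap.ext fun p => ?_
      rw [LinearMap.sum_apply]
      exact h p) 1 (Finset.mem_univ _)
  have h2 : ∀ p : MvPolynomial I k, S 1 (ι (MvPolynomial.aeval t p) w) = 0 :=
    fun p => LinearMap.congr_fun h1 p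
  set Δ := MvPolynomial.aeval t (dlt k I) with hΔ
  obtain ⟨r, hr⟩ := hS 1 Δ
  generalize S 1 = x at h2 hr
  induction r generalizing x a with
  | zero =>
    simp only [pow_zero, Module.End.one_apply] at hr
    simp [hr]
  | succ r ih =>
    rw [pow_succ, Module.End.mul_apply] at hr
    have h3 : ∀ a, ad k (ι Δ) x (ι a w) = 0 := fun a => ih a _ (by
      intro p
      have := h2 (dlt k I * p)
      rw [map_mul, map_mul, ← hΔ] at this
      simp only [ad_apply, LinearMap.sub_apply, Module.End.mul_apply, h2, map_zero, zero_sub,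
        neg_eq_zero]
      exact this) hr
    have h4 : ∀ (s : ℕ) a, ι (Δ ^ s) (x (ι a w)) = x (ι (Δ ^ s * a) w) := by
      intro s
      induction s with
      | zero => simp
      | succ s ih' =>
        intro a
        have := h3 (Δ ^ s * a)
        simp only [ad_apply, LinearMap.sub_apply, Module.End.mul_apply, sub_eq_zero] at this
        rw [pow_succ', map_mul, Module.End.mul_apply, ih', this, mul_assoc, map_mul ι Δ,
          Module.End.mul_apply]
    obtain ⟨s, a0, ha⟩ := hB.surj a
    refine unit_inj ι (hB.udlt.pow s) ?_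
    rw [h4, ha, h2, map_zero]

end Base

section Gam

open Polynomial

variable {k A R I : Type*} [Field k] [CommRing A] [Algebra k A] [Ring R] [Algebra k R]

/- polynomial approximations of the powers of the variable modulo `p ^ N` -/
structure Gam (k : Type*) {A : Type*} [Field k] [CommRing A] [Algebra k A] (p : A[X]) (N : ℕ)
    (γ : ℤ → A[X]) : Prop where
  nat : ∀ n : ℕ, γ n = X ^ n
  mul : ∀ a b, p ^ N ∣ γ a * γ b - γ (a + b)
  der : ∀ z, p ^ N ∣ derivative (γ z) - (z : A[X]) * γ (z - 1)
  pd : ∀ (δ : Derivation k A A) z, p ^ N ∣ pder δ (γ z)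

theorem exists_gam {p : A[X]} (hp : IsCoprime X p) (N : ℕ) : ∃ γ : ℤ → A[X], Gam k p N γ := by
  obtain ⟨η, b, hη⟩ := hp.pow_right (n := N + 1)
  let q : A[X] →+* A[X] ⧸ Ideal.span {p ^ N} := Ideal.Quotient.mk _
  have hq : ∀ G, q G = 0 ↔ p ^ N ∣ G := fun G =>
    Ideal.Quotient.eq_zero_iff_mem.trans Ideal.mem_span_singleton
  have hp0 : q p ^ N = 0 := by rw [← map_pow, hq]
  have h1 : q η * q X = 1 := by
    have := congrArg q hη
    rwa [map_add, map_mul, map_mul, map_pow, pow_succ, hp0, zero_mul, mul_zero, add_zero,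
      map_one] at this
  have h2 : ∀ δ : Derivation k A[X] A[X], q (δ η) = -(q η ^ 2 * q (δ X)) := by
    intro δ
    have := congrArg (fun G => q (δ G)) hη
    simp only [map_add, Derivation.leibniz, Derivation.leibniz_pow, smul_eq_mul, nsmul_eq_mul,
      Nat.add_sub_cancel, map_mul, map_pow, hp0, Derivation.map_one_eq_zero,
      map_zero] at this
    rw [pow_succ, hp0] at this
    linear_combination q η * this - q (δ η) * h1
  let u : (A[X] ⧸ Ideal.span {p ^ N})ˣ := ⟨q X, q η, by rw [mul_comm, h1], h1⟩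
  obtain ⟨γ, g1, g2⟩ : ∃ γ : ℤ → A[X], (∀ n : ℕ, γ n = X ^ n) ∧ ∀ n : ℕ, γ (-n) = η ^ n :=
    ⟨fun z => X ^ z.toNat * η ^ (-z).toNat, fun n => by simp, fun n => by simp⟩
  have h3 : ∀ z, q (γ z) = ↑(u ^ z) := by
    intro z
    obtain ⟨n, rfl | rfl⟩ := z.eq_nat_or_neg
    · simp [g1, u]
    · rw [g2, map_pow, zpow_neg, zpow_natCast, ← inv_pow, Units.val_pow_eq_pow_val]
      rfl
  have h4 : ∀ (δ : Derivation k A[X] A[X]) z, q (δ (γ z)) = z * q (γ (z - 1)) * q (δ X) := by
    intro δ z
    rcases lt_trichotomy z 0 with h | rfl | h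
    · obtain ⟨n, rfl⟩ : ∃ n : ℕ, z = -(n + 1 : ℕ) := ⟨(-z - 1).toNat, by omega⟩
      rw [show (-(n + 1 : ℕ) - 1 : ℤ) = -(n + 2 : ℕ) by omega, g2, g2, Derivation.leibniz_pow]
      simp only [smul_eq_mul, nsmul_eq_mul, map_mul, map_pow, h2, map_natCast, Nat.add_sub_cancel]
      push_cast; ring
    · have := g1 0
      rw [Nat.cast_zero] at this
      simp [this]
    · obtain ⟨n, rfl⟩ : ∃ n : ℕ, z = (n + 1 : ℕ) := ⟨(z - 1).toNat, by omega⟩
      rw [show ((n + 1 : ℕ) - 1 : ℤ) = n by omega, g1, g1, Derivation.leibniz_pow]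
      simp only [smul_eq_mul, nsmul_eq_mul, map_mul, map_pow, map_natCast, Nat.add_sub_cancel]
      push_cast; ring
  refine ⟨γ, g1, fun a b => ?_, fun z => ?_, fun δ z => ?_⟩
  · rw [← hq, map_sub, map_mul, h3, h3, h3, zpow_add, Units.val_mul, sub_self]
  · have := h4 ((derivative' : Derivation A A[X] A[X]).restrictScalars k) z
    rw [← hq, map_sub, map_mul, map_intCast, sub_eq_zero]
    simpa using this
  · rw [← hq, h4, pder_X, map_zero, mul_zero]

theorem der_eval (δ : Derivation k A A) (s : A) (G : A[X]) :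
    δ (G.eval s) = (pder δ G).eval s + (derivative G).eval s * δ s := by
  induction G using Polynomial.induction_on' with
  | monomial n a =>
    rw [pder_monomial]
    simp only [eval_monomial, Derivation.leibniz, Derivation.leibniz_pow, derivative_monomial,
      smul_eq_mul, nsmul_eq_mul]
    ring
  | add p q hp hq => simp only [map_add, eval_add, hp, hq]; ring

theorem pder_taylor (δ : Derivation k A A) {s : A} (hs : δ s = 0) (G : A[X]) :
    pder δ (taylor s G) = taylor s (pder δ G) := by
  induction G using Polynomial.induction_on' with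
  | monomial n a =>
    rw [pder_monomial, taylor_monomial, taylor_monomial, Derivation.leibniz,
      Derivation.leibniz_pow, map_add, pder_X, pder_C, pder_C, hs]
    simp [mul_comm]
  | add p q hp hq => simp only [map_add, hp, hq]

theorem phi1_kill (ι : A →ₐ[k] R) (s : A) (D : ℕ → R) {N : ℕ} (hN : ∀ α, N ≤ α → D α = 0)
    {G : A[X]} (hG : (X - C s) ^ N ∣ G) : phi1 ι s D G = 0 := by
  obtain ⟨H, rfl⟩ := hG
  rw [phi1_apply, psum_eq_sum _ _ N hN, taylor_mul, taylor_pow, map_sub, taylor_X, taylor_C,
    add_sub_cancel_right]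
  refine Finset.sum_eq_zero fun n hn => ?_
  rw [coeff_X_pow_mul', if_neg (by simpa using hn), map_zero, mul_zero]

variable [Fintype I] [DecidableEq I] {ι : A →ₐ[k] R} {t : I → A} {d : I → Derivation k A A}
  {e : k[X] →ₗ[k] R} {D : I → ℕ → R}

omit [DecidableEq I] in
theorem u_dvd (i : I) {N : ℕ} {G : A[X]} (hG : (∏ i, (X - C (t i))) ^ N ∣ G) :
    (X - C (t i)) ^ N ∣ G :=
  (pow_dvd_pow_of_dvd (Finset.dvd_prod_of_mem (fun i => X - C (t i)) (Finset.mem_univ i)) N).trans hG

theorem ext1_eq (h : LocSys ι t d e D) (G : A[X]) : ext1 ι e G = ∑ i, phi1 ι (t i) (D i) G := by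
  induction G using Polynomial.induction_on' with
  | monomial n a =>
    rw [ext1_monomial, h.taylor, Finset.sum_mul]
    refine Finset.sum_congr rfl fun i _ => ?_
    rw [← phi1_mul_C, Polynomial.map_pow, map_X, mul_comm, C_mul_X_pow_eq_monomial]
  | add p q hp hq => simp only [map_add, hp, hq, Finset.sum_add_distrib]

theorem ext1_kill (h : LocSys ι t d e D) {N : ℕ} (hN : ∀ i α, N ≤ α → D i α = 0) {G : A[X]}
    (hG : (∏ i, (X - C (t i))) ^ N ∣ G) : ext1 ι e G = 0 := by
  rw [ext1_eq h]
  exact Finset.sum_eq_zero fun i _ => phi1_kill ι _ _ (hN i) (u_dvd i hG)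

theorem isWitt_ext1 (h : LocSys ι t d e D) {N : ℕ} (hN : ∀ i α, N ≤ α → D i α = 0) {γ : ℤ → A[X]}
    (hγ : Gam k (∏ i, (X - C (t i))) N γ) : IsWitt k fun z => ext1 ι e (γ z) := by
  intro a b
  rw [ext1_br h.br (fun f b => by rw [h.comm, Df_apply]), ← map_smul, ← sub_eq_zero, ← map_sub]
  refine ext1_kill h hN ?_
  have e1 : brk t d (γ a) (γ b) - ((b : k) - a) • γ (a + b - 1) =
      γ a * (derivative (γ b) - (b : A[X]) * γ (b - 1)) -
        γ b * (derivative (γ a) - (a : A[X]) * γ (a - 1)) +
        (b : A[X]) * (γ a * γ (b - 1) - γ (a + (b - 1))) -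
        (a : A[X]) * (γ (a - 1) * γ b - γ (a - 1 + b)) +
        ∑ i, C ((γ a).eval (t i)) * pder (d i) (γ b) -
        ∑ i, C ((γ b).eval (t i)) * pder (d i) (γ a) := by
    rw [brk, sub_smul, cast_smul, cast_smul, show a + (b - 1) = a + b - 1 by ring,
      show a - 1 + b = a + b - 1 by ring]
    ring
  rw [e1]
  exact dvd_sub (dvd_add (dvd_sub (dvd_add (dvd_sub ((hγ.der b).mul_left _) ((hγ.der a).mul_left _))
    ((hγ.mul _ _).mul_left _)) ((hγ.mul _ _).mul_left _))
    (Finset.dvd_sum fun i _ => (hγ.pd _ _).mul_left _))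
    (Finset.dvd_sum fun i _ => (hγ.pd _ _).mul_left _)

omit [Fintype I] [DecidableEq I] in
theorem ext1_twE (s : A) (G : A[X]) :
    ext1 ι (twE ι s e) G = ext1 ι e G + ι ((derivative G).eval s) := by
  induction G using Polynomial.induction_on' with
  | monomial n a =>
    rw [ext1_monomial, ext1_monomial, twE_apply, add_mul, ← map_mul]
    simp [derivative_monomial, derivative_X_pow, mul_comm, mul_assoc]
  | add p q hp hq => simp only [map_add, hp, hq, eval_add]; abel

end Gam

end

end Pool.Agent.Lib.MP_4da284_al.Q2
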