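import Pool.Agent.Lib.MP_4da284_al.Defs

namespace Pool.Agent.Lib.MP_4da284_al

universe u

open TensorProduct

/- The tensor product of `a` copies of the first Weyl algebra localised at `t`. -/
noncomputable def LocPow (k : Type u) [Field k] : ℕ → AlgCat.{u} k
  | 0 => AlgCat.of k k
  | a + 1 => AlgCat.of k (LocWeyl k ⊗[k] LocPow k a)

/- `Q` is the kernel of an algebra map to a Weyl algebra in `a + m` variables of which `a ≥ 1` are
inverted. -/
def IsLocKernel (k : Type u) [Field k] {U : Type u} [Ring U] [Algebra k U] (Q : Ideal U) : Prop :=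
  ∃ a ≥ 1, ∃ m, ∃ φ : U →ₐ[k] LocPow k a ⊗[k] Weyl k m, RingHom.ker φ = Q

/- `g` is the Virasoro algebra: it has a basis `L n = b (some n)`, `z = b none` with the
Virasoro relations. -/
structure IsVirasoro (k : Type u) [Field k] (g : Type u) [LieRing g] [LieAlgebra k g]
    (b : Module.Basis (Option ℤ) k g) : Prop where
  lie_L : ∀ m n : ℤ, ⁅b (some m), b (some n)⁆ = ((m : k) - n) • b (some (m + n)) +
    (if m + n = 0 then ((m : k) ^ 3 - m) / 12 else 0) • b none
  lie_z : ∀ x : g, ⁅b none, x⁆ = 0

/- The ideal `(z - c)` of the enveloping algebra. -/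
noncomputable def centralIdeal {k g : Type u} [Field k] [LieRing g] [LieAlgebra k g] (z : g)
    (c : k) : Ideal (UniversalEnvelopingAlgebra k g) :=
  Ideal.span {UniversalEnvelopingAlgebra.ι k z - algebraMap k _ c}

end Pool.Agent.Lib.MP_4da284_al
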