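import Pool.Agent.Lib.MP_4da284_al.DiffOp
import Pool.Agent.Lib.MP_4da284_al.Defs

namespace Pool.Agent.Lib.MP_4da284_al

open MvPolynomial LaurentPolynomial TensorProduct

noncomputable section

universe u

variable {k : Type u} [Field k]

theorem laurent_ind {P : LaurentPolynomial k → Prop} (h0 : P 0)
    (hadd : ∀ f g, P f → P g → P (f + g)) (hT : ∀ (r : k) (n : ℤ), P (r • T n))
    (f : LaurentPolynomial k) : P f := by
  induction f using AddMonoidAlgebra.induction_linear with
  | zero => exact h0
  | add f g hf hg => exact hadd f g hf hg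
  | single n r =>
    have := hT r n
    rwa [T, AddMonoidAlgebra.smul_single, smul_eq_mul, mul_one] at this

variable (k) in
def lin {M : Type*} [AddCommGroup M] [Module k M] (F : ℤ → M) : LaurentPolynomial k →ₗ[k] M :=
  Finsupp.linearCombination k F ∘ₗ (AddMonoidAlgebra.coeffLinearEquiv k).toLinearMap

theorem lin_T {M : Type*} [AddCommGroup M] [Module k M] (F : ℤ → M) (n : ℤ) :
    lin k F (T n) = F n := by
  simp [lin, T, -single_eq_C_mul_T]

variable (k) in
def dT : Derivation k (LaurentPolynomial k) (LaurentPolynomial k) :=
  Derivation.mk' (lin k fun n => (n : k) • T (n - 1)) (by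
    intro f g
    induction f using laurent_ind with
    | h0 => simp
    | hadd f f' hf hf' => rw [add_mul, map_add, hf, hf', map_add, add_smul, smul_add]; abel
    | hT r n =>
      induction g using laurent_ind with
      | h0 => simp
      | hadd g g' hg hg' => rw [mul_add, map_add, hg, hg', map_add, add_smul, smul_add]; abel
      | hT s n' =>
        simp only [smul_mul_smul_comm, ← T_add, map_smul, lin_T, smul_eq_mul, smul_smul]
        rw [show n + (n' - 1) = n + n' - 1 by ring, show n' + (n - 1) = n + n' - 1 by ring,
          ← add_smul]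
        congr 1
        push_cast
        ring)

theorem dT_T (n : ℤ) : dT k (T n) = (n : k) • T (n - 1) := lin_T _ n

variable (k) in
def gL (i : Fin 3) : LocWeyl k := RingQuot.mkAlgHom k (LocRel k) (FreeAlgebra.ι k i)

variable (k) in
def gW {m : ℕ} (i : Fin m ⊕ Fin m) : Weyl k m := RingQuot.mkAlgHom k (WeylRel k m) (FreeAlgebra.ι k i)

theorem gL01 : gL k 0 * gL k 1 = 1 := by
  simpa [gL] using RingQuot.mkAlgHom_rel k (LocRel.mul_inv (k := k))

theorem gL10 : gL k 1 * gL k 0 = 1 := by
  simpa [gL] using RingQuot.mkAlgHom_rel k (LocRel.inv_mul (k := k))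

theorem gL20 : gL k 2 * gL k 0 = gL k 0 * gL k 2 + 1 := by
  simpa [gL] using RingQuot.mkAlgHom_rel k (LocRel.dt (k := k))

theorem gWss {m : ℕ} (i j : Fin m) :
    gW k (.inl i) * gW k (.inl j) = gW k (.inl j) * gW k (.inl i) := by
  simpa [gW] using RingQuot.mkAlgHom_rel k (WeylRel.ss (k := k) i j)

theorem gWdd {m : ℕ} (i j : Fin m) :
    gW k (.inr i) * gW k (.inr j) = gW k (.inr j) * gW k (.inr i) := by
  simpa [gW] using RingQuot.mkAlgHom_rel k (WeylRel.dd (k := k) i j)

theorem gWds {m : ℕ} (i j : Fin m) :
    gW k (.inr i) * gW k (.inl j) = gW k (.inl j) * gW k (.inr i) + if i = j then 1 else 0 := by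
  have := RingQuot.mkAlgHom_rel k (WeylRel.ds (k := k) i j)
  split_ifs at this ⊢ <;> simpa [gW] using this

variable (k) in
def tUnit : (LocWeyl k)ˣ := ⟨gL k 0, gL k 1, gL01, gL10⟩

variable (k) in
def posL : LaurentPolynomial k →ₐ[k] LocWeyl k :=
  AddMonoidAlgebra.lift k _ ℤ ((Units.coeHom _).comp (zpowersHom _ (tUnit k)))

theorem posL_one : posL k (T 1) = gL k 0 := by simp [posL, T, tUnit, -single_eq_C_mul_T]

theorem posL_neg_one : posL k (T (-1)) = gL k 1 := by
  simp [posL, T, -single_eq_C_mul_T]
  rfl

theorem T_ind {P : LaurentPolynomial k → Prop} (h0 : P 0)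
    (hadd : ∀ f g, P f → P g → P (f + g)) (hs : ∀ (r : k) f, P f → P (r • f))
    (h1 : P 1) (hmul : ∀ f g, P f → P g → P (f * g)) (hT : P (T 1)) (hT' : P (T (-1)))
    (f : LaurentPolynomial k) : P f := by
  refine laurent_ind h0 hadd (fun r n => hs r _ ?_) f
  induction n using Int.induction_on with
  | zero => exact h1
  | succ n ih => rw [T_add]; exact hmul _ _ ih hT
  | pred n ih => rw [sub_eq_add_neg, T_add]; exact hmul _ _ ih hT'

theorem d_posL (g : LaurentPolynomial k) :
    gL k 2 * posL k g = posL k g * gL k 2 + posL k (dT k g) := by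
  induction g using T_ind with
  | h0 => simp
  | hadd f g hf hg => simp only [map_add, mul_add, add_mul, hf, hg]; abel
  | hs r f hf => simp only [map_smul, Derivation.map_smul, mul_smul_comm, smul_mul_assoc, hf, smul_add]
  | h1 => simp
  | hmul f g hf hg =>
    rw [Derivation.leibniz, map_mul, ← mul_assoc, hf, add_mul, mul_assoc, hg, smul_eq_mul,
      smul_eq_mul, map_add, mul_comm g, map_mul, map_mul]
    noncomm_ring
  | hT => rw [dT_T, posL_one, gL20]; simp
  | hT' =>
    rw [dT_T, show (-1 - 1 : ℤ) = -1 + -1 by ring, T_add, map_smul, map_mul, posL_neg_one]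
    have h : gL k 2 * gL k 1 = gL k 1 * (gL k 0 * gL k 2) * gL k 1 := by
      rw [← mul_assoc, gL10, one_mul]
    rw [h, ← sub_eq_iff_eq_add.mpr gL20, mul_sub, sub_mul, mul_assoc, mul_assoc, gL01]
    have e : ((-1 : k)) • (gL k 1 * gL k 1) = -(gL k 1 * gL k 1) :=
      neg_one_smul k (gL k 1 * gL k 1)
    rw [Int.cast_neg, Int.cast_one, e, mul_one, mul_one, sub_eq_add_neg]

variable (k) in
def dAll (m : ℕ) : Option (Fin m) →
    Derivation k (MvPolynomial (Fin m) (LaurentPolynomial k))
      (MvPolynomial (Fin m) (LaurentPolynomial k))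
  | none => cder (dT k)
  | some i => (pderiv i).restrictScalars k

theorem dAll_none_C {m : ℕ} (g : LaurentPolynomial k) :
    dAll k m none (MvPolynomial.C g) = MvPolynomial.C (dT k g) := cmap_C _ _

theorem dAll_none_X {m : ℕ} (i : Fin m) : dAll k m none (X i) = 0 := cmap_X _ _

theorem dAll_some_C {m : ℕ} (i : Fin m) (g : LaurentPolynomial k) :
    dAll k m (some i) (MvPolynomial.C g) = 0 := by simp [dAll]

theorem dAll_some_X {m : ℕ} (i j : Fin m) :
    dAll k m (some i) (X j) = if i = j then 1 else 0 := by
  simp [dAll, pderiv_X, Pi.single_apply, eq_comm]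

theorem dAll_comm {m : ℕ} (i j : Option (Fin m)) (g) :
    dAll k m i (dAll k m j g) = dAll k m j (dAll k m i g) := by
  have key : ∀ g, ⁅dAll k m i, dAll k m j⁆ g = 0 := by
    intro g
    induction g using MvPolynomial.induction_on with
    | C a =>
      rcases i with _ | i <;> rcases j with _ | j <;>
        simp [Derivation.commutator_apply, dAll_none_C, dAll_some_C]
    | add p q hp hq => rw [map_add, hp, hq, add_zero]
    | mul_X p l hp =>
      rw [Derivation.leibniz, hp, smul_zero, add_zero]
      have : ⁅dAll k m i, dAll k m j⁆ (X l) = 0 := by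
        rcases i with _ | i <;> rcases j with _ | j <;>
          simp only [Derivation.commutator_apply, dAll_none_X, dAll_some_X] <;>
          (try split_ifs) <;> simp
      rw [this, smul_zero]
  have := key g
  rwa [Derivation.commutator_apply, sub_eq_zero] at this

theorem rigid_target (m : ℕ) : Rigid k (LocWeyl k ⊗[k] Weyl k m) := by
  classical
  let iL : LocWeyl k →ₐ[k] LocWeyl k ⊗[k] Weyl k m := Algebra.TensorProduct.includeLeft
  let iR : Weyl k m →ₐ[k] LocWeyl k ⊗[k] Weyl k m := Algebra.TensorProduct.includeRight
  have hLR : ∀ a b, iL a * iR b = iR b * iL a := by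
    intro a b; simp [iL, iR]
  obtain ⟨pos, hposC, hposX⟩ := exists_lift (σ := Fin m) (iL.comp (posL k))
    (fun i => iR (gW k (.inl i))) (fun i j => by rw [← map_mul, gWss, map_mul])
    (fun g i => hLR _ _)
  let D : Option (Fin m) → LocWeyl k ⊗[k] Weyl k m := fun j =>
    match j with
    | none => iL (gL k 2)
    | some i => iR (gW k (.inr i))
  let E := Module.End k (MvPolynomial (Option (Fin m)) (MvPolynomial (Fin m) (LaurentPolynomial k)))
  let fL : Fin 3 → E := ![mulC (MvPolynomial.C (T 1)), mulC (MvPolynomial.C (T (-1))),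
    momOp (dAll k m) none]
  let fR : Fin m ⊕ Fin m → E := Sum.elim (fun i => mulC (X i)) (fun i => momOp (dAll k m) (some i))
  let actL : LocWeyl k →ₐ[k] E := RingQuot.liftAlgHom k ⟨FreeAlgebra.lift k fL, by
    intro x y h
    cases h with
    | mul_inv =>
      simp only [map_mul, FreeAlgebra.lift_ι_apply, map_one]
      change mulC (MvPolynomial.C (T 1)) * mulC (MvPolynomial.C (T (-1))) = (1 : E)
      rw [← map_mul, ← map_mul, ← T_add, add_neg_cancel, T_zero, map_one, map_one]
    | inv_mul =>
      simp only [map_mul, FreeAlgebra.lift_ι_apply, map_one]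
      change mulC (MvPolynomial.C (T (-1))) * mulC (MvPolynomial.C (T 1)) = (1 : E)
      rw [← map_mul, ← map_mul, ← T_add, neg_add_cancel, T_zero, map_one, map_one]
    | dt =>
      simp only [map_mul, FreeAlgebra.lift_ι_apply, map_add, map_one]
      have := momOp_mulC (dAll k m) none (MvPolynomial.C (T 1))
      rw [dAll_none_C, dT_T] at this
      simpa [fL] using this⟩
  let actR : Weyl k m →ₐ[k] E := RingQuot.liftAlgHom k ⟨FreeAlgebra.lift k fR, by
    intro x y h
    cases h with
    | ss i j =>
      simp only [map_mul, FreeAlgebra.lift_ι_apply, fR, Sum.elim_inl]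
      rw [← map_mul, ← map_mul, mul_comm]
    | dd i j =>
      simp only [map_mul, FreeAlgebra.lift_ι_apply, fR, Sum.elim_inr]
      exact momOp_comm _ _ _ (dAll_comm _ _)
    | ds i j =>
      simp only [map_mul, FreeAlgebra.lift_ι_apply, fR, Sum.elim_inr, Sum.elim_inl, map_add]
      rw [momOp_mulC, dAll_some_X]
      split_ifs <;> simp⟩
  have hactL : ∀ i, actL (gL k i) = fL i := by
    intro i; simp [actL, gL]
  have hactR : ∀ i, actR (gW k i) = fR i := by
    intro i; simp [actR, gW]
  have hgen : ∀ i j, Commute (fL i) (fR j) := by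
    intro i j
    have h1 : ∀ (g : LaurentPolynomial k) j, Commute (mulC (MvPolynomial.C g) : E) (fR j) := by
      rintro g (j | j)
      · exact (Commute.all _ _).map mulC
      · have := momOp_mulC (dAll k m) (some j) (MvPolynomial.C g)
        rw [dAll_some_C, map_zero, add_zero] at this
        exact this.symm
    fin_cases i
    · exact h1 _ _
    · exact h1 _ _
    · rcases j with j | j
      · have := momOp_mulC (dAll k m) none (X j)
        rw [dAll_none_X, map_zero, add_zero] at this
        exact this
      · exact momOp_comm _ _ _ (dAll_comm _ _)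
  have hcomm : ∀ a b, Commute (actL a) (actR b) := by
    intro a b
    obtain ⟨a, rfl⟩ := RingQuot.mkAlgHom_surjective k _ a
    obtain ⟨b, rfl⟩ := RingQuot.mkAlgHom_surjective k _ b
    induction a using FreeAlgebra.induction with
    | grade0 r => rw [AlgHom.commutes, AlgHom.commutes]; exact Algebra.commutes _ _
    | grade1 i =>
      induction b using FreeAlgebra.induction with
      | grade0 r => rw [AlgHom.commutes, AlgHom.commutes]; exact (Algebra.commutes _ _).symm
      | grade1 j =>
        have := hgen i j
        rwa [← hactL, ← hactR] at this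
      | mul x y hx hy => rw [map_mul, map_mul]; exact hx.mul_right hy
      | add x y hx hy => rw [map_add, map_add]; exact hx.add_right hy
    | mul x y hx hy => rw [map_mul, map_mul]; exact hx.mul_left hy
    | add x y hx hy => rw [map_add, map_add]; exact hx.add_left hy
  let act : LocWeyl k ⊗[k] Weyl k m →ₐ[k] E := Algebra.TensorProduct.lift actL actR hcomm
  have hacL : ∀ a, act (iL a) = actL a := by intro a; simp [act, iL]
  have hacR : ∀ a, act (iR a) = actR a := by intro a; simp [act, iR]
  let _ : LinearOrder (Option (Fin m)) := linearOrderOfSTO WellOrderingRel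
  refine rigid_of_diffOp (V := Option (Fin m)) MonomialOrder.lex
    (Rigid.mvPolynomial MonomialOrder.lex rigid_laurent) (dAll k m) pos D ?_ ?_ ?_ act ?_ ?_
  · rintro (_ | i) (_ | j)
    · rfl
    · exact hLR _ _
    · exact (hLR _ _).symm
    · simp only [D]; rw [← map_mul, gWdd, map_mul]
  · intro j g
    induction g using MvPolynomial.induction_on with
    | C a =>
      rcases j with _ | j
      · rw [dAll_none_C, hposC, hposC]
        simp only [D, AlgHom.comp_apply]
        rw [← map_mul, ← map_mul, ← map_add, d_posL]
      · rw [dAll_some_C, map_zero, add_zero, hposC]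
        exact (hLR _ _).symm
    | add p q hp hq => simp only [map_add, mul_add, add_mul, hp, hq]; abel
    | mul_X p l hp =>
      have hX : D j * pos (X l) = pos (X l) * D j + pos (dAll k m j (X l)) := by
        rcases j with _ | j
        · rw [dAll_none_X, map_zero, add_zero, hposX]
          exact hLR _ _
        · rw [dAll_some_X, hposX]
          simp only [D]
          rw [← map_mul, ← map_mul, gWds, map_add]
          split_ifs <;> simp
      rw [Derivation.leibniz, map_mul, ← mul_assoc, hp, add_mul, mul_assoc, hX, smul_eq_mul,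
        smul_eq_mul, map_add, mul_comm (X l), map_mul, map_mul]
      noncomm_ring
  · rw [eq_top_iff]
    rintro x -
    set S := Algebra.adjoin k (Set.range pos ∪ Set.range D)
    have hp : ∀ g, pos g ∈ S := fun g => Algebra.subset_adjoin (Or.inl ⟨g, rfl⟩)
    have hD : ∀ j, D j ∈ S := fun j => Algebra.subset_adjoin (Or.inr ⟨j, rfl⟩)
    have hL : ∀ a, iL a ∈ S := by
      intro a
      obtain ⟨a, rfl⟩ := RingQuot.mkAlgHom_surjective k _ a
      induction a using FreeAlgebra.induction with
      | grade0 r => rw [AlgHom.commutes, AlgHom.commutes]; exact S.algebraMap_mem r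
      | grade1 i =>
        fin_cases i
        · have := hp (MvPolynomial.C (T 1))
          rwa [hposC, AlgHom.comp_apply, posL_one] at this
        · have := hp (MvPolynomial.C (T (-1)))
          rwa [hposC, AlgHom.comp_apply, posL_neg_one] at this
        · exact hD none
      | mul x y hx hy => rw [map_mul, map_mul]; exact mul_mem hx hy
      | add x y hx hy => rw [map_add, map_add]; exact add_mem hx hy
    have hR : ∀ a, iR a ∈ S := by
      intro a
      obtain ⟨a, rfl⟩ := RingQuot.mkAlgHom_surjective k _ a
      induction a using FreeAlgebra.induction with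
      | grade0 r => rw [AlgHom.commutes, AlgHom.commutes]; exact S.algebraMap_mem r
      | grade1 i =>
        rcases i with i | i
        · have := hp (X i)
          rwa [hposX] at this
        · exact hD (some i)
      | mul x y hx hy => rw [map_mul, map_mul]; exact mul_mem hx hy
      | add x y hx hy => rw [map_add, map_add]; exact add_mem hx hy
    induction x using TensorProduct.induction_on with
    | zero => exact zero_mem _
    | tmul a b =>
      have := mul_mem (hL a) (hR b)
      simpa [iL, iR] using this
    | add x y hx hy => exact add_mem hx hy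
  · intro g
    induction g using MvPolynomial.induction_on with
    | C a =>
      rw [hposC, AlgHom.comp_apply, hacL]
      induction a using T_ind with
      | h0 => simp
      | hadd f g hf hg => simp only [map_add, hf, hg]
      | hs r f hf =>
        rw [map_smul, map_smul, hf, ← map_smul]
        congr 1
        exact (map_smul (IsScalarTower.toAlgHom k (LaurentPolynomial k)
          (MvPolynomial (Fin m) (LaurentPolynomial k))) r f).symm
      | h1 => simp
      | hmul f g hf hg => simp only [map_mul, hf, hg]
      | hT => rw [posL_one, hactL]; rfl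
      | hT' => rw [posL_neg_one, hactL]; rfl
    | add p q hp hq => simp only [map_add, hp, hq]
    | mul_X p l hp => rw [map_mul, map_mul, hp, hposX, hacR, hactR, map_mul]; rfl
  · rintro (_ | j)
    · simp only [D]; rw [hacL, hactL]; rfl
    · simp only [D]; rw [hacR, hactR]; rfl

end

end Pool.Agent.Lib.MP_4da284_al
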