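import Pool.Agent.Lib.MP_4da284_al.H78Embed
import Pool.Agent.Lib.MP_4da284_al.Target
import Pool.Agent.Lib.MP_4da284_al.H44Defs

namespace Pool.Agent.Lib.MP_4da284_al.Q2

open Q1 TensorProduct

noncomputable section

universe u

variable {k : Type u} [Field k] {U : Type u} [Ring U] [Algebra k U] {Q : Ideal U}
  {L : Type u} [Ring L] [Algebra k L]

theorem inj_comp {A B C : Type*} [Semiring A] [Algebra k A] [Semiring B] [Algebra k B] [Semiring C]
    [Algebra k C] {f : B →ₐ[k] C} {g : A →ₐ[k] B} (hf : Function.Injective f)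
    (hg : Function.Injective g) : Function.Injective (f.comp g) := hf.comp hg

theorem inj_map {A B C : Type*} [Ring A] [Algebra k A] [Ring B] [Algebra k B] [Ring C]
    [Algebra k C] {f : B →ₐ[k] C} (hf : Function.Injective f) :
    Function.Injective (Algebra.TensorProduct.map (AlgHom.id k A) f) :=
  Module.Flat.lTensor_preserves_injective_linearMap (M := A) f.toLinearMap hf

theorem exists_assoc {A B C D : Type u} [Ring A] [Algebra k A] [Ring B] [Algebra k B] [Ring C]
    [Algebra k C] [Ring D] [Algebra k D] (θ : C →ₐ[k] B ⊗[k] D) (hθ : Function.Injective θ) :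
    ∃ θ' : A ⊗[k] C →ₐ[k] (A ⊗[k] B) ⊗[k] D, Function.Injective θ' :=
  ⟨(Algebra.TensorProduct.assoc k k k A B D).symm.toAlgHom.comp
    (Algebra.TensorProduct.map (AlgHom.id k A) θ),
    inj_comp (Algebra.TensorProduct.assoc k k k A B D).symm.injective (inj_map hθ)⟩

theorem exists_assoc' {A B C D E : Type u} [Ring A] [Algebra k A] [Ring B] [Algebra k B] [Ring C]
    [Algebra k C] [Ring D] [Algebra k D] [Ring E] [Algebra k E] (j : B →ₐ[k] A ⊗[k] C)
    (hj : Function.Injective j) (θ : C ⊗[k] D →ₐ[k] E) (hθ : Function.Injective θ) :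
    ∃ θ' : B ⊗[k] D →ₐ[k] A ⊗[k] E, Function.Injective θ' :=
  ⟨(Algebra.TensorProduct.map (AlgHom.id k A) θ).comp
    ((Algebra.TensorProduct.assoc k k k A C D).toAlgHom.comp
      (Algebra.TensorProduct.map j (AlgHom.id k D))),
    inj_comp (inj_map hθ) (inj_comp (Algebra.TensorProduct.assoc k k k A C D).injective
      (Module.Flat.rTensor_preserves_injective_linearMap (M := D) j.toLinearMap hj))⟩

section Loc

open NilStep LaurentPolynomial

variable {C : Type u} [Ring C] [Algebra k C]

def llift {x y y' : C} (h : x * y - y * x = 1) (h1 : y * y' = 1) (h2 : y' * y = 1) :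
    LocWeyl k →ₐ[k] C :=
  RingQuot.liftAlgHom k ⟨FreeAlgebra.lift k ![y, y', x], by
    intro a b hab
    cases hab with
    | mul_inv => simp [h1]
    | inv_mul => simp [h2]
    | dt => simp [← h]⟩

theorem llift_gL {x y y' : C} (h : x * y - y * x = 1) (h1 : y * y' = 1) (h2 : y' * y = 1)
    (i : Fin 3) : llift (k := k) h h1 h2 (gL k i) = ![y, y', x] i := by
  simp [llift, gL]

theorem loc_ind (A : Subalgebra k (LocWeyl k)) (h : ∀ i, gL k i ∈ A) (w : LocWeyl k) : w ∈ A := by
  obtain ⟨f, rfl⟩ := RingQuot.mkAlgHom_surjective k (LocRel k) w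
  induction f using FreeAlgebra.induction with
  | grade0 c => rw [AlgHom.commutes]; exact A.algebraMap_mem c
  | grade1 i => exact h i
  | mul a b ha hb => rw [map_mul]; exact A.mul_mem ha hb
  | add a b ha hb => rw [map_add]; exact A.add_mem ha hb

theorem gL_br : gL k 2 * gL k 0 - gL k 0 * gL k 2 = 1 := by rw [gL20, add_sub_cancel_left]

theorem loc_clear (w : LocWeyl k) :
    ∃ (r : ℕ) (w0 : Weyl k 1), gL k 0 ^ r * w = wlift (k := k) gL_br w0 := by
  set V := Submodule.span k (Set.range fun p : ℤ × ℕ => posL k (T p.1) * gL k 2 ^ p.2) with hV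
  have hgen : ∀ (a : ℤ) (b : ℕ), posL k (T a) * gL k 2 ^ b ∈ V := fun a b =>
    Submodule.subset_span ⟨(a, b), rfl⟩
  let A : Subalgebra k (LocWeyl k) :=
    { carrier := {w | ∀ v ∈ V, w * v ∈ V}
      mul_mem' := fun {a b} ha hb v hv => by rw [mul_assoc]; exact ha _ (hb v hv)
      add_mem' := fun {a b} ha hb v hv => by rw [add_mul]; exact V.add_mem (ha v hv) (hb v hv)
      algebraMap_mem' := fun c v hv => by rw [← Algebra.smul_def]; exact V.smul_mem c hv }
  have hA : ∀ z : LocWeyl k, (∀ (a : ℤ) (b : ℕ), z * (posL k (T a) * gL k 2 ^ b) ∈ V) → z ∈ A := by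
    intro z hz v hv
    have : V ≤ V.comap (LinearMap.mulLeft k z) := by
      rw [hV, Submodule.span_le]
      rintro _ ⟨ab, rfl⟩
      exact hz ab.1 ab.2
    exact this hv
  have hw : w ∈ V := by
    have := loc_ind A (fun i => hA _ fun a b => ?_) w 1 (by simpa using hgen 0 0)
    · rwa [mul_one] at this
    · fin_cases i
      · change gL k 0 * _ ∈ V
        rw [← posL_one, ← mul_assoc, ← map_mul, ← T_add]; exact hgen _ _
      · change gL k 1 * _ ∈ V
        rw [← posL_neg_one, ← mul_assoc, ← map_mul, ← T_add]; exact hgen _ _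
      · change gL k 2 * _ ∈ V
        rw [← mul_assoc, d_posL, add_mul, dT_T, map_smul, smul_mul_assoc, mul_assoc, ← pow_succ']
        exact V.add_mem (hgen _ _) (V.smul_mem _ (hgen _ _))
  have hT : ∀ n : ℕ, posL k (T n) = gL k 0 ^ n := fun n => by
    rw [← posL_one, ← map_pow, T_pow, mul_one]
  induction hw using Submodule.span_induction with
  | mem x hx =>
    obtain ⟨⟨a, b⟩, rfl⟩ := hx
    refine ⟨(-a).toNat, ws k ^ a.toNat * wd k ^ b, ?_⟩
    rw [map_mul, map_pow, map_pow, wlift_s, wlift_d, ← hT, ← hT, ← mul_assoc, ← map_mul, ← T_add]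
    congr 3
    omega
  | zero => exact ⟨0, 0, by simp⟩
  | add x y _ _ hx hy =>
    obtain ⟨r, w, h⟩ := hx
    obtain ⟨s, w', h'⟩ := hy
    refine ⟨r + s, ws k ^ s * w + ws k ^ r * w', ?_⟩
    rw [map_add, map_mul, map_mul, map_pow, map_pow, wlift_s, ← h, ← h', ← mul_assoc, ← mul_assoc,
      ← pow_add, ← pow_add, add_comm s, mul_add]
  | smul c x _ hx =>
    obtain ⟨r, w, h⟩ := hx
    exact ⟨r, c • w, by rw [map_smul, ← h, mul_smul_comm]⟩

theorem exists_loc [CharZero k] {x y y' : C} (h : x * y - y * x = 1) (h1 : y * y' = 1)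
    (h2 : y' * y = 1) (B : Subalgebra k C) (hx : B ≤ cz k x) (hy : B ≤ cz k y) :
    ∃ μ : LocWeyl k ⊗[k] B →ₐ[k] C, Function.Injective μ ∧ x ∈ μ.range ∧ y ∈ μ.range ∧
      y' ∈ μ.range ∧ B ≤ μ.range := by
  have hcomm : ∀ (w : LocWeyl k) (c : B), Commute (llift (k := k) h h1 h2 w) (B.val c) := by
    intro w c
    have := loc_ind ((cz k (c : C)).comap (llift (k := k) h h1 h2)) (fun i => by
      rw [Subalgebra.mem_comap, llift_gL, mem_cz]
      have e1 := mem_cz.1 (hy c.2)
      fin_cases i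
      · exact e1.symm
      · change c * y' = y' * c
        rw [← one_mul (c * y'), ← h2, mul_assoc, ← mul_assoc y, e1, mul_assoc, h1, mul_one]
      · exact (mem_cz.1 (hx c.2)).symm) w
    rw [Subalgebra.mem_comap, mem_cz] at this
    exact this.symm
  let μ := Algebra.TensorProduct.lift (llift (k := k) h h1 h2) B.val hcomm
  have hμ : ∀ i, ![y, y', x] i ∈ μ.range := fun i => ⟨gL k i ⊗ₜ 1, by simp [μ, llift_gL]⟩
  refine ⟨μ, (injective_iff_map_eq_zero _).2 fun z hz => ?_, hμ 2, hμ 0, hμ 1,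
    fun c hc => ⟨1 ⊗ₜ ⟨c, hc⟩, by simp [μ]⟩⟩
  let ν := Algebra.TensorProduct.map (wlift (k := k) (gL_br (k := k))) (AlgHom.id k B)
  have hν : ∀ z, μ (ν z) = theta h B hx hy z := by
    have e1 : (llift (k := k) h h1 h2).comp (wlift (k := k) gL_br) = wlift h := by
      refine H82Weyl.hom_ext k 1 _ _ fun g => ?_
      rcases g with i | i <;> obtain rfl : i = 0 := Subsingleton.elim _ _
      · exact ((congrArg _ (wlift_s gL_br)).trans (llift_gL h h1 h2 0)).trans (wlift_s h).symm
      · exact ((congrArg _ (wlift_d gL_br)).trans (llift_gL h h1 h2 2)).trans (wlift_d h).symm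
    intro z
    induction z using TensorProduct.induction_on with
    | zero => simp
    | add a b ha hb => simp only [map_add, ha, hb]
    | tmul w c => rw [theta_tmul, ← e1]; simp [μ, ν]
  have hcl : ∀ z : LocWeyl k ⊗[k] B, ∃ (r : ℕ) (z0 : Weyl k 1 ⊗[k] B),
      (gL k 0 ⊗ₜ 1) ^ r * z = ν z0 := by
    intro z
    induction z using TensorProduct.induction_on with
    | zero => exact ⟨0, 0, by simp⟩
    | add a b ha hb =>
      obtain ⟨r, w, e⟩ := ha
      obtain ⟨s, w', e'⟩ := hb
      refine ⟨r + s, (ws k ⊗ₜ 1) ^ s * w + (ws k ⊗ₜ 1) ^ r * w', ?_⟩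
      have e3 : ν (ws k ⊗ₜ 1) = gL k 0 ⊗ₜ 1 := by simp [ν, wlift_s]
      rw [map_add, map_mul, map_mul, map_pow, map_pow, e3, ← e, ← e', ← mul_assoc, ← mul_assoc,
        ← pow_add, ← pow_add, add_comm s, mul_add]
    | tmul w c =>
      obtain ⟨r, w0, e⟩ := loc_clear w
      exact ⟨r, w0 ⊗ₜ c, by simp [ν, e]⟩
  obtain ⟨r, z0, e⟩ := hcl z
  have e0 : z0 = 0 := theta_inj h B hx hy (by rw [← hν, ← e, map_mul, hz, mul_zero, map_zero])
  have hu : IsUnit (gL k 0 ⊗ₜ[k] (1 : B)) :=
    (tUnit k).isUnit.map (Algebra.TensorProduct.includeLeftRingHom (R := k) (B := B))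
  rwa [e0, map_zero, (hu.pow r).mul_right_eq_zero] at e

variable {I : Type} [DecidableEq I]

variable (k) in
def SV (t t' : I → C) (D : I → ℕ → C) (V : Finset I) : Subalgebra k C :=
  Algebra.adjoin k (Set.range t ∪ (t' '' V ∪ Set.range fun p : I × ℕ => D p.1 p.2))

structure LocRels (t t' : I → C) (D : I → ℕ → C) : Prop where
  inv1 : ∀ i, t i * t' i = 1
  inv2 : ∀ i, t' i * t i = 1
  tt : ∀ i j, t i * t j = t j * t i
  d0t : ∀ i j, D i 0 * t j - t j * D i 0 = if i = j then 1 else 0
  dt : ∀ i j α, D i (α + 1) * t j = t j * D i (α + 1)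
  far : ∀ i j α β, i ≠ j → D i α * D j β = D j β * D i α
  zero : ∀ i β, D i 0 * D i β = D i β * D i 0

theorem loc_step [CharZero k] {t t' : I → C} {D : I → ℕ → C} (h : LocRels t t' D) {i : I}
    {V : Finset I} (hi : i ∉ V) :
    ∃ θ : SV k t t' D (insert i V) →ₐ[k] LocWeyl k ⊗[k] SV k t t' D V, Function.Injective θ := by
  let B : Subalgebra k C := SV k t t' D V ⊓ (cz k (D i 0) ⊓ cz k (t i))
  obtain ⟨μ, hμ, m1, m2, m3, m4⟩ := exists_loc (k := k) (x := D i 0) (y := t i) (y' := t' i)
    (by rw [h.d0t, if_pos rfl]) (h.inv1 i) (h.inv2 i) B (inf_le_right.trans inf_le_left)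
    (inf_le_right.trans inf_le_right)
  have hinv : ∀ z j, z * t j = t j * z → z * t' j = t' j * z := by
    intro z j e
    rw [← one_mul (z * t' j), ← h.inv2 j, mul_assoc, ← mul_assoc (t j), ← e, mul_assoc, h.inv1,
      mul_one]
  have hd : ∀ i j, i ≠ j → D i 0 * t j = t j * D i 0 := fun i j hij => by
    rw [← sub_eq_zero, h.d0t, if_neg hij]
  have hle : SV k t t' D (insert i V) ≤ μ.range := by
    rw [SV, Algebra.adjoin_le_iff]
    rintro _ (⟨j, rfl⟩ | ⟨j, hj, rfl⟩ | ⟨⟨j, α⟩, rfl⟩)
    · by_cases hij : i = j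
      · exact hij ▸ m2
      · exact m4 ⟨Algebra.subset_adjoin (Or.inl ⟨j, rfl⟩), mem_cz.2 (hd i j hij),
          mem_cz.2 (h.tt i j)⟩
    · rcases Finset.mem_insert.1 hj with rfl | hj
      · exact m3
      · have hij : i ≠ j := fun e => hi (e ▸ hj)
        exact m4 ⟨Algebra.subset_adjoin (Or.inr (Or.inl ⟨j, hj, rfl⟩)),
          mem_cz.2 (hinv _ j (hd i j hij)), mem_cz.2 (hinv _ j (h.tt i j))⟩
    · by_cases hc : i = j ∧ α = 0
      · obtain ⟨rfl, rfl⟩ := hc
        exact m1
      · refine m4 ⟨Algebra.subset_adjoin (Or.inr (Or.inr ⟨(j, α), rfl⟩)), mem_cz.2 ?_,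
          mem_cz.2 ?_⟩
        · by_cases hij : i = j
          · exact hij ▸ h.zero i α
          · exact h.far i j 0 α hij
        · rcases α with _ | α
          · exact (hd j i fun e => hc ⟨e.symm, rfl⟩).symm
          · exact (h.dt j i α).symm
  refine ⟨(Algebra.TensorProduct.map (AlgHom.id k _)
    (Subalgebra.inclusion (inf_le_left : B ≤ SV k t t' D V))).comp
    ((AlgEquiv.ofInjective μ hμ).symm.toAlgHom.comp (Subalgebra.inclusion hle)), ?_⟩
  exact inj_comp (inj_map (Subalgebra.inclusion_injective _))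
    (inj_comp (AlgEquiv.ofInjective μ hμ).symm.injective (Subalgebra.inclusion_injective hle))

theorem loc_all [CharZero k] {t t' : I → C} {D : I → ℕ → C} (h : LocRels t t' D) (V : Finset I) :
    ∃ (a : ℕ) (θ : SV k t t' D V →ₐ[k] LocPow k a ⊗[k] SV k t t' D ∅), Function.Injective θ := by
  induction V using Finset.induction_on with
  | empty =>
    exact ⟨0, (Algebra.TensorProduct.lid k (SV k t t' D ∅)).symm.toAlgHom,
      (Algebra.TensorProduct.lid k (SV k t t' D ∅)).symm.injective⟩
  | insert i V hi ih =>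
    obtain ⟨a, θ, hθ⟩ := ih
    obtain ⟨θ', hθ'⟩ := loc_step (k := k) h hi
    obtain ⟨θ'', hθ''⟩ := exists_assoc (A := LocWeyl k) θ hθ
    have h3 := inj_comp hθ'' hθ'
    exact ⟨a + 1, θ''.comp θ', h3⟩

theorem rank_locPow (a : ℕ) : Module.rank k (LocPow k a) ≤ Cardinal.aleph0 := by
  induction a with
  | zero => exact (Module.rank_self k).le.trans Cardinal.one_le_aleph0
  | succ a ih =>
    have h1 : Module.rank k (LocWeyl k) ≤ Cardinal.aleph0 := by
      refine (LinearMap.rank_le_of_surjective (RingQuot.mkAlgHom k (LocRel k)).toLinearMap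
        (RingQuot.mkAlgHom_surjective k (LocRel k))).trans ?_
      rw [FreeAlgebra.rank_eq]
      simp
    change Module.rank k (LocWeyl k ⊗[k] LocPow k a) ≤ _
    rw [rank_tensorProduct']
    exact (mul_le_mul' h1 ih).trans_eq Cardinal.aleph0_mul_aleph0

end Loc

/- `B` embeds in the tensor product of `L` with a Weyl algebra. -/
def WE2 (k : Type u) [Field k] (L B : Type u) [Ring L] [Algebra k L] [Ring B] [Algebra k B] : Prop :=
  ∃ (p : ℕ) (j : B →ₐ[k] L ⊗[k] Weyl k p), Function.Injective j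

theorem WE2.rank_le {B : Type u} [Ring B] [Algebra k B] (hB : WE2 k L B)
    (hL : Module.rank k L ≤ Cardinal.aleph0) : Module.rank k B ≤ Cardinal.aleph0 := by
  obtain ⟨p, j, hj⟩ := hB
  refine (LinearMap.rank_le_of_injective j.toLinearMap hj).trans ?_
  rw [rank_tensorProduct']
  exact (mul_le_mul' hL (H82Weyl.rank_weyl k p)).trans_eq Cardinal.aleph0_mul_aleph0

theorem WE2.tensor {B : Type u} [Ring B] [Algebra k B] (hB : WE2 k L B) :
    WE2 k L (B ⊗[k] Weyl k 1) := by
  obtain ⟨p, j, hj⟩ := hB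
  exact ⟨p + 1, exists_assoc' j hj (H82Weyl.phi k p) (H82Weyl.phi_injective k p)⟩

theorem we2_self : WE2 k L L := by
  have hW : Nontrivial (Weyl k 1) := (Torus.rep k).toRingHom.domain_nontrivial
  exact ⟨1, Algebra.TensorProduct.includeLeft,
    Algebra.TensorProduct.includeLeft_injective (algebraMap k (Weyl k 1)).injective⟩

theorem embed_nil2 [IsAlgClosed k] [CharZero k] [Uncountable k] (hQ : ClosedPrime k Q)
    (hL : Module.rank k L ≤ Cardinal.aleph0) (n : ℕ) :
    ∀ (B C : Type u) [Ring B] [Algebra k B] [Ring C] [Algebra k C] (F : ℕ → Submodule k C)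
      (φ : U →ₐ[k] B ⊗[k] C), WE2 k L B → NilData k C F → Module.finrank k (F 0) < n →
      RingHom.ker φ = Q → ∃ m, ∃ ψ : U →ₐ[k] L ⊗[k] Weyl k m, RingHom.ker ψ = Q := by
  induction n with
  | zero => intros; omega
  | succ n ih =>
    intro B C _ _ _ _ F φ hB hF hn hφ
    have := hF.fin
    have hC : Module.rank k C ≤ Cardinal.aleph0 := by
      obtain ⟨s, hs⟩ := (Submodule.fg_iff_finiteDimensional (F 0)).2 hF.fin
      refine rank_le_of_gen s.countable_toSet ?_
      rw [← Algebra.adjoin_span, hs, hF.gen]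
    obtain ⟨C1, _, _, π, hπ, hker, -, hcent⟩ := exists_max k hQ B C (hB.rank_le hL) hC φ hφ
    have hF1 : NilData k C1 (fun p => (F p).map π.toLinearMap) :=
      { fin := inferInstance
        one := ⟨1, hF.one, map_one π⟩
        le := fun p => Submodule.map_mono (hF.le p)
        br := by
          rintro p _ ⟨a, ha, rfl⟩ _ ⟨b, hb, rfl⟩
          exact ⟨_, hF.br p a ha b hb, by simp⟩
        bot := by
          obtain ⟨K, hK⟩ := hF.bot
          exact ⟨K, by simp [hK]⟩
        gen := by
          have := congrArg (Subalgebra.map π) hF.gen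
          rwa [AlgHom.map_adjoin, Algebra.map_top, (AlgHom.range_eq_top π).2 hπ] at this }
    by_cases hne : (F 0).map π.toLinearMap ≤ k ∙ (1 : C1)
    · obtain ⟨p, j, hj⟩ := hB
      have hall : ∀ c : C1, ∃ a : k, algebraMap k C1 a = c := by
        intro c
        have h1 : Algebra.adjoin k ((F 0).map π.toLinearMap : Set C1) ≤ ⊥ := by
          rw [Algebra.adjoin_le_iff]
          intro x hx
          obtain ⟨a, rfl⟩ := Submodule.mem_span_singleton.1 (hne hx)
          exact Subalgebra.smul_mem _ (Subalgebra.one_mem _) _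
        rw [hF1.gen] at h1
        exact Algebra.mem_bot.1 (h1 Algebra.mem_top)
      have hnt : Nontrivial C1 := by
        by_contra h
        rw [not_nontrivial_iff_subsingleton] at h
        refine hQ.ne_top ?_
        rw [← hker, eq_top_iff]
        intro x _
        exact Subsingleton.elim _ _
      let ε : k ≃ₐ[k] C1 := AlgEquiv.ofBijective (Algebra.ofId k C1)
        ⟨(algebraMap k C1).injective, hall⟩
      let θ : B ⊗[k] C1 ≃ₐ[k] B :=
        (Algebra.TensorProduct.congr AlgEquiv.refl ε.symm).trans (Algebra.TensorProduct.rid k k B)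
      have hinj : Function.Injective (j.comp θ.toAlgHom) := hj.comp θ.injective
      exact ⟨p, (j.comp θ.toAlgHom).comp
        ((Algebra.TensorProduct.map (AlgHom.id k B) π).comp φ),
        (ker_comp_inj ((Algebra.TensorProduct.map (AlgHom.id k B) π).comp φ)
          (j.comp θ.toAlgHom) hinj).trans hker⟩
    · obtain ⟨C', _, _, F', θ, hF', hlt, hθ⟩ := nil_step k C1 _ hF1 hcent hne
      obtain ⟨φ', hφ'⟩ := exists_shift ((Algebra.TensorProduct.map (AlgHom.id k B) π).comp φ) θ hθ
      refine ih _ C' F' φ' hB.tensor hF' ?_ (hφ'.trans hker)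
      have := Submodule.finrank_map_le π.toLinearMap (F 0)
      omega

variable {I : Type} [Fintype I] [DecidableEq I]

theorem embed_jet2 [IsAlgClosed k] [CharZero k] [Uncountable k] (hQ : ClosedPrime k Q)
    (hL : Module.rank k L ≤ Cardinal.aleph0) (N : ℕ)
    (T : Finset I) :
    ∀ (B C : Type u) [Ring B] [Algebra k B] [Ring C] [Algebra k C] (t : I → C) (D : I → ℕ → C)
      (φ : U →ₐ[k] B ⊗[k] C), WE2 k L B → JetRel k t D N T →
      RingHom.ker φ = Q → ∃ m, ∃ ψ : U →ₐ[k] L ⊗[k] Weyl k m, RingHom.ker ψ = Q := by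
  induction T using Finset.induction_on with
  | empty =>
    intro B C _ _ _ _ t D φ hB h hφ
    obtain ⟨F, hF⟩ := h.nil
    exact embed_nil2 hQ hL _ B C F φ hB hF (Nat.lt_succ_self _) hφ
  | insert i T hi ih =>
    intro B C0 _ _ _ _ t0 D0 φ0 hB h0 hφ0
    obtain ⟨C, _, _, π, hπ, hker, hprime, hcent⟩ :=
      exists_max k hQ B C0 (hB.rank_le hL) h0.rank_le φ0 hφ0
    have h := h0.map π hπ
    generalize (fun i => π (t0 i)) = t at h
    generalize (fun i α => π (D0 i α)) = D at h
    generalize ((Algebra.TensorProduct.map (AlgHom.id k B) π).comp φ0) = φ at hker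
    set S := Set.range t ∪ {x | ∃ j α, (α ≠ 1 ∨ j ∈ T) ∧ x = D j α} with hS
    have hgen : Algebra.adjoin k (insert (D i 1) S) = ⊤ := by
      rw [eq_top_iff, ← h.gen]
      refine Algebra.adjoin_mono ?_
      rintro _ (⟨j, rfl⟩ | ⟨j, α, hc, rfl⟩)
      · exact Or.inr (Or.inl ⟨j, rfl⟩)
      · by_cases hα : α = 1
        · subst hα
          rcases Finset.mem_insert.1 (hc.resolve_left (by simp)) with rfl | hj
          · exact Or.inl rfl
          · exact Or.inr (Or.inr ⟨j, 1, Or.inr hj, rfl⟩)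
        · exact Or.inr (Or.inr ⟨j, α, Or.inl hα, rfl⟩)
    have hwt : ∀ β, D i 1 * D i (β + 1) - D i (β + 1) * D i 1 = (β : k) • D i (β + 1) := by
      intro β
      simpa using h.near i 0 β (Or.inr (Finset.mem_insert_self _ _))
    have hcom : ∀ α, (∀ β, D i (α + 1) * D i (β + 2) = D i (β + 2) * D i (α + 1)) →
        ∀ g ∈ S, D i (α + 1) * g = g * D i (α + 1) := by
      rintro α hα _ (⟨j, rfl⟩ | ⟨j, β, hc, rfl⟩)
      · exact h.dt i j α
      · by_cases hij : i = j
        · subst hij
          rcases β with _ | _ | β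
          · exact (h.zero i _).symm
          · exact absurd (hc.resolve_left (by simp)) hi
          · exact hα β
        · exact h.far i j _ _ hij
    by_cases hz : ∀ α, D i (α + 2) = 0
    · have hc : ∀ y, D i 1 * y = y * D i 1 := by
        intro y
        have hy : y ∈ Algebra.adjoin k (insert (D i 1) S) := hgen ▸ Algebra.mem_top
        refine (Algebra.commute_of_mem_adjoin_of_forall_mem_commute hy ?_).eq
        rintro g (rfl | hg)
        · exact Commute.refl _
        · exact hcom 0 (fun β => by simp [hz]) g hg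
      obtain ⟨c, hc⟩ := hcent _ hc
      refine ih B C t D φ hB { h with near := fun j α β hc => ?_, gen := ?_ } hker
      · exact h.near j α β (hc.imp id Finset.mem_insert_of_mem)
      · rw [eq_top_iff, ← hgen, Algebra.adjoin_le_iff]
        rintro g (rfl | hg)
        · rw [hc]; exact Subalgebra.algebraMap_mem _ _
        · exact Algebra.subset_adjoin hg
    · push Not at hz
      obtain ⟨n, hn, hmax⟩ : ∃ n, D i (n + 2) ≠ 0 ∧ ∀ m, n < m → D i (m + 2) = 0 := by
        classical
        obtain ⟨α, hα⟩ := hz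
        have hαN : α ≤ N := by
          by_contra hlt
          exact hα (h.top i _ (by omega))
        refine ⟨Nat.findGreatest (fun n => D i (n + 2) ≠ 0) N,
          Nat.findGreatest_spec (P := fun n => D i (n + 2) ≠ 0) hαN hα, fun m hm => ?_⟩
        by_cases hmN : m ≤ N
        · exact not_not.1 (Nat.findGreatest_is_greatest hm hmN)
        · exact h.top i _ (by omega)
      obtain ⟨θ, hθ⟩ := torus_step k C hprime S (D i 1) (D i (n + 2)) (n + 1) (by omega) hn (by
          rintro _ (⟨j, rfl⟩ | ⟨j, β, hc, rfl⟩)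
          · exact ⟨0, by simp [h.dt i j 0]⟩
          · by_cases hij : i = j
            · subst hij
              rcases β with _ | β
              · exact ⟨0, by simp [h.zero i 1]⟩
              · exact ⟨β, hwt β⟩
            · exact ⟨0, by simp [h.far i j _ _ hij]⟩)
        (hcom (n + 1) fun β => by
          rw [← sub_eq_zero, h.near i (n + 1) (β + 1) (Or.inl ⟨by omega, by omega⟩),
            show n + 1 + (β + 1) + 1 = (n + β + 1) + 2 by omega, hmax _ (by omega), smul_zero])
        (hwt (n + 1)) hgen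
      obtain ⟨φ', hφ'⟩ := exists_shift φ θ hθ
      obtain ⟨t', D', h'⟩ := h.restrict (Finset.subset_insert i T)
      exact ih _ _ t' D' φ' hB.tensor h' (hφ'.trans hker)

end

end Pool.Agent.Lib.MP_4da284_al.Q2
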