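import Pool.Agent.Lib.MP_4da284_al.H44Defs

namespace Pool.Agent.Lib.MP_4da284_al.Q2

noncomputable section

universe u

/- A model of the Virasoro algebra, to show that `IsVirasoro` can be met. -/
def VirModel (k : Type u) [Field k] : Type u := Option ℤ →₀ k

variable (k : Type u) [Field k]

instance : AddCommGroup (VirModel k) := inferInstanceAs (AddCommGroup (Option ℤ →₀ k))
instance : Module k (VirModel k) := inferInstanceAs (Module k (Option ℤ →₀ k))

def vb : Module.Basis (Option ℤ) k (VirModel k) := Finsupp.basisSingleOne

def vbr : Option ℤ → Option ℤ → VirModel k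
  | some m, some n => ((m : k) - n) • vb k (some (m + n)) +
      (if m + n = 0 then ((m : k) ^ 3 - m) / 12 else 0) • vb k none
  | _, _ => 0

def vB : VirModel k →ₗ[k] VirModel k →ₗ[k] VirModel k :=
  (vb k).constr k fun i => (vb k).constr k (vbr k i)

theorem vB_basis (i j : Option ℤ) : vB k (vb k i) (vb k j) = vbr k i j := by
  rw [vB, Module.Basis.constr_basis, Module.Basis.constr_basis]

theorem vB_none (x : VirModel k) : vB k (vb k none) x = 0 :=
  LinearMap.congr_fun ((vb k).ext fun j => by rw [vB_basis]; rfl : vB k (vb k none) = 0) x

theorem vB_skew (x y : VirModel k) : vB k x y = -vB k y x := by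
  have : vB k = -(vB k).flip := by
    refine (vb k).ext fun i => (vb k).ext fun j => ?_
    simp only [LinearMap.neg_apply, LinearMap.flip_apply, vB_basis]
    rcases i with _ | m <;> rcases j with _ | n <;> simp only [vbr, neg_zero]
    rw [add_comm n m]
    by_cases h : m + n = 0
    · have h1 : (n : k) = -m := by rw [eq_neg_of_add_eq_zero_right h]; simp
      simp only [if_pos h, h1]
      match_scalars <;> ring
    · simp only [if_neg h]
      module
  exact LinearMap.congr_fun₂ this x y

theorem vB_none' (x : VirModel k) : vB k x (vb k none) = 0 := by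
  rw [vB_skew, vB_none, neg_zero]

theorem vb_ind {P : VirModel k → Prop} (h0 : P 0) (ha : ∀ x y, P x → P y → P (x + y))
    (hs : ∀ (r : k) x, P x → P (r • x)) (hb : ∀ i, P (vb k i)) (x : VirModel k) : P x := by
  have hx : x ∈ Submodule.span k (Set.range (vb k)) := (vb k).span_eq ▸ Submodule.mem_top
  induction hx using Submodule.span_induction with
  | mem y hy => obtain ⟨i, rfl⟩ := hy; exact hb i
  | zero => exact h0
  | add x y _ _ hx hy => exact ha x y hx hy
  | smul r x _ hx => exact hs r x hx

theorem vB_jacobi (x y z : VirModel k) :
    vB k x (vB k y z) = vB k (vB k x y) z + vB k y (vB k x z) := by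
  induction x using vb_ind k with
  | h0 => simp
  | ha x x' h h' => simp only [map_add, LinearMap.add_apply, h, h']; abel
  | hs r x h => simp only [map_smul, LinearMap.smul_apply, h, smul_add]
  | hb i =>
  induction y using vb_ind k with
  | h0 => simp
  | ha x x' h h' => simp only [map_add, LinearMap.add_apply, h, h']; abel
  | hs r x h => simp only [map_smul, LinearMap.smul_apply, h, smul_add]
  | hb j =>
  induction z using vb_ind k with
  | h0 => simp
  | ha x x' h h' => simp only [map_add, h, h']; abel
  | hs r x h => simp only [map_smul, h, smul_add]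
  | hb l =>
  rcases i with _ | m
  · simp [vB_none]
  rcases j with _ | n
  · simp [vB_none, vB_none']
  rcases l with _ | p
  · simp [vB_none']
  simp only [vB_basis, vbr, map_add, map_smul, LinearMap.add_apply, LinearMap.smul_apply,
    smul_zero, add_zero]
  rw [show m + (n + p) = m + n + p by ring, show n + (m + p) = m + n + p by ring]
  by_cases h : m + n + p = 0
  · have h1 : (p : k) = -(m + n) := by rw [eq_neg_of_add_eq_zero_right h]; simp
    simp only [if_pos h]
    push_cast
    simp only [h1]
    match_scalars <;> ring
  · simp only [if_neg h]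
    push_cast
    module

instance [CharZero k] : LieRing (VirModel k) where
  bracket x y := vB k x y
  add_lie x y z := by exact LinearMap.congr_fun (map_add (vB k) x y) z
  lie_add x y z := map_add (vB k x) y z
  lie_self x := by
    have h : (2 : k) • vB k x x = 0 := by
      rw [two_smul, add_eq_zero_iff_eq_neg]; exact vB_skew k x x
    exact (smul_eq_zero.1 h).resolve_left two_ne_zero
  leibniz_lie := vB_jacobi k

instance [CharZero k] : LieAlgebra k (VirModel k) where
  lie_smul r x y := map_smul (vB k x) r y

theorem isVirasoro_model [CharZero k] : IsVirasoro k (VirModel k) (vb k) :=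
  ⟨fun m n => vB_basis k (some m) (some n), vB_none k⟩

end

end Pool.Agent.Lib.MP_4da284_al.Q2
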