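import Pool.Agent.Lib.MP_4da284_al.H44Vir

namespace Pool.Agent.Lib.MP_4da284_al.Q2

open Q1 MvPolynomial

noncomputable section

universe u

variable {k : Type u} {U : Type u} [Field k] [Ring U] [Algebra k U] {ε : ℤ → U} {c : k}

theorem res_zero {m : ℕ} (z : ℤ) (G : LP k (Fin m)) :
    res k ε (List.finRange (m + 1)) 0 (mono k (Pi.single 0 z) * sc k m G) =
      if z = -1 then muL k ε (List.finRange m) G else 0 := by
  induction G using mono_ind with
  | h0 => simp
  | hadd f g hf hg => simp only [map_add, mul_add, hf, hg]; split_ifs <;> simp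
  | hs r β =>
    rw [map_smul, mul_smul_comm, map_smul, map_smul, sc_mono, mono_mul, res_mono, muL_mono,
      List.finRange_succ, List.erase_cons_head, List.map_map]
    have h1 : (Pi.single 0 z + Fin.cons 0 β : Fin (m + 1) → ℤ) ∘ Fin.succ = β := by
      funext i; simp
    have h2 : (Pi.single 0 z + Fin.cons 0 β : Fin (m + 1) → ℤ) 0 = z := by simp
    rw [h1, h2]
    split_ifs <;> simp

theorem res_coeff {m : ℕ} (n : ℕ) (g : Polynomial (LP k (Fin m))) (F : LP k (Fin m)) :
    res k ε (List.finRange (m + 1)) 0 (mono k (Pi.single 0 (-1 - n : ℤ)) *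
      (Polynomial.eval₂ (sc k m).toRingHom (tt k 0) g * sc k m F)) =
      muL k ε (List.finRange m) (g.coeff n * F) := by
  induction g using Polynomial.induction_on' with
  | add p q hp hq =>
    simp only [Polynomial.eval₂_add, add_mul, mul_add, map_add, hp, hq, Polynomial.coeff_add]
  | monomial j a =>
    have : mono k (Pi.single 0 (-1 - n : ℤ)) * (Polynomial.eval₂ (sc k m).toRingHom (tt k 0)
        (Polynomial.monomial j a) * sc k m F) =
        mono k (Pi.single 0 (-1 - n + j : ℤ)) * sc k m (a * F) := by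
      rw [Polynomial.eval₂_monomial, Pi.single_add, ← mono_mul, ← tt_pow, map_mul]
      simp only [AlgHom.toRingHom_eq_coe, RingHom.coe_coe]
      ring
    rw [this, res_zero, Polynomial.coeff_monomial]
    by_cases h : j = n
    · rw [if_pos h, if_pos (by omega)]
    · rw [if_neg h, if_neg (by omega), zero_mul, map_zero]

theorem dvd_der {A : Type*} [CommRing A] {u g : Polynomial A} {n : ℕ} (h : u ^ (n + 1) ∣ g)
    (w : Polynomial A) : u ^ n ∣ Polynomial.X * Polynomial.derivative g + w * g := by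
  obtain ⟨H, rfl⟩ := h
  refine ⟨Polynomial.X * (((n : Polynomial A) + 1) * Polynomial.derivative u * H + u * Polynomial.derivative H)
    + w * u * H, ?_⟩
  rw [Polynomial.derivative_mul, Polynomial.derivative_pow_succ]
  simp only [map_add, map_natCast, map_one]
  ring

theorem descent [CharZero k] (hε : IsVir k ε c) (hc : c ≠ 0) (Q : Ideal U)
    (hQ : ∀ q ∈ Q, ∀ u, q * u ∈ Q) {m K : ℕ} (hK : ∀ H : MvPolynomial (Fin (m + 1)) k,
      mu (eP k ε 0) (List.finRange (m + 1)) (disc k id ^ K * H) ∈ Q) :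
    ∃ K' : ℕ, ∀ H : MvPolynomial (Fin m) k,
      mu (eP k ε 0) (List.finRange m) (disc k id ^ K' * H) ∈ Q := by
  set l := List.finRange (m + 1) with hl
  let ev : Fin (m + 1) → Polynomial (MvPolynomial (Fin (m + 1)) k) →+* LP k (Fin (m + 1)) :=
    fun v => (psi k).toRingHom.comp (Polynomial.evalRingHom (X v))
  let S : ℤ → Polynomial (MvPolynomial (Fin (m + 1)) k) →
      Polynomial (MvPolynomial (Fin (m + 1)) k) := fun w g =>
    Polynomial.X * Polynomial.derivative g + (w : Polynomial _) * g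
  have hS : ∀ w p q, S w (p + q) = S w p + S w q := by
    intro w p q; simp only [S, map_add]; ring
  have hSm : ∀ w n a, S w (Polynomial.monomial n a) =
      Polynomial.monomial n (((n : MvPolynomial (Fin (m + 1)) k) + w) * a) := by
    intro w n a
    simp only [S]
    rw [add_mul, map_add, ← Polynomial.C_eq_intCast, Polynomial.C_mul_monomial]
    congr 1
    rcases n with _ | n
    · simp
    · rw [Polynomial.derivative_monomial_succ, Polynomial.X_mul_monomial]
      push_cast; rw [mul_comm]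
  let Op : ℤ → Polynomial (MvPolynomial (Fin (m + 1)) k) → LP k (Fin (m + 1)) →
      Fin (m + 1) → LP k (Fin (m + 1)) := fun z g G v =>
    mono k (Pi.single v z) * (ev v g * dd k v G + ev v (pder (pderiv v) g) * G) -
      mono k (Pi.single v (z - 1)) * (ev v (S z g) * G)
  let Ce : ℤ → Polynomial (MvPolynomial (Fin (m + 1)) k) → LP k (Fin (m + 1)) →
      Fin (m + 1) → LP k (Fin (m + 1)) := fun z g G v =>
    mono k (Pi.single v (z - 3)) * (ev v (S z (S (z - 1) (S (z - 2) g))) * G)
  have h1 : ∀ z g a, ∑ v, (muL k ε l (Op z g (psi k (disc k id ^ K * a)) v) +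
      c • res k ε l v (Ce z g (psi k (disc k id ^ K * a)) v)) ∈ Q := by
    intro z g a
    induction g using Polynomial.induction_on' with
    | add p q hp hq =>
      have := Q.add_mem hp hq
      convert this using 1
      rw [← Finset.sum_add_distrib]
      refine Finset.sum_congr rfl fun v _ => ?_
      rw [add_add_add_comm, ← smul_add, ← map_add, ← map_add]
      refine congrArg₂ (· + ·) (congrArg _ ?_) (congrArg _ (congrArg _ ?_))
      · simp only [Op, hS, map_add]; ring
      · simp only [Ce, hS, map_add]; ring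
    | monomial n b =>
      have h2 := hK (b * a)
      rw [← muL_psi, mul_left_comm, map_mul] at h2
      generalize psi k (disc k id ^ K * a) = G at h2 ⊢
      have := Q.sub_mem (Q.mul_mem_left (ε (z + n)) h2) (hQ _ h2 (ε (z + n)))
      rw [muL_comm_vir hε _ (List.nodup_finRange _) List.mem_finRange, DZ_apply, map_sum,
        ← Finset.sum_add_distrib] at this
      convert this using 1
      refine Finset.sum_congr rfl fun v _ => ?_
      have e1 : ∀ z : ℤ, mono k (Pi.single v (z + n)) = mono k (Pi.single v z) * tt k v ^ n := by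
        intro z; rw [tt_pow, mono_mul, Pi.single_add]
      have e4 : ∀ n a, ev v (Polynomial.monomial n a) = psi k a * tt k v ^ n := by
        intro n a; simp [ev, psi_X]
      rw [mul_comm _ c, mul_smul, ← map_smul (res k ε l v) (_ * _)]
      refine congrArg₂ (· + ·) (congrArg _ ?_) (congrArg _ (congrArg _ ?_))
      · simp only [Op]
        rw [e1, show z + n - 1 = z - 1 + n by ring, e1, pder_monomial, Derivation.leibniz, dd_psi,
          cast_smul, hSm, e4, e4, e4, smul_eq_mul, smul_eq_mul]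
        simp only [map_mul, map_add, map_natCast, map_intCast]
        push_cast; ring
      · simp only [Ce]
        rw [show z + n - 3 = z - 3 + n by ring, e1, hSm, hSm, hSm, e4,
          show ((z + n : ℤ) : k) * ((z + n : ℤ) - 1) * ((z + n : ℤ) - 2) =
            (((z + n) * (z + n - 1) * (z + n - 2) : ℤ) : k) by push_cast; ring, cast_smul]
        simp only [map_mul, map_add, map_natCast, map_intCast]
        push_cast; ring
  set π : Polynomial (MvPolynomial (Fin (m + 1)) k) :=
    ∏ w : Fin m, (Polynomial.X - Polynomial.C (X w.succ)) with hπ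
  have hev : ∀ (v : Fin (m + 1)) g, Polynomial.X - Polynomial.C (X v) ∣ g → ev v g = 0 := by
    rintro v _ ⟨H, rfl⟩
    simp [ev]
  have hπ0 : ∀ w : Fin m, Polynomial.X - Polynomial.C (X w.succ) ∣ π := fun w =>
    Finset.dvd_prod_of_mem (fun w : Fin m => (Polynomial.X - Polynomial.C (X w.succ) :
      Polynomial (MvPolynomial (Fin (m + 1)) k))) (Finset.mem_univ w)
  have hπd : pder (pderiv 0) π = 0 := by
    rw [hπ]
    refine Finset.prod_induction _ (fun g => pder (pderiv 0) g = 0) ?_ (by simp) ?_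
    · intro a b ha hb; rw [Derivation.leibniz, ha, hb]; simp
    · intro w _
      rw [map_sub, pder_X, pder_C, pderiv_X_of_ne (Fin.succ_ne_zero w)]; simp
  have h2 : ∀ z a, muL k ε l (Op z (π ^ 4) (psi k (disc k id ^ K * a)) 0) +
      c • res k ε l 0 (Ce z (π ^ 4) (psi k (disc k id ^ K * a)) 0) ∈ Q := by
    intro z a
    have := h1 z (π ^ 4) a
    rwa [Fin.sum_univ_succ, Finset.sum_eq_zero, add_zero] at this
    intro w _
    have d4 := pow_dvd_pow_of_dvd (hπ0 w) 4
    have e1 : ev w.succ (π ^ 4) = 0 := hev _ _ ((dvd_pow_self _ (by omega)).trans d4)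
    have e2 : ev w.succ (pder (pderiv w.succ) (π ^ 4)) = 0 := by
      rw [Derivation.leibniz_pow]; simp [hev _ _ (hπ0 w)]
    have hSd : ∀ (z : ℤ) (n : ℕ) g, (Polynomial.X - Polynomial.C (X w.succ)) ^ (n + 1) ∣ g →
        (Polynomial.X - Polynomial.C (X w.succ)) ^ n ∣ S z g := fun z n g h => dvd_der h _
    have e3 : ev w.succ (S z (π ^ 4)) = 0 :=
      hev _ _ ((dvd_pow_self _ (by omega)).trans (hSd z 3 _ d4))
    have e4 : ev w.succ (S z (S (z - 1) (S (z - 2) (π ^ 4)))) = 0 :=
      hev _ _ ((dvd_pow_self _ (by omega)).trans (hSd z 1 _ (hSd _ 2 _ (hSd _ 3 _ d4))))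
    simp only [Op, Ce, e1, e2, e3, e4, zero_mul, mul_zero, add_zero, sub_zero, map_zero, smul_zero]
  have h3 : ∀ z a, res k ε l 0 (mono k (Pi.single 0 z) *
      (ev 0 π ^ 4 * psi k (disc k id ^ K * a))) ∈ Q := by
    intro z a
    have e1 : ∀ (z : ℤ) (n : ℕ), mono k (Pi.single (0 : Fin (m + 1)) (z + n)) =
        mono k (Pi.single 0 z) * tt k 0 ^ n := by
      intro z n; rw [tt_pow, mono_mul, Pi.single_add]
    have eG : ∀ n : ℕ, psi k (disc k id ^ K * (X 0 ^ n * a)) =
        tt k 0 ^ n * psi k (disc k id ^ K * a) := by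
      intro n; simp only [map_mul, map_pow, psi_X]; ring
    have a0 := h2 (z + 3) a
    have a1 := h2 (z + 2) (X 0 ^ 1 * a)
    have a2 := h2 (z + 1) (X 0 ^ 2 * a)
    have a3 := h2 z (X 0 ^ 3 * a)
    rw [eG] at a1 a2 a3
    generalize psi k (disc k id ^ K * a) = G at a0 a1 a2 a3 ⊢
    have hd4 : ev 0 (pder (pderiv 0) (π ^ 4)) = 0 := by rw [Derivation.leibniz_pow, hπd]; simp
    set g := π ^ 4 with hg
    let θ : Polynomial (MvPolynomial (Fin (m + 1)) k) →+
        Polynomial (MvPolynomial (Fin (m + 1)) k) :=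
      (AddMonoidHom.mulLeft Polynomial.X).comp Polynomial.derivative.toAddMonoidHom
    have hSθ : ∀ w g, S w g = θ g + w • g := fun w g => by rw [zsmul_eq_mul]; rfl
    set T : LP k (Fin (m + 1)) := mono k (Pi.single (0 : Fin (m + 1)) (z - 3)) with hT
    have eT : ∀ (n : ℕ) (w : ℤ), w = z - 3 + n →
        mono k (Pi.single (0 : Fin (m + 1)) w) = T * tt k 0 ^ n := by
      rintro n _ rfl; exact e1 _ _
    have hO : Op (z + 3) g G 0 - (3 : ℤ) • Op (z + 2) g (tt k 0 ^ 1 * G) 0 +
        (3 : ℤ) • Op (z + 1) g (tt k 0 ^ 2 * G) 0 - Op z g (tt k 0 ^ 3 * G) 0 = 0 := by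
      simp only [Op, hd4, hSθ, map_add, map_zsmul, Derivation.leibniz, Derivation.leibniz_pow,
        dd_tt, if_true]
      rw [eT 6 (z + 3) (by omega), eT 5 (z + 3 - 1) (by omega), eT 5 (z + 2) (by omega),
        eT 4 (z + 2 - 1) (by omega), eT 4 (z + 1) (by omega), eT 3 (z + 1 - 1) (by omega),
        eT 3 z (by omega), eT 2 (z - 1) (by omega)]
      simp only [smul_eq_mul, nsmul_eq_mul, zsmul_eq_mul]
      push_cast; ring
    have hC : Ce (z + 3) g G 0 - (3 : ℤ) • Ce (z + 2) g (tt k 0 ^ 1 * G) 0 +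
        (3 : ℤ) • Ce (z + 1) g (tt k 0 ^ 2 * G) 0 - Ce z g (tt k 0 ^ 3 * G) 0 =
        (6 : ℤ) • (mono k (Pi.single 0 z) * (ev 0 g * G)) := by
      simp only [Ce, hSθ, map_add, map_zsmul]
      rw [eT 3 (z + 3 - 3) (by omega), eT 2 (z + 2 - 3) (by omega), eT 1 (z + 1 - 3) (by omega),
        eT 3 z (by omega), ← hT]
      simp only [zsmul_eq_mul]
      push_cast; ring
    have h5 := Q.sub_mem (Q.add_mem (Q.sub_mem a0 (zsmul_mem a1 3)) (zsmul_mem a2 3)) a3
    have h6 := congrArg (muL k ε l) hO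
    have h7 := congrArg (fun y => c • res k ε l 0 y) hC
    simp only [map_add, map_sub, map_zsmul, map_zero, smul_add, smul_sub] at h6 h7
    have h8 : c • (6 : ℤ) • res k ε l 0 (mono k (Pi.single 0 z) * (ev 0 g * G)) ∈ Q := by
      rw [← h7, ← zero_add (_ - c • _), ← h6]
      convert h5 using 1
      simp only [smul_add, smul_comm c (3 : ℤ)]
      abel
    rw [← Int.cast_smul_eq_zsmul k, smul_smul, hg, map_pow] at h8
    exact (Submodule.smul_mem_iff (Q.restrictScalars k) (mul_ne_zero hc (by norm_num))).1 h8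
  obtain ⟨c0, w, hw⟩ := disc_succ_dvd k m
  refine ⟨c0 * K, fun H => ?_⟩
  set p : Polynomial (LP k (Fin m)) := (∏ w : Fin m, (Polynomial.X - Polynomial.C (tt k w))) ^
    (4 + c0 * K) with hp
  have hpm : p.Monic := (Polynomial.monic_prod_of_monic _ _ fun w _ =>
    Polynomial.monic_X_sub_C _).pow _
  have h4 := res_coeff (ε := ε) p.natDegree p (psi k (disc k id ^ (c0 * K) * H))
  rw [hpm.coeff_natDegree, one_mul, muL_psi] at h4
  rw [← h4]
  have h5 := h3 (-1 - p.natDegree) (w ^ K * rename Fin.succ H)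
  convert h5 using 3
  have e1 : ev 0 π = psi k (∏ i : Fin m, (X 0 - X i.succ)) := by simp [hπ, ev, map_prod]
  have e2 : Polynomial.eval₂ (sc k m).toRingHom (tt k 0) p = ev 0 π ^ (4 + c0 * K) := by
    rw [hp, Polynomial.eval₂_pow, Polynomial.eval₂_finsetProd, e1]
    simp [map_prod, psi_X, sc_tt]
  rw [e2, ← mul_assoc (disc k id ^ K), ← mul_pow, ← hw, ← pow_mul, sc_psi, e1, pow_add]
  simp only [map_mul, map_pow, mul_pow]
  ring

theorem top_of_disc [CharZero k] (hε : IsVir k ε c) (hc : c ≠ 0) (Q : Ideal U)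
    (hQ : ∀ q ∈ Q, ∀ u, q * u ∈ Q) (m : ℕ) (hm : ∃ K : ℕ, ∀ H : MvPolynomial (Fin m) k,
      mu (eP k ε 0) (List.finRange m) (disc k id ^ K * H) ∈ Q) : Q = ⊤ := by
  induction m with
  | zero =>
    obtain ⟨K, hK⟩ := hm
    have := hK 1
    have e1 : disc k (id : Fin 0 → Fin 0) = 1 := by simp [disc]
    rw [e1, one_pow, mul_one, mu, ← C_1, C_apply, Phi_monomial] at this
    simp only [List.finRange_zero, word, map_one, mul_one] at this
    exact (Ideal.eq_top_iff_one _).2 this
  | succ m ih =>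
    obtain ⟨K, hK⟩ := hm
    exact ih (descent hε hc Q hQ hK)

theorem simple_vir [CharZero k] (hε : IsVir k ε c) (hc : c ≠ 0)
    (hgen : Algebra.adjoin k (Set.range ε) = ⊤) (Q : Ideal U) (hQ : ∀ q ∈ Q, ∀ u, q * u ∈ Q)
    (h0 : Q ≠ ⊥) : Q = ⊤ := by
  obtain ⟨m, hm⟩ := thmA_vir hε hgen Q hQ h0
  exact top_of_disc hε hc Q hQ m hm

end

end Pool.Agent.Lib.MP_4da284_al.Q2
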