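import Pool.Agent.Lib.MP_4da284_al.H78Growth
import Pool.Agent.Lib.MP_4da284_al.H44Simple
import Pool.Agent.Lib.MP_4da284_al.H44Embed

namespace Pool.Agent.Lib.MP_4da284_al.Q2

open Q1 TensorProduct

noncomputable section

universe u

section Bern

variable {k R G : Type*} [Field k] [Ring R] [Algebra k R] (g : G → R)

theorem Bn_perm2 (hg : ∀ a b, g a * g b - g b * g a ∈ Bn k g 2) {L L' : List G}
    (h : L.Perm L') : (L.map g).prod - (L'.map g).prod ∈ Bn k g L.length := by
  induction h with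
  | nil => simp
  | cons a _ ih =>
    simp only [List.map_cons, List.prod_cons, ← mul_sub, List.length_cons]
    rw [add_comm]
    exact Bn_mul g (gen_mem_Bn g a) ih
  | swap a b L =>
    simp only [List.map_cons, List.prod_cons, ← mul_assoc, ← sub_mul, List.length_cons]
    exact Bn_mono g (by omega) (Bn_mul g (hg b a)
      (Submodule.subset_span ⟨L, Nat.lt_succ_self _, rfl⟩))
  | trans h1 _ ih1 ih2 =>
    rw [← h1.length_eq] at ih2
    have := Submodule.add_mem _ ih1 ih2
    rwa [sub_add_sub_cancel] at this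

theorem finrank_Bn2 [Fintype G] [DecidableEq G]
    (hg : ∀ a b, g a * g b - g b * g a ∈ Bn k g 2) (n : ℕ) :
    ∃ S : Submodule k R, FiniteDimensional k S ∧ Module.finrank k S ≤ n ^ Fintype.card G ∧
      Bn k g n ≤ S := by
  let srt : (G → ℕ) → List G := fun c =>
    (Finset.univ : Finset G).toList.flatMap fun a => List.replicate (c a) a
  have hperm : ∀ L : List G, L.Perm (srt fun a => L.count a) := by
    intro L
    rw [List.perm_iff_count]
    intro a
    simp only [srt, List.count_flatMap, Finset.sum_map_toList, Function.comp, List.count_replicate]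
    simp
  have key : ∀ n, Bn k g n ≤ Submodule.span k
      (Set.range fun c : G → Fin n => ((srt fun a => c a).map g).prod) := by
    intro n
    induction n with
    | zero => simp [Bn]
    | succ n ih =>
      refine Submodule.span_le.2 ?_
      rintro _ ⟨L, hL, rfl⟩
      have h1 := ih (Bn_mono g (by omega) (Bn_perm2 g hg (hperm L)))
      have h2 : Submodule.span k (Set.range fun c : G → Fin n => ((srt fun a => c a).map g).prod) ≤
          Submodule.span k
            (Set.range fun c : G → Fin (n + 1) => ((srt fun a => c a).map g).prod) := by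
        refine Submodule.span_mono ?_
        rintro _ ⟨c, rfl⟩
        exact ⟨fun a => (c a).castSucc, rfl⟩
      have h3 : ((srt fun a => L.count a).map g).prod ∈ Submodule.span k
          (Set.range fun c : G → Fin (n + 1) => ((srt fun a => c a).map g).prod) :=
        Submodule.subset_span ⟨fun a => ⟨L.count a, lt_of_le_of_lt List.count_le_length hL⟩, rfl⟩
      simpa using Submodule.add_mem _ (h2 h1) h3
  refine ⟨_, FiniteDimensional.span_of_finite k (Set.finite_range _), ?_, key n⟩
  refine (finrank_range_le_card _).trans ?_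
  simp

theorem Bn_map {R' G' : Type*} [Ring R'] [Algebra k R'] (g' : G' → R') (f : R →ₐ[k] R') (i : G → G')
    (h : ∀ a, f (g a) = g' (i a)) {n : ℕ} {x : R} (hx : x ∈ Bn k g n) : f x ∈ Bn k g' n := by
  induction hx using Submodule.span_induction with
  | mem y hy =>
    obtain ⟨L, hL, rfl⟩ := hy
    refine Submodule.subset_span ⟨L.map i, by simpa using hL, ?_⟩
    rw [map_list_prod, List.map_map, List.map_map]
    exact congrArg (fun F => (L.map F).prod) (funext h)
  | zero => simp
  | add a b _ _ ha hb => rw [map_add]; exact Submodule.add_mem _ ha hb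
  | smul c a _ ha => rw [map_smul]; exact Submodule.smul_mem _ _ ha

variable (k) in
def BnAll : Subalgebra k R where
  carrier := {x | ∃ n, x ∈ Bn k g n}
  mul_mem' := fun ⟨i, hi⟩ ⟨j, hj⟩ => ⟨i + j, Bn_mul _ (Bn_mono _ (Nat.le_succ i) hi) hj⟩
  add_mem' := fun ⟨i, hi⟩ ⟨j, hj⟩ =>
    ⟨i + j, Submodule.add_mem _ (Bn_mono _ (by omega) hi) (Bn_mono _ (by omega) hj)⟩
  algebraMap_mem' := fun c => ⟨1, by
    rw [Algebra.algebraMap_eq_smul_one]
    exact Submodule.smul_mem _ _ (one_mem_Bn _)⟩

end Bern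

/- finitely generated and almost commutative -/
def AC (k R : Type u) [Field k] [Ring R] [Algebra k R] : Prop :=
  ∃ (G : Type) (_ : Fintype G) (g : G → R), (∀ a b, g a * g b - g b * g a ∈ Bn k g 2) ∧
    ∀ x, ∃ n, x ∈ Bn k g n

variable {k : Type u} [Field k] {U : Type u} [Ring U] [Algebra k U]

theorem AC.tensor {R R' : Type u} [Ring R] [Algebra k R] [Ring R'] [Algebra k R'] (h : AC k R)
    (h' : AC k R') : AC k (R ⊗[k] R') := by
  obtain ⟨G, _, g, h1, h2⟩ := h
  obtain ⟨G', _, g', h1', h2'⟩ := h'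
  let γ : G ⊕ G' → R ⊗[k] R' := Sum.elim (fun a => g a ⊗ₜ 1) fun b => 1 ⊗ₜ g' b
  have hl : ∀ {n x}, x ∈ Bn k g n → x ⊗ₜ (1 : R') ∈ Bn k γ n := fun hx =>
    Bn_map g γ Algebra.TensorProduct.includeLeft Sum.inl (fun _ => rfl) hx
  have hr : ∀ {n x}, x ∈ Bn k g' n → (1 : R) ⊗ₜ x ∈ Bn k γ n := fun hx =>
    Bn_map g' γ Algebra.TensorProduct.includeRight Sum.inr (fun _ => rfl) hx
  refine ⟨G ⊕ G', inferInstance, γ, ?_, fun x => ?_⟩
  · rintro (a | a) (b | b)
    · simpa [γ, sub_tmul] using hl (h1 a b)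
    · simp [γ]
    · simp [γ]
    · simpa [γ, tmul_sub] using hr (h1' a b)
  · change x ∈ BnAll k γ
    induction x using TensorProduct.induction_on with
    | zero => exact Subalgebra.zero_mem _
    | add a b ha hb => exact Subalgebra.add_mem _ ha hb
    | tmul a b =>
      obtain ⟨i, hi⟩ := h2 a
      obtain ⟨j, hj⟩ := h2' b
      simpa using (BnAll k γ).mul_mem ⟨i, hl hi⟩ ⟨j, hr hj⟩

theorem ac_weyl (m : ℕ) : AC k (Weyl k m) := by
  have h1 : (1 : Weyl k m) ∈ Bn k (H82Weyl.gen k m) 2 := Bn_mono _ one_le_two (one_mem_Bn _)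
  refine ⟨_, inferInstance, H82Weyl.gen k m, ?_, fun x => ?_⟩
  · rintro (i | i) (j | j)
    · rw [H82Weyl.gen_ss]; simp
    · rw [H82Weyl.gen_ds]; split_ifs <;> simp [h1]
    · rw [H82Weyl.gen_ds]; split_ifs <;> simp [h1]
    · rw [H82Weyl.gen_dd]; simp
  · change x ∈ BnAll k _
    exact H82Weyl.induction k m (P := fun x => x ∈ BnAll k (H82Weyl.gen k m))
      (fun c => Subalgebra.algebraMap_mem _ c) (fun a => ⟨2, gen_mem_Bn _ a⟩)
      (fun a b => Subalgebra.mul_mem _) (fun a b => Subalgebra.add_mem _) x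

theorem ac_loc : AC k (LocWeyl k) := by
  let g : Fin 3 → LocWeyl k := ![gL k 0, gL k 1, gL k 0 * gL k 2]
  have e1 : g 2 * g 0 - g 0 * g 2 = g 0 := by
    change gL k 0 * gL k 2 * gL k 0 - gL k 0 * (gL k 0 * gL k 2) = gL k 0
    rw [mul_assoc, gL20, mul_add, mul_one, add_sub_cancel_left]
  have e2 : g 1 * g 2 - g 2 * g 1 = g 1 := by
    change gL k 1 * (gL k 0 * gL k 2) - gL k 0 * gL k 2 * gL k 1 = gL k 1
    rw [← mul_assoc, gL10, one_mul, ← sub_eq_iff_eq_add.mpr gL20, sub_mul, mul_assoc, gL01,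
      mul_one, one_mul, sub_sub_cancel]
  have e3 : g 0 * g 1 - g 1 * g 0 = 0 := by
    change gL k 0 * gL k 1 - gL k 1 * gL k 0 = 0
    rw [gL01, gL10, sub_self]
  have hneg : ∀ a b, g a * g b - g b * g a ∈ Bn k g 2 → g b * g a - g a * g b ∈ Bn k g 2 :=
    fun a b h => by rw [← neg_sub]; exact Submodule.neg_mem _ h
  have m1 : g 2 * g 0 - g 0 * g 2 ∈ Bn k g 2 := e1.symm ▸ gen_mem_Bn g 0
  have m2 : g 1 * g 2 - g 2 * g 1 ∈ Bn k g 2 := e2.symm ▸ gen_mem_Bn g 1
  have m3 : g 0 * g 1 - g 1 * g 0 ∈ Bn k g 2 := e3.symm ▸ Submodule.zero_mem _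
  have m0 : ∀ a, g a * g a - g a * g a ∈ Bn k g 2 := fun a => by simp
  refine ⟨_, inferInstance, g, fun a b => ?_, fun x => loc_ind (BnAll k g) (fun i => ?_) x⟩
  · fin_cases a <;> fin_cases b
    exacts [m0 0, m3, hneg _ _ m1, hneg _ _ m3, m0 1, m2, m1, hneg _ _ m2, m0 2]
  · fin_cases i
    · exact ⟨2, gen_mem_Bn g 0⟩
    · exact ⟨2, gen_mem_Bn g 1⟩
    · have : gL k 2 = g 1 * g 2 := by
        change gL k 2 = gL k 1 * (gL k 0 * gL k 2)
        rw [← mul_assoc, gL10, one_mul]
      change gL k 2 ∈ _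
      rw [this]
      exact Subalgebra.mul_mem _ ⟨2, gen_mem_Bn g 1⟩ ⟨2, gen_mem_Bn g 2⟩

theorem ac_locPow (a : ℕ) : AC k (LocPow k a) := by
  induction a with
  | zero =>
    exact ⟨Empty, inferInstance, Empty.elim, fun a => a.elim,
      fun x => (BnAll k (Empty.elim : Empty → k)).algebraMap_mem x⟩
  | succ a ih => exact ac_loc.tensor ih

open MvPolynomial

theorem growth_mu [CharZero k] {e : Polynomial k →ₗ[k] U} (he : IsBr e) {R G : Type*} [Ring R]
    [Algebra k R] (g : G → R) (hall : ∀ x, ∃ n, x ∈ Bn k g n) (φ : U →ₐ[k] R) :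
    ∃ c, ∀ {ς : Type} (l : List ς) (F : MvPolynomial ς k),
      φ (mu e l F) ∈ Bn k g (c * (F.totalDegree + 1) * l.length + 1) := by
  obtain ⟨c, hc⟩ : ∃ c, ∀ n, φ (e (Polynomial.X ^ n)) ∈ Bn k g (c * (n + 1) + 1) := by
    choose s hs using fun n : ℕ => hall (φ (e (Polynomial.X ^ n)))
    refine ⟨s 0 + s 1 + s 2 + s 3, fun n => ?_⟩
    induction n with
    | zero => exact Bn_mono g (by omega) (hs 0)
    | succ n ih =>
      by_cases hn : n < 3
      · refine Bn_mono g ?_ (hs (n + 1))
        interval_cases n <;> simp <;> omega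
      · obtain ⟨m, rfl⟩ : ∃ m, n = m + 3 := ⟨n - 3, by omega⟩
        have h1 := he (Polynomial.X ^ 2) (Polynomial.X ^ (m + 3))
        have h2 : (Polynomial.X ^ 2 * Polynomial.derivative (Polynomial.X ^ (m + 3)) -
            Polynomial.derivative (Polynomial.X ^ 2) * Polynomial.X ^ (m + 3) : Polynomial k) =
            ((m + 1 : ℕ) : k) • Polynomial.X ^ (m + 3 + 1) := by
          rw [Polynomial.derivative_X_pow, Polynomial.derivative_X_pow, Polynomial.smul_eq_C_mul]
          simp only [Nat.add_one_sub_one, map_natCast]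
          push_cast
          ring
        rw [h2, map_smul] at h1
        rw [← Submodule.smul_mem_iff _ (Nat.cast_ne_zero.2 (Nat.succ_ne_zero m) :
          ((m + 1 : ℕ) : k) ≠ 0), ← map_smul, ← h1, map_sub, map_mul, map_mul]
        have h3 : φ (e (Polynomial.X ^ 2)) ∈ Bn k g (s 0 + s 1 + s 2 + s 3 + 1) :=
          Bn_mono g (by omega) (hs 2)
        exact Submodule.sub_mem _ (Bn_mono g (le_of_eq (by ring)) (Bn_mul g h3 ih))
          (Bn_mono g (le_of_eq (by ring)) (Bn_mul g ih h3))
  refine ⟨c, fun {ς} l F => ?_⟩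
  · have hw : ∀ β : ς →₀ ℕ, (∀ v, β v ≤ F.totalDegree) →
        φ (word (fun _ n => e (Polynomial.X ^ n)) l β) ∈
          Bn k g (c * (F.totalDegree + 1) * l.length + 1) := by
      intro β hβ
      induction l with
      | nil => simpa [word] using one_mem_Bn g
      | cons v l ih =>
        rw [word, map_mul]
        refine Bn_mono g ?_ (Bn_mul g ih (hc (β v)))
        have := Nat.mul_le_mul_left c (Nat.succ_le_succ (hβ v))
        simp only [List.length_cons, Nat.succ_eq_add_one] at this ⊢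
        nlinarith
    conv => enter [2, 2, 2]; rw [F.as_sum]
    rw [map_sum, map_sum]
    refine Submodule.sum_mem _ fun β hβ => ?_
    rw [mu, Phi_monomial, map_mul, Algebra.ofId_apply, AlgHom.commutes, ← Algebra.commutes,
      ← Algebra.smul_def]
    refine Submodule.smul_mem _ _ (hw β fun v => ?_)
    exact (Finsupp.le_degree v β).trans (le_totalDegree hβ)

theorem count {R G : Type*} [Ring R] [Algebra k R] [Fintype G] (g : G → R)
    (hg : ∀ a b, g a * g b - g b * g a ∈ Bn k g 2) {m : ℕ} (hm : m = Fintype.card G + 1)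
    (w : MvPolynomial (Fin m) k →ₗ[k] R) (C0 : ℕ)
    (hw : ∀ h, w h ∈ Bn k g (C0 * (h.totalDegree + 1))) :
    ∃ h, w h = 0 ∧ ∑ σ : Equiv.Perm (Fin m), rename σ h ≠ 0 := by
  classical
  by_contra hcon
  push Not at hcon
  obtain ⟨C1, hC1⟩ : ∃ C1, C1 = C0 * (m * m + 1) := ⟨_, rfl⟩
  obtain ⟨n, hn⟩ : ∃ n, n = C1 ^ Fintype.card G + 1 := ⟨_, rfl⟩
  have hn0 : 0 < n := by omega
  let β : (Fin m → Fin n) → (Fin m →₀ ℕ) := fun γ =>
    Finsupp.equivFunOnFinite.symm fun i => (γ i : ℕ) + n * i
  have hβ : ∀ γ i, β γ i = (γ i : ℕ) + n * i := fun _ _ => rfl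
  have hli : LinearIndependent k fun γ => w (monomial (β γ) 1) := by
    rw [Fintype.linearIndependent_iff]
    intro a ha γ0
    have h3 := congrArg (coeff (β γ0)) (hcon (∑ γ, a γ • monomial (β γ) (1 : k)) (by
      simp only [map_sum, map_smul]
      exact ha))
    simp only [map_sum, map_smul, rename_monomial, coeff_sum, coeff_smul, coeff_monomial,
      coeff_zero] at h3
    have h4 : ∀ (σ : Equiv.Perm (Fin m)) γ, Finsupp.mapDomain σ (β γ) = β γ0 → σ = 1 ∧ γ = γ0 := by
      intro σ γ h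
      have h5 : ∀ i, (γ i : ℕ) + n * i = γ0 (σ i) + n * σ i := by
        intro i
        rw [← hβ, ← hβ, ← h, Finsupp.mapDomain_apply σ.injective]
      have h6 : ∀ i, σ i = i := by
        intro i
        have := congrArg (· / n) (h5 i)
        simp only [Nat.add_mul_div_left _ _ hn0, Nat.div_eq_of_lt (Fin.is_lt _), zero_add] at this
        exact Fin.ext this.symm
      refine ⟨Equiv.ext h6, funext fun i => Fin.ext ?_⟩
      have := h5 i
      rw [h6] at this
      omega
    rw [Finset.sum_eq_single 1, Finset.sum_eq_single γ0] at h3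
    · simpa using h3
    · intro γ _ hγ
      rw [if_neg fun h => hγ (h4 _ _ h).2, smul_zero]
    · simp
    · intro σ _ hσ
      refine Finset.sum_eq_zero fun γ _ => ?_
      rw [if_neg fun h => hσ (h4 _ _ h).1, smul_zero]
    · simp
  obtain ⟨S, hS1, hS2, hS3⟩ := finrank_Bn2 g hg (C1 * n)
  have hmem : ∀ γ, w (monomial (β γ) 1) ∈ S := by
    intro γ
    refine hS3 (Bn_mono g ?_ (hw (monomial (β γ) 1)))
    have h1 : (monomial (β γ) (1 : k)).totalDegree ≤ m * (n * m) := by
      refine (totalDegree_monomial_le _ _).trans ?_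
      rw [Finsupp.sum_fintype _ _ (by simp)]
      refine (Finset.sum_le_card_nsmul _ _ (n * m) fun i _ => ?_).trans (by simp)
      have h2 := (γ i).is_lt
      have h3 := Nat.mul_le_mul_left n (Nat.succ_le_of_lt i.is_lt)
      simp only [id, hβ, Nat.succ_eq_add_one] at h3 ⊢
      nlinarith
    have h2 : (monomial (β γ) (1 : k)).totalDegree + 1 ≤ (m * m + 1) * n := by nlinarith
    rw [hC1, mul_assoc]
    exact Nat.mul_le_mul_left C0 h2
  have h5 := (LinearIndependent.of_comp S.subtype (v := fun γ => (⟨_, hmem γ⟩ : S))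
    hli).fintype_card_le_finrank
  simp only [Fintype.card_fun, Fintype.card_fin] at h5
  have h6 := h5.trans hS2
  rw [hm, pow_succ, mul_pow, mul_comm] at h6
  have := Nat.le_of_mul_le_mul_right h6 (pow_pos hn0 _)
  omega

theorem psi_injective {I : Type} [Fintype I] [DecidableEq I] :
    Function.Injective (psi k : MvPolynomial I k →ₐ[k] LP k I) := by
  obtain ⟨A, _, _, t, d, hB⟩ := exists_base2 (k := k) I
  obtain ⟨j0, -, h1, -⟩ := hB.exists_j
  have : j0.comp (psi k) = aeval t := MvPolynomial.algHom_ext fun i => by simp [psi_X, h1]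
  exact Function.Injective.of_comp (f := j0) (by rw [← AlgHom.coe_comp, this]; exact hB.inj)

theorem isWitt_DZ {I : Type*} [Fintype I] [DecidableEq I] : IsWitt k (DZ k (I := I)) := by
  intro a b
  refine LinearMap.ext (lin_ext fun β => ?_)
  simp only [LinearMap.sub_apply, Module.End.mul_apply, DZ_mono, map_sum, map_smul,
    LinearMap.smul_apply, Finset.smul_sum, smul_smul]
  conv_lhs => enter [2]; rw [Finset.sum_comm]
  rw [← Finset.sum_sub_distrib]
  refine Finset.sum_congr rfl fun v _ => ?_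
  rw [← Finset.sum_sub_distrib, Finset.sum_eq_single v]
  · rw [add_assoc, add_assoc, ← Pi.single_add, ← Pi.single_add,
      show b - 1 + (a - 1) = a + b - 1 - 1 by ring, show a - 1 + (b - 1) = a + b - 1 - 1 by ring,
      ← sub_smul]
    congr 1
    simp only [Pi.add_apply, Pi.single_eq_same]
    push_cast; ring
  · intro w _ hw
    rw [add_right_comm, ← sub_smul]
    simp [hw, hw.symm, mul_comm]
  · simp

theorem not_inj_witt [CharZero k] {ε : ℤ → U} (hε : IsWitt k ε)
    (huniv : ∀ (R : Type u) [Ring R] [Algebra k R] (ε' : ℤ → R), IsWitt k ε' →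
      ∃ φ : U →ₐ[k] R, ∀ z, φ (ε z) = ε' z)
    {R : Type u} [Ring R] [Algebra k R] (hR : AC k R) (φ : U →ₐ[k] R) :
    ¬ Function.Injective φ := by
  intro hφ
  obtain ⟨G, _, g, hg, hall⟩ := hR
  obtain ⟨c, hmu⟩ := growth_mu (isBr_eP hε) g hall φ
  set m := Fintype.card G + 1 with hm
  set l := List.finRange m with hl
  have hln : l.Nodup := List.nodup_finRange m
  have hlc : ∀ v, v ∈ l := List.mem_finRange
  set K := 2 * (2 + (pl l).length) with hK
  obtain ⟨ψ, hψ⟩ := huniv _ _ (isWitt_DZ (k := k) (I := Fin m))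
  set F0 : MvPolynomial (Fin m × Bool) k := PP k (fun _ => top 1) l * disc k Prod.fst ^ K with hF0
  let z : MvPolynomial (Fin m) k →ₗ[k] U := mu (eP k ε 0) (pl l) ∘ₗ LinearMap.mulLeft k F0 ∘ₗ
    (rename (fun i => (i, true)) : MvPolynomial (Fin m) k →ₐ[k] _).toLinearMap
  set Θ : LP k (Fin m) :=
    eval (fun v : Fin m × Bool => tt k v.1) (disc (LP k (Fin m)) Prod.fst) ^ K with hΘ
  have hΘ0 : Θ ≠ 0 := by
    refine pow_ne_zero _ ?_
    simp only [disc, map_prod, map_sub, eval_X]
    refine Finset.prod_ne_zero_iff.2 fun p hp => sub_ne_zero.2 fun h => ?_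
    exact (Finset.mem_filter.1 hp).2 (tt_injective h)
  have hz : ∀ h, ψ (z h) 1 = ((-4 : k) ^ m) • (Θ * ∑ σ : Equiv.Perm (Fin m), psi k (rename σ h)) := by
    intro h
    change ψ (mu (eP k ε 0) (pl l) (F0 * rename (fun i => (i, true)) h)) 1 = _
    have hx : (fun (_ : Fin m × Bool) n => ψ (eP k ε 0 (Polynomial.X ^ n))) =
        xE (Algebra.lmul k (LP k (Fin m))) (tt k) (DL k) := by
      funext v n; rw [eP_zero_pow, hψ]; exact LinearMap.ext fun G => (xE_DL v n G).symm
    rw [mu, map_Phi, hx, ← Phi_map (Algebra.lmul k (LP k (Fin m))), hF0, mul_assoc,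
      map_mul (MvPolynomial.map _), map_mul (MvPolynomial.map _), map_pow, map_disc, map_PP,
      isSys_DL.pair_formula (n := fun _ => 1) (fun i α h => DL_zero i α h) (N := 2)
        (fun _ => one_lt_two) hln hlc le_rfl]
    simp only [LinearMap.coe_sum, Finset.sum_apply, Finset.mul_sum, Finset.smul_sum]
    refine Finset.sum_congr rfl fun σ _ => ?_
    have hc : (fun i : Fin m => cc (DL k (σ i)) (top 1)) =
        fun _ => algebraMap k (Module.End k (LP k (Fin m))) (-4) := by
      funext i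
      rw [cc_one (fun α h => DL_zero _ α h)]
      simp only [DL, one_ne_zero, if_false, if_true, map_neg, map_ofNat]
      norm_num
    have hlen : l.length = m := List.length_finRange
    rw [hc, cw_const, ← map_pow, hlen, map_mul (eval _), map_pow (eval _), eval_map_psi,
      eval_disc_perm (tt k) σ, ← hK, ← hΘ,
      Module.End.mul_apply, Module.algebraMap_end_apply]
    simp
  obtain ⟨h, h1, h2⟩ := count g hg hm (φ.toLinearMap ∘ₗ z)
    (c * (F0.totalDegree + 1) * (pl l).length + 1) fun h => by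
      refine Bn_mono g ?_ (hmu (pl l) (F0 * rename (fun i => (i, true)) h))
      have h1 : (F0 * rename (fun i => (i, true)) h).totalDegree ≤ F0.totalDegree + h.totalDegree :=
        (totalDegree_mul _ _).trans (Nat.add_le_add_left (totalDegree_rename_le _ _) _)
      have h2 : (F0 * rename (fun i => (i, true)) h).totalDegree + 1 ≤
          (F0.totalDegree + 1) * (h.totalDegree + 1) := by nlinarith
      have h3 := Nat.mul_le_mul_right (pl l).length (Nat.mul_le_mul_left c h2)
      nlinarith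
  have h3 := hz h
  rw [hφ (h1.trans (map_zero φ).symm), map_zero, LinearMap.zero_apply, eq_comm, smul_eq_zero,
    mul_eq_zero, ← map_sum] at h3
  exact h2 (psi_injective (((h3.resolve_left (pow_ne_zero _ (by norm_num))).resolve_left
    hΘ0).trans (map_zero _).symm))

theorem not_inj_vir [CharZero k] [Nontrivial U] {ε : ℤ → U} {c : k} (hε : IsVir k ε c) (hc : c ≠ 0)
    {R : Type u} [Ring R] [Algebra k R] (hR : AC k R) (φ : U →ₐ[k] R) :
    ¬ Function.Injective φ := by
  intro hφ
  obtain ⟨G, _, g, hg, hall⟩ := hR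
  obtain ⟨c0, hmu⟩ := growth_mu hε.isBr g hall φ
  obtain ⟨h, h1, h2⟩ := count g hg rfl
    (φ.toLinearMap ∘ₗ mu (eP k ε 0) (List.finRange (Fintype.card G + 1)))
    (c0 * (Fintype.card G + 1) + 1) fun h => by
      refine Bn_mono g ?_ (hmu _ h)
      rw [List.length_finRange]
      nlinarith
  have h3 := core_vir hε ⊥ (fun q hq u => by rw [(Submodule.mem_bot _).1 hq, zero_mul]; rfl)
    (q := 0) (Submodule.zero_mem _) (H0 := psi k h) (by
      rw [muL_psi, hφ (h1.trans (map_zero φ).symm), sub_zero]; exact Submodule.zero_mem _) (by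
      simp only [ren_psi, ← map_sum]
      exact fun h0 => h2 (psi_injective (h0.trans (map_zero _).symm)))
  exact bot_ne_top (top_of_disc hε hc ⊥
    (fun q hq u => by rw [(Submodule.mem_bot _).1 hq, zero_mul]; rfl) _ h3)

end

end Pool.Agent.Lib.MP_4da284_al.Q2
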