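import Pool.Agent.Lib.MP_4da284_al.H44Main
import Pool.Agent.Lib.MP_4da284_al.H44Growth

namespace Pool.Agent.Lib.MP_4da284_al.Q2

open Q1 TensorProduct LaurentPolynomial UniversalEnvelopingAlgebra

noncomputable section

universe u

attribute [local instance 100] LieRing.ofAssociativeRing

variable {k : Type u} [Field k]

theorem gen_env {g : Type u} [LieRing g] [LieAlgebra k g]
    (S : Subalgebra k (UniversalEnvelopingAlgebra k g)) (h : ∀ x, ι k x ∈ S) : S = ⊤ := by
  rw [eq_top_iff]
  intro u _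
  obtain ⟨x, rfl⟩ : ∃ x, UniversalEnvelopingAlgebra.mkAlgHom k _ x = u := Quot.exists_rep u
  induction x using TensorAlgebra.induction with
  | algebraMap r => rw [AlgHom.commutes]; exact Subalgebra.algebraMap_mem _ _
  | ι x => exact h x
  | mul a b ha hb => rw [map_mul]; exact Subalgebra.mul_mem _ (ha trivial) (hb trivial)
  | add a b ha hb => rw [map_add]; exact Subalgebra.add_mem _ (ha trivial) (hb trivial)

theorem br_coord (D D' : Witt k) :
    ⁅D, D'⁆ (T 1) = D (T 1) * dT k (D' (T 1)) - D' (T 1) * dT k (D (T 1)) := by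
  rw [Derivation.commutator_apply]
  congr 1
  · exact DFunLike.congr_fun (witt_eq D) _
  · exact DFunLike.congr_fun (witt_eq D') _

theorem coord_smul (f : LaurentPolynomial k) : (f • dT k : Witt k) (T 1) = f := by
  rw [Derivation.smul_apply, dT_T]; simp

variable (k) in
def εW (z : ℤ) : UniversalEnvelopingAlgebra k (Witt k) :=
  ι k ((T z : LaurentPolynomial k) • dT k)

theorem isWitt_εW : IsWitt k (εW k) := by
  intro a b
  have : ⁅((T a : LaurentPolynomial k) • dT k : Witt k), (T b : LaurentPolynomial k) • dT k⁆ =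
      ((b : k) - a) • ((T (a + b - 1) : LaurentPolynomial k) • dT k : Witt k) := by
    rw [witt_eq ⁅_, _⁆, br_coord, coord_smul, coord_smul, dT_T, dT_T, ← smul_assoc]
    congr 1
    simp only [mul_smul_comm, ← T_add, sub_smul]
    rw [show a + (b - 1) = a + b - 1 by ring, show b + (a - 1) = a + b - 1 by ring]
  rw [εW, εW, εW, ← map_smul (ι k), ← this, LieHom.map_lie]; rfl

theorem gen_εW : Algebra.adjoin k (Set.range (εW k)) = ⊤ := by
  refine gen_env _ fun D => ?_
  rw [witt_eq D]
  induction D (T 1) using laurent_ind with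
  | h0 => rw [zero_smul, map_zero (ι k)]; exact Subalgebra.zero_mem _
  | hadd f g hf hg => rw [add_smul, map_add (ι k)]; exact Subalgebra.add_mem _ hf hg
  | hT r n =>
    rw [smul_assoc, map_smul (ι k)]
    exact Subalgebra.smul_mem _ (Algebra.subset_adjoin (Set.mem_range_self n)) _

theorem univ_εW (R : Type u) [Ring R] [Algebra k R] (ε : ℤ → R) (hε : IsWitt k ε) :
    ∃ φ : UniversalEnvelopingAlgebra k (Witt k) →ₐ[k] R, ∀ z, φ (εW k z) = ε z := by
  let ψ : Witt k →ₗ⁅k⁆ R :=
    { lin k ε ∘ₗ coord k with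
      map_lie' := by
        intro D D'
        have key : ∀ f g : LaurentPolynomial k, lin k ε (f * dT k g - g * dT k f) =
            lin k ε f * lin k ε g - lin k ε g * lin k ε f := by
          intro f g
          induction f using laurent_ind with
          | h0 => simp
          | hadd f f' hf hf' =>
            rw [map_add, map_add, add_mul, mul_add, add_sub_add_comm, map_add, hf, hf']
            noncomm_ring
          | hT r a =>
            induction g using laurent_ind with
            | h0 => simp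
            | hadd g g' hg hg' =>
              rw [map_add, map_add (lin k _) g, add_mul, mul_add, add_sub_add_comm, map_add, hg,
                hg']
              noncomm_ring
            | hT s b =>
              simp only [Derivation.map_smul, dT_T, smul_mul_smul_comm, ← T_add, map_sub, map_smul,
                lin_T, smul_smul]
              rw [mul_comm s r, ← smul_sub (r * s) (ε a * ε b), hε,
                show a + (b - 1) = a + b - 1 by ring, show b + (a - 1) = a + b - 1 by ring]
              module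
        change lin k _ (⁅D, D'⁆ (T 1)) = _
        rw [br_coord, key]
        rfl }
  refine ⟨UniversalEnvelopingAlgebra.lift k ψ, fun z => ?_⟩
  rw [εW, lift_ι_apply]
  change lin k ε (((T z : LaurentPolynomial k) • dT k : Witt k) (T 1)) = _
  rw [coord_smul, lin_T]

theorem ac_target (a b : ℕ) : AC k (LocPow k a ⊗[k] Weyl k b) :=
  (ac_locPow a).tensor (ac_weyl b)

theorem nontrivial_loc : Nontrivial (LocWeyl k) := by
  refine (llift (k := k) (x := (dT k).toLinearMap) (y := LinearMap.mulLeft k (T 1))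
    (y' := LinearMap.mulLeft k (T (-1))) ?_ ?_ ?_).toRingHom.domain_nontrivial
  · refine LinearMap.ext fun f => ?_
    change dT k (T 1 * f) - T 1 * dT k f = f
    rw [Derivation.leibniz, dT_T]; simp
  · refine LinearMap.ext fun f => ?_
    change T 1 * (T (-1) * f) = f
    rw [← mul_assoc, ← T_add]; simp
  · refine LinearMap.ext fun f => ?_
    change T (-1) * (T 1 * f) = f
    rw [← mul_assoc, ← T_add]; simp

theorem pad {U : Type u} [Ring U] [Algebra k U] {Q : Ideal U} :
    (∃ a ≥ 1, ∃ m, ∃ φ : U →ₐ[k] LocPow k a ⊗[k] Weyl k m, RingHom.ker φ = Q) ↔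
      ∃ a m, ∃ φ : U →ₐ[k] LocPow k a ⊗[k] Weyl k m, RingHom.ker φ = Q := by
  refine ⟨fun ⟨a, _, h⟩ => ⟨a, h⟩, fun ⟨a, m, φ, h⟩ => ⟨a + 1, Nat.succ_pos a, m, ?_⟩⟩
  have := nontrivial_loc (k := k)
  let j : LocPow k a →ₐ[k] LocWeyl k ⊗[k] LocPow k a := Algebra.TensorProduct.includeRight
  have hj : Function.Injective j :=
    Algebra.TensorProduct.includeRight_injective (algebraMap k (LocWeyl k)).injective
  exact ⟨(Algebra.TensorProduct.map j (AlgHom.id k (Weyl k m))).comp φ, (ker_comp_inj φ _
    (Module.Flat.rTensor_preserves_injective_linearMap (M := Weyl k m) j.toLinearMap hj)).trans h⟩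

theorem main_witt [IsAlgClosed k] [CharZero k] [Uncountable k]
    (Q : Ideal (UniversalEnvelopingAlgebra k (Witt k))) (hQ : IsPrimitiveIdeal Q) :
    (∃ a b, ∃ φ : UniversalEnvelopingAlgebra k (Witt k) →ₐ[k] LocPow k a ⊗[k] Weyl k b,
      RingHom.ker φ = Q) ↔ Q ≠ ⊥ := by
  refine ⟨?_, main_abstract isWitt_εW gen_εW univ_εW hQ⟩
  rintro ⟨a, b, φ, rfl⟩ h
  exact not_inj_witt isWitt_εW univ_εW (ac_target a b) φ
    ((RingHom.injective_iff_ker_eq_bot φ).2 h)

theorem prim_ne_top {U : Type u} [Ring U] {Q : Ideal U} (hQ : IsPrimitiveIdeal Q) : Q ≠ ⊤ := by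
  obtain ⟨M, _, _, hM, rfl⟩ := hQ
  have := IsSimpleModule.nontrivial U M
  intro h
  obtain ⟨x, hx⟩ := exists_ne (0 : M)
  have h1 : (1 : U) ∈ Module.annihilator U M := h ▸ Submodule.mem_top
  exact hx (by simpa using Module.mem_annihilator.1 h1 x)

theorem prim_two {U : Type u} [Ring U] {Q : Ideal U} (hQ : IsPrimitiveIdeal Q) :
    ∀ q ∈ Q, ∀ u, q * u ∈ Q := by
  obtain ⟨M, _, _, hM, rfl⟩ := hQ
  exact fun q hq u => Module.mem_annihilator.2 fun v => by
    rw [mul_smul]; exact Module.mem_annihilator.1 hq _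

theorem prim_map {U U' : Type u} [Ring U] [Ring U'] (f : U →+* U') (hf : Function.Surjective f)
    {Q : Ideal U} (hQ : IsPrimitiveIdeal Q) (hk : RingHom.ker f ≤ Q) :
    ∃ Q' : Ideal U', IsPrimitiveIdeal Q' ∧ Q'.comap f = Q := by
  obtain ⟨M, _, _, hM, rfl⟩ := hQ
  let ρ : U' →+* AddMonoid.End M := f.liftOfSurjective hf ⟨Module.toAddMonoidEnd U M, fun a ha =>
    AddMonoidHom.ext fun m => Module.mem_annihilator.1 (hk ha) m⟩
  let _ : Module U' M := Module.compHom M ρ
  have hs : ∀ (u : U) (m : M), f u • m = u • m := fun u m =>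
    show ρ (f u) m = _ by rw [RingHom.liftOfSurjective_comp_apply]; rfl
  have : RingHomSurjective f := ⟨hf⟩
  let l : M →ₛₗ[f] M := ⟨⟨id, fun _ _ => rfl⟩, fun u m => (hs u m).symm⟩
  refine ⟨_, ⟨M, inferInstance, inferInstance,
    (l.isSimpleModule_iff_of_bijective Function.bijective_id).1 hM, rfl⟩, ?_⟩
  ext u
  simp only [Ideal.mem_comap, Module.mem_annihilator, hs]

section Vir

variable {g : Type u} [LieRing g] [LieAlgebra k g] {b : Module.Basis (Option ℤ) k g}

theorem z_comm (hb : IsVirasoro k g b) (u : UniversalEnvelopingAlgebra k g) :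
    ι k (b none) * u = u * ι k (b none) := by
  have := gen_env (Subalgebra.centralizer k {ι k (b none)}) fun x => by
    rw [Subalgebra.mem_centralizer_iff]
    rintro _ rfl
    rw [← sub_eq_zero, ← Ring.lie_def, ← LieHom.map_lie, hb.lie_z, map_zero (ι k)]
  have hu : u ∈ Subalgebra.centralizer k {ι k (b none)} := this ▸ Algebra.mem_top
  exact (Subalgebra.mem_centralizer_iff k).1 hu _ rfl

theorem central_two (hb : IsVirasoro k g b) (c : k) : (centralIdeal (b none) c).IsTwoSided :=
  ⟨fun {a} u ha => by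
    obtain ⟨y, rfl⟩ := Ideal.mem_span_singleton'.1 ha
    rw [mul_assoc, sub_mul, z_comm hb, Algebra.commutes, ← mul_sub, ← mul_assoc]
    exact Ideal.mul_mem_left _ _ (Ideal.subset_span rfl)⟩

theorem gen_basis {U : Type u} [Ring U] [Algebra k U]
    (π : UniversalEnvelopingAlgebra k g →ₐ[k] U) (hπ : Function.Surjective π) (S : Subalgebra k U)
    (h : ∀ i, π (ι k (b i)) ∈ S) : S = ⊤ := by
  have := gen_env (S.comap π) fun x => by
    have hx : x ∈ Submodule.span k (Set.range b) := b.span_eq ▸ Submodule.mem_top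
    induction hx using Submodule.span_induction with
    | mem y hy => obtain ⟨i, rfl⟩ := hy; exact h i
    | zero => rw [map_zero (ι k)]; exact Subalgebra.zero_mem _
    | add x y _ _ hx hy => rw [map_add (ι k)]; exact Subalgebra.add_mem _ hx hy
    | smul r x _ hx => rw [map_smul (ι k)]; exact Subalgebra.smul_mem _ hx _
  rw [eq_top_iff]
  intro u _
  obtain ⟨y, rfl⟩ := hπ u
  exact (Subalgebra.mem_comap _ _ _).1 (this ▸ Algebra.mem_top)

variable {U : Type u} [Ring U] [Algebra k U]

def εV (b : Module.Basis (Option ℤ) k g) (π : UniversalEnvelopingAlgebra k g →ₐ[k] U) (a : ℤ) :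
    U := -π (ι k (b (some (a - 1))))

theorem isVir_εV [CharZero k] (hb : IsVirasoro k g b)
    (π : UniversalEnvelopingAlgebra k g →ₐ[k] U) {c : k}
    (hz : π (ι k (b none)) = algebraMap k U c) : IsVir k (εV b π) (c / 12) := by
  intro m n
  simp only [εV, neg_mul_neg, ← map_mul, ← map_sub]
  rw [← Ring.lie_def, ← LieHom.map_lie, hb.lie_L, map_add (ι k), map_smul (ι k), map_smul (ι k),
    map_add, map_smul, map_smul, hz, Algebra.algebraMap_eq_smul_one, smul_smul,
    show m - 1 + (n - 1) = m + n - 1 - 1 by ring]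
  congr 1
  · push_cast; module
  · congr 1
    by_cases h : m + n = 2
    · rw [if_pos h, if_pos (by omega)]; push_cast; ring
    · rw [if_neg h, if_neg (by omega), zero_mul]

theorem gen_εV (π : UniversalEnvelopingAlgebra k g →ₐ[k] U) (hπ : Function.Surjective π) {c : k}
    (hz : π (ι k (b none)) = algebraMap k U c) : Algebra.adjoin k (Set.range (εV b π)) = ⊤ := by
  refine gen_basis (b := b) π hπ _ ?_
  rintro (_ | n)
  · rw [hz]; exact Subalgebra.algebraMap_mem _ _
  · rw [← neg_mem_iff]
    exact Algebra.subset_adjoin ⟨n + 1, by simp [εV]⟩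

theorem IsVir.isWitt {ε : ℤ → U} (h : IsVir k ε 0) : IsWitt k ε := fun m n => by
  simpa using h m n

theorem lift_witt (hb : IsVirasoro k g b) (R : Type u) [Ring R] [Algebra k R] (ε : ℤ → R)
    (hε : IsWitt k ε) : ∃ φ : UniversalEnvelopingAlgebra k g →ₐ[k] R,
      φ (ι k (b none)) = 0 ∧ ∀ a, εV b φ a = ε a := by
  let ψ0 : g →ₗ[k] R := b.constr k fun i => i.elim 0 fun n => -ε (n + 1)
  have h0 : ψ0 (b none) = 0 := b.constr_basis k _ _
  have h1 : ∀ n, ψ0 (b (some n)) = -ε (n + 1) := fun n => b.constr_basis k _ _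
  let ψ : g →ₗ⁅k⁆ R :=
    { ψ0 with
      map_lie' := by
        intro x y
        have : (LieAlgebra.ad k g).toLinearMap.compr₂ ψ0 =
            ((LieAlgebra.ad k R).toLinearMap.compl₁₂ ψ0 ψ0) := by
          refine b.ext fun i => b.ext fun j => ?_
          change ψ0 ⁅b i, b j⁆ = ⁅ψ0 (b i), ψ0 (b j)⁆
          rcases i with _ | m
          · rw [hb.lie_z, h0, map_zero, zero_lie]
          rcases j with _ | n
          · rw [← lie_skew, hb.lie_z, h0, neg_zero, map_zero, lie_zero]
          rw [hb.lie_L, map_add, map_smul, map_smul, h0, h1, h1, h1, Ring.lie_def, neg_mul_neg,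
            neg_mul_neg, hε, show m + 1 + (n + 1) - 1 = m + n + 1 by ring]
          push_cast; module
        exact LinearMap.congr_fun₂ this x y }
  refine ⟨UniversalEnvelopingAlgebra.lift k ψ, by rw [lift_ι_apply]; exact h0, fun a => ?_⟩
  rw [εV, lift_ι_apply]
  change -ψ0 _ = _
  rw [h1, neg_neg, sub_add_cancel]

theorem mk_z (c : k) [(centralIdeal (b none) c).IsTwoSided] :
    Ideal.Quotient.mkₐ k (centralIdeal (b none) c) (ι k (b none)) = algebraMap k _ c := by
  rw [← (Ideal.Quotient.mkₐ k (centralIdeal (b none) c)).commutes]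
  exact Ideal.Quotient.eq.2 (Ideal.subset_span rfl)

theorem univ_εV (hb : IsVirasoro k g b) [(centralIdeal (b none) (0 : k)).IsTwoSided]
    (R : Type u) [Ring R] [Algebra k R] (ε : ℤ → R) (hε : IsWitt k ε) :
    ∃ φ : (UniversalEnvelopingAlgebra k g ⧸ centralIdeal (b none) (0 : k)) →ₐ[k] R,
      ∀ a, φ (εV b (Ideal.Quotient.mkₐ k _) a) = ε a := by
  obtain ⟨φ, h0, h1⟩ := lift_witt hb R ε hε
  refine ⟨Ideal.Quotient.liftₐ _ φ fun a ha => ?_, fun a => ?_⟩
  · obtain ⟨y, rfl⟩ := Ideal.mem_span_singleton'.1 ha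
    rw [map_mul, map_zero, sub_zero, h0, mul_zero]
  · rw [← h1, εV, εV, map_neg]; rfl

theorem vir_simple [CharZero k] (hb : IsVirasoro k g b) {c : k} (hc : c ≠ 0)
    (J : Ideal (UniversalEnvelopingAlgebra k g)) (hJ : ∀ q ∈ J, ∀ u, q * u ∈ J)
    (h : centralIdeal (b none) c < J) : J = ⊤ := by
  have := central_two hb c
  let π := Ideal.Quotient.mkₐ k (centralIdeal (b none) c)
  have hπ : Function.Surjective π := Ideal.Quotient.mkₐ_surjective k _
  have hc' : (J.map π).comap π = J := by
    rw [Ideal.comap_map_of_surjective π hπ, sup_eq_left]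
    exact fun a ha => h.le (Ideal.Quotient.eq_zero_iff_mem.1 ha)
  have h1 := simple_vir (isVir_εV hb π (mk_z c)) (div_ne_zero hc (by norm_num))
    (gen_εV π hπ (mk_z c)) (J.map π) (fun q hq u => by
      obtain ⟨q, hq', rfl⟩ := (Ideal.mem_map_iff_of_surjective π hπ).1 hq
      obtain ⟨u, rfl⟩ := hπ u
      rw [← map_mul]
      exact Ideal.mem_map_of_mem _ (hJ q hq' u)) fun h0 => h.not_ge fun a ha =>
        Ideal.Quotient.eq_zero_iff_mem.1 ((Submodule.mem_bot _).1 (h0 ▸ Ideal.mem_map_of_mem π ha))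
  rw [← hc', h1, Ideal.comap_top]

theorem main_vir [IsAlgClosed k] [CharZero k] [Uncountable k] (hb : IsVirasoro k g b)
    (Q : Ideal (UniversalEnvelopingAlgebra k g)) (hQ : IsPrimitiveIdeal Q) :
    (∃ a m, ∃ φ : UniversalEnvelopingAlgebra k g →ₐ[k] LocPow k a ⊗[k] Weyl k m,
      RingHom.ker φ = Q) ↔ ∀ c : k, Q ≠ centralIdeal (b none) c := by
  constructor
  · rintro ⟨a, m, φ, rfl⟩ c h
    have := central_two hb c
    let π := Ideal.Quotient.mkₐ k (centralIdeal (b none) c)
    have hφ : Function.Injective (Ideal.Quotient.liftₐ (centralIdeal (b none) c) φ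
        fun x hx => (h ▸ hx : x ∈ RingHom.ker φ)) := by
      rw [injective_iff_map_eq_zero]
      intro x hx
      obtain ⟨x, rfl⟩ := Ideal.Quotient.mk_surjective x
      exact Ideal.Quotient.eq_zero_iff_mem.2 (h ▸ hx)
    by_cases hc : c = 0
    · subst hc
      exact not_inj_witt (IsVir.isWitt (by simpa using isVir_εV hb π (mk_z 0))) (univ_εV hb)
        (ac_target a m) _ hφ
    · have : Nontrivial (UniversalEnvelopingAlgebra k g ⧸ centralIdeal (b none) c) :=
        Ideal.Quotient.nontrivial_iff.2 (h ▸ prim_ne_top hQ)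
      exact not_inj_vir (isVir_εV hb π (mk_z c)) (div_ne_zero hc (by norm_num))
        (ac_target a m) _ hφ
  · intro h
    have hU : Module.rank k (UniversalEnvelopingAlgebra k g) ≤ Cardinal.aleph0 :=
      rank_le_of_gen (Set.countable_range fun i => ι k (b i))
        (gen_basis (b := b) (AlgHom.id k _) Function.surjective_id _ fun i =>
          Algebra.subset_adjoin ⟨i, rfl⟩)
    obtain ⟨c, hc⟩ := (closedPrime_of_primitive k hU hQ).centroid 1 (ι k (b none))
      ((Ideal.ne_top_iff_one Q).1 (prim_ne_top hQ)) fun y => by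
        rw [one_mul, mul_one, z_comm hb, sub_self]; exact Q.zero_mem
    have hle : centralIdeal (b none) c ≤ Q := by
      refine Ideal.span_le.2 ?_
      rintro _ rfl
      rwa [Algebra.algebraMap_eq_smul_one]
    have hc0 : c = 0 := by
      by_contra hc0
      exact prim_ne_top hQ (vir_simple hb hc0 Q (prim_two hQ) (lt_of_le_of_ne hle (h c).symm))
    subst hc0
    have := central_two hb (0 : k)
    let π := Ideal.Quotient.mkₐ k (centralIdeal (b none) (0 : k))
    have hπ : Function.Surjective π := Ideal.Quotient.mkₐ_surjective k _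
    obtain ⟨Q', hQ', hQQ⟩ := prim_map (Ideal.Quotient.mk (centralIdeal (b none) (0 : k))) hπ hQ
      (by rw [Ideal.mk_ker]; exact hle)
    obtain ⟨a, m, ψ, hψ⟩ := main_abstract (IsVir.isWitt (by simpa using isVir_εV hb π (mk_z 0)))
      (gen_εV π hπ (mk_z 0)) (univ_εV hb) hQ' fun h0 => h 0 (by
        rw [← hQQ, h0, ← RingHom.ker_eq_comap_bot, Ideal.mk_ker])
    refine ⟨a, m, ψ.comp π, ?_⟩
    rw [← hQQ, ← hψ]; rfl

end Vir

end

end Pool.Agent.Lib.MP_4da284_al.Q2
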