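import Pool.Agent.Lib.MP_4da284_al.Diff

namespace Pool.Agent.Lib.MP_4da284_al

open AddMonoidAlgebra MvPolynomial

noncomputable section

universe u

variable {k : Type u} [Field k] [CharZero k]

abbrev Mod (k : Type u) [Field k] : Type u := MvPolynomial (Fin 2) k

variable (k) in
def tau (g : ℤ × ℤ) : Mod k →ₐ[k] Mod k := aeval ![X 0 - C (g.1 : k), X 1 - C (g.2 : k)]

omit [CharZero k] in
theorem tau_X0 (g : ℤ × ℤ) : tau k g (X 0) = X 0 - C (g.1 : k) := by simp [tau]

omit [CharZero k] in
theorem tau_X1 (g : ℤ × ℤ) : tau k g (X 1) = X 1 - C (g.2 : k) := by simp [tau]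

omit [CharZero k] in
theorem tau_C (g : ℤ × ℤ) (c : k) : tau k g (C c) = C c := by simp [tau]

omit [CharZero k] in
theorem tau_add (g h : ℤ × ℤ) (p : Mod k) : tau k (g + h) p = tau k g (tau k h p) := by
  have : tau k (g + h) = (tau k g).comp (tau k h) := by
    refine MvPolynomial.algHom_ext fun i => ?_
    fin_cases i
    · simp [tau_X0]; ring
    · simp [tau_X1]; ring
  rw [this]; rfl

omit [CharZero k] in
theorem tau_zero (p : Mod k) : tau k 0 p = p := by
  have : tau k 0 = AlgHom.id k _ := by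
    refine MvPolynomial.algHom_ext fun i => ?_
    fin_cases i
    · simp [tau_X0]
    · simp [tau_X1]
  rw [this]; rfl

variable (k) in
def sh (g : ℤ × ℤ) : Module.End k (Mod k) := ((2 : k) ^ g.2) • (tau k g).toLinearMap

omit [CharZero k] in
theorem sh_apply (g : ℤ × ℤ) (p : Mod k) : sh k g p = ((2 : k) ^ g.2) • tau k g p := rfl

theorem sh_add (g h : ℤ × ℤ) : sh k (g + h) = sh k g * sh k h := by
  refine LinearMap.ext fun p => ?_
  simp only [Module.End.mul_apply, sh_apply, map_smul, tau_add, smul_smul, Prod.snd_add]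
  rw [zpow_add₀ two_ne_zero, mul_comm]

omit [CharZero k] in
theorem sh_zero : sh k 0 = 1 := by
  refine LinearMap.ext fun p => ?_
  simp [sh_apply, tau_zero]

variable (k) in
def iota : k[ℤ × ℤ] →ₐ[k] Module.End k (Mod k) :=
  AddMonoidAlgebra.lift k _ (ℤ × ℤ)
    { toFun := fun g => sh k g.toAdd
      map_one' := sh_zero
      map_mul' := fun _ _ => sh_add _ _ }

theorem iota_mono (g : ℤ × ℤ) : iota k (mono k g) = sh k g := by
  simp [iota, mono]

theorem iota_eq (f : k[ℤ × ℤ]) : iota k f = linG k (sh k) f :=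
  lin_ext (φ := (iota k).toLinearMap) (fun g => by simp [iota_mono, linG_mono]) f

theorem iota_injective : Function.Injective (iota k) := by
  rw [injective_iff_map_eq_zero]
  intro f hf
  have hinj : Function.Injective (fun g : ℤ × ℤ => (tau k g : Mod k →* Mod k)) := by
    intro g h e
    have e0 : tau k g (X 0) = tau k h (X 0) := DFunLike.congr_fun e (X 0)
    have e1 : tau k g (X 1) = tau k h (X 1) := DFunLike.congr_fun e (X 1)
    rw [tau_X0, tau_X0, sub_right_inj, C_inj, Int.cast_inj] at e0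
    rw [tau_X1, tau_X1, sub_right_inj, C_inj, Int.cast_inj] at e1
    exact Prod.ext e0 e1
  have hli := (linearIndependent_monoidHom (Mod k) (Mod k)).comp _ hinj
  rw [linearIndependent_iff'] at hli
  have h := hli f.coeff.support (fun g => C (f.coeff g * 2 ^ g.2)) (by
    funext p
    have := LinearMap.congr_fun hf p
    rw [iota_eq] at this
    simp only [linG, LinearMap.comp_apply, LinearEquiv.coe_coe, coeffLinearEquiv_apply,
      Finsupp.linearCombination_apply, Finsupp.sum, LinearMap.sum_apply, LinearMap.smul_apply,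
      sh_apply, smul_smul, LinearMap.zero_apply] at this
    simpa [Finset.sum_apply, MvPolynomial.smul_eq_C_mul] using this)
  ext g
  by_contra hg
  have := h g (Finsupp.mem_support_iff.mpr hg)
  rw [C_eq_zero, mul_eq_zero] at this
  rcases this with h1 | h1
  · exact hg h1
  · exact zpow_ne_zero _ two_ne_zero h1

variable (k) in
def th (i : Fin 2) : Module.End k (Mod k) := LinearMap.mulLeft k (X i)

omit [CharZero k] in
theorem th_apply (i : Fin 2) (p : Mod k) : th k i p = X i * p := rfl

omit [CharZero k] in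
theorem th0_sh (g : ℤ × ℤ) : th k 0 * sh k g = sh k g * (th k 0 + (g.1 : k) • 1) := by
  refine LinearMap.ext fun p => ?_
  simp only [Module.End.mul_apply, sh_apply, th_apply, LinearMap.add_apply, LinearMap.smul_apply,
    Module.End.one_apply, map_add, map_mul, tau_X0, MvPolynomial.smul_eq_C_mul, tau_C]
  ring

omit [CharZero k] in
theorem th1_sh (g : ℤ × ℤ) : th k 1 * sh k g = sh k g * (th k 1 + (g.2 : k) • 1) := by
  refine LinearMap.ext fun p => ?_
  simp only [Module.End.mul_apply, sh_apply, th_apply, LinearMap.add_apply, LinearMap.smul_apply,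
    Module.End.one_apply, map_add, map_mul, tau_X1, MvPolynomial.smul_eq_C_mul, tau_C]
  ring

omit [CharZero k] in
theorem th_comm : th k 0 * th k 1 = th k 1 * th k 0 := by
  refine LinearMap.ext fun p => ?_
  simp only [Module.End.mul_apply, th_apply]
  ring

variable (k) in
def xx (n : ℤ) : Module.End k (Mod k) := sh k (n, 0)
variable (k) in
def yy (n : ℤ) : Module.End k (Mod k) := sh k (0, n)
def XX (lam : k) (n : ℤ) : Module.End k (Mod k) := xx k n * (th k 0 + (lam * n) • 1)
def YY (mu : k) (n : ℤ) : Module.End k (Mod k) := yy k n * (th k 1 + (mu * n) • 1)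

theorem xx_add (m n : ℤ) : xx k (m + n) = xx k m * xx k n := by
  rw [xx, xx, xx, ← sh_add]; simp

theorem yy_add (m n : ℤ) : yy k (m + n) = yy k m * yy k n := by
  rw [yy, yy, yy, ← sh_add]; simp

theorem xx_yy (m n : ℤ) : xx k m * yy k n = sh k (m, n) := by
  rw [xx, yy, ← sh_add]; simp

theorem yy_xx (m n : ℤ) : yy k m * xx k n = sh k (n, m) := by
  rw [xx, yy, ← sh_add]; simp

theorem onePoint_x (lam : k) : OnePoint (lam * (1 - lam)) (xx k) (XX lam) :=
  OnePoint.of_theta lam (xx k) (th k 0) xx_add (fun n => th0_sh (n, 0))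

theorem onePoint_y (mu : k) : OnePoint (mu * (1 - mu)) (yy k) (YY mu) :=
  OnePoint.of_theta mu (yy k) (th k 1) yy_add (fun n => th1_sh (0, n))

theorem cross (lam mu : k) : Cross (xx k) (XX lam) (yy k) (YY mu) := by
  have h1 : ∀ m n, Commute (xx k m) (yy k n) := fun m n => by
    rw [Commute, SemiconjBy, xx_yy, yy_xx]
  have h2 : ∀ m (c : k), Commute (xx k m) (th k 1 + c • 1) := fun m c => by
    refine Commute.add_right ?_ ((Commute.one_right _).smul_right c)
    have := th1_sh (k := k) (m, 0)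
    simp only [Int.cast_zero, zero_smul, add_zero] at this
    exact this.symm
  have h3 : ∀ m (c : k), Commute (th k 0 + c • 1) (yy k m) := fun m c => by
    refine Commute.add_left ?_ ((Commute.one_left _).smul_left c)
    have := th0_sh (k := k) (0, m)
    simp only [Int.cast_zero, zero_smul, add_zero] at this
    exact this
  have h4 : ∀ c d : k, Commute (th k 0 + c • 1) (th k 1 + d • 1) := fun c d =>
    Commute.add_left (Commute.add_right th_comm ((Commute.one_right _).smul_right d))
      ((Commute.one_left _).smul_left c)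
  exact ⟨h1, fun m n => (h1 m n).mul_right (h2 m _), fun m n => (h1 m n).mul_left (h3 n _),
    fun m n => ((h1 m n).mul_right (h2 m _)).mul_left ((h3 n _).mul_right (h4 _ _))⟩

omit [CharZero k] in
theorem theta_bracket {E : Type*} [Ring E] [Algebra k E] (lam : k) (x : ℤ → E) (θ : E)
    (hx : ∀ m n, x (m + n) = x m * x n) (hθ : ∀ n : ℤ, θ * x n = x n * (θ + (n : k) • 1))
    (a b : ℤ) :
    x a * (θ + (lam * a) • 1) * (x b * (θ + (lam * b) • 1)) -
      x b * (θ + (lam * b) • 1) * (x a * (θ + (lam * a) • 1)) =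
    ((b : k) - a) • (x (a + b) * (θ + (lam * (a + b : ℤ)) • 1)) := by
  have h1 : ∀ a b : ℤ, x a * (θ + (lam * a) • 1) * x b =
      x (a + b) * θ + (b + lam * a) • x (a + b) := by
    intro a b
    rw [mul_assoc, add_mul, hθ, hx]
    simp only [mul_add, smul_mul_assoc, mul_smul_comm, one_mul, mul_one, mul_assoc]
    module
  rw [← mul_assoc, ← mul_assoc, h1, h1, add_comm b a]
  simp only [mul_add, add_mul, smul_mul_assoc, mul_smul_comm, mul_one]
  push_cast
  module

def LL (lam mu : k) (n : ℤ) : Module.End k (Mod k) := XX lam n + YY mu n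

theorem LL_bracket (lam mu : k) (a b : ℤ) :
    LL lam mu a * LL lam mu b - LL lam mu b * LL lam mu a = ((b : k) - a) • LL lam mu (a + b) := by
  have h1 := theta_bracket lam (xx k) (th k 0) xx_add (fun n => th0_sh (n, 0)) a b
  have h2 := theta_bracket mu (yy k) (th k 1) yy_add (fun n => th1_sh (0, n)) a b
  have h3 := (cross lam mu).XY a b
  have h4 := (cross lam mu).XY b a
  change XX lam a * XX lam b - XX lam b * XX lam a = ((b : k) - a) • XX lam (a + b) at h1
  change YY mu a * YY mu b - YY mu b * YY mu a = ((b : k) - a) • YY mu (a + b) at h2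
  simp only [LL, mul_add, add_mul, smul_add, ← h1, ← h2, h3, h4]
  abel

theorem Zel_LL (lam mu : k) (g : ℤ × ℤ) :
    Zel k (LL lam mu) g = iota k (dxy k ^ 14 *
      ((8 * (lam * (1 - lam)) * (mu * (1 - mu)) * (lam * (1 - lam))) • mono k g +
       (8 * (lam * (1 - lam)) * (mu * (1 - mu)) * (mu * (1 - mu))) • mono k g.swap)) := by
  have h := Zel_eq (onePoint_x lam) (onePoint_y mu) (cross lam mu) g
  change Zel k (LL lam mu) g = _ at h
  let π : ℤ × ℤ →+ ℤ × ℤ := AddMonoidHom.mk' Prod.swap (fun _ _ => rfl)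
  have h2 := linG_push π 0 (sh k) (dxy k ^ 14 * mono k g)
  have h3 : push k π (dxy k ^ 14 * mono k g) = dxy k ^ 14 * mono k g.swap := by
    rw [map_mul, map_pow, dxy, map_sub, push_mono, push_mono, push_mono]
    simp only [π, AddMonoidHom.mk'_apply, Prod.swap_prod_mk]
    ring
  rw [h3, mono_zero, mul_one, ← iota_eq] at h2
  simp only [add_zero, π, AddMonoidHom.mk'_apply] at h2
  rw [h, linG_add, linG_smul, linG_smul, mul_add, mul_smul_comm, mul_smul_comm, map_add, map_smul,
    map_smul, ← h2, iota_eq]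
  simp only [xx_yy, yy_xx]
  rfl

omit [CharZero k] in
theorem locNil (σ : Mod k →ₐ[k] Mod k) (c : Fin 2 → k) (hσ : ∀ i, σ (X i) = X i - C (c i))
    (p : Mod k) : ∃ m : ℕ, ((σ.toLinearMap - 1 : Module.End k (Mod k)) ^ m) p = 0 := by
  set D : Module.End k (Mod k) := σ.toLinearMap - 1 with hD
  have hD' : ∀ p, D p = σ p - p := fun p => rfl
  induction p using MvPolynomial.induction_on with
  | C a => exact ⟨1, by rw [pow_one, hD', algHom_C, algebraMap_eq, sub_self]⟩
  | add p q hp hq =>
    obtain ⟨m, hm⟩ := hp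
    obtain ⟨n, hn⟩ := hq
    refine ⟨m + n, ?_⟩
    have e1 : (D ^ (m + n)) p = 0 := by
      rw [add_comm, pow_add, Module.End.mul_apply, hm, map_zero]
    have e2 : (D ^ (m + n)) q = 0 := by
      rw [pow_add, Module.End.mul_apply, hn, map_zero]
    rw [map_add, e1, e2, add_zero]
  | mul_X p i hp =>
    obtain ⟨m, hm⟩ := hp
    refine ⟨m + 1, ?_⟩
    induction m generalizing p with
    | zero =>
      rw [pow_zero, Module.End.one_apply] at hm
      rw [hm, zero_mul, map_zero]
    | succ m ih =>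
      have e : D (p * X i) = D p * X i - c i • D p - c i • p := by
        rw [hD', hD', map_mul, hσ, MvPolynomial.smul_eq_C_mul, MvPolynomial.smul_eq_C_mul]; ring
      have hm' : (D ^ m) (D p) = 0 := by rw [← Module.End.mul_apply, ← pow_succ, hm]
      have hm'' : (D ^ (m + 1)) (D p) = 0 := by rw [pow_succ', Module.End.mul_apply, hm', map_zero]
      rw [pow_succ, Module.End.mul_apply, e, map_sub, map_sub, map_smul, map_smul, ih _ hm', hm'',
        hm]
      simp

theorem nil0 (p : Mod k) : ∃ m : ℕ, iota k ((mono k (1, 0) - 1) ^ m) p = 0 := by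
  obtain ⟨m, hm⟩ := locNil (tau k (1, 0)) ![1, 0] (fun i => by
    fin_cases i
    · simp [tau_X0]
    · simp [tau_X1]) p
  refine ⟨m, ?_⟩
  rw [map_pow, map_sub, map_one, iota_mono]
  simpa [sh] using hm

theorem nil1 (p : Mod k) : ∃ m : ℕ, iota k ((mono k (0, 1) - 2) ^ m) p = 0 := by
  obtain ⟨m, hm⟩ := locNil (tau k (0, 1)) ![0, 1] (fun i => by
    fin_cases i
    · simp [tau_X0]
    · simp [tau_X1]) p
  refine ⟨m, ?_⟩
  have : iota k (mono k (0, 1) - 2) = (2 : k) • ((tau k (0, 1)).toLinearMap - 1) := by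
    rw [map_sub, iota_mono, map_ofNat, smul_sub, sh, two_smul k (1 : Module.End k (Mod k)),
      one_add_one_eq_two]
    simp
  rw [map_pow, this, smul_pow, LinearMap.smul_apply, hm, smul_zero]

theorem unit_dxy (v : Mod k) (j : ℕ) : ∃ r, iota k (dxy k ^ j * r) v = v := by
  let I : Ideal k[ℤ × ℤ] :=
    { carrier := {r | iota k r v = 0}
      add_mem' := by
        intro a b ha hb
        simp only [Set.mem_ofPred_eq] at ha hb ⊢
        rw [map_add, LinearMap.add_apply, ha, hb, add_zero]
      zero_mem' := by simp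
      smul_mem' := by
        intro c a ha
        simp only [Set.mem_ofPred_eq] at ha ⊢
        rw [smul_eq_mul, map_mul, Module.End.mul_apply, ha, map_zero] }
  have h0 : IsNilpotent (Ideal.Quotient.mk I (mono k (1, 0) - 1)) := by
    obtain ⟨m, hm⟩ := nil0 v
    exact ⟨m, by rw [← map_pow, Ideal.Quotient.eq_zero_iff_mem]; exact hm⟩
  have h1 : IsNilpotent (Ideal.Quotient.mk I (mono k (0, 1) - 2)) := by
    obtain ⟨m, hm⟩ := nil1 v
    exact ⟨m, by rw [← map_pow, Ideal.Quotient.eq_zero_iff_mem]; exact hm⟩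
  have h2 := ((Commute.all _ _).isNilpotent_sub h0 h1).isUnit_sub_one
  have h3 : IsUnit (Ideal.Quotient.mk I (dxy k ^ j)) := by
    rw [map_pow]
    refine IsUnit.pow j ?_
    convert h2 using 1
    rw [← map_sub, ← map_one (Ideal.Quotient.mk I), ← map_sub, dxy]
    congr 1; ring
  obtain ⟨r, hr⟩ := h3.exists_right_inv
  obtain ⟨r, rfl⟩ := Ideal.Quotient.mk_surjective r
  rw [← map_mul, ← map_one (Ideal.Quotient.mk I), Ideal.Quotient.eq] at hr
  refine ⟨r, ?_⟩
  have : iota k (dxy k ^ j * r - 1) v = 0 := hr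
  rwa [map_sub, map_one, LinearMap.sub_apply, sub_eq_zero] at this

theorem exists_top (n : k[ℤ × ℤ]) (v : Mod k) (hv : v ≠ 0) (h : ∃ m : ℕ, iota k (n ^ m) v = 0) :
    ∃ j : ℕ, iota k (n ^ j) v ≠ 0 ∧ iota k n (iota k (n ^ j) v) = 0 := by
  classical
  have h0 : Nat.find h ≠ 0 := by
    intro e
    have := Nat.find_spec h
    rw [e, pow_zero, map_one] at this
    exact hv this
  obtain ⟨j, hj⟩ := Nat.exists_eq_succ_of_ne_zero h0
  refine ⟨j, Nat.find_min h (by omega), ?_⟩
  have := Nat.find_spec h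
  rwa [hj, pow_succ', map_mul] at this

theorem const_of_fixed (w : Mod k) (h0 : tau k (1, 0) w = w) (h1 : tau k (0, 1) w = w) :
    ∃ c, w = C c := by
  have hall : ∀ g, tau k g w = w := by
    have hz : ∀ g, tau k g w = w → ∀ n : ℤ, tau k (n • g) w = w := by
      intro g hg n
      induction n using Int.induction_on with
      | zero => rw [zero_smul, tau_zero]
      | succ n ih => rw [add_smul, one_smul, tau_add, hg, ih]
      | pred n ih =>
        conv_lhs => rw [← hg, ← tau_add]
        rw [sub_smul, one_smul, sub_add_cancel, ih]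
    intro g
    have : g = g.1 • (1, 0) + g.2 • (0, 1) := by simp
    rw [this, tau_add, hz _ h1, hz _ h0]
  refine ⟨eval 0 w, ?_⟩
  refine MvPolynomial.funext_set (fun _ => Set.range (Int.cast : ℤ → k))
    (fun _ => Set.infinite_range_of_injective Int.cast_injective) ?_
  intro x hx
  obtain ⟨a, ha⟩ := hx 0 trivial
  obtain ⟨b, hb⟩ := hx 1 trivial
  rw [eval_C]
  conv_lhs => rw [← hall (a, b)]
  have : (eval x).comp (tau k (a, b) : Mod k →+* Mod k) = eval 0 := by
    refine MvPolynomial.ringHom_ext (fun c => by simp) fun i => ?_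
    fin_cases i
    · simp [tau_X0, ha]
    · simp [tau_X1, hb]
  exact RingHom.congr_fun this w

theorem simple_core (lam mu : k) (N : Submodule k (Mod k))
    (hL : ∀ n, ∀ v ∈ N, LL lam mu n v ∈ N)
    (hu : ∀ f, ∀ v ∈ N, iota k (dxy k ^ 14 * f) v ∈ N) (hN : N ≠ ⊥) : N = ⊤ := by
  have hR : ∀ f, ∀ v ∈ N, iota k f v ∈ N := by
    intro f v hv
    obtain ⟨r, hr⟩ := unit_dxy v 14
    have := hu (r * f) v hv
    rwa [← mul_assoc, mul_comm, map_mul, Module.End.mul_apply, hr] at this
  obtain ⟨v, hvN, hv⟩ := Submodule.exists_mem_ne_zero_of_ne_bot hN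
  obtain ⟨i, hi, hi'⟩ := exists_top _ v hv (nil0 v)
  obtain ⟨j, hj, hj'⟩ := exists_top _ _ hi (nil1 _)
  have hwN := hR ((mono k (0, 1) - 2) ^ j) _ (hR ((mono k (1, 0) - 1) ^ i) v hvN)
  have hi'' : iota k (mono k (1, 0) - 1) (iota k ((mono k (0, 1) - 2) ^ j)
      (iota k ((mono k (1, 0) - 1) ^ i) v)) = 0 := by
    rw [← Module.End.mul_apply, ← map_mul, mul_comm, map_mul, Module.End.mul_apply, hi', map_zero]
  set w := iota k ((mono k (0, 1) - 2) ^ j) (iota k ((mono k (1, 0) - 1) ^ i) v)
  obtain ⟨c, hc⟩ := const_of_fixed w (by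
    rw [map_sub, map_one, iota_mono, LinearMap.sub_apply, sub_eq_zero, sh_apply] at hi''
    simpa using hi'') (by
    rw [map_sub, map_ofNat, iota_mono, LinearMap.sub_apply, sub_eq_zero, sh_apply] at hj'
    have e : (2 : Module.End k (Mod k)) w = (2 : k) • w := by
      rw [two_smul, ← one_add_one_eq_two (R := Module.End k (Mod k))]; rfl
    rw [e, zpow_one] at hj'
    exact smul_right_injective _ two_ne_zero hj')
  have h1 : (1 : Mod k) ∈ N := by
    have hc0 : c ≠ 0 := by
      rintro rfl
      exact hj (by rw [hc, map_zero])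
    have := N.smul_mem c⁻¹ hwN
    rwa [hc, MvPolynomial.smul_eq_C_mul, ← map_mul, inv_mul_cancel₀ hc0, map_one] at this
  have hL0 : LL lam mu 0 = th k 0 + th k 1 := by
    have : ((0, 0) : ℤ × ℤ) = 0 := rfl
    simp [LL, XX, YY, xx, yy, this, sh_zero]
  have hL1 : iota k (dxy k) * th k 0 = LL lam mu 1 - iota k (mono k (0, 1)) * LL lam mu 0 -
      lam • iota k (mono k (1, 0)) - mu • iota k (mono k (0, 1)) := by
    rw [hL0, dxy, map_sub, iota_mono, iota_mono]
    simp only [LL, XX, YY, xx, yy, mul_add, sub_mul, mul_smul_comm, mul_one, Int.cast_one]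
    abel
  have h0 : ∀ v ∈ N, th k 0 v ∈ N := by
    intro v hv
    have h2 : iota k (dxy k) (th k 0 v) ∈ N := by
      rw [← Module.End.mul_apply, hL1]
      exact sub_mem (sub_mem (sub_mem (hL 1 v hv) (hR _ _ (hL 0 v hv))) (N.smul_mem _ (hR _ _ hv)))
        (N.smul_mem _ (hR _ _ hv))
    obtain ⟨r, hr⟩ := unit_dxy (th k 0 v) 1
    have := hR r _ h2
    rwa [← Module.End.mul_apply, ← map_mul, mul_comm, ← pow_one (dxy k), hr] at this
  have h1' : ∀ v ∈ N, th k 1 v ∈ N := by
    intro v hv
    have := sub_mem (hL 0 v hv) (h0 v hv)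
    rwa [hL0, LinearMap.add_apply, add_sub_cancel_left] at this
  rw [eq_top_iff]
  rintro p -
  induction p using MvPolynomial.induction_on with
  | C a => rw [C_eq_smul_one]; exact N.smul_mem _ h1
  | add p q hp hq => exact add_mem hp hq
  | mul_X p i hp =>
    rw [mul_comm]
    fin_cases i
    · exact h0 p hp
    · exact h1' p hp

end

end Pool.Agent.Lib.MP_4da284_al
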