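import Pool.Agent.Lib.MP_4da284_al.Target
import Pool.Agent.Lib.MP_4da284_al.Rep

namespace Pool.Agent.Lib.MP_4da284_al

open AddMonoidAlgebra LaurentPolynomial TensorProduct

noncomputable section

universe u

attribute [local instance 100] LieRing.ofAssociativeRing

variable {k : Type u} [Field k] [CharZero k]

omit [CharZero k] in
theorem witt_eq (D : Witt k) : D = D (T 1) • dT k := by
  ext1 f
  induction f using T_ind with
  | h0 => simp
  | hadd f g hf hg => rw [map_add, map_add, hf, hg]
  | hs r f hf => rw [Derivation.map_smul, Derivation.map_smul, hf]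
  | h1 => simp
  | hmul f g hf hg => rw [Derivation.leibniz, Derivation.leibniz, hf, hg]
  | hT => rw [Derivation.smul_apply, dT_T]; simp
  | hT' =>
    have h1 : (T 1 : LaurentPolynomial k) * T (-1) = 1 := by rw [← T_add]; simp
    have h2 := D.leibniz (T 1) (T (-1))
    rw [h1, Derivation.map_one_eq_zero, smul_eq_mul, smul_eq_mul] at h2
    rw [Derivation.smul_apply, dT_T, show (-1 - 1 : ℤ) = -1 + -1 by ring, T_add]
    simp only [Int.cast_neg, Int.cast_one, neg_smul, one_smul, smul_eq_mul]
    linear_combination (-T (-1)) * h2 - D (T (-1)) * h1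

variable (k) in
def coord : Witt k →ₗ[k] LaurentPolynomial k where
  toFun D := D (T 1)
  map_add' _ _ := rfl
  map_smul' _ _ := rfl

def rho (lam mu : k) : Witt k →ₗ⁅k⁆ Module.End k (Mod k) :=
  { lin k (fun n => LL lam mu (n - 1)) ∘ₗ coord k with
    map_lie' := by
      intro D D'
      have key : ∀ f g : LaurentPolynomial k,
          lin k (fun n => LL lam mu (n - 1)) (f * dT k g - g * dT k f) =
          lin k (fun n => LL lam mu (n - 1)) f * lin k (fun n => LL lam mu (n - 1)) g -
          lin k (fun n => LL lam mu (n - 1)) g * lin k (fun n => LL lam mu (n - 1)) f := by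
        intro f g
        induction f using laurent_ind with
        | h0 => simp
        | hadd f f' hf hf' =>
          rw [map_add, map_add, add_mul, mul_add, add_sub_add_comm, map_add, hf, hf']
          noncomm_ring
        | hT r a =>
          induction g using laurent_ind with
          | h0 => simp
          | hadd g g' hg hg' =>
            rw [map_add, map_add (lin k _) g, add_mul, mul_add, add_sub_add_comm, map_add, hg, hg']
            noncomm_ring
          | hT s b =>
            simp only [Derivation.map_smul, dT_T, smul_mul_smul_comm, ← T_add, map_sub, map_smul,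
              lin_T, smul_smul]
            rw [mul_comm s r, ← smul_sub (r * s) (LL lam mu (a - 1) * LL lam mu (b - 1)),
              LL_bracket, show a + (b - 1) - 1 = a - 1 + (b - 1) by ring,
              show b + (a - 1) - 1 = a - 1 + (b - 1) by ring]
            push_cast
            module
      have e : ⁅D, D'⁆ (T 1) = D (T 1) * dT k (D' (T 1)) - D' (T 1) * dT k (D (T 1)) := by
        rw [Derivation.commutator_apply]
        congr 1
        · exact DFunLike.congr_fun (witt_eq D) _
        · exact DFunLike.congr_fun (witt_eq D') _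
      change lin k _ (⁅D, D'⁆ (T 1)) = _
      rw [e, key]
      rfl }

theorem rho_basis (lam mu : k) (n : ℤ) :
    rho lam mu ((T (n + 1) : LaurentPolynomial k) • dT k) = LL lam mu n := by
  change lin k _ ((T (n + 1) : LaurentPolynomial k) • dT k (T 1)) = _
  rw [dT_T]
  simp [lin_T]

omit [CharZero k] in
theorem dxy_ne : dxy k ≠ 0 := by
  rw [dxy, sub_ne_zero, mono, mono]
  intro h
  have := (single_left_inj one_ne_zero).mp h
  simp at this

theorem main (g : Type u) [LieRing g] [LieAlgebra k g]
    (π : g →ₗ⁅k⁆ Witt k) (hπ : Function.Surjective π) :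
    ∃ Q : Ideal (UniversalEnvelopingAlgebra k g), IsPrimitiveIdeal Q ∧
      RingHom.ker (envMap π) < Q ∧
      ∀ (m : ℕ) (φ : UniversalEnvelopingAlgebra k g →ₐ[k] LocWeyl k ⊗[k] Weyl k m),
        RingHom.ker φ ≠ Q := by
  let ρ : k → k → (UniversalEnvelopingAlgebra k g →ₐ[k] Module.End k (Mod k)) := fun lam mu =>
    (UniversalEnvelopingAlgebra.lift k (rho lam mu)).comp (envMap π)
  choose e' he' using fun n : ℤ => hπ ((T (n + 1) : LaurentPolynomial k) • dT k)
  let e : ℤ → UniversalEnvelopingAlgebra k g := fun n => UniversalEnvelopingAlgebra.ι k (e' n)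
  have he : ∀ lam mu n, ρ lam mu (e n) = LL lam mu n := by
    intro lam mu n
    simp only [ρ, e, envMap, AlgHom.comp_apply, UniversalEnvelopingAlgebra.lift_ι_apply,
      LieHom.comp_apply, he', rho_basis]
  have hZ : ∀ lam mu w, ρ lam mu (Zel k e w) = iota k (dxy k ^ 14 *
      ((8 * (lam * (1 - lam)) * (mu * (1 - mu)) * (lam * (1 - lam))) • mono k w +
       (8 * (lam * (1 - lam)) * (mu * (1 - mu)) * (mu * (1 - mu))) • mono k w.swap)) := by
    intro lam mu w
    rw [map_Zel, ← Zel_LL]
    simp only [he]
  have hZ1 : ∀ w, ρ 2 3 (Zel k e w) =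
      iota k (dxy k ^ 14 * ((-192 : k) • mono k w + (-576 : k) • mono k w.swap)) := by
    intro w; rw [hZ]; norm_num
  have hZ2 : ∀ w, ρ 2 2 (Zel k e w) =
      iota k (dxy k ^ 14 * ((-64 : k) • mono k w + (-64 : k) • mono k w.swap)) := by
    intro w; rw [hZ]; norm_num
  let c : ℤ × ℤ → UniversalEnvelopingAlgebra k g := fun w =>
    (1 / 1536 : k) • Zel k e w - (1 / 512 : k) • Zel k e w.swap
  have hc : ∀ w, ρ 2 3 (c w) = iota k (dxy k ^ 14 * mono k w) := by
    intro w
    simp only [c, map_sub, map_smul, hZ1, Prod.swap_swap]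
    rw [← map_smul, ← map_smul, ← map_sub, ← mul_smul_comm, ← mul_smul_comm, ← mul_sub]
    congr 2
    module
  refine ⟨RingHom.ker (ρ 2 3), ?_, ?_, ?_⟩
  · let _ : Module (UniversalEnvelopingAlgebra k g) (Mod k) :=
      Module.compHom (Mod k) (ρ 2 3).toRingHom
    have hs : ∀ (a : UniversalEnvelopingAlgebra k g) (v : Mod k), a • v = ρ 2 3 a v :=
      fun _ _ => rfl
    refine ⟨Mod k, inferInstance, inferInstance, ?_, ?_⟩
    · rw [isSimpleModule_iff]
      have : Nontrivial (Submodule (UniversalEnvelopingAlgebra k g) (Mod k)) :=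
        (Submodule.nontrivial_iff _).mpr inferInstance
      refine ⟨fun N => ?_⟩
      rw [or_iff_not_imp_left]
      intro hN
      let N' : Submodule k (Mod k) :=
        { carrier := N
          add_mem' := N.add_mem
          zero_mem' := N.zero_mem
          smul_mem' := by
            intro r v hv
            have := N.smul_mem (algebraMap k _ r) hv
            rwa [hs, AlgHom.commutes, Module.algebraMap_end_apply] at this }
      have htop := simple_core 2 3 N' (fun n v hv => by
        have := N.smul_mem (e n) hv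
        rwa [hs, he] at this) (fun f v hv => by
        have := N.smul_mem (linG k c f) hv
        have h2 := map_linG (ρ 2 3).toLinearMap c f
        simp only [AlgHom.toLinearMap_apply, hc] at h2
        have h3 : linG k (fun w => iota k (dxy k ^ 14 * mono k w)) f = iota k (dxy k ^ 14 * f) :=
          lin_ext (ψ := (iota k).toLinearMap ∘ₗ LinearMap.mulLeft k (dxy k ^ 14))
            (fun w => by simp [linG_mono]) f
        rwa [hs, h2, h3] at this) (by
        intro h
        apply hN
        rw [eq_bot_iff]
        intro v hv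
        have : v ∈ N' := hv
        rwa [h] at this)
      rw [eq_top_iff]
      intro v _
      have : v ∈ N' := by rw [htop]; trivial
      exact this
    · ext a
      rw [Module.mem_annihilator, RingHom.mem_ker]
      exact ⟨fun h => LinearMap.ext h, fun h v => by rw [hs, h]; rfl⟩
  · have hle : ∀ lam mu, RingHom.ker (envMap π) ≤ RingHom.ker (ρ lam mu) := by
      intro lam mu a ha
      rw [RingHom.mem_ker] at ha ⊢
      simp only [ρ, AlgHom.comp_apply, ha, map_zero]
    refine lt_of_le_of_ne (hle 2 3) fun h => ?_
    let r := (16 : k) • (Zel k e (1, 0) * Zel k e (0, 1)) - (10 : k) • (Zel k e (0, 0) * Zel k e (1, 1)) -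
      (3 : k) • (Zel k e (0, 0) * (Zel k e (2, 0) + Zel k e (0, 2)))
    have m00 : mono k ((0, 0) : ℤ × ℤ) = 1 := rfl
    have m11 : mono k ((1, 1) : ℤ × ℤ) = mono k (1, 0) * mono k (0, 1) := by rw [mono_mul]; rfl
    have m20 : mono k ((2, 0) : ℤ × ℤ) = mono k (1, 0) * mono k (1, 0) := by rw [mono_mul]; rfl
    have m02 : mono k ((0, 2) : ℤ × ℤ) = mono k (0, 1) * mono k (0, 1) := by rw [mono_mul]; rfl
    have hr1 : r ∈ RingHom.ker (ρ 2 3) := by
      rw [RingHom.mem_ker]
      simp only [r, map_sub, map_smul, map_mul (ρ 2 3), map_add (ρ 2 3), hZ1]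
      simp only [← map_mul, ← map_add, ← map_smul, ← map_sub]
      rw [← map_zero (iota k)]
      refine congrArg (iota k) ?_
      simp only [Prod.swap_prod_mk, m00, m11, m20, m02, Algebra.smul_def, map_neg, map_ofNat]
      ring
    have hr2 := hle 2 2 (h ▸ hr1)
    rw [RingHom.mem_ker] at hr2
    simp only [r, map_sub, map_smul, map_mul (ρ 2 2), map_add (ρ 2 2), hZ2] at hr2
    simp only [← map_mul, ← map_add, ← map_smul, ← map_sub] at hr2
    rw [← map_zero (iota k)] at hr2
    have h3 := iota_injective hr2
    have h4 : (16384 : k) • dxy k ^ 30 = 0 := by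
      rw [← h3]
      simp only [Prod.swap_prod_mk, m00, m11, m20, m02, Algebra.smul_def, map_neg, map_ofNat]
      rw [show dxy k ^ 30 = dxy k ^ 28 * (mono k (1, 0) - mono k (0, 1)) ^ 2 by
        rw [← dxy, ← pow_add]]
      ring
    rw [smul_eq_zero] at h4
    rcases h4 with h4 | h4
    · norm_num at h4
    · exact dxy_ne (pow_eq_zero_iff (by norm_num) |>.mp h4)
  · intro m φ hφ
    have hk : ∀ a b, φ a = φ b ↔ ρ 2 3 a = ρ 2 3 b := by
      intro a b
      rw [← sub_eq_zero, ← map_sub, ← RingHom.mem_ker, hφ, RingHom.mem_ker, map_sub, sub_eq_zero]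
    have hu : dxy k ^ 14 ≠ 0 := pow_ne_zero _ dxy_ne
    obtain ⟨w, hw, κ, hκ⟩ := rigid_target (k := k) m (fun w => φ (c w)) (fun v w => by
      rw [← map_mul, ← map_mul, hk, map_mul, map_mul, hc, hc, hc, hc, ← map_mul, ← map_mul,
        ← mono_mul, mono_zero]
      refine congrArg (iota k) ?_
      ring) (by
      rw [← map_zero φ, Ne, hk, hc, map_zero, mono_zero, mul_one, ← map_zero (iota k)]
      exact fun h => hu (iota_injective h))
    rw [← map_smul, hk, map_smul, hc, hc, ← map_smul, ← mul_smul_comm] at hκ
    have h1 := mul_left_cancel₀ hu (iota_injective hκ)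
    rw [mono, mono, smul_single] at h1
    rcases single_inj.mp h1 with h2 | h2
    · exact hw h2.1
    · exact one_ne_zero h2.1

end

end Pool.Agent.Lib.MP_4da284_al
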