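import Pool.Agent.Lib.MP_4da284_al.H44Kernel
import Pool.Agent.Lib.MP_4da284_al.H44Embed
import Pool.Agent.Lib.MP_4da284_al.Main

namespace Pool.Agent.Lib.MP_4da284_al.Q2

open Q1 Polynomial TensorProduct

noncomputable section

universe u

variable {k : Type u} [Field k] {U : Type u} [Ring U] [Algebra k U]

theorem phi1_mem2 {A R I : Type*} [CommRing A] [Algebra k A] [Ring R] [Algebra k R] [Fintype I]
    (ι : A →ₐ[k] R) {t : I → A} {N : ℕ} {γ : ℤ → A[X]} (hγ : Gam k (∏ i, (X - C (t i))) N γ) (i : I)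
    {s : A} (hs : t i * s = 1) (D : ℕ → R) (hN : ∀ α, N ≤ α → D α = 0) (S : Subalgebra k R)
    (h1 : ι (t i) ∈ S) (h2 : ι s ∈ S) (hD : ∀ α, D α ∈ S) (z : ℤ) :
    phi1 ι (t i) D (γ z) ∈ S := by
  let T : Subring A[X] :=
    { carrier := {g | ∀ α, ι ((taylor (t i) g).coeff α) ∈ S}
      mul_mem' := fun {a b} ha hb α => by
        rw [taylor_mul, coeff_mul, map_sum]
        exact S.sum_mem fun p _ => by rw [map_mul]; exact S.mul_mem (ha _) (hb _)
      one_mem' := fun α => by
        rw [taylor_one, coeff_C]; split_ifs <;> simp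
      add_mem' := fun {a b} ha hb α => by
        rw [map_add, coeff_add, map_add]; exact S.add_mem (ha _) (hb _)
      zero_mem' := fun α => by simp
      neg_mem' := fun {a} ha α => by
        rw [map_neg, coeff_neg, map_neg]; exact S.neg_mem (ha _) }
  have hC : ∀ a, ι a ∈ S → C a ∈ T := fun a ha α => by
    rw [taylor_C, coeff_C]; split_ifs <;> simp [ha]
  have hu : X - C (t i) ∈ T := fun α => by
    rw [map_sub, taylor_X, taylor_C, add_sub_cancel_right, coeff_X]; split_ifs <;> simp
  have hX : (X : A[X]) ∈ T := by simpa using T.add_mem hu (hC _ h1)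
  have hT : ∀ g ∈ T, phi1 ι (t i) D g ∈ S := fun g hg => by
    rw [phi1_apply, psum_eq_sum _ _ N hN]
    exact S.sum_mem fun α _ => S.mul_mem (hD α) (hg α)
  obtain ⟨n, rfl | rfl⟩ := z.eq_nat_or_neg
  · rw [hγ.nat]; exact hT _ (T.pow_mem hX n)
  · set y : A[X] := -(C s * (X - C (t i))) with hy
    set η : A[X] := C s * ∑ α ∈ Finset.range N, y ^ α with hη
    have hyT : y ∈ T := T.neg_mem (T.mul_mem (hC _ h2) hu)
    have hηT : η ∈ T := T.mul_mem (hC _ h2) (T.sum_mem fun α _ => T.pow_mem hyT α)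
    have h3 : (X - C (t i)) ^ N ∣ 1 - X * η := by
      have e1 : X * C s = 1 - y := by
        rw [hy, sub_neg_eq_add, mul_sub, ← C_mul, mul_comm s, hs, C_1]; ring
      rw [hη, ← mul_assoc, e1, mul_neg_geom_sum, sub_sub_cancel, hy, neg_pow, mul_pow]
      exact (dvd_mul_left _ _).mul_left _
    have h4 : (X - C (t i)) ^ N ∣ 1 - (X * η) ^ n := by
      simpa using h3.trans (sub_dvd_pow_sub_pow 1 (X * η) n)
    have h5 := u_dvd i (hγ.mul n (-n))
    have h6 := hγ.nat 0
    rw [Nat.cast_zero, pow_zero] at h6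
    rw [add_neg_cancel, hγ.nat, h6] at h5
    have h7 : γ (-n) = η ^ n + (γ (-n) * (1 - (X * η) ^ n) + η ^ n * (X ^ n * γ (-n) - 1)) := by
      rw [mul_pow]; ring
    rw [h7, map_add, phi1_kill ι _ D hN (dvd_add (h4.mul_left _) (h5.mul_left _)), add_zero]
    exact hT _ (T.pow_mem hηT n)

theorem DZ_disc {I : Type*} [Fintype I] [DecidableEq I] (z : ℤ) (K : ℕ) (b : LP k I) :
    ∃ c, DZ k z (psi k (disc k id) ^ K * b) = psi k (disc k id) ^ K * c := by
  let δ : Derivation k (LP k I) (LP k I) := ∑ v, (mono k (Pi.single v z) : LP k I) • dd k v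
  have hδ : ∀ G, δ G = ∑ v, mono k (Pi.single v z) * dd k v G := by
    intro G
    have : ∀ s : Finset I, (∑ v ∈ s, (mono k (Pi.single v z) : LP k I) • dd k v) G =
        ∑ v ∈ s, mono k (Pi.single v z) * dd k v G := by
      intro s
      induction s using Finset.induction_on with
      | empty => simp
      | insert i s hi ih => simp [Finset.sum_insert hi, ih]
    exact this _
  have hδt : ∀ i, δ (tt k i) = mono k (Pi.single i z) := by
    intro i
    simp [hδ, dd_tt]
  have hsub : ∀ v w : I, tt k v - tt k w ∣ mono k (Pi.single v z) - mono k (Pi.single w z) := by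
    intro v w
    obtain ⟨n, rfl | rfl⟩ := z.eq_nat_or_neg
    · rw [← tt_pow, ← tt_pow]; exact sub_dvd_pow_sub_pow _ _ n
    · have e : ∀ v : I, mono k (Pi.single v (-n : ℤ)) * tt k v ^ n = 1 := fun v => by
        rw [tt_pow, mono_mul, ← Pi.single_add, neg_add_cancel, Pi.single_zero, mono_zero]
      have : mono k (Pi.single v (-n : ℤ)) - mono k (Pi.single w (-n : ℤ)) =
          -(mono k (Pi.single v (-n : ℤ)) * mono k (Pi.single w (-n : ℤ))) *
            (tt k v ^ n - tt k w ^ n) := by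
        linear_combination mono k (Pi.single w (-n : ℤ)) * e v - mono k (Pi.single v (-n : ℤ)) * e w
      rw [this]
      exact (sub_dvd_pow_sub_pow _ _ n).mul_left _
  obtain ⟨c, hc⟩ : psi k (disc k (id : I → I)) ^ K ∣ δ (psi k (disc k id) ^ K * b) := by
    refine der_pow_dvd δ ?_ K b
    rw [disc, map_prod]
    refine der_prod_dvd δ _ _ fun p _ => ?_
    simp only [map_sub, psi_X, hδt]
    exact hsub _ _
  refine ⟨c - ∑ v, (z : k) • (mono k (Pi.single v (z - 1)) * b), ?_⟩
  rw [mul_sub, ← hc, hδ, DZ_apply, Finset.sum_sub_distrib, Finset.mul_sum]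
  congr 1
  exact Finset.sum_congr rfl fun v _ => by rw [mul_smul_comm, mul_left_comm]

theorem main_abstract [IsAlgClosed k] [CharZero k] [Uncountable k] {ε : ℤ → U}
    (hε : IsWitt k ε) (hgen : Algebra.adjoin k (Set.range ε) = ⊤)
    (huniv : ∀ (R : Type u) [Ring R] [Algebra k R] (ε' : ℤ → R), IsWitt k ε' →
      ∃ φ : U →ₐ[k] R, ∀ z, φ (ε z) = ε' z)
    {Q : Ideal U} (hQ : IsPrimitiveIdeal Q) (h0 : Q ≠ ⊥) :
    ∃ a b, ∃ ψ : U →ₐ[k] LocPow k a ⊗[k] Weyl k b, RingHom.ker ψ = Q := by
  classical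
  have hU : Module.rank k U ≤ Cardinal.aleph0 := rank_le_of_gen (Set.countable_range ε) hgen
  have hC := closedPrime_of_primitive k hU hQ
  obtain ⟨M, _, _, hM, rfl⟩ := hQ
  let _ : Module k M := Module.compHom M (algebraMap k U)
  have : IsScalarTower k U M := ⟨fun c u v => by
    rw [Algebra.smul_def, mul_smul]; rfl⟩
  have hnt : Nontrivial M := IsSimpleModule.nontrivial U M
  have hex : ∃ m K : ℕ, ∀ H : MvPolynomial (Fin m) k,
      mu (eP k ε 0) (List.finRange m) (disc k id ^ K * H) ∈ Module.annihilator U M :=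
    thmA hε hgen _ (fun q hq u => Module.mem_annihilator.2 fun v => by
      rw [mul_smul]; exact Module.mem_annihilator.1 hq _) h0
  obtain ⟨l, ⟨K, hK⟩, hl⟩ : ∃ l, (∃ K : ℕ, ∀ H : MvPolynomial (Fin (l + 1)) k,
      mu (eP k ε 0) (List.finRange (l + 1)) (disc k id ^ K * H) ∈ Module.annihilator U M) ∧
      ¬ ∃ K : ℕ, ∀ H : MvPolynomial (Fin l) k,
        mu (eP k ε 0) (List.finRange l) (disc k id ^ K * H) ∈ Module.annihilator U M := by
    have h1 := Nat.find_spec hex
    have h2 : Nat.find hex ≠ 0 := by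
      intro h
      rw [h] at h1
      obtain ⟨K, hK⟩ := h1
      have := hK 1
      have e1 : disc k (id : Fin 0 → Fin 0) = 1 := by simp [disc]
      rw [e1, one_pow, mul_one, mu, ← MvPolynomial.C_1, MvPolynomial.C_apply, Phi_monomial] at this
      simp only [List.finRange_zero, word, map_one, mul_one] at this
      exact hC.ne_top ((Ideal.eq_top_iff_one _).2 this)
    obtain ⟨l, hl⟩ : ∃ l, Nat.find hex = l + 1 := ⟨Nat.find hex - 1, by omega⟩
    exact ⟨l, hl ▸ h1, Nat.find_min hex (by omega)⟩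
  have hne : ∀ K, ∃ (H : MvPolynomial (Fin l) k) (v : M),
      mu (eP k ε 0) (List.finRange l) (disc k id ^ K * H) • v ≠ 0 := by
    intro K
    by_contra h
    push Not at h
    exact hl ⟨K, fun H => Module.mem_annihilator.2 (h H)⟩
  have hmin : ∀ (K' : ℕ) (v : M), (∀ b : LP k (Fin l),
      muL k ε (List.finRange l) (psi k (disc k id) ^ K' * b) • v = 0) → v = 0 := by
    intro K'
    let P0 : Submodule k M :=
      { carrier := {v | ∀ b : LP k (Fin l),
          muL k ε (List.finRange l) (psi k (disc k id) ^ K' * b) • v = 0}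
        add_mem' := fun {x y} hx hy b => by rw [smul_add, hx b, hy b, add_zero]
        zero_mem' := fun b => smul_zero _
        smul_mem' := fun c x hx b => by rw [smul_comm, hx b, smul_zero] }
    let P : Submodule U M := subOf hgen P0 (by
      rintro _ ⟨z, rfl⟩ v hv b
      have h1 := muL_comm hε z (List.nodup_finRange l) List.mem_finRange
        (psi k (disc k id) ^ K' * b)
      rw [sub_eq_iff_eq_add, ← sub_eq_iff_eq_add'] at h1
      obtain ⟨c, hc⟩ := DZ_disc z K' b
      rw [← mul_smul, ← h1, sub_smul, mul_smul, hv b, smul_zero, zero_sub, neg_eq_zero, hc, hv])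
    rcases eq_bot_or_eq_top P with h | h
    · intro v hv
      have : v ∈ P := hv
      rwa [h] at this
    · obtain ⟨H, v, hv⟩ := hne K'
      have : v ∈ P := h ▸ Submodule.mem_top
      refine absurd (this (psi k H)) ?_
      rwa [← map_pow, ← map_mul, muL_psi]
  obtain ⟨K2, hK2⟩ := ext_all
    (((Module.annihilator U M).restrictScalars k).comap (muL k ε (List.finRange (l + 1)))) (by
      intro z G hG
      change muL k ε _ _ ∈ Module.annihilator U M at hG ⊢
      rw [← muL_comm hε z (List.nodup_finRange _) List.mem_finRange]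
      exact Ideal.sub_mem _ (Ideal.mul_mem_left _ _ hG) (Module.mem_annihilator.2 fun v => by
        rw [mul_smul]; exact Module.mem_annihilator.1 hG _)) (K := K) (by
      intro H
      change muL k ε _ _ ∈ Module.annihilator U M
      rw [muL_psi]; exact hK H)
  obtain ⟨A, _, _, t, d, hB⟩ := exists_base2 (k := k) (Fin l)
  obtain ⟨R, _, _, ι, γ, N, n0, hN, hγ, hn0⟩ := exists_cov2 hB hε M
    (fun H v => Module.mem_annihilator.1 (hK2 H) v) hmin
  have hex2 : ∃ s, ∃ n : Fin l → ℕ, ∑ i, n i = s ∧ Nonempty (Cov2 ε M ι t d γ N n) := ⟨_, n0, rfl, hn0⟩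
  obtain ⟨n, hn, ⟨c2⟩⟩ := Nat.find_spec hex2
  have hmin2 : ∀ n' : Fin l → ℕ, ∑ i, n' i < ∑ i, n i → IsEmpty (Cov2 ε M ι t d γ N n') := by
    intro n' h
    rw [hn] at h
    exact ⟨fun c' => Nat.find_min hex2 h ⟨n', rfl, ⟨c'⟩⟩⟩
  obtain ⟨φ, hφ⟩ := huniv _ (fun z => c2.c.ρ (ext1 ι c2.c.e' (γ z))) fun a b => by
    simpa using congrArg c2.c.ρ (isWitt_ext1 c2.c.loc c2.bound hγ a b)
  have hker := c2.ker_eq hB hgen hN hγ (List.nodup_finRange l) List.mem_finRange hne hmin2 φ hφ
  obtain ⟨c, hb, hlz⟩ := c2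
  dsimp only at φ hφ hker
  have hL := c.loc.map c.ρ
  choose s hs using fun i => (hB.tunit i).exists_right_inv
  let tX : Fin l → Module.End k c.X := fun i => c.ρ (ι (t i))
  let sX : Fin l → Module.End k c.X := fun i => c.ρ (ι (s i))
  let DX : Fin l → ℕ → Module.End k c.X := fun i α => c.ρ (c.D i α)
  have htt : ∀ i j, tX i * tX j = tX j * tX i := fun i j => by
    simp only [tX, ← map_mul, mul_comm]
  have hd0 : ∀ i j, DX i 0 * tX j - tX j * DX i 0 = if i = j then 1 else 0 := fun i j => by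
    have := hL.sys.h0 i (t j)
    rw [hL.sys.hd, ← sub_eq_iff_eq_add'] at this
    refine this.trans ?_
    split_ifs <;> simp
  have hR : LocRels tX sX DX :=
    { inv1 := fun i => by simp only [tX, sX, ← map_mul, hs, map_one]
      inv2 := fun i => by simp only [tX, sX, ← map_mul, mul_comm (s i), hs, map_one]
      tt := htt
      d0t := hd0
      dt := fun i j α => hL.sys.h1 i (α + 1) (t j) (Nat.succ_ne_zero α)
      far := hL.far
      zero := hL.zero }
  have hφS : ∀ u, φ u ∈ SV k tX sX DX Finset.univ := by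
    intro u
    have hu : u ∈ Algebra.adjoin k (Set.range ε) := hgen ▸ Algebra.mem_top
    induction hu using Algebra.adjoin_induction with
    | mem x hx =>
      obtain ⟨z, rfl⟩ := hx
      rw [hφ, map_ext1, ext1_eq hL]
      refine Subalgebra.sum_mem _ fun i _ => phi1_mem2 (c.ρ.comp ι) hγ i (hs i) (DX i)
        (fun α hα => by simp only [DX, hb i α hα, map_zero]) (SV k tX sX DX Finset.univ) ?_ ?_
        (fun α => ?_) z
      · exact Algebra.subset_adjoin (Or.inl ⟨i, rfl⟩)
      · exact Algebra.subset_adjoin (Or.inr (Or.inl ⟨i, by simp, rfl⟩))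
      · exact Algebra.subset_adjoin (Or.inr (Or.inr ⟨(i, α), rfl⟩))
    | algebraMap r => rw [AlgHom.commutes]; exact Subalgebra.algebraMap_mem _ _
    | add a b _ _ ha hb => rw [map_add]; exact Subalgebra.add_mem _ ha hb
    | mul a b _ _ ha hb => rw [map_mul]; exact Subalgebra.mul_mem _ ha hb
  obtain ⟨a, θ, hθ⟩ := loc_all (k := k) hR Finset.univ
  let S := SV k tX sX DX ∅
  have ht : ∀ i, tX i ∈ S := fun i => Algebra.subset_adjoin (Or.inl ⟨i, rfl⟩)
  have hD : ∀ i α, DX i α ∈ S := fun i α => Algebra.subset_adjoin (Or.inr (Or.inr ⟨(i, α), rfl⟩))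
  have hJ : JetRel k (fun i => (⟨tX i, ht i⟩ : S)) (fun i α => (⟨DX i α, hD i α⟩ : S))
      (Finset.univ.sup n + 1) Finset.univ :=
    { tt := fun i j => Subtype.ext (htt i j)
      d0t := fun i j => Subtype.ext (by
        rw [apply_ite Subtype.val]
        exact hd0 i j)
      dt := fun i j α => Subtype.ext (hL.sys.h1 i (α + 1) (t j) (Nat.succ_ne_zero α))
      far := fun i j α β hij => Subtype.ext (hL.far i j α β hij)
      zero := fun i β => Subtype.ext (hL.zero i β)
      near := fun i α β _ => Subtype.ext (hL.near i α β)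
      top := fun i α hα => Subtype.ext (c.topX i α (by
        have := Finset.le_sup (f := n) (Finset.mem_univ i)
        omega))
      gen := by
        refine eq_top_iff.2 ((Algebra.adjoin_adjoin_coe_preimage (R := k)
          (s := Set.range tX ∪ (sX '' (∅ : Finset (Fin l)) ∪
            Set.range fun p : Fin l × ℕ => DX p.1 p.2))).ge.trans (Algebra.adjoin_mono ?_))
        rintro ⟨x, hx⟩ (⟨i, rfl⟩ | ⟨i, hi, -⟩ | ⟨⟨i, α⟩, rfl⟩)
        · exact Or.inl ⟨i, rfl⟩
        · simp at hi
        · exact Or.inr ⟨i, α, Or.inr (Finset.mem_univ _), rfl⟩ }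
  refine ⟨a, embed_jet2 hC (rank_locPow a) _ Finset.univ (LocPow k a) S _ _
    (θ.comp (φ.codRestrict _ hφS)) we2_self hJ ((ker_comp_inj _ _ hθ).trans ?_)⟩
  rw [← hker]
  exact (ker_comp_inj (φ.codRestrict _ hφS) (Subalgebra.val _) Subtype.val_injective).symm

end

end Pool.Agent.Lib.MP_4da284_al.Q2
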