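import Pool.Agent.Lib.MP_4da284_al.H78Main
import Pool.Agent.Lib.MP_4da284_al.Diff

namespace Pool.Agent.Lib.MP_4da284_al.Q2

open Q1

noncomputable section

variable {k U I : Type*} [Field k] [Ring U] [Algebra k U]

/- Laurent polynomials in several variables. -/
abbrev LP (k I : Type*) [Field k] := AddMonoidAlgebra k (I → ℤ)

/- The relations of the basis `t^z d/dt` of the Witt algebra. -/
def IsWitt (k : Type*) {U : Type*} [Field k] [Ring U] [Algebra k U] (ε : ℤ → U) : Prop :=
  ∀ a b, ε a * ε b - ε b * ε a = ((b : k) - a) • ε (a + b - 1)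

variable (k) in
def eP (ε : ℤ → U) (s : ℕ) : Polynomial k →ₗ[k] U :=
  Polynomial.lsum fun n => LinearMap.toSpanSingleton k U (ε ((n : ℤ) - s))

theorem eP_monomial (ε : ℤ → U) (s n : ℕ) (a : k) :
    eP k ε s (Polynomial.monomial n a) = a • ε ((n : ℤ) - s) := by
  simp [eP, Polynomial.lsum_apply]

theorem eP_X_pow (ε : ℤ → U) (s n : ℕ) : eP k ε s (Polynomial.X ^ n) = ε ((n : ℤ) - s) := by
  rw [Polynomial.X_pow_eq_monomial, eP_monomial, one_smul]

theorem eP_zero_pow (ε : ℤ → U) (n : ℕ) : eP k ε 0 (Polynomial.X ^ n) = ε n := by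
  rw [eP_X_pow]; simp

theorem eP_succ (ε : ℤ → U) (s : ℕ) (g : Polynomial k) :
    eP k ε (s + 1) (Polynomial.X * g) = eP k ε s g := by
  induction g using Polynomial.induction_on' with
  | monomial n a =>
    rw [Polynomial.X_mul_monomial, eP_monomial, eP_monomial]
    congr 2
    push_cast; ring
  | add p q hp hq => simp only [mul_add, map_add, hp, hq]

theorem eP_br {ε : ℤ → U} (hε : IsWitt k ε) (s : ℕ) (f g : Polynomial k) :
    eP k ε 0 f * eP k ε s g - eP k ε s g * eP k ε 0 f = eP k ε (s + 1)
      (Polynomial.X * (f * Polynomial.derivative g - Polynomial.derivative f * g) -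
        (s : Polynomial k) * f * g) := by
  induction f using Polynomial.induction_on' with
  | add p q hp hq =>
    rw [map_add, add_mul, mul_add, add_sub_add_comm, hp, hq, ← map_add]
    congr 1
    simp only [map_add]; ring
  | monomial n a =>
    induction g using Polynomial.induction_on' with
    | add p q hp hq =>
      rw [map_add, add_mul, mul_add, add_sub_add_comm, hp, hq, ← map_add]
      congr 1
      simp only [map_add]; ring
    | monomial m b =>
      have h1 : ∀ (n : ℕ) (a : k), Polynomial.X * Polynomial.derivative (Polynomial.monomial n a) =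
          (n : Polynomial k) * Polynomial.monomial n a := by
        intro n a
        rcases n with _ | n
        · simp
        · rw [Polynomial.derivative_monomial_succ, Polynomial.X_mul_monomial,
            ← Polynomial.C_eq_natCast, Polynomial.C_mul_monomial]
          push_cast; rw [mul_comm]
      have h2 : Polynomial.X * (Polynomial.monomial n a * Polynomial.derivative
          (Polynomial.monomial m b) - Polynomial.derivative (Polynomial.monomial n a) *
          Polynomial.monomial m b) - (s : Polynomial k) * Polynomial.monomial n a *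
          Polynomial.monomial m b =
          Polynomial.monomial (n + m) (((m : k) - n - s) * (a * b)) := by
        rw [mul_sub, mul_left_comm, h1, ← mul_assoc Polynomial.X, h1, ← Polynomial.C_mul_monomial,
          ← Polynomial.monomial_mul_monomial]
        simp only [map_sub, map_natCast]
        ring
      rw [h2, eP_monomial, eP_monomial, eP_monomial, smul_mul_smul_comm, smul_mul_smul_comm,
        mul_comm b a, ← smul_sub, hε, smul_smul]
      congr 1
      · push_cast; ring
      · congr 1; push_cast; ring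

theorem isBr_eP {ε : ℤ → U} (hε : IsWitt k ε) : IsBr (eP k ε 0) := by
  intro f g
  rw [eP_br hε, Nat.cast_zero, zero_mul, zero_mul, sub_zero, eP_succ]

section Ring

variable [DecidableEq I]

variable (k) in
def tt (i : I) : LP k I := mono k (Pi.single i 1)

variable (k) in
def dd (i : I) : Derivation k (LP k I) (LP k I) :=
  Derivation.mk' (linG k fun β : I → ℤ => (β i : k) • mono k (β - Pi.single i 1)) (by
    intro f g
    induction f using mono_ind with
    | h0 => simp
    | hadd f f' hf hf' => rw [add_mul, map_add, hf, hf', map_add, add_smul, smul_add]; abel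
    | hs r β =>
      induction g using mono_ind with
      | h0 => simp
      | hadd g g' hg hg' => rw [mul_add, map_add, hg, hg', map_add, add_smul, smul_add]; abel
      | hs s γ =>
        simp only [smul_mul_smul_comm, mono_mul, map_smul, linG_mono, smul_eq_mul, smul_smul]
        rw [show β + (γ - Pi.single i 1) = β + γ - Pi.single i 1 by abel,
          show γ + (β - Pi.single i 1) = β + γ - Pi.single i 1 by abel, ← add_smul]
        congr 1
        simp only [Pi.add_apply]
        push_cast
        ring)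

theorem dd_mono (i : I) (β : I → ℤ) :
    dd k i (mono k β) = (β i : k) • mono k (β - Pi.single i 1) := linG_mono _ β

theorem dd_tt (i j : I) : dd k i (tt k j) = if i = j then 1 else 0 := by
  rw [tt, dd_mono]
  split_ifs with h
  · subst h; simp [mono_zero]
  · simp [h]

omit [DecidableEq I] in
theorem mono_pow (β : I → ℤ) (n : ℕ) : mono k β ^ n = mono k (n • β) := by
  induction n with
  | zero => simp [mono_zero]
  | succ n ih => rw [pow_succ, ih, mono_mul, succ_nsmul]

theorem tt_pow (i : I) (n : ℕ) : tt k i ^ n = mono k (Pi.single i (n : ℤ)) := by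
  rw [tt, mono_pow, ← Pi.single_smul]; simp

omit [DecidableEq I] in
theorem mono_sum {J : Type*} (s : Finset J) (β : J → I → ℤ) :
    mono k (∑ j ∈ s, β j) = ∏ j ∈ s, mono k (β j) := by
  classical
  induction s using Finset.induction_on with
  | empty => simp [mono_zero]
  | insert j s hj ih => rw [Finset.sum_insert hj, Finset.prod_insert hj, ← mono_mul, ih]

omit [DecidableEq I] in
theorem isUnit_mono (β : I → ℤ) : IsUnit (mono k β) :=
  IsUnit.of_mul_eq_one (mono k (-β)) (by rw [mono_mul, add_neg_cancel, mono_zero])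

variable (k) in
def psi : MvPolynomial I k →ₐ[k] LP k I := MvPolynomial.aeval (tt k)

theorem psi_X (i : I) : psi k (MvPolynomial.X i) = tt k i := MvPolynomial.aeval_X _ _

theorem psi_monomial [Fintype I] (β : I →₀ ℕ) (a : k) :
    psi k (MvPolynomial.monomial β a) = a • mono k fun i => (β i : ℤ) := by
  rw [psi, MvPolynomial.aeval_monomial, Finsupp.prod_fintype _ _ (by simp), ← Algebra.smul_def]
  simp only [tt_pow, ← mono_sum, Finset.univ_sum_single]

theorem exists_clear [Fintype I] (G : LP k I) :
    ∃ (s : ℕ) (G1 : MvPolynomial I k), psi k G1 = psi k (∏ i, MvPolynomial.X i) ^ s * G := by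
  induction G using mono_ind with
  | h0 => exact ⟨0, 0, by simp⟩
  | hadd f g hf hg =>
    obtain ⟨r, F, hF⟩ := hf
    obtain ⟨s, G, hG⟩ := hg
    refine ⟨r + s, (∏ i, MvPolynomial.X i) ^ s * F + (∏ i, MvPolynomial.X i) ^ r * G, ?_⟩
    rw [map_add, map_mul, map_mul, hF, hG, map_pow, map_pow]; ring
  | hs r β =>
    refine ⟨∑ i, (β i).natAbs, MvPolynomial.monomial (Finsupp.equivFunOnFinite.symm
      fun i => (β i + (∑ i, (β i).natAbs : ℕ)).toNat) r, ?_⟩
    have h1 : psi k (∏ i, MvPolynomial.X i : MvPolynomial I k) = mono k fun _ => 1 := by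
      simp only [map_prod, psi_X, tt, ← mono_sum]
      congr 1
      exact Finset.univ_sum_single (fun _ => (1 : ℤ))
    rw [psi_monomial, h1, mono_pow, mul_smul_comm, mono_mul]
    congr 2
    funext i
    have := Finset.single_le_sum (f := fun i => (β i).natAbs) (fun _ _ => Nat.zero_le _)
      (Finset.mem_univ i)
    rw [Finsupp.equivFunOnFinite_symm_apply_apply, Pi.add_apply, Pi.smul_apply,
      nsmul_eq_mul, mul_one]
    omega

theorem isUnit_psi_prod [Fintype I] : IsUnit (psi k (∏ i, MvPolynomial.X i : MvPolynomial I k)) := by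
  simp only [map_prod, psi_X]
  exact IsUnit.prod_iff.2 fun i _ => isUnit_mono _

theorem tt_injective : Function.Injective (tt k : I → LP k I) := by
  intro i j h
  have := (AddMonoidAlgebra.single_left_inj one_ne_zero).1 h
  by_contra hij
  have h2 := congrFun this i
  simp [hij] at h2

variable (k) in
def ren (σ : Equiv.Perm I) : LP k I →ₐ[k] LP k I :=
  push k (LinearMap.funLeft ℤ ℤ σ.symm).toAddMonoidHom

omit [DecidableEq I] in
theorem ren_mono (σ : Equiv.Perm I) (β : I → ℤ) : ren k σ (mono k β) = mono k (β ∘ σ.symm) :=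
  push_mono _ β

omit [DecidableEq I] in
theorem ren_ren (τ σ : Equiv.Perm I) (G : LP k I) : ren k τ (ren k σ G) = ren k (τ * σ) G :=
  lin_ext (φ := (ren k τ).toLinearMap ∘ₗ (ren k σ).toLinearMap) (ψ := (ren k (τ * σ)).toLinearMap)
    (fun β => by simp [ren_mono]; rfl) G

theorem ren_psi (σ : Equiv.Perm I) (F : MvPolynomial I k) :
    ren k σ (psi k F) = psi k (MvPolynomial.rename σ F) := by
  have : (ren k σ).comp (psi k) = (psi k).comp (MvPolynomial.rename σ) := by
    refine MvPolynomial.algHom_ext fun i => ?_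
    simp only [AlgHom.comp_apply, psi_X, MvPolynomial.rename_X, tt, ren_mono]
    congr 1
    funext j
    simp [Pi.single_apply, Equiv.symm_apply_eq]
  exact DFunLike.congr_fun this F

variable (k) in
/- the action of `t^z d/dt` on symbols -/
def DZ [Fintype I] (z : ℤ) : Module.End k (LP k I) :=
  ∑ v, (LinearMap.mulLeft k (mono k (Pi.single v z)) ∘ₗ (dd k v).toLinearMap -
    (z : k) • LinearMap.mulLeft k (mono k (Pi.single v (z - 1))))

theorem DZ_apply [Fintype I] (z : ℤ) (G : LP k I) : DZ k z G =
    ∑ v, (mono k (Pi.single v z) * dd k v G - (z : k) • (mono k (Pi.single v (z - 1)) * G)) := by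
  simp [DZ, LinearMap.sum_apply]

theorem DZ_mono [Fintype I] (z : ℤ) (β : I → ℤ) :
    DZ k z (mono k β) = ∑ v, ((β v : k) - z) • mono k (β + Pi.single v (z - 1)) := by
  rw [DZ_apply]
  refine Finset.sum_congr rfl fun v _ => ?_
  rw [dd_mono, mul_smul_comm, mono_mul, mono_mul, sub_smul, Pi.single_sub, add_comm _ β]
  congr 3
  abel

end Ring

def rp (ε : ℤ → U) : List ℤ → U
  | [] => 1
  | z :: L => rp ε L * ε z

variable (k) in
def muL (ε : ℤ → U) (l : List I) : LP k I →ₗ[k] U := linG k fun β => rp ε (l.map β)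

theorem muL_mono (ε : ℤ → U) (l : List I) (β : I → ℤ) :
    muL k ε l (mono k β) = rp ε (l.map β) := linG_mono _ β

theorem muL_psi [Fintype I] [DecidableEq I] (ε : ℤ → U) (l : List I) (F : MvPolynomial I k) :
    muL k ε l (psi k F) = mu (eP k ε 0) l F := by
  induction F using MvPolynomial.induction_on' with
  | monomial β a =>
    rw [psi_monomial, map_smul, muL_mono, mu, Phi_monomial, Algebra.ofId_apply,
      ← Algebra.commutes, ← Algebra.smul_def]
    congr 1
    induction l with
    | nil => rfl
    | cons v l ih => simp only [List.map_cons, rp, word, ih, eP_zero_pow]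
  | add p q hp hq => simp only [map_add, hp, hq]

theorem rp_comm [DecidableEq I] {ε : ℤ → U} (hε : IsWitt k ε) (z : ℤ) {l : List I} (hl : l.Nodup)
    (β : I → ℤ) : ε z * rp ε (l.map β) - rp ε (l.map β) * ε z =
      ∑ v ∈ l.toFinset, ((β v : k) - z) • rp ε (l.map (β + Pi.single v (z - 1))) := by
  induction l with
  | nil => simp [rp]
  | cons w l ih =>
    obtain ⟨hw, hl⟩ := List.nodup_cons.1 hl
    rw [List.toFinset_cons, Finset.sum_insert (by simpa using hw)]
    have h1 : l.map (β + Pi.single w (z - 1)) = l.map β := by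
      refine List.map_congr_left fun v hv => ?_
      have : v ≠ w := fun h => hw (h ▸ hv)
      simp [this]
    have h2 : ∑ v ∈ l.toFinset, ((β v : k) - z) • rp ε ((w :: l).map (β + Pi.single v (z - 1))) =
        (∑ v ∈ l.toFinset, ((β v : k) - z) • rp ε (l.map (β + Pi.single v (z - 1)))) *
          ε (β w) := by
      rw [Finset.sum_mul]
      refine Finset.sum_congr rfl fun v hv => ?_
      have : w ≠ v := fun h => hw (h ▸ List.mem_toFinset.1 hv)
      simp [rp, this]
    rw [h2, ← ih hl]
    simp only [List.map_cons, rp, h1, Pi.add_apply, Pi.single_eq_same]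
    rw [← mul_smul_comm, show β w + (z - 1) = z + β w - 1 by ring, ← hε]
    noncomm_ring

theorem muL_comm [Fintype I] [DecidableEq I] {ε : ℤ → U} (hε : IsWitt k ε) (z : ℤ) {l : List I}
    (hl : l.Nodup) (hc : ∀ v, v ∈ l) (G : LP k I) :
    ε z * muL k ε l G - muL k ε l G * ε z = muL k ε l (DZ k z G) := by
  refine lin_ext (φ := (LinearMap.mulLeft k (ε z) - LinearMap.mulRight k (ε z)) ∘ₗ muL k ε l)
    (ψ := muL k ε l ∘ₗ DZ k z) (fun β => ?_) G
  simp only [LinearMap.comp_apply, LinearMap.sub_apply, LinearMap.mulLeft_apply,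
    LinearMap.mulRight_apply, muL_mono, DZ_mono, map_sum, map_smul, rp_comm hε z hl]
  congr 1
  ext v; simp [hc]

theorem rp_append (ε : ℤ → U) (L L' : List ℤ) : rp ε (L ++ L') = rp ε L' * rp ε L := by
  induction L with
  | nil => simp [rp]
  | cons f L ih => simp [rp, ih, mul_assoc]

variable (k) in
def FilZ (ε : ℤ → U) (j : ℕ) : Submodule k U :=
  Submodule.span k {p | ∃ L : List ℤ, L.length < j ∧ p = rp ε L}

theorem FilZ_mono (ε : ℤ → U) {i j : ℕ} (h : i ≤ j) : FilZ k ε i ≤ FilZ k ε j :=
  Submodule.span_mono fun _ ⟨L, hL, hp⟩ => ⟨L, by omega, hp⟩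

theorem FilZ_mul (ε : ℤ → U) {i j : ℕ} {p q : U} (hp : p ∈ FilZ k ε i)
    (hq : q ∈ FilZ k ε (j + 1)) : p * q ∈ FilZ k ε (i + j) := by
  induction hp using Submodule.span_induction with
  | mem x hx =>
    obtain ⟨L, hL, rfl⟩ := hx
    induction hq using Submodule.span_induction with
    | mem y hy =>
      obtain ⟨L', hL', rfl⟩ := hy
      exact Submodule.subset_span ⟨L' ++ L, by simp; omega, (rp_append ε _ _).symm⟩
    | zero => simp
    | add a b _ _ ha hb => rw [mul_add]; exact Submodule.add_mem _ ha hb
    | smul c a _ ha => rw [mul_smul_comm]; exact Submodule.smul_mem _ _ ha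
  | zero => simp
  | add a b _ _ ha hb => rw [add_mul]; exact Submodule.add_mem _ ha hb
  | smul c a _ ha => rw [smul_mul_assoc]; exact Submodule.smul_mem _ _ ha

theorem mem_FilZ (ε : ℤ → U) (z : ℤ) : ε z ∈ FilZ k ε 2 :=
  Submodule.subset_span ⟨[z], by simp, by simp [rp]⟩

theorem exists_FilZ {ε : ℤ → U} (hgen : Algebra.adjoin k (Set.range ε) = ⊤) (u : U) :
    ∃ j, u ∈ FilZ k ε j := by
  have hu : u ∈ Algebra.adjoin k (Set.range ε) := hgen ▸ Algebra.mem_top
  induction hu using Algebra.adjoin_induction with
  | mem x hx => obtain ⟨f, rfl⟩ := hx; exact ⟨2, mem_FilZ ε f⟩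
  | algebraMap r =>
    refine ⟨1, ?_⟩
    rw [Algebra.algebraMap_eq_smul_one]
    exact Submodule.smul_mem _ _ (Submodule.subset_span ⟨[], by simp, rfl⟩)
  | add x y _ _ hx hy =>
    obtain ⟨i, hi⟩ := hx
    obtain ⟨j, hj⟩ := hy
    exact ⟨i + j, Submodule.add_mem _ (FilZ_mono ε (by omega) hi) (FilZ_mono ε (by omega) hj)⟩
  | mul x y _ _ hx hy =>
    obtain ⟨i, hi⟩ := hx
    obtain ⟨j, hj⟩ := hy
    exact ⟨i + j, FilZ_mul ε hi (FilZ_mono ε (by omega) hj)⟩

theorem rp_perm {ε : ℤ → U} (hε : IsWitt k ε) {L L' : List ℤ}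
    (h : L.Perm L') : rp ε L - rp ε L' ∈ FilZ k ε L.length := by
  induction h with
  | nil => simp
  | cons f _ ih =>
    simp only [rp, ← sub_mul, List.length_cons]
    exact FilZ_mul ε ih (mem_FilZ ε f)
  | swap f g L =>
    simp only [rp, mul_assoc, ← mul_sub, hε f g, List.length_cons, mul_smul_comm]
    exact Submodule.smul_mem _ _ (Submodule.subset_span ⟨_ :: L, by simp, rfl⟩)
  | trans h1 _ ih1 ih2 =>
    rw [← h1.length_eq] at ih2
    have := Submodule.add_mem _ ih1 ih2
    rwa [sub_add_sub_cancel] at this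

theorem muL_symm {ε : ℤ → U} (hε : IsWitt k ε) {m : ℕ} (σ : Equiv.Perm (Fin m))
    (G : LP k (Fin m)) :
    muL k ε (List.finRange m) (ren k σ G) - muL k ε (List.finRange m) G ∈ FilZ k ε m := by
  induction G using mono_ind with
  | h0 => simp
  | hadd f g hf hg =>
    have := Submodule.add_mem _ hf hg
    simp only [map_add]
    convert this using 1
    abel
  | hs r β =>
    rw [map_smul, map_smul, map_smul, ← smul_sub, ren_mono, muL_mono, muL_mono, ← List.map_map]
    have := rp_perm hε ((Equiv.Perm.map_finRange_perm σ.symm).map β)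
    simp only [List.length_map, List.length_finRange] at this
    exact Submodule.smul_mem _ _ this

theorem rp_eq_muL (ε : ℤ → U) (L : List ℤ) :
    muL k ε (List.finRange L.length) (mono k L.get) = rp ε L := by
  rw [muL_mono, List.map_get_finRange]

theorem exists_muL_of_FilZ (ε : ℤ → U) {m : ℕ} {q : U} (hq : q ∈ FilZ k ε (m + 1)) :
    ∃ H : LP k (Fin m), q - muL k ε (List.finRange m) H ∈ FilZ k ε m := by
  induction hq using Submodule.span_induction with
  | mem x hx =>
    obtain ⟨L, hL, rfl⟩ := hx
    by_cases h : L.length = m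
    · subst h
      exact ⟨mono k L.get, by simp [rp_eq_muL]⟩
    · refine ⟨0, ?_⟩
      rw [map_zero, sub_zero]
      exact Submodule.subset_span ⟨L, by omega, rfl⟩
  | zero => exact ⟨0, by simp⟩
  | add a b _ _ ha hb =>
    obtain ⟨G, hG⟩ := ha
    obtain ⟨G', hG'⟩ := hb
    refine ⟨G + G', ?_⟩
    have := Submodule.add_mem _ hG hG'
    rw [map_add]
    convert this using 1
    abel
  | smul c a _ ha =>
    obtain ⟨G, hG⟩ := ha
    exact ⟨c • G, by rw [map_smul, ← smul_sub]; exact Submodule.smul_mem _ _ hG⟩

end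

end Pool.Agent.Lib.MP_4da284_al.Q2
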