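import Pool.Agent.Lib.MP_4da284_al.H44Sym

namespace Pool.Agent.Lib.MP_4da284_al.Q2

open Q1 MvPolynomial

noncomputable section

variable {k U ς : Type*} [Field k] [Ring U] [Algebra k U]

/- the adjoint action on Laurent symbols as a system of points -/
def DL (k : Type*) [Field k] {I : Type*} [DecidableEq I] (i : I) (α : ℕ) : Module.End k (LP k I) :=
  if α = 0 then (dd k i).toLinearMap else if α = 1 then -2 else 0

theorem isSys_DL {I : Type*} [DecidableEq I] :
    IsSys (Algebra.lmul k (LP k I)) (tt k) (dd k) (DL k) where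
  hd i j := dd_tt i j
  h0 i b := by
    refine LinearMap.ext fun y => ?_
    simp [DL, mul_comm]
  h1 i α b hα := by
    refine LinearMap.ext fun y => ?_
    simp only [DL, if_neg hα]
    split_ifs <;> simp [mul_left_comm]

theorem DL_zero {I : Type*} [DecidableEq I] (i : I) (α : ℕ) (h : 1 < α) : DL k i α = 0 := by
  simp only [DL]; rw [if_neg (by omega), if_neg (by omega)]

theorem cast_smul {A : Type*} [Ring A] [Algebra k A] (z : ℤ) (x : A) : (z : k) • x = (z : A) * x := by
  rw [Int.cast_smul_eq_zsmul, zsmul_eq_mul]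

theorem xE_DL {I : Type*} [Fintype I] [DecidableEq I] (v : ς) (n : ℕ) (G : LP k I) :
    xE (Algebra.lmul k (LP k I)) (tt k) (DL k) v n G = DZ k n G := by
  simp only [xE, LinearMap.coe_sum, Finset.sum_apply, DZ_apply]
  refine Finset.sum_congr rfl fun i _ => ?_
  rw [phi1_apply, psum_eq_sum _ _ 2 (fun α h => DL_zero i α h)]
  simp only [Finset.sum_range_succ, Finset.range_zero, Finset.sum_empty, zero_add,
    Polynomial.taylor_coeff_zero, Polynomial.taylor_coeff_one]
  rcases n with _ | n
  · simp [DL, mono_zero]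
  · have h1 : mono k (Pi.single i (((n + 1 : ℕ) : ℤ) - 1)) = tt k i ^ n := by
      rw [tt_pow]; congr 2; push_cast; ring
    rw [h1, ← tt_pow, cast_smul]
    simp [DL, dd_tt]
    ring

theorem ad_muL {I : Type*} [Fintype I] [DecidableEq I] {ε : ℤ → U} (hε : IsWitt k ε)
    {l' : List I} (hl : l'.Nodup) (hc : ∀ v, v ∈ l') (l : List ς) (F : MvPolynomial ς k)
    (G : LP k I) :
    Phi (Algebra.ofId k _) (adE (eP k ε 0)) l F (muL k ε l' G) =
      muL k ε l' (Phi (Algebra.lmul k (LP k I)) (xE (Algebra.lmul k (LP k I)) (tt k) (DL k)) l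
          (map (algebraMap k _) F) G) := by
  rw [Phi_map]
  refine (Phi_intertwine (muL k ε l')
    (xE (Algebra.lmul k (LP k I)) (tt k) (DL k)) (adE (eP k ε 0)) ?_ l F G).symm
  intro v n y
  simp only [Module.End.smul_def, xE_DL, adE, LinearMap.sub_apply, LinearMap.mulLeft_apply,
    LinearMap.mulRight_apply, eP_zero_pow]
  exact (muL_comm hε _ hl hc y).symm

theorem eval_map_psi {I : Type*} [DecidableEq I] (σ : I → I) (h : MvPolynomial I k) :
    eval (fun v : I × Bool => tt k (σ v.1))
      (map (algebraMap k _) (rename (fun i => (i, true)) h)) = psi k (rename σ h) := by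
  induction h using MvPolynomial.induction_on with
  | C a => simp
  | add p q hp hq => simp only [map_add, hp, hq]
  | mul_X p w hp => simp only [map_mul, hp]; simp [psi_X]

theorem disc_of_ne [CharZero k] {e : Polynomial k →ₗ[k] U} (he : IsBr e) (Q : Ideal U)
    (hQ : ∀ q ∈ Q, ∀ u, q * u ∈ Q) {m : ℕ} {G1 : MvPolynomial (Fin m) k} (h0 : G1 ≠ 0)
    (hC : ∀ a, mu e (List.finRange m) (a * G1) ∈ Q) : ∃ K : ℕ, ∀ H : MvPolynomial (Fin m) k,
      mu e (List.finRange m) (disc k id ^ K * H) ∈ Q := by
  set l := List.finRange m with hl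
  have hln : l.Nodup := List.nodup_finRange m
  have hlc : ∀ v, v ∈ l := List.mem_finRange
  let I : Ideal (MvPolynomial (Fin m) k) :=
    { carrier := {G | ∀ a, mu e l (a * G) ∈ Q}
      add_mem' := fun {x y} hx hy a => by rw [mul_add, map_add]; exact Q.add_mem (hx a) (hy a)
      zero_mem' := fun a => by simp
      smul_mem' := fun c x hx a => by rw [smul_eq_mul, ← mul_assoc]; exact hx _ }
  obtain ⟨K', hK'⟩ := disc_pow_mem I
    (fun h => h0 (by
      have : G1 ∈ I := hC
      rwa [h] at this)) (by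
      intro f G hG a
      have h1 : mu e l (∑ v, Lv f v (a * G)) ∈ Q := by
        rw [← mu_comm he f hln hlc]
        exact Q.sub_mem (Q.mul_mem_left _ (hG a)) (hQ _ (hG a) _)
      have h2 := hG (∑ v, Lv f v a)
      have := Q.sub_mem h1 h2
      rw [← map_sub] at this
      convert this using 2
      rw [Finset.mul_sum, Finset.sum_mul, ← Finset.sum_sub_distrib]
      refine Finset.sum_congr rfl fun v _ => ?_
      simp only [Lv, Derivation.leibniz, smul_eq_mul]
      ring)
  exact ⟨K', fun H => by rw [mul_comm]; exact hK' H⟩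

theorem thmA [CharZero k] {ε : ℤ → U} (hε : IsWitt k ε)
    (hgen : Algebra.adjoin k (Set.range ε) = ⊤) (Q : Ideal U) (hQ : ∀ q ∈ Q, ∀ u, q * u ∈ Q)
    (h0 : Q ≠ ⊥) : ∃ m K : ℕ, ∀ H : MvPolynomial (Fin m) k,
      mu (eP k ε 0) (List.finRange m) (disc k id ^ K * H) ∈ Q := by
  classical
  obtain ⟨q, hq, hq0⟩ := Submodule.exists_mem_ne_zero_of_ne_bot h0
  have hex := exists_FilZ hgen q
  obtain ⟨m, hm1, hm2⟩ : ∃ m, q ∈ FilZ k ε (m + 1) ∧ q ∉ FilZ k ε m := by
    have h1 := Nat.find_spec hex
    have h2 : Nat.find hex ≠ 0 := by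
      intro h
      rw [h] at h1
      simp [FilZ] at h1
      exact hq0 h1
    refine ⟨Nat.find hex - 1, ?_, Nat.find_min hex (by omega)⟩
    rwa [Nat.sub_add_cancel (by omega)]
  obtain ⟨H0, hH0⟩ := exists_muL_of_FilZ ε hm1
  set l := List.finRange m with hl
  have hln : l.Nodup := List.nodup_finRange m
  have hlc : ∀ v, v ∈ l := List.mem_finRange
  set K := 2 * (2 + (pl l).length) with hK
  let Z : MvPolynomial (Fin m) k → Module.End k U := fun h =>
    Phi (Algebra.ofId k _) (adE (eP k ε 0)) (pl l) (PP k (fun _ => top 1) l *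
      (disc k Prod.fst ^ K * rename (fun i => (i, true)) h))
  have ZQ : ∀ h, ∀ y ∈ Q, Z h y ∈ Q := by
    intro h y hy
    refine Phi_stable (Q.restrictScalars k) (adE (eP k ε 0)) ?_ (pl l) _ hy
    intro v n y hy
    exact Q.sub_mem (Q.mul_mem_left _ hy) (hQ _ hy _)
  have Zlow : ∀ h, ∀ y ∈ FilZ k ε m, Z h y = 0 := by
    intro h y hy
    induction hy using Submodule.span_induction with
    | mem x hx =>
      obtain ⟨L, hL, rfl⟩ := hx
      rw [← rp_eq_muL (k := k) ε L]
      simp only [Z]
      rw [ad_muL hε (List.nodup_finRange _) List.mem_finRange, mul_left_comm, map_mul, map_pow,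
        map_disc, isSys_DL.pigeon Prod.fst Prod.fst_surjective (by simpa using hL)
          (N := 2) (fun i α h => DL_zero i α h) (nodup_pl hln) (fun v => mem_pl.2 (hlc _)) le_rfl]
      simp
    | zero => simp
    | add a b _ _ ha hb => rw [map_add, ha, hb, add_zero]
    | smul c a _ ha => rw [map_smul, ha, smul_zero]
  set Θ : LP k (Fin m) :=
    eval (fun v : Fin m × Bool => tt k v.1) (disc (LP k (Fin m)) Prod.fst) ^ K with hΘ
  have hΘ0 : Θ ≠ 0 := by
    refine pow_ne_zero _ ?_
    simp only [disc, map_prod, map_sub, eval_X]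
    refine Finset.prod_ne_zero_iff.2 fun p hp => sub_ne_zero.2 fun h => ?_
    exact (Finset.mem_filter.1 hp).2 (tt_injective h)
  have Ztop : ∀ h G, Z h (muL k ε l G) =
      ((-4 : k) ^ m) • muL k ε l (Θ * ((∑ σ : Equiv.Perm (Fin m), psi k (rename σ h)) * G)) := by
    intro h G
    simp only [Z]
    rw [ad_muL hε hln hlc, map_mul (map _), map_mul (map _), map_pow, map_disc, map_PP,
      isSys_DL.pair_formula (n := fun _ => 1) (fun i α h => DL_zero i α h) (N := 2)
        (fun _ => one_lt_two) hln hlc le_rfl, ← map_smul]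
    congr 1
    simp only [LinearMap.coe_sum, Finset.sum_apply, Finset.sum_mul, Finset.mul_sum,
      Finset.smul_sum]
    refine Finset.sum_congr rfl fun σ _ => ?_
    have hc : (fun i : Fin m => cc (DL k (σ i)) (top 1)) =
        fun _ => algebraMap k (Module.End k (LP k (Fin m))) (-4) := by
      funext i
      rw [cc_one (fun α h => DL_zero _ α h)]
      simp only [DL, one_ne_zero, if_false, if_true, map_neg, map_ofNat]
      norm_num
    have hlen : l.length = m := List.length_finRange
    rw [hc, cw_const, ← map_pow, hlen, map_mul (eval _), map_pow (eval _), eval_map_psi,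
      eval_disc_perm (tt k) σ, ← hK, ← hΘ]
    rw [Module.End.mul_apply, Module.algebraMap_end_apply]
    simp [mul_assoc]
  have h4 : ((-4 : k) ^ m) ≠ 0 := pow_ne_zero _ (by norm_num)
  have hfac : ((Fintype.card (Equiv.Perm (Fin m)) : ℕ) : k) ≠ 0 := by
    exact_mod_cast Fintype.card_ne_zero
  have hA : ∀ G, (∃ y ∈ Q, y - muL k ε l G ∈ FilZ k ε m) → ∀ h,
      muL k ε l (Θ * ((∑ σ : Equiv.Perm (Fin m), psi k (rename σ h)) * G)) ∈ Q := by
    rintro G ⟨y, hy, hG⟩ h
    have h1 := Zlow h _ hG
    rw [map_sub, sub_eq_zero, Ztop] at h1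
    have h2 := ZQ h y hy
    rw [h1] at h2
    exact (Submodule.smul_mem_iff (Q.restrictScalars k) h4).1 h2
  have hB : ∀ G, muL k ε l G ∈ FilZ k ε m → muL k ε l (Θ * G) = 0 := by
    intro G hG
    have h1 := Zlow 1 _ hG
    rw [Ztop] at h1
    simp only [map_one, Finset.sum_const, Finset.card_univ, ← Nat.cast_smul_eq_nsmul k,
      smul_mul_assoc, one_mul, mul_smul_comm, map_smul, smul_eq_zero, h4, hfac, false_or] at h1
    exact h1
  set G0 := ∑ σ : Equiv.Perm (Fin m), ren k σ H0 with hG0
  have hG0s : ∀ τ : Equiv.Perm (Fin m), ren k τ G0 = G0 := by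
    intro τ
    rw [hG0, map_sum]
    exact Fintype.sum_equiv (Equiv.mulLeft τ) _ _ fun σ => ren_ren τ σ H0
  have hsum : ∀ F : LP k (Fin m), muL k ε l (∑ σ : Equiv.Perm (Fin m), ren k σ F) -
      ((Fintype.card (Equiv.Perm (Fin m)) : ℕ) : k) • muL k ε l F ∈ FilZ k ε m := by
    intro F
    rw [map_sum, Nat.cast_smul_eq_nsmul, ← Finset.card_univ, ← Finset.sum_const,
      ← Finset.sum_sub_distrib]
    exact Submodule.sum_mem _ fun σ _ => muL_symm hε σ F
  have hG0Q : ((Fintype.card (Equiv.Perm (Fin m)) : ℕ) : k) • q - muL k ε l G0 ∈ FilZ k ε m := by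
    have := Submodule.sub_mem _ (Submodule.smul_mem _
      ((Fintype.card (Equiv.Perm (Fin m)) : ℕ) : k) hH0) (hsum H0)
    convert this using 1
    rw [smul_sub]; abel
  have hG00 : G0 ≠ 0 := by
    intro h
    rw [h, map_zero, sub_zero] at hG0Q
    exact hm2 ((Submodule.smul_mem_iff _ hfac).1 hG0Q)
  have hC : ∀ a, muL k ε l (psi k a * (Θ * G0)) ∈ Q := by
    intro a
    have h1 := hA G0 ⟨_, Submodule.smul_of_tower_mem Q _ hq, hG0Q⟩ a
    have h2 := hsum (psi k a * G0)
    rw [← map_smul, ← map_sub] at h2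
    have h3 := hB _ h2
    simp only [map_mul, hG0s, ren_psi, ← Finset.sum_mul] at h3
    rw [mul_sub, map_sub, sub_eq_zero, mul_smul_comm, map_smul] at h3
    rw [h3] at h1
    have := (Submodule.smul_mem_iff (Q.restrictScalars k) hfac).1 h1
    rwa [mul_left_comm] at this
  obtain ⟨s, G1, hG1⟩ := exists_clear (Θ * G0)
  refine ⟨m, disc_of_ne (isBr_eP hε) Q hQ (G1 := G1) (fun h => ?_) fun a => ?_⟩
  · rw [h, map_zero, eq_comm, (isUnit_psi_prod.pow s).mul_right_eq_zero] at hG1
    exact mul_ne_zero hΘ0 hG00 hG1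
  · rw [← muL_psi, map_mul, hG1, ← mul_assoc, ← map_pow, ← map_mul]
    exact hC _

section Ext

variable {I : Type*} [Fintype I] [DecidableEq I]

omit [Fintype I] in
theorem dd_psi (i : I) (F : MvPolynomial I k) : dd k i (psi k F) = psi k (pderiv i F) := by
  induction F using MvPolynomial.induction_on with
  | C a => rw [pderiv_C, map_zero, ← algebraMap_eq, AlgHom.commutes, Derivation.map_algebraMap]
  | add p q hp hq => simp only [map_add, hp, hq]
  | mul_X p w hp =>
    simp only [map_mul, Derivation.leibniz, smul_eq_mul, map_add, hp, psi_X, dd_tt, pderiv_X,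
      Pi.single_apply]
    by_cases h : i = w <;> simp [h, eq_comm]

theorem ext_one [CharZero k] (J P : Submodule k (LP k I)) (hJ : ∀ z, ∀ G ∈ J, DZ k z G ∈ J)
    (hP : ∀ F, ∀ G ∈ P, psi k F * G ∈ P) (hPJ : P ≤ J) (i : I) (z : ℤ) {G : LP k I} (hG : G ∈ P) :
    mono k (Pi.single i z) * (psi k (∏ w ∈ Finset.univ.erase i, (X i - X w)) ^ 2 * G) ∈ J := by
  let ev : I → Polynomial (MvPolynomial I k) →+* LP k I := fun v =>
    (psi k).toRingHom.comp (Polynomial.evalRingHom (X v))
  let Op : ℤ → Polynomial (MvPolynomial I k) → LP k I → LP k I := fun z g G =>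
    ∑ v, (mono k (Pi.single v z) * (ev v g * dd k v G + ev v (pder (pderiv v) g) * G -
      ev v (Polynomial.derivative g) * G) - (z : k) • (mono k (Pi.single v (z - 1)) * (ev v g * G)))
  have h1 : ∀ z g, ∀ G ∈ P, Op z g G ∈ J := by
    intro z g G hG
    induction g using Polynomial.induction_on' with
    | add p q hp hq =>
      have := J.add_mem hp hq
      convert this using 1
      simp only [Op, map_add, ← Finset.sum_add_distrib]
      refine Finset.sum_congr rfl fun v _ => ?_
      simp only [cast_smul]; ring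
    | monomial n a =>
      have := hJ (z + n) _ (hPJ (hP a G hG))
      convert this using 1
      rw [DZ_apply]
      refine Finset.sum_congr rfl fun v _ => ?_
      have e1 : mono k (Pi.single v (z + n)) = mono k (Pi.single v z) * tt k v ^ n := by
        rw [tt_pow, mono_mul, Pi.single_add]
      have e2 : mono k (Pi.single v (z + n - 1)) = mono k (Pi.single v (z - 1)) * tt k v ^ n := by
        rw [tt_pow, mono_mul, ← Pi.single_add]; congr 2; ring
      have e3 : mono k (Pi.single v z) = mono k (Pi.single v (z - 1)) * tt k v := by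
        rw [tt, mono_mul, ← Pi.single_add]; congr 2; ring
      have e4 : ∀ n a, ev v (Polynomial.monomial n a) = psi k a * tt k v ^ n := by
        intro n a; simp [ev, psi_X]
      rw [e1, e2, e3, pder_monomial, Derivation.leibniz, dd_psi, cast_smul, cast_smul, e4, e4,
        smul_eq_mul, smul_eq_mul]
      rcases n with _ | n
      · rw [Polynomial.monomial_zero_left, Polynomial.derivative_C, map_zero]
        push_cast; ring
      · rw [Polynomial.derivative_monomial_succ, e4, map_mul, map_add, map_natCast, map_one]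
        push_cast; ring
  set π : Polynomial (MvPolynomial I k) :=
    ∏ w ∈ Finset.univ.erase i, (Polynomial.X - Polynomial.C (X w)) with hπ
  have hπ0 : ∀ v, v ≠ i → ev v π = 0 := by
    intro v hv
    rw [hπ, map_prod, Finset.prod_eq_zero (i := v) (by simp [hv])]
    simp [ev]
  have hπi : ev i π = psi k (∏ w ∈ Finset.univ.erase i, (X i - X w)) := by
    simp [hπ, ev, map_prod]
  have hπd : pder (pderiv i) π = 0 := by
    rw [hπ]
    refine Finset.prod_induction _ (fun g => pder (pderiv i) g = 0) ?_ (by simp) ?_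
    · intro a b ha hb; rw [Derivation.leibniz, ha, hb]; simp
    · intro w hw
      rw [map_sub, pder_X, pder_C, pderiv_X_of_ne (Finset.ne_of_mem_erase hw)]; simp
  have h2 : ∀ z G, Op z (π ^ 2) G = mono k (Pi.single i z) * (ev i π ^ 2 * dd k i G -
      ev i (Polynomial.derivative (π ^ 2)) * G) -
        (z : k) • (mono k (Pi.single i (z - 1)) * (ev i π ^ 2 * G)) := by
    intro z G
    simp only [Op]
    rw [Finset.sum_eq_single i]
    · rw [Derivation.leibniz_pow, hπd]; simp
    · intro v _ hv
      rw [Derivation.leibniz_pow, Polynomial.derivative_pow]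
      simp [hπ0 v hv]
    · simp
  have h3 := J.sub_mem (h1 z (π ^ 2) _ (hP (X i) G hG)) (h1 (z + 1) (π ^ 2) G hG)
  rw [h2, h2, hπi] at h3
  have e3 : ∀ z, mono k (Pi.single i (z + 1)) = mono k (Pi.single i z) * tt k i := by
    intro z; rw [tt, mono_mul, ← Pi.single_add]
  have e4 : mono k (Pi.single i z) = mono k (Pi.single i (z - 1)) * tt k i := by
    rw [← e3, sub_add_cancel]
  rw [← Submodule.smul_mem_iff _ (two_ne_zero : (2 : k) ≠ 0)]
  convert h3 using 1
  rw [e3, add_sub_cancel_right, psi_X, Derivation.leibniz, dd_tt, if_pos rfl, e4]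
  simp only [cast_smul, smul_eq_mul, two_smul]
  push_cast
  ring

theorem ext_all [CharZero k] (J : Submodule k (LP k I)) (hJ : ∀ z, ∀ G ∈ J, DZ k z G ∈ J) {K : ℕ}
    (hK : ∀ H, psi k (disc k id ^ K * H) ∈ J) :
    ∃ K' : ℕ, ∀ H : LP k I, psi k (disc k id) ^ K' * H ∈ J := by
  have key : ∀ S : Finset I, ∃ K' : ℕ, ∀ (β : I → ℤ) (a : MvPolynomial I k),
      mono k (∑ v ∈ S, Pi.single v (β v)) * psi k (disc k id ^ K' * a) ∈ J := by
    intro S
    induction S using Finset.induction_on with
    | empty => exact ⟨K, fun β a => by simpa [mono_zero] using hK a⟩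
    | insert i S hi ih =>
      obtain ⟨K', hK'⟩ := ih
      have hd : (∏ j ∈ Finset.univ.erase i, (X i - X j : MvPolynomial I k)) ∣
          disc k (id : I → I) ^ (Finset.univ.erase i).card := by
        rw [← Finset.prod_const]
        exact Finset.prod_dvd_prod_of_dvd _ _ fun j hj =>
          dvd_disc id (Finset.ne_of_mem_erase hj).symm
      obtain ⟨c, hc⟩ := hd
      refine ⟨(Finset.univ.erase i).card * 2 + K', fun β a => ?_⟩
      let P : Submodule k (LP k I) :=
        { carrier := {G | ∃ a, G = mono k (∑ v ∈ S, Pi.single v (β v)) *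
            psi k (disc k id ^ K' * a)}
          add_mem' := by
            rintro _ _ ⟨a, rfl⟩ ⟨b, rfl⟩
            exact ⟨a + b, by simp only [mul_add, map_add]⟩
          zero_mem' := ⟨0, by simp⟩
          smul_mem' := by
            rintro r _ ⟨a, rfl⟩
            exact ⟨r • a, by simp only [mul_smul_comm, map_smul]⟩ }
      have := ext_one J P hJ (by
        rintro F _ ⟨a, rfl⟩
        exact ⟨F * a, by simp only [map_mul]; ring⟩) (by
        rintro _ ⟨a, rfl⟩
        exact hK' β a) i (β i) (G := _) ⟨c ^ 2 * a, rfl⟩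
      convert this using 1
      rw [Finset.sum_insert hi, ← mono_mul, pow_add, pow_mul, hc]
      simp only [map_mul, map_pow]
      ring
  obtain ⟨K', hK'⟩ := key Finset.univ
  refine ⟨K', fun H => ?_⟩
  induction H using mono_ind with
  | h0 => simp
  | hadd f g hf hg => rw [mul_add]; exact J.add_mem hf hg
  | hs r β =>
    have := hK' β 1
    rw [Finset.univ_sum_single, mul_one, map_pow, mul_comm] at this
    rw [mul_smul_comm]
    exact J.smul_mem _ this

end Ext

end

end Pool.Agent.Lib.MP_4da284_al.Q2
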