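import Pool.Agent.Lib.MP_4da284_al.H44Base

namespace Pool.Agent.Lib.MP_4da284_al.Q2

open Q1 Polynomial TensorProduct

noncomputable section

universe u

variable {k : Type u} [Field k] {U : Type u} [Ring U] [Algebra k U]

/- A module over a system of nonzero points which is generated by the image of `M`. -/
structure Cov2 {I : Type} {A R : Type u} [Fintype I] [DecidableEq I] [CommRing A] [Algebra k A]
    [Ring R] [Algebra k R] (ε : ℤ → U) (M : Type u) [AddCommGroup M] [Module k M]
    [Module U M] (ι : A →ₐ[k] R) (t : I → A) (d : I → Derivation k A A) (γ : ℤ → A[X]) (N : ℕ)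
    (n : I → ℕ) where
  c : Cov (eP k ε 0) M ι t d n
  bound : ∀ i α, N ≤ α → c.D i α = 0
  linZ : ∀ z v, c.j (ε z • v) = ext1 ι c.e' (γ z) • c.j v

variable (k) in
def sc (l : ℕ) : LP k (Fin l) →ₐ[k] LP k (Fin (l + 1)) :=
  push k
    { toFun := fun β => Fin.cons 0 β
      map_zero' := by funext i; induction i using Fin.cases <;> simp
      map_add' := fun β γ => by funext i; induction i using Fin.cases <;> simp }

theorem sc_mono {l : ℕ} (β : Fin l → ℤ) : sc k l (mono k β) = mono k (Fin.cons 0 β) :=
  push_mono _ β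

theorem sc_tt {l : ℕ} (i : Fin l) : sc k l (tt k i) = tt k i.succ := by
  rw [tt, sc_mono, tt]
  congr 1
  funext j
  induction j using Fin.cases <;> simp [Pi.single_apply, (Fin.succ_ne_zero _).symm]

theorem sc_psi {l : ℕ} (F : MvPolynomial (Fin l) k) :
    sc k l (psi k F) = psi k (MvPolynomial.rename Fin.succ F) := by
  have : (sc k l).comp (psi k) = (psi k).comp (MvPolynomial.rename Fin.succ) :=
    MvPolynomial.algHom_ext fun i => by simp [psi_X, sc_tt]
  exact DFunLike.congr_fun this F

theorem muL_succ (ε : ℤ → U) {l : ℕ} (z : ℤ) (G : LP k (Fin l)) :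
    muL k ε (List.finRange (l + 1)) (mono k (Pi.single 0 z) * sc k l G) =
      muL k ε (List.finRange l) G * ε z := by
  induction G using mono_ind with
  | h0 => simp
  | hadd f g hf hg => simp only [map_add, mul_add, add_mul, hf, hg]
  | hs r β =>
    rw [map_smul, mul_smul_comm, map_smul, map_smul, smul_mul_assoc, sc_mono, mono_mul, muL_mono,
      muL_mono, List.finRange_succ, List.map_cons, List.map_map, rp]
    congr 3
    · congr 1
      funext i
      simp
    · simp

section Omega

variable {A : Type u} [CommRing A] [Algebra k A]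
  {M : Type u} [AddCommGroup M] [Module k M] [Module U M] [IsScalarTower k U M]

omit [IsScalarTower k U M] in
theorem Om_succ (ε : ℤ → U) (s : ℕ) (v : M) (G : A[X]) :
    Om (eP k ε (s + 1)) v (X * G) = Om (eP k ε s) v G := by
  induction G using Polynomial.induction_on' with
  | monomial n a => rw [X_mul_monomial, Om_monomial, Om_monomial, pow_succ', eP_succ]
  | add p q hp hq => simp only [mul_add, map_add, hp, hq]

omit [IsScalarTower k U M] in
theorem Om_shift (ε : ℤ → U) (s : ℕ) (v : M) (G : A[X]) :
    Om (eP k ε s) v (X ^ s * G) = Om (eP k ε 0) v G := by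
  induction s with
  | zero => simp
  | succ s ih => rw [pow_succ', mul_assoc, Om_succ, ih]

variable {I : Type} [Fintype I] (t : I → A) (d : I → Derivation k A A)

theorem et_Om2 {ε : ℤ → U} (hε : IsWitt k ε) (s : ℕ) (f : k[X]) (v : M) (G : A[X]) :
    et (eP k ε 0) t d f (Om (eP k ε s) v G) = Om (eP k ε (s + 1)) v
      (X * (pder (Df t d f) G + f.map (algebraMap k A) * derivative G -
        (derivative f).map (algebraMap k A) * G) - (s : A[X]) * f.map (algebraMap k A) * G) +
      Om (eP k ε s) (eP k ε 0 f • v) G := by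
  induction G using Polynomial.induction_on' with
  | monomial n a =>
    have e1 : X * (pder (Df t d f) (monomial n a) + f.map (algebraMap k A) *
        derivative (monomial n a) - (derivative f).map (algebraMap k A) * monomial n a) -
        (s : A[X]) * f.map (algebraMap k A) * monomial n a =
        X * pder (Df t d f) (monomial n a) +
        C a * (X * (f * derivative (X ^ n) - derivative f * X ^ n) -
          (s : k[X]) * f * X ^ n).map (algebraMap k A) := by
      simp only [← C_mul_X_pow_eq_monomial, derivative_C_mul, Polynomial.map_sub,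
        Polynomial.map_mul, Polynomial.map_pow, map_X, ← derivative_map, Polynomial.map_natCast]
      ring
    rw [e1, map_add, Om_map, Om_succ, pder_monomial, Om_monomial, Om_monomial, Om_monomial,
      et_tmul, ← eP_br hε, sub_smul, mul_smul, mul_smul, tmul_sub]
    abel
  | add p q hp hq =>
    simp only [map_add, hp, hq, mul_add, map_sub, mul_sub]
    abel

end Omega

theorem exists_cov2 {l : ℕ} {A : Type u} [CommRing A] [Algebra k A] {t : Fin l → A}
    {d : Fin l → Derivation k A A} (hB : Base2 k t d) {ε : ℤ → U} (hε : IsWitt k ε)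
    (M : Type u) [AddCommGroup M] [Module k M] [Module U M] [IsScalarTower k U M] [Nontrivial M]
    {K : ℕ} (hK : ∀ (H : LP k (Fin (l + 1))) (v : M),
      muL k ε (List.finRange (l + 1)) (psi k (disc k id) ^ K * H) • v = 0)
    (hmin : ∀ (K' : ℕ) (v : M), (∀ b : LP k (Fin l),
      muL k ε (List.finRange l) (psi k (disc k id) ^ K' * b) • v = 0) → v = 0) :
    ∃ (R : Type u) (_ : Ring R) (_ : Algebra k R) (ι : A →ₐ[k] R) (γ : ℤ → A[X]) (N : ℕ)
      (n : Fin l → ℕ), 2 ≤ N ∧ Gam k (∏ i, (X - C (t i))) N γ ∧
        Nonempty (Cov2 ε M ι t d γ N n) := by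
  have he := isBr_eP hε
  set e := eP k ε 0 with hee
  obtain ⟨c, hc⟩ := disc_succ_dvd k l
  set N := c * K + 2 with hN
  set p : A[X] := ∏ i, (X - C (t i)) with hp
  obtain ⟨γ, hγ⟩ := exists_gam (k := k) (p := p) (IsCoprime.prod_right fun i _ => by
    simpa using isCoprime_X_sub_C_of_isUnit_sub (a := 0) (b := t i) (by simpa using hB.tunit i)) N
  let Y : Submodule A (A ⊗[k] M) :=
    Submodule.span A {y | ∃ s v H, y = Om (eP k ε s) v (p ^ N * H)}
  have hYgen : ∀ s v G, p ^ N ∣ G → Om (eP k ε s) v G ∈ Y := by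
    rintro s v _ ⟨H, rfl⟩
    exact Submodule.subset_span ⟨s, v, H, rfl⟩
  have hY : ∀ f, ∀ y ∈ Y, et e t d f y ∈ Y := by
    intro f y hy
    induction hy using Submodule.span_induction with
    | mem x hx =>
      obtain ⟨s, v, H, rfl⟩ := hx
      rw [hee, et_Om2 t d hε]
      refine Y.add_mem (hYgen _ _ _ (dvd_sub (Dvd.dvd.mul_left
        (dvd_sub ?_ ((dvd_mul_right _ _).mul_left _)) _) ((dvd_mul_right _ _).mul_left _)))
        (hYgen _ _ _ (dvd_mul_right _ _))
      let δ : Derivation k A[X] A[X] := pder (Df t d f) +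
        f.map (algebraMap k A) • (derivative' : Derivation A A[X] A[X]).restrictScalars k
      refine der_pow_dvd δ (der_prod_dvd δ _ _ fun i _ => ?_) N H
      rw [dvd_iff_isRoot]
      change eval (t i) (pder (Df t d f) (X - C (t i)) +
        f.map (algebraMap k A) * derivative (X - C (t i))) = 0
      rw [map_sub, pder_X, pder_C, hB.Df_t]
      simp [eval_map_algebraMap]
    | zero => simp
    | add a b _ _ ha hb => rw [map_add]; exact Y.add_mem ha hb
    | smul a x hx ih => rw [et_smul]; exact Y.add_mem (Y.smul_mem _ ih) (Y.smul_mem _ hx)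
  let XX := (A ⊗[k] M) ⧸ Y
  have hext : ∀ {T T' : Module.End k XX},
      (∀ a v, T (Submodule.Quotient.mk (a ⊗ₜ v)) = T' (Submodule.Quotient.mk (a ⊗ₜ v))) → T = T' := by
    intro T T' h
    refine LinearMap.ext fun x => ?_
    obtain ⟨x, rfl⟩ := Submodule.Quotient.mk_surjective Y x
    induction x using TensorProduct.induction_on with
    | zero => simp
    | tmul a v => exact h a v
    | add x y hx hy => simp only [Submodule.Quotient.mk_add, map_add, hx, hy]
  have hdesc : ∀ f, ∃ T : Module.End k XX, ∀ x, T (Submodule.Quotient.mk x) =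
      Submodule.Quotient.mk (et e t d f x) := by
    intro f
    refine ⟨(Y.restrictScalars k).liftQ (Y.mkQ.restrictScalars k ∘ₗ et e t d f) ?_ ∘ₗ
      (Submodule.Quotient.restrictScalarsEquiv k Y).symm.toLinearMap, fun x => rfl⟩
    intro y hy
    exact (Submodule.Quotient.mk_eq_zero Y).2 (hY f y hy)
  choose T hT using hdesc
  have hDadd : ∀ f g a, Df t d (f + g) a = Df t d f a + Df t d g a := by
    intro f g a; simp [Df_apply, add_mul, Finset.sum_add_distrib]
  have hDsmul : ∀ (c : k) f a, Df t d (c • f) a = c • Df t d f a := by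
    intro c f a; simp [Df_apply, Finset.smul_sum]
  let e0 : k[X] →ₗ[k] Module.End k XX :=
    { toFun := T
      map_add' := fun f g => hext fun a v => by
        simp only [LinearMap.add_apply, hT, et_tmul, hDadd, map_add, add_smul, add_tmul, tmul_add,
          Submodule.Quotient.mk_add]
        abel
      map_smul' := fun c f => hext fun a v => by
        simp only [LinearMap.smul_apply, hT, et_tmul, hDsmul, map_smul, smul_assoc, RingHom.id_apply,
          tmul_smul, ← smul_tmul', ← smul_add, Submodule.Quotient.mk_smul] }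
  have he0 : ∀ f x, e0 f (Submodule.Quotient.mk x) = Submodule.Quotient.mk (et e t d f x) := hT
  let ι0 : A →ₐ[k] Module.End k XX := Algebra.lsmul k k XX
  have hι0 : ∀ a x, ι0 a (Submodule.Quotient.mk x) = Submodule.Quotient.mk (a • x) :=
    fun _ _ => rfl
  have hbr0 : IsBr e0 := fun f g => hext fun a v => by
    simp only [LinearMap.sub_apply, Module.End.mul_apply, he0]
    simp only [et_tmul, map_add, ← hB.Df_br, ← he f g, sub_smul, mul_smul, sub_tmul, tmul_sub,
      Submodule.Quotient.mk_add, Submodule.Quotient.mk_sub]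
    abel
  have hcomm0 : ∀ f b, e0 f * ι0 b = ι0 b * e0 f + ι0 (∑ i, aeval (t i) f * d i b) :=
    fun f b => hext fun a v => by
      simp only [LinearMap.add_apply, Module.End.mul_apply, he0, hι0, Submodule.Quotient.mk_add,
        et_smul, Df_apply]
  have h1 : ∀ (G : A[X]) a v, ext1 ι0 e0 G (Submodule.Quotient.mk (a ⊗ₜ v)) =
      Submodule.Quotient.mk (Om e v (G * C a) +
        (∑ i, eval (t i) (pder (d i) (G * C a))) ⊗ₜ v) := by
    intro G a v
    induction G using Polynomial.induction_on' with
    | monomial n g =>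
      rw [ext1_monomial, Module.End.mul_apply, hι0, he0, monomial_mul_C, Om_monomial, smul_tmul',
        et_tmul, add_comm, Df_apply]
      simp [pder_monomial, mul_comm, mul_add]
    | add p q hp hq =>
      simp only [map_add, LinearMap.add_apply, hp, hq, add_mul, eval_add, Finset.sum_add_distrib,
        add_tmul, Submodule.Quotient.mk_add]
      abel
  have hp0 : ∀ i, eval (t i) p = 0 := fun i => by
    rw [hp, eval_prod, Finset.prod_eq_zero (Finset.mem_univ i)]; simp
  have hkill0 : ∀ H : A[X], ext1 ι0 e0 (p ^ N * H) = 0 := by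
    intro H
    refine hext fun a v => ?_
    rw [h1, LinearMap.zero_apply, Submodule.Quotient.mk_eq_zero, Finset.sum_eq_zero, zero_tmul,
      add_zero]
    · exact hYgen 0 _ _ ((dvd_mul_right _ _).mul_right _)
    · intro i _
      rw [mul_assoc, Derivation.leibniz, Derivation.leibniz_pow]
      simp [hp0 i, hN]
  obtain ⟨R, ι, e', D, hι, he', hgen, hD, hDN⟩ :=
    exists_local_gen hB.hd hB.unit hbr0 hcomm0 N hkill0
  let j : M →ₗ[k] XX := Y.mkQ.restrictScalars k ∘ₗ TensorProduct.mk k A M 1
  have hj : ∀ v, j v = Submodule.Quotient.mk (1 ⊗ₜ v) := fun _ => rfl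
  refine ⟨R, inferInstance, inferInstance, ι, γ, N, fun _ => N, by omega, hγ,
    ⟨⟨⟨e', D, XX, j, hD, hgen, ?_, ?_, ?_, ?_⟩, hDN, ?_⟩⟩⟩
  · intro h0
    obtain ⟨v, hv⟩ := exists_ne (0 : M)
    have hvY : (1 : A) ⊗ₜ[k] v ∈ Y := by
      rw [← Submodule.Quotient.mk_eq_zero, ← hj, h0]; rfl
    obtain ⟨j0, hj0, hjt, hjs⟩ := hB.exists_j
    set Δ : LP k (Fin l) := psi k (disc k id) with hΔ
    obtain ⟨ρ, hρ⟩ := LinearMap.exists_leftInverse_of_injective j0.toLinearMap
      (LinearMap.ker_eq_bot.2 hj0)
    have hρ' : ∀ a, ρ (j0 a) = a := fun a => DFunLike.congr_fun hρ a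
    let Λ : A ⊗[k] M →ₗ[k] M := TensorProduct.lift ((Algebra.lsmul k k M).toLinearMap ∘ₗ
      muL k ε (List.finRange l) ∘ₗ LinearMap.mulLeft k (Δ ^ N) ∘ₗ ρ)
    have hΛ : ∀ a v, Λ (j0 a ⊗ₜ v) = muL k ε (List.finRange l) (Δ ^ N * a) • v := by
      intro a v; simp [Λ, hρ']
    let ψ : (LP k (Fin l))[X] →+* LP k (Fin (l + 1)) := eval₂RingHom (sc k l).toRingHom (tt k 0)
    have hΛOm : ∀ s v (G : (LP k (Fin l))[X]),
        Λ (Om (eP k ε s) v (G.map j0.toRingHom)) = muL k ε (List.finRange (l + 1))
            (mono k (Pi.single 0 (-s : ℤ)) * (ψ G * sc k l (Δ ^ N))) • v := by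
      intro s v G
      induction G using Polynomial.induction_on' with
      | monomial n a =>
        rw [Polynomial.map_monomial, Om_monomial]
        change Λ (j0 a ⊗ₜ _) = _
        rw [hΛ, ← mul_smul, eP_X_pow, ← muL_succ]
        congr 2
        rw [sub_eq_add_neg, Pi.single_add, ← mono_mul, ← tt_pow]
        simp [ψ]; ring
      | add p q hp hq =>
        simp only [Polynomial.map_add, map_add, hp, hq, add_mul, mul_add, add_smul]
    have hclear : ∀ H : A[X], ∃ (r : ℕ) (H0 : (LP k (Fin l))[X]),
        C (j0 Δ ^ r) * H = H0.map j0.toRingHom := by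
      intro H
      induction H using Polynomial.induction_on' with
      | monomial n a =>
        obtain ⟨r, a0, h⟩ := hjs a
        exact ⟨r, monomial n a0, by rw [C_mul_monomial, h, Polynomial.map_monomial]; rfl⟩
      | add p q hp hq =>
        obtain ⟨r, H0, h⟩ := hp
        obtain ⟨s, H1, h'⟩ := hq
        refine ⟨r + s, C (Δ ^ s) * H0 + C (Δ ^ r) * H1, ?_⟩
        simp only [Polynomial.map_add, Polynomial.map_mul, map_C, ← h, ← h', pow_add, map_mul,
          map_pow, Polynomial.map_pow]
        simp only [AlgHom.toRingHom_eq_coe, RingHom.coe_coe]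
        ring
    have hmain : ∀ y ∈ Y, ∃ r : ℕ, ∀ b : LP k (Fin l), Λ (j0 (Δ ^ r * b) • y) = 0 := by
      intro y hy
      induction hy using Submodule.span_induction with
      | mem x hx =>
        obtain ⟨s, v, H, rfl⟩ := hx
        obtain ⟨r, H0, h⟩ := hclear H
        refine ⟨r, fun b => ?_⟩
        have e1 : j0 (Δ ^ r * b) • (p ^ N * H) =
            (C b * (∏ i, (X - C (tt k i))) ^ N * H0).map j0.toRingHom := by
          rw [Polynomial.map_mul, ← h, smul_eq_C_mul]
          simp only [Polynomial.map_mul, Polynomial.map_pow, Polynomial.map_prod,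
            Polynomial.map_sub, map_X, map_C, map_mul, map_pow]
          simp only [AlgHom.toRingHom_eq_coe, RingHom.coe_coe, hjt, ← hp]
          ring
        rw [← map_smul, e1, hΛOm]
        obtain ⟨w, hw⟩ := hc
        have hw' := congrArg (psi k) hw
        rw [map_pow, map_mul, map_mul, ← sc_psi, ← hΔ] at hw'
        have e3 : ψ (∏ i, (X - C (tt k i))) =
            psi k (∏ i : Fin l, (MvPolynomial.X 0 - MvPolynomial.X i.succ)) := by
          simp [ψ, map_prod, psi_X, sc_tt]
        rw [← e3] at hw'
        have e2 : mono k (Pi.single 0 (-s : ℤ)) *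
            (ψ (C b * (∏ i, (X - C (tt k i))) ^ N * H0) * sc k l (Δ ^ N)) =
            psi k (disc k id) ^ K * (psi k w ^ K * ((ψ (∏ i, (X - C (tt k i))) * sc k l Δ) ^ 2 *
                (ψ (C b) * ψ H0 * mono k (Pi.single 0 (-s : ℤ))))) := by
          rw [← mul_assoc (_ ^ K), ← mul_pow, ← hw', ← pow_mul, ← mul_assoc (_ ^ (c * K)),
            ← pow_add, ← hN, map_mul, map_mul, map_pow, map_pow]
          ring
        rw [e2, hK]
      | zero => exact ⟨0, by simp⟩
      | add x y _ _ hx hy =>
        obtain ⟨r, hr⟩ := hx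
        obtain ⟨s, hs⟩ := hy
        refine ⟨r + s, fun b => ?_⟩
        have h1 := hr (Δ ^ s * b)
        have h2 := hs (Δ ^ r * b)
        rw [← mul_assoc, ← pow_add] at h1 h2
        rw [add_comm s] at h2
        rw [smul_add, map_add, h1, h2, add_zero]
      | smul a x _ ih =>
        obtain ⟨r, hr⟩ := ih
        obtain ⟨s, a0, ha⟩ := hjs a
        refine ⟨r + s, fun b => ?_⟩
        rw [smul_smul, ← hr (b * a0)]
        congr 2
        simp only [map_mul, ← ha, map_pow, pow_add]
        ring
    obtain ⟨r, hr⟩ := hmain _ hvY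
    refine hv (hmin (N + r) v fun b => ?_)
    have := hr b
    rwa [smul_tmul', smul_eq_mul, mul_one, hΛ, ← mul_assoc, ← pow_add] at this
  · intro f v
    change _ = (e' f : Module.End k XX) (j v)
    rw [he', hj, hj, he0, et_tmul]; simp [hee]
  · intro x
    obtain ⟨x, rfl⟩ := Submodule.Quotient.mk_surjective Y x
    induction x using TensorProduct.induction_on with
    | zero => simp
    | tmul a v =>
      refine Submodule.subset_span ⟨a, v, ?_⟩
      change _ = (ι a : Module.End k XX) (j v)
      rw [hι, hj, hι0, smul_tmul', smul_eq_mul, mul_one]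
    | add x y hx hy => rw [Submodule.Quotient.mk_add]; exact Submodule.add_mem _ hx hy
  · intro i α hα x
    rw [hDN i α hα.le, zero_smul]
  · intro z v
    have h2 := map_ext1 (k := k) (R := R) (R' := Module.End k XX) R.val ι e' (γ z)
    have h3 : R.val.comp ι = ι0 := AlgHom.ext hι
    have h4 : R.val.toLinearMap ∘ₗ e' = e0 := LinearMap.ext he'
    rw [h3, h4] at h2
    change j _ = (R.val (ext1 ι e' (γ z))) (j v)
    rw [h2, hj, hj, h1, map_one, mul_one, Finset.sum_eq_zero, zero_tmul, add_zero, hee,
      ← Om_shift ε (-z).toNat, eq_comm, Submodule.Quotient.eq]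
    · have h5 : ε z = eP k ε (-z).toNat (X ^ z.toNat) := by
        rw [eP_X_pow]; congr 1; omega
      rw [h5, ← Om_monomial, monomial_one_right_eq_X_pow, ← map_sub]
      refine hYgen _ _ _ ?_
      have := hγ.mul (-z).toNat z
      rwa [show ((-z).toNat : ℤ) + z = z.toNat by omega, hγ.nat, hγ.nat] at this
    · intro i _
      obtain ⟨w, hw⟩ := hγ.pd (d i) z
      rw [hw]
      simp [hp0 i, hN]

end

end Pool.Agent.Lib.MP_4da284_al.Q2
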