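import Pool.Agent.Lib.MP_4da284_al.H44Final
import Pool.Agent.Lib.MP_4da284_al.H44Exists

namespace Pool.Agent.Lib.MP_4da284_al.Q2

open Q1 UniversalEnvelopingAlgebra

noncomputable section

universe u

attribute [local instance 100] LieRing.ofAssociativeRing

variable {k : Type u} [Field k] {g : Type u} [LieRing g] [LieAlgebra k g]

theorem env_left_ind (P : Submodule k (UniversalEnvelopingAlgebra k g)) (h1 : 1 ∈ P)
    (hm : ∀ x, ∀ u ∈ P, ι k x * u ∈ P) (u : UniversalEnvelopingAlgebra k g) : u ∈ P := by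
  let S : Subalgebra k (UniversalEnvelopingAlgebra k g) :=
    { carrier := {a | ∀ u ∈ P, a * u ∈ P}
      mul_mem' := fun ha hb u hu => by rw [mul_assoc]; exact ha _ (hb u hu)
      add_mem' := fun ha hb u hu => by rw [add_mul]; exact P.add_mem (ha u hu) (hb u hu)
      algebraMap_mem' := fun c u hu => by rw [← Algebra.smul_def]; exact P.smul_mem c hu }
  have hu : u ∈ S := gen_env S hm ▸ Algebra.mem_top
  simpa using hu 1 h1

section Induced

variable (n : LieSubalgebra k g)

def hom_act : n →ₗ⁅k⁆ Module.End k (g →ₗ[k] UniversalEnvelopingAlgebra k n) where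
  toFun x := LinearMap.llcomp k g _ _ (LinearMap.mulLeft k (ι k x)) -
    LinearMap.lcomp k _ (LieAlgebra.ad k g x)
  map_add' x y := by
    ext φ z
    simp [add_mul]; abel
  map_smul' c x := by
    ext φ z
    simp [smul_sub]
  map_lie' := by
    intro x y
    refine LinearMap.ext fun φ => LinearMap.ext fun z => ?_
    have h : ι k ⁅x, y⁆ = ι k x * ι k y - ι k y * ι k x := LieHom.map_lie _ x y
    simp only [Ring.lie_def, LinearMap.sub_apply, Module.End.mul_apply, LinearMap.llcomp_apply,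
      LinearMap.lcomp_apply, LinearMap.mulLeft_apply, LieAlgebra.ad_apply, h, map_sub,
      LieSubalgebra.coe_bracket, lie_lie]
    noncomm_ring

variable (φ0 : g →ₗ[k] UniversalEnvelopingAlgebra k n)

def act : g →ₗ[k] Module.End k (UniversalEnvelopingAlgebra k n) :=
  (LinearMap.applyₗ φ0 ∘ₗ (UniversalEnvelopingAlgebra.lift k (hom_act n)).toLinearMap).flip

theorem act_one (y : g) : act n φ0 y 1 = φ0 y := by
  change UniversalEnvelopingAlgebra.lift k (hom_act n) 1 φ0 y = _
  rw [map_one]; rfl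

theorem act_mul (y : g) (x : n) (u : UniversalEnvelopingAlgebra k n) :
    act n φ0 y (ι k x * u) = ι k x * act n φ0 y u + act n φ0 ⁅y, (x : g)⁆ u := by
  change UniversalEnvelopingAlgebra.lift k (hom_act n) (ι k x * u) φ0 y = _
  rw [map_mul, lift_ι_apply, ← lie_skew y, map_neg, LinearMap.neg_apply, ← sub_eq_add_neg]
  rfl

variable {n φ0}

theorem act_sub (h1 : ∀ x : n, φ0 x = ι k x) (u : UniversalEnvelopingAlgebra k n) (y : n) :
    act n φ0 y u = ι k y * u := by
  let P : Submodule k (UniversalEnvelopingAlgebra k n) :=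
    ⨅ y : n, LinearMap.eqLocus (act n φ0 y) (LinearMap.mulLeft k (ι k y))
  have hP : ∀ u, u ∈ P ↔ ∀ y : n, act n φ0 y u = ι k y * u := fun u => Submodule.mem_iInf _
  refine (hP u).1 (env_left_ind P ((hP 1).2 fun y => ?_) (fun x u hu => (hP _).2 fun y => ?_) u) y
  · rw [act_one, h1, mul_one]
  · have h : ι k ⁅y, x⁆ = ι k y * ι k x - ι k x * ι k y := LieHom.map_lie _ y x
    rw [act_mul, (hP u).1 hu y, ← LieSubalgebra.coe_bracket, (hP u).1 hu, h]
    noncomm_ring

theorem act_lie (h1 : ∀ x : n, φ0 x = ι k x) {I : Type*} (b : Module.Basis I k g) (p : I → Prop)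
    (hp : ∀ i, p i → b i ∈ n) (h2 : ∀ i, ¬ p i → ∃ c : k, φ0 (b i) = c • 1)
    (h3 : ∀ i j, ¬ p i → ¬ p j → φ0 ⁅b i, b j⁆ = 0) (y y' : g) :
    act n φ0 ⁅y, y'⁆ = ⁅act n φ0 y, act n φ0 y'⁆ := by
  refine LinearMap.ext fun u => ?_
  let P : Submodule k (UniversalEnvelopingAlgebra k n) :=
    ⨅ q : g × g, LinearMap.eqLocus (act n φ0 ⁅q.1, q.2⁆) ⁅act n φ0 q.1, act n φ0 q.2⁆
  have hP : ∀ u, u ∈ P ↔ ∀ y y' : g, act n φ0 ⁅y, y'⁆ u =
      act n φ0 y (act n φ0 y' u) - act n φ0 y' (act n φ0 y u) := fun u =>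
    (Submodule.mem_iInf _).trans Prod.forall
  refine (hP u).1 (env_left_ind P ((hP 1).2 fun y y' => ?_)
    (fun x u hu => (hP _).2 fun y y' => ?_) u) y y'
  · have key : ∀ (y : g) (x : n), φ0 ⁅y, (x : g)⁆ = act n φ0 y (φ0 x) - act n φ0 x (φ0 y) := by
      intro y x
      rw [h1, ← mul_one (ι k x), act_mul, act_one, act_one, act_sub h1, add_sub_cancel_left]
    have : (LieAlgebra.ad k g).toLinearMap.compr₂ φ0 =
        (act n φ0).compl₂ φ0 - ((act n φ0).compl₂ φ0).flip := by
      refine b.ext fun i => b.ext fun j => ?_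
      change φ0 ⁅b i, b j⁆ = act n φ0 (b i) (φ0 (b j)) - act n φ0 (b j) (φ0 (b i))
      by_cases hj : p j
      · exact key (b i) ⟨b j, hp j hj⟩
      by_cases hi : p i
      · rw [← lie_skew, map_neg, ← neg_sub, neg_inj]
        exact key (b j) ⟨b i, hp i hi⟩
      obtain ⟨c, hc⟩ := h2 i hi
      obtain ⟨c', hc'⟩ := h2 j hj
      rw [h3 i j hi hj, hc, hc', map_smul, map_smul, act_one, act_one, hc, hc', smul_comm,
        sub_self]
    simp only [act_one]
    exact LinearMap.congr_fun₂ this y y'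
  · have ih := (hP u).1 hu
    have hj : ⁅⁅y, y'⁆, (x : g)⁆ = ⁅⁅y, (x : g)⁆, y'⁆ + ⁅y, ⁅y', (x : g)⁆⁆ := by
      rw [lie_lie, lie_lie, ← lie_skew (x : g) y', ← lie_skew (x : g) ⁅y, y'⁆, lie_lie, lie_neg]
      abel
    simp only [act_mul, map_add]
    rw [hj, map_add, LinearMap.add_apply, ih y y', ih ⁅y, (x : g)⁆ y', ih y ⁅y', (x : g)⁆, mul_sub]
    abel

end Induced

theorem exists_verma {b : Module.Basis (Option ℤ) k g} (hb : IsVirasoro k g b) (c h : k) :
    ∃ (V : Type u) (_ : AddCommGroup V) (_ : Module k V)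
      (φ : UniversalEnvelopingAlgebra k g →ₐ[k] Module.End k V) (w : V), w ≠ 0 ∧
      φ (ι k (b none)) = algebraMap k _ c ∧ φ (ι k (b (some 0))) w = h • w ∧
      ∀ m > 0, φ (ι k (b (some m))) w = 0 := by
  let s : Set g := Set.range fun m : {m : ℤ // m < 0} => b (some m)
  let n : LieSubalgebra k g :=
    { Submodule.span k s with
      lie_mem' := fun {x y} hx hy => by
        change ⁅x, y⁆ ∈ Submodule.span k s
        induction hx using Submodule.span_induction with
        | zero => simp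
        | add x y _ _ hx hy => rw [add_lie]; exact Submodule.add_mem _ hx hy
        | smul r x _ hx => rw [smul_lie]; exact Submodule.smul_mem _ _ hx
        | mem x hx =>
          induction hy using Submodule.span_induction with
          | zero => simp
          | add x y _ _ hx hy => rw [lie_add]; exact Submodule.add_mem _ hx hy
          | smul r x _ hx => rw [lie_smul]; exact Submodule.smul_mem _ _ hx
          | mem y hy =>
            obtain ⟨⟨i, hi⟩, rfl⟩ := hx
            obtain ⟨⟨j, hj⟩, rfl⟩ := hy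
            change ⁅b (some i), b (some j)⁆ ∈ _
            rw [hb.lie_L, if_neg (by omega), zero_smul, add_zero]
            exact Submodule.smul_mem _ _ (Submodule.subset_span ⟨⟨i + j, by omega⟩, rfl⟩) }
  have hn : ∀ m : ℤ, m < 0 → b (some m) ∈ n := fun m hm => Submodule.subset_span ⟨⟨m, hm⟩, rfl⟩
  let φ0 : g →ₗ[k] UniversalEnvelopingAlgebra k n := b.constr k fun i => i.elim (c • 1) fun m =>
    if hm : m < 0 then ι k (⟨b (some m), hn m hm⟩ : n) else if m = 0 then h • 1 else 0
  have e0 : φ0 (b none) = c • 1 := b.constr_basis k _ _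
  have e1 : ∀ m, φ0 (b (some m)) = if hm : m < 0 then ι k (⟨b (some m), hn m hm⟩ : n) else
      if m = 0 then h • 1 else 0 := fun m => b.constr_basis k _ _
  have h1 : ∀ x : n, φ0 x = ι k x := by
    rintro ⟨x, hx⟩
    induction hx using Submodule.span_induction with
    | zero => exact (map_zero φ0).trans (map_zero (ι k)).symm
    | add x y hx hy ex ey =>
      exact (map_add φ0 x y).trans ((congrArg₂ _ ex ey).trans
        (map_add (ι k) (⟨x, hx⟩ : n) ⟨y, hy⟩).symm)
    | smul r x hx ex =>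
      exact (map_smul φ0 r x).trans ((congrArg _ ex).trans (map_smul (ι k) r (⟨x, hx⟩ : n)).symm)
    | mem y hy =>
      obtain ⟨⟨i, hi⟩, rfl⟩ := hy
      exact (e1 i).trans (dif_pos hi)
  let ρ : g →ₗ⁅k⁆ Module.End k (UniversalEnvelopingAlgebra k n) :=
    { act n φ0 with
      map_lie' := fun {y y'} => act_lie h1 b (fun i => ∃ m < 0, i = some m)
        (by rintro _ ⟨m, hm, rfl⟩; exact hn m hm)
        (by
          rintro (_ | m) hm
          · exact ⟨c, e0⟩
          · rw [e1, dif_neg fun h => hm ⟨m, h, rfl⟩]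
            split_ifs
            · exact ⟨h, rfl⟩
            · exact ⟨0, (zero_smul _ _).symm⟩)
        (by
          rintro (_ | i) (_ | j) hi hj
          · rw [lie_self, map_zero]
          · rw [hb.lie_z, map_zero]
          · rw [← lie_skew, hb.lie_z, neg_zero, map_zero]
          have hi' : ¬ i < 0 := fun h => hi ⟨i, h, rfl⟩
          have hj' : ¬ j < 0 := fun h => hj ⟨j, h, rfl⟩
          by_cases hij : i + j = 0
          · rw [show i = j by omega, lie_self, map_zero]
          · rw [hb.lie_L, if_neg hij, zero_smul, add_zero, map_smul, e1, dif_neg (by omega),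
              if_neg hij, smul_zero]) y y' }
  have hρ : ∀ y, UniversalEnvelopingAlgebra.lift k ρ (ι k y) = act n φ0 y := fun y =>
    lift_ι_apply k _ _
  have : Nontrivial (UniversalEnvelopingAlgebra k n) :=
    (UniversalEnvelopingAlgebra.lift k (0 : n →ₗ⁅k⁆ k)).toRingHom.domain_nontrivial
  refine ⟨_, inferInstance, inferInstance, UniversalEnvelopingAlgebra.lift k ρ, 1, one_ne_zero,
    ?_, ?_, fun m hm => ?_⟩
  · rw [hρ]
    refine LinearMap.ext fun u => env_left_ind (LinearMap.eqLocus _ _) ?_ (fun x u hu => ?_) u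
    · exact (act_one n φ0 _).trans e0
    · rw [LinearMap.mem_eqLocus, Module.algebraMap_end_apply] at hu ⊢
      rw [act_mul, hu, hb.lie_z, map_zero, LinearMap.zero_apply, add_zero, mul_smul_comm]
  · rw [hρ, act_one, e1]; simp
  · rw [hρ, act_one, e1, dif_neg (by omega), if_neg (by omega)]

section Faithful

variable {U : Type u} [Ring U] [Algebra k U] {ε : ℤ → U} {V : Type u} [AddCommGroup V] [Module k V]
  (φ : U →ₐ[k] Module.End k V) {w : V} {h : k}

theorem rp_one (h1 : φ (ε 1) w = h • w) {I : Type*} (l : List I) :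
    φ (rp ε (l.map fun _ => 1)) w = h ^ l.length • w := by
  induction l with
  | nil => simp [rp]
  | cons v l ih =>
    rw [List.map_cons, rp, map_mul, Module.End.mul_apply, h1, map_smul, ih, smul_smul,
      List.length_cons, pow_succ']

theorem rp_lt (h1 : φ (ε 1) w = h • w) (h2 : ∀ a > 1, φ (ε a) w = 0) {I : Type*} (l : List I)
    (β γ : I → ℤ) (hl : l.map γ < l.map β) : φ (rp ε (l.map (β + (1 - γ)))) w = 0 := by
  induction l with
  | nil => simp at hl
  | cons v l ih =>
    rw [List.map_cons, rp, map_mul, Module.End.mul_apply]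
    rw [List.map_cons, List.map_cons, List.cons_lt_cons_iff] at hl
    rcases hl with hl | ⟨e, hl⟩
    · rw [h2 _ (by simp only [Pi.add_apply, Pi.sub_apply, Pi.one_apply]; omega), map_zero]
    · rw [show (β + (1 - γ)) v = 1 by simp [e], h1, map_smul, ih hl, smul_zero]

theorem muL_hw (h1 : φ (ε 1) w = h • w) (h2 : ∀ a > 1, φ (ε a) w = 0) {m : ℕ} {G : LP k (Fin m)}
    (hG : G ≠ 0) : ∃ H, ∃ r : k, r ≠ 0 ∧
      φ (muL k ε (List.finRange m) (G * H)) w = (r * h ^ m) • w := by
  classical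
  have hne : G.coeff.support.Nonempty := by
    rw [Finsupp.support_nonempty_iff]
    exact fun h0 => hG (AddMonoidAlgebra.coeff_injective h0)
  obtain ⟨γ, hγ, hmin⟩ := G.coeff.support.exists_min_image (fun β => (List.finRange m).map β) hne
  refine ⟨mono k (1 - γ), G.coeff γ, Finsupp.mem_support_iff.1 hγ, ?_⟩
  have hs : G = ∑ β ∈ G.coeff.support, G.coeff β • mono k β := by
    conv_lhs => rw [← AddMonoidAlgebra.sum_coeff_single G]
    exact Finset.sum_congr rfl fun β _ => by simp [mono]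
  conv_lhs => rw [hs]
  simp only [Finset.sum_mul, smul_mul_assoc, mono_mul, map_sum, map_smul, muL_mono,
    LinearMap.sum_apply, LinearMap.smul_apply]
  rw [Finset.sum_eq_single_of_mem γ hγ, add_sub_cancel, mul_smul]
  · exact congrArg _ ((rp_one φ h1 _).trans (by rw [List.length_finRange]))
  · intro β hβ hne
    rw [rp_lt φ h1 h2 _ β γ (lt_of_le_of_ne (hmin β hβ) fun e => hne (funext fun v =>
      (List.map_inj_left.1 e v (List.mem_finRange v)).symm)), smul_zero]

theorem exists_prim (hw : w ≠ 0) : ∃ Q J : Ideal U, IsPrimitiveIdeal Q ∧ Q ≤ J ∧ J ≠ ⊤ ∧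
    (∀ u, φ u w = 0 → u ∈ J) ∧ ∀ u, φ u = 0 → u ∈ Q := by
  let I : Ideal U :=
    { carrier := {u | φ u w = 0}
      add_mem' := fun {a b} ha hb => by
        change φ (a + b) w = 0
        rw [map_add, LinearMap.add_apply, ha, hb, add_zero]
      zero_mem' := by simp
      smul_mem' := fun a b hb => by
        change φ (a * b) w = 0
        rw [map_mul, Module.End.mul_apply, hb, map_zero] }
  obtain ⟨J, hJ, hIJ⟩ := I.exists_le_maximal ((Ideal.ne_top_iff_one I).2 fun h1 => hw (by
    have : φ 1 w = 0 := h1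
    simpa using this))
  refine ⟨Module.annihilator U (U ⧸ J), J, ⟨U ⧸ J, inferInstance, inferInstance,
    isSimpleModule_iff_isCoatom.2 hJ.out, rfl⟩, fun u hu => ?_, hJ.ne_top, fun u hu => hIJ hu,
    fun u hu => Module.mem_annihilator.2 fun x => ?_⟩
  · have := Module.mem_annihilator.1 hu (Submodule.Quotient.mk 1)
    rwa [← Submodule.Quotient.mk_smul, Submodule.Quotient.mk_eq_zero, smul_eq_mul, mul_one] at this
  · obtain ⟨x, rfl⟩ := Submodule.Quotient.mk_surjective J x
    rw [← Submodule.Quotient.mk_smul, Submodule.Quotient.mk_eq_zero]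
    refine hIJ ?_
    change φ (u * x) w = 0
    rw [map_mul, hu, zero_mul, LinearMap.zero_apply]

theorem prim_bot [CharZero k] (hε : IsWitt k ε) (hgen : Algebra.adjoin k (Set.range ε) = ⊤)
    (hw : w ≠ 0) (hh : h ≠ 0) (h1 : φ (ε 1) w = h • w) (h2 : ∀ a > 1, φ (ε a) w = 0) :
    IsPrimitiveIdeal (⊥ : Ideal U) := by
  obtain ⟨Q, J, hQ, hQJ, hJ, hI, -⟩ := exists_prim φ hw
  by_cases h0 : Q = ⊥
  · exact h0 ▸ hQ
  obtain ⟨m, K, hK⟩ := thmA hε hgen Q (prim_two hQ) h0
  obtain ⟨K', hK'⟩ := ext_all ((Q.restrictScalars k).comap (muL k ε (List.finRange m))) (by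
    intro z G hG
    change muL k ε _ _ ∈ Q at hG ⊢
    rw [← muL_comm hε z (List.nodup_finRange _) List.mem_finRange]
    exact Ideal.sub_mem _ (Ideal.mul_mem_left _ _ hG) (prim_two hQ _ hG _)) (K := K) (by
    intro H
    change muL k ε _ _ ∈ Q
    rw [muL_psi]; exact hK H)
  have hd : psi k (disc k (id : Fin m → Fin m)) ≠ 0 := by
    simp only [disc, map_prod, map_sub, psi_X]
    refine Finset.prod_ne_zero_iff.2 fun p hp => sub_ne_zero.2 fun h => ?_
    exact (Finset.mem_filter.1 hp).2 (tt_injective h)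
  obtain ⟨H, r, hr, e⟩ := muL_hw φ h1 h2 (pow_ne_zero K' hd)
  have h3 := J.sub_mem (hQJ (hK' H)) (hI (muL k ε (List.finRange m) (psi k (disc k id) ^ K' * H) -
    algebraMap k U (r * h ^ m)) (by
      rw [map_sub, LinearMap.sub_apply, e, AlgHom.commutes, Module.algebraMap_end_apply, sub_self]))
  rw [sub_sub_cancel] at h3
  exact absurd (J.eq_top_of_isUnit_mem h3
    ((mul_ne_zero hr (pow_ne_zero m hh)).isUnit.map (algebraMap k U))) hJ

end Faithful

theorem prim_comap {U U' : Type u} [Ring U] [Ring U'] (f : U →+* U') (hf : Function.Surjective f)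
    {Q : Ideal U'} (hQ : IsPrimitiveIdeal Q) : IsPrimitiveIdeal (Q.comap f) := by
  obtain ⟨M, _, _, hM, rfl⟩ := hQ
  let _ : Module U M := Module.compHom M f
  have : RingHomSurjective f := ⟨hf⟩
  let l : M →ₛₗ[f] M := ⟨⟨id, fun _ _ => rfl⟩, fun _ _ => rfl⟩
  refine ⟨M, inferInstance, inferInstance,
    (l.isSimpleModule_iff_of_bijective Function.bijective_id).2 hM, ?_⟩
  ext u
  simp only [Ideal.mem_comap, Module.mem_annihilator]
  rfl

theorem prim_bot_univ [CharZero k] {U : Type u} [Ring U] [Algebra k U] {ε : ℤ → U}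
    (hε : IsWitt k ε) (hgen : Algebra.adjoin k (Set.range ε) = ⊤)
    (huniv : ∀ (R : Type u) [Ring R] [Algebra k R] (ε' : ℤ → R), IsWitt k ε' →
      ∃ φ : U →ₐ[k] R, ∀ z, φ (ε z) = ε' z) : IsPrimitiveIdeal (⊥ : Ideal U) := by
  obtain ⟨V, _, _, φ, w, hw, e0, e1, e2⟩ := exists_verma (isVirasoro_model k) 0 (-1)
  obtain ⟨ψ, hψ⟩ := huniv _ _
    (IsVir.isWitt (by simpa using isVir_εV (isVirasoro_model k) φ e0) : IsWitt k (εV (vb k) φ))
  refine prim_bot ψ hε hgen hw one_ne_zero ?_ fun a ha => ?_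
  · rw [hψ, εV, sub_self, LinearMap.neg_apply, e1, neg_smul, neg_neg]
  · rw [hψ, εV, LinearMap.neg_apply, e2 _ (by omega), neg_zero]

variable {b : Module.Basis (Option ℤ) k g}

theorem central_le (hb : IsVirasoro k g b) (c : k) :
    ∃ Q, IsPrimitiveIdeal Q ∧ centralIdeal (b none) c ≤ Q := by
  obtain ⟨V, _, _, φ, w, hw, e0, -⟩ := exists_verma hb c 0
  obtain ⟨Q, J, hQ, -, -, -, hI⟩ := exists_prim φ hw
  refine ⟨Q, hQ, Ideal.span_le.2 ?_⟩
  rintro _ rfl
  exact hI _ (by rw [map_sub, e0, AlgHom.commutes, sub_self])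

theorem central_ne_top (hb : IsVirasoro k g b) (c : k) : centralIdeal (b none) c ≠ ⊤ := by
  obtain ⟨Q, hQ, h⟩ := central_le hb c
  exact ne_top_of_le_ne_top (prim_ne_top hQ) h

theorem prim_central [CharZero k] (hb : IsVirasoro k g b) (c : k) :
    IsPrimitiveIdeal (centralIdeal (b none) c) := by
  by_cases hc : c = 0
  · subst hc
    have := central_two hb (0 : k)
    let π := Ideal.Quotient.mkₐ k (centralIdeal (b none) (0 : k))
    have hπ : Function.Surjective π := Ideal.Quotient.mkₐ_surjective k _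
    have h := prim_comap (Ideal.Quotient.mk (centralIdeal (b none) (0 : k))) hπ
      (prim_bot_univ (IsVir.isWitt (by simpa using isVir_εV hb π (mk_z 0)))
        (gen_εV π hπ (mk_z 0)) (univ_εV hb))
    rwa [← RingHom.ker_eq_comap_bot, Ideal.mk_ker] at h
  · obtain ⟨Q, hQ, h⟩ := central_le hb c
    rcases h.eq_or_lt with h | h
    · exact h ▸ hQ
    · exact absurd (vir_simple hb hc Q (prim_two hQ) h) (prim_ne_top hQ)

theorem full_witt [IsAlgClosed k] [CharZero k] [Uncountable k]
    (Q : Ideal (UniversalEnvelopingAlgebra k (Witt k))) :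
    (IsPrimitiveIdeal Q ∧ ¬ IsLocKernel k Q) ↔ Q = ⊥ := by
  refine ⟨fun ⟨hQ, h⟩ => by_contra fun h0 => h ((pad.trans (main_witt Q hQ)).2 h0), ?_⟩
  rintro rfl
  have hQ := prim_bot_univ (k := k) isWitt_εW gen_εW univ_εW
  exact ⟨hQ, fun h => (pad.trans (main_witt _ hQ)).1 h rfl⟩

theorem full_vir [IsAlgClosed k] [CharZero k] [Uncountable k] (hb : IsVirasoro k g b)
    (Q : Ideal (UniversalEnvelopingAlgebra k g)) :
    (IsPrimitiveIdeal Q ∧ ¬ IsLocKernel k Q) ↔ ∃ c : k, Q = centralIdeal (b none) c := by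
  refine ⟨fun ⟨hQ, h⟩ => by_contra fun h0 => h ((pad.trans (main_vir hb Q hQ)).2
    fun c hc => h0 ⟨c, hc⟩), ?_⟩
  rintro ⟨c, rfl⟩
  exact ⟨prim_central hb c, fun h => (pad.trans (main_vir hb _ (prim_central hb c))).1 h c rfl⟩

end

end Pool.Agent.Lib.MP_4da284_al.Q2
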