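import Pool.Agent.Lib.MP_4da284_al.H44Univ

namespace Pool.Agent.Lib.MP_4da284_al.Q2

open Q1 MvPolynomial

noncomputable section

variable {k U ς I : Type*} [Field k] [Ring U] [Algebra k U]

/- The relations of the Virasoro algebra with the central element acting as a scalar. -/
def IsVir (k : Type*) {U : Type*} [Field k] [Ring U] [Algebra k U] (ε : ℤ → U) (c : k) : Prop :=
  ∀ a b, ε a * ε b - ε b * ε a = ((b : k) - a) • ε (a + b - 1) +
    (if a + b = 2 then (a : k) * (a - 1) * (a - 2) * c else 0) • (1 : U)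

variable {ε : ℤ → U} {c : k}

theorem IsVir.isBr (hε : IsVir k ε c) : IsBr (eP k ε 0) := by
  intro f g
  induction f using Polynomial.induction_on' with
  | add p q hp hq =>
    rw [map_add, add_mul, mul_add, add_sub_add_comm, hp, hq, ← map_add]
    congr 1
    simp only [map_add]; ring
  | monomial n a =>
    induction g using Polynomial.induction_on' with
    | add p q hp hq =>
      rw [map_add, add_mul, mul_add, add_sub_add_comm, hp, hq, ← map_add]
      congr 1
      simp only [map_add]; ring
    | monomial m b =>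
      have h1 : ∀ (n : ℕ) (a : k), Polynomial.X * Polynomial.derivative (Polynomial.monomial n a) =
          (n : Polynomial k) * Polynomial.monomial n a := by
        intro n a
        rcases n with _ | n
        · simp
        · rw [Polynomial.derivative_monomial_succ, Polynomial.X_mul_monomial,
            ← Polynomial.C_eq_natCast, Polynomial.C_mul_monomial]
          push_cast; rw [mul_comm]
      have h2 : Polynomial.X * (Polynomial.monomial n a * Polynomial.derivative
          (Polynomial.monomial m b) - Polynomial.derivative (Polynomial.monomial n a) *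
          Polynomial.monomial m b) = Polynomial.monomial (n + m) (((m : k) - n) * (a * b)) := by
        rw [mul_sub, mul_left_comm, h1, ← mul_assoc Polynomial.X, h1, ← Polynomial.C_mul_monomial,
          ← Polynomial.monomial_mul_monomial]
        simp only [map_sub, map_natCast]
        ring
      have h3 : (if (n : ℤ) + m = 2 then ((n : ℤ) : k) * ((n : ℤ) - 1) * ((n : ℤ) - 2) * c else 0)
          = 0 := by
        split_ifs with h
        · have : n ≤ 2 := by omega
          interval_cases n <;> simp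
        · rfl
      rw [← eP_succ ε 0 (_ - _), h2, eP_monomial, eP_monomial, eP_monomial, smul_mul_smul_comm,
        smul_mul_smul_comm, mul_comm b a, ← smul_sub, Nat.cast_zero, sub_zero, sub_zero, hε, h3,
        zero_smul, add_zero, smul_smul]
      congr 1
      push_cast; ring

variable (k) in
def res [DecidableEq I] (ε : ℤ → U) (l : List I) (v : I) : LP k I →ₗ[k] U :=
  linG k fun β => if β v = -1 then rp ε ((l.erase v).map β) else 0

theorem res_mono [DecidableEq I] (l : List I) (v : I) (β : I → ℤ) :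
    res k ε l v (mono k β) = if β v = -1 then rp ε ((l.erase v).map β) else 0 := linG_mono _ β

theorem rp_comm_vir [DecidableEq I] (hε : IsVir k ε c) (z : ℤ) {l : List I} (hl : l.Nodup)
    (β : I → ℤ) : ε z * rp ε (l.map β) - rp ε (l.map β) * ε z =
      ∑ v ∈ l.toFinset, (((β v : k) - z) • rp ε (l.map (β + Pi.single v (z - 1))) +
        (if z + β v = 2 then (z : k) * (z - 1) * (z - 2) * c else 0) •
          rp ε ((l.erase v).map β)) := by
  induction l with
  | nil => simp [rp]
  | cons w l ih =>
    obtain ⟨hw, hl⟩ := List.nodup_cons.1 hl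
    rw [List.toFinset_cons, Finset.sum_insert (by simpa using hw)]
    have h1 : l.map (β + Pi.single w (z - 1)) = l.map β := by
      refine List.map_congr_left fun v hv => ?_
      have : v ≠ w := fun h => hw (h ▸ hv)
      simp [this]
    have h2 : ∑ v ∈ l.toFinset, (((β v : k) - z) • rp ε ((w :: l).map (β + Pi.single v (z - 1))) +
        (if z + β v = 2 then (z : k) * (z - 1) * (z - 2) * c else 0) •
          rp ε (((w :: l).erase v).map β)) =
        (∑ v ∈ l.toFinset, (((β v : k) - z) • rp ε (l.map (β + Pi.single v (z - 1))) +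
          (if z + β v = 2 then (z : k) * (z - 1) * (z - 2) * c else 0) •
            rp ε ((l.erase v).map β))) * ε (β w) := by
      rw [Finset.sum_mul]
      refine Finset.sum_congr rfl fun v hv => ?_
      have : w ≠ v := fun h => hw (h ▸ List.mem_toFinset.1 hv)
      rw [List.erase_cons_tail (by simpa using this), add_mul, smul_mul_assoc, smul_mul_assoc]
      simp [rp, this]
    rw [h2, ← ih hl, List.erase_cons_head]
    simp only [List.map_cons, rp, h1, Pi.add_apply, Pi.single_eq_same]
    have h3 := congrArg (rp ε (l.map β) * ·) (hε z (β w))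
    simp only [mul_add, mul_smul_comm, mul_one] at h3
    rw [show β w + (z - 1) = z + β w - 1 by ring, ← h3]
    noncomm_ring

theorem muL_comm_vir [Fintype I] [DecidableEq I] (hε : IsVir k ε c) (z : ℤ) {l : List I}
    (hl : l.Nodup) (hc : ∀ v, v ∈ l) (G : LP k I) :
    ε z * muL k ε l G - muL k ε l G * ε z = muL k ε l (DZ k z G) +
      ∑ v, ((z : k) * (z - 1) * (z - 2) * c) • res k ε l v (mono k (Pi.single v (z - 3)) * G) := by
  induction G using mono_ind with
  | h0 => simp
  | hadd f g hf hg =>
    simp only [map_add, mul_add, add_mul, smul_add, Finset.sum_add_distrib]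
    rw [add_sub_add_comm, hf, hg]; abel
  | hs r β =>
    simp only [map_smul, mul_smul_comm, smul_mul_assoc, ← smul_sub, smul_comm _ r,
      ← Finset.smul_sum, ← smul_add]
    congr 1
    rw [muL_mono, rp_comm_vir hε z hl, DZ_mono, map_sum, Finset.smul_sum, ← Finset.sum_add_distrib,
      show l.toFinset = Finset.univ by ext v; simp [hc]]
    refine Finset.sum_congr rfl fun v _ => ?_
    rw [map_smul, muL_mono, mono_mul, res_mono]
    have h1 : (l.erase v).map (Pi.single v (z - 3) + β) = (l.erase v).map β := by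
      refine List.map_congr_left fun w hw => ?_
      have : w ≠ v := fun h => (hl.mem_erase_iff.1 hw).1 h
      simp [this]
    rw [h1, Pi.add_apply, Pi.single_eq_same]
    by_cases h : z + β v = 2
    · rw [if_pos h, if_pos (by omega)]
    · rw [if_neg h, if_neg (by omega), zero_smul, smul_zero]

theorem muL_mem (l : List I) (G : LP k I) : muL k ε l G ∈ FilZ k ε (l.length + 1) := by
  induction G using mono_ind with
  | h0 => simp
  | hadd f g hf hg => rw [map_add]; exact Submodule.add_mem _ hf hg
  | hs r β =>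
    rw [map_smul, muL_mono]
    exact Submodule.smul_mem _ _ (Submodule.subset_span ⟨_, by simp, rfl⟩)

theorem res_mem [DecidableEq I] {l : List I} {v : I} (hv : v ∈ l) (G : LP k I) :
    res k ε l v G ∈ FilZ k ε l.length := by
  induction G using mono_ind with
  | h0 => simp
  | hadd f g hf hg => rw [map_add]; exact Submodule.add_mem _ hf hg
  | hs r β =>
    rw [map_smul, res_mono]
    refine Submodule.smul_mem _ _ ?_
    split_ifs
    · refine Submodule.subset_span ⟨_, ?_, rfl⟩
      have := List.length_pos_of_mem hv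
      rw [List.length_map, List.length_erase_of_mem hv]; omega
    · exact Submodule.zero_mem _

theorem ad_FilZ (hε : IsVir k ε c) (z : ℤ) {j : ℕ} {y : U} (hy : y ∈ FilZ k ε j) :
    ε z * y - y * ε z ∈ FilZ k ε j := by
  induction hy using Submodule.span_induction with
  | mem x hx =>
    obtain ⟨L, hL, rfl⟩ := hx
    rw [← rp_eq_muL (k := k) ε L, muL_comm_vir hε z (List.nodup_finRange _) List.mem_finRange]
    refine Submodule.add_mem _ (FilZ_mono ε (by simp; omega) (muL_mem _ _))
      (Submodule.sum_mem _ fun v _ => Submodule.smul_mem _ _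
        (FilZ_mono ε (by simp; omega) (res_mem (List.mem_finRange v) _)))
  | zero => simp
  | add a b _ _ ha hb =>
    rw [mul_add, add_mul, add_sub_add_comm]; exact Submodule.add_mem _ ha hb
  | smul r a _ ha =>
    rw [mul_smul_comm, smul_mul_assoc, ← smul_sub]; exact Submodule.smul_mem _ _ ha

theorem adE_FilZ (hε : IsVir k ε c) (j : ℕ) (v : ς) (n : ℕ) :
    ∀ y ∈ FilZ k ε j, adE (eP k ε 0) v n • y ∈ FilZ k ε j := by
  intro y hy
  have := ad_FilZ hε n hy
  rwa [← eP_zero_pow (k := k) ε n] at this

theorem ad_muL_vir [Fintype I] [DecidableEq I] (hε : IsVir k ε c)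
    {l' : List I} (hl : l'.Nodup) (hc : ∀ v, v ∈ l') (l : List ς) (F : MvPolynomial ς k)
    (G : LP k I) :
    Phi (Algebra.ofId k _) (adE (eP k ε 0)) l F (muL k ε l' G) -
      muL k ε l' (Phi (Algebra.lmul k (LP k I)) (xE (Algebra.lmul k (LP k I)) (tt k) (DL k)) l
          (map (algebraMap k _) F) G) ∈ FilZ k ε l'.length := by
  set W := FilZ k ε l'.length with hW
  let x' : ς → ℕ → Module.End k (U ⧸ W) := fun v n =>
    W.mapQ W (adE (eP k ε 0) v n) (adE_FilZ hε _ v n)
  have h1 := Phi_intertwine W.mkQ (adE (eP k ε 0)) x' (fun v n y => rfl) l F (muL k ε l' G)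
  have h2 := Phi_intertwine (W.mkQ ∘ₗ muL k ε l')
    (xE (Algebra.lmul k (LP k I)) (tt k) (DL k)) x' (fun v n y => by
      change W.mkQ (muL k ε l' _) = W.mkQ (adE (eP k ε 0) v n (muL k ε l' y))
      simp only [Module.End.smul_def, xE_DL, adE, LinearMap.sub_apply, LinearMap.mulLeft_apply,
        LinearMap.mulRight_apply, eP_zero_pow]
      rw [muL_comm_vir hε _ hl hc, map_add, eq_comm, add_eq_left, Submodule.mkQ_apply,
        Submodule.Quotient.mk_eq_zero]
      exact Submodule.sum_mem _ fun v _ => Submodule.smul_mem _ _ (res_mem (hc v) _)) l F G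
  rw [← Submodule.Quotient.eq, Phi_map]
  exact h1.trans h2.symm

theorem rp_perm_vir (hε : IsVir k ε c) {L L' : List ℤ}
    (h : L.Perm L') : rp ε L - rp ε L' ∈ FilZ k ε L.length := by
  induction h with
  | nil => simp
  | cons f _ ih =>
    simp only [rp, ← sub_mul, List.length_cons]
    exact FilZ_mul ε ih (mem_FilZ ε f)
  | swap f g L =>
    simp only [rp, mul_assoc, ← mul_sub, hε f g, List.length_cons, mul_add, mul_smul_comm, mul_one]
    exact Submodule.add_mem _
      (Submodule.smul_mem _ _ (Submodule.subset_span ⟨_ :: L, by simp, rfl⟩))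
      (Submodule.smul_mem _ _ (Submodule.subset_span ⟨L, by omega, rfl⟩))
  | trans h1 _ ih1 ih2 =>
    rw [← h1.length_eq] at ih2
    have := Submodule.add_mem _ ih1 ih2
    rwa [sub_add_sub_cancel] at this

theorem muL_symm_vir (hε : IsVir k ε c) {m : ℕ} (σ : Equiv.Perm (Fin m)) (G : LP k (Fin m)) :
    muL k ε (List.finRange m) (ren k σ G) - muL k ε (List.finRange m) G ∈ FilZ k ε m := by
  induction G using mono_ind with
  | h0 => simp
  | hadd f g hf hg =>
    have := Submodule.add_mem _ hf hg
    simp only [map_add]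
    convert this using 1
    abel
  | hs r β =>
    rw [map_smul, map_smul, map_smul, ← smul_sub, ren_mono, muL_mono, muL_mono, ← List.map_map]
    have := rp_perm_vir hε ((Equiv.Perm.map_finRange_perm σ.symm).map β)
    simp only [List.length_map, List.length_finRange] at this
    exact Submodule.smul_mem _ _ this

theorem core_vir [CharZero k] (hε : IsVir k ε c) (Q : Ideal U) (hQ : ∀ q ∈ Q, ∀ u, q * u ∈ Q)
    {m : ℕ} {q : U} (hq : q ∈ Q) {H0 : LP k (Fin m)}
    (hH0 : q - muL k ε (List.finRange m) H0 ∈ FilZ k ε m)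
    (hG00 : ∑ σ : Equiv.Perm (Fin m), ren k σ H0 ≠ 0) : ∃ K : ℕ, ∀ H : MvPolynomial (Fin m) k,
      mu (eP k ε 0) (List.finRange m) (disc k id ^ K * H) ∈ Q := by
  classical
  have he := hε.isBr
  set l := List.finRange m with hl
  have hln : l.Nodup := List.nodup_finRange m
  have hlc : ∀ v, v ∈ l := List.mem_finRange
  have hlen : l.length = m := List.length_finRange
  set K := 2 * (2 + (pl l).length) with hK
  let Z : MvPolynomial (Fin m) k → Module.End k U := fun h =>
    Phi (Algebra.ofId k _) (adE (eP k ε 0)) (pl l) (PP k (fun _ => top 1) l *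
      (disc k Prod.fst ^ K * rename (fun i => (i, true)) h))
  have ZQ : ∀ h, ∀ y ∈ Q, Z h y ∈ Q := by
    intro h y hy
    refine Phi_stable (Q.restrictScalars k) (adE (eP k ε 0)) ?_ (pl l) _ hy
    intro v n y hy
    exact Q.sub_mem (Q.mul_mem_left _ hy) (hQ _ hy _)
  have ZF : ∀ h j, ∀ y ∈ FilZ k ε j, Z h y ∈ FilZ k ε j := fun h j y hy =>
    Phi_stable (FilZ k ε j) (adE (eP k ε 0)) (adE_FilZ hε j) (pl l) _ hy
  have Zlow : ∀ j, j < m → ∀ y ∈ FilZ k ε (j + 1), Z 1 y ∈ FilZ k ε j := by
    intro j hj y hy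
    induction hy using Submodule.span_induction with
    | mem x hx =>
      obtain ⟨L, hL, rfl⟩ := hx
      have := ad_muL_vir hε (List.nodup_finRange L.length) List.mem_finRange (pl l)
        (PP k (fun _ => top 1) l * (disc k Prod.fst ^ K * rename (fun i => (i, true))
          (1 : MvPolynomial (Fin m) k))) (mono k L.get)
      rw [rp_eq_muL, mul_left_comm (PP k _ _), map_mul (map _), map_pow,
        map_disc, isSys_DL.pigeon Prod.fst Prod.fst_surjective (by simp; omega)
          (N := 2) (fun i α h => DL_zero i α h) (nodup_pl hln) (fun v => mem_pl.2 (hlc _)) le_rfl,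
        LinearMap.zero_apply, map_zero, sub_zero, mul_left_comm, List.length_finRange] at this
      exact FilZ_mono ε (by omega) this
    | zero => simp
    | add a b _ _ ha hb => rw [map_add]; exact Submodule.add_mem _ ha hb
    | smul c a _ ha => rw [map_smul]; exact Submodule.smul_mem _ _ ha
  have Zkill : ∀ j, j ≤ m → ∀ y ∈ FilZ k ε j, (Z 1 ^ j) y = 0 := by
    intro j
    induction j with
    | zero => intro _ y hy; simpa [FilZ] using hy
    | succ j ih =>
      intro hj y hy
      rw [pow_succ, Module.End.mul_apply]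
      exact ih (by omega) _ (Zlow j (by omega) y hy)
  set Θ : LP k (Fin m) :=
    eval (fun v : Fin m × Bool => tt k v.1) (disc (LP k (Fin m)) Prod.fst) ^ K with hΘ
  have hΘ0 : Θ ≠ 0 := by
    refine pow_ne_zero _ ?_
    simp only [disc, map_prod, map_sub, eval_X]
    refine Finset.prod_ne_zero_iff.2 fun p hp => sub_ne_zero.2 fun h => ?_
    exact (Finset.mem_filter.1 hp).2 (tt_injective h)
  have Ztop : ∀ h G, Z h (muL k ε l G) - ((-4 : k) ^ m) • muL k ε l
      (Θ * ((∑ σ : Equiv.Perm (Fin m), psi k (rename σ h)) * G)) ∈ FilZ k ε m := by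
    intro h G
    have := ad_muL_vir hε hln hlc (pl l) (PP k (fun _ => top 1) l *
      (disc k Prod.fst ^ K * rename (fun i => (i, true)) h)) G
    rw [hlen] at this
    convert this using 2
    rw [map_mul (map _), map_mul (map _), map_pow, map_disc, map_PP,
      isSys_DL.pair_formula (n := fun _ => 1) (fun i α h => DL_zero i α h) (N := 2)
        (fun _ => one_lt_two) hln hlc le_rfl, ← map_smul]
    congr 1
    simp only [LinearMap.coe_sum, Finset.sum_apply, Finset.sum_mul, Finset.mul_sum,
      Finset.smul_sum]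
    refine Finset.sum_congr rfl fun σ _ => ?_
    have hc : (fun i : Fin m => cc (DL k (σ i)) (top 1)) =
        fun _ => algebraMap k (Module.End k (LP k (Fin m))) (-4) := by
      funext i
      rw [cc_one (fun α h => DL_zero _ α h)]
      simp only [DL, one_ne_zero, if_false, if_true, map_neg, map_ofNat]
      norm_num
    rw [hc, cw_const, ← map_pow, hlen, map_mul (eval _), map_pow (eval _), eval_map_psi,
      eval_disc_perm (tt k) σ, ← hK, ← hΘ]
    rw [Module.End.mul_apply, Module.algebraMap_end_apply]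
    simp [mul_assoc]
  set Θ0 : MvPolynomial (Fin m) k :=
    eval (fun v : Fin m × Bool => (X v.1 : MvPolynomial (Fin m) k))
      (disc (MvPolynomial (Fin m) k) Prod.fst) ^ K with hΘ0'
  have hΘ00 : Θ0 ≠ 0 := by
    refine pow_ne_zero _ ?_
    simp only [disc, map_prod, map_sub, eval_X]
    refine Finset.prod_ne_zero_iff.2 fun p hp => sub_ne_zero.2 fun h => ?_
    exact (Finset.mem_filter.1 hp).2 (X_injective h)
  have Zpol : ∀ G, Z 1 (mu (eP k ε 0) l G) = ((-4 : k) ^ m *
      ((Fintype.card (Equiv.Perm (Fin m)) : ℕ) : k)) • mu (eP k ε 0) l (Θ0 * G) := by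
    intro G
    simp only [Z]
    rw [ad_mu he hln hlc, map_mul (map _), map_mul (map _), map_pow, map_disc, map_PP,
      isSys_DT.pair_formula (n := fun _ => 1) (fun i α h => DT_zero i α h) (N := 2)
        (fun _ => one_lt_two) hln hlc le_rfl, ← map_smul]
    congr 1
    rw [mul_comm ((-4 : k) ^ m), mul_smul, Nat.cast_smul_eq_nsmul, ← Finset.card_univ,
      ← Finset.sum_const]
    simp only [LinearMap.coe_sum, Finset.sum_apply]
    refine Finset.sum_congr rfl fun σ _ => ?_
    have hc : (fun i : Fin m => cc (DT k (σ i)) (top 1)) =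
        fun _ => algebraMap k (Module.End k (MvPolynomial (Fin m) k)) (-4) := by
      funext i
      rw [cc_one (fun α h => DT_zero _ α h)]
      simp only [DT, one_ne_zero, if_false, if_true, map_neg, map_ofNat]
      norm_num
    rw [hc, cw_const, ← map_pow, hlen, map_mul (eval _), map_pow (eval _), eval_map_perm,
      eval_disc_perm (fun i => (X i : MvPolynomial (Fin m) k)) σ, ← hK, ← hΘ0']
    rw [Module.End.mul_apply, Module.algebraMap_end_apply]
    simp
  have h4 : ((-4 : k) ^ m) ≠ 0 := pow_ne_zero _ (by norm_num)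
  have hfac : ((Fintype.card (Equiv.Perm (Fin m)) : ℕ) : k) ≠ 0 := by
    exact_mod_cast Fintype.card_ne_zero
  set W : Submodule k U := Q.restrictScalars k ⊔ FilZ k ε m with hW
  have hA : ∀ G, (∃ y ∈ Q, y - muL k ε l G ∈ FilZ k ε m) → ∀ h,
      muL k ε l (Θ * ((∑ σ : Equiv.Perm (Fin m), psi k (rename σ h)) * G)) ∈ W := by
    rintro G ⟨y, hy, hG⟩ h
    have h1 := ZF h _ _ hG
    rw [map_sub] at h1
    have h2 : Z h y ∈ W := Submodule.mem_sup_left (ZQ h y hy)
    have h3 := W.sub_mem (W.sub_mem h2 (Submodule.mem_sup_right h1))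
      (Submodule.mem_sup_right (Ztop h G))
    rw [sub_sub_cancel, sub_sub_cancel] at h3
    exact (W.smul_mem_iff h4).1 h3
  have hB : ∀ G, muL k ε l G ∈ FilZ k ε m → muL k ε l (Θ * G) ∈ W := by
    intro G hG
    have h1 := hA G ⟨0, Q.zero_mem, by rw [zero_sub]; exact Submodule.neg_mem _ hG⟩ 1
    simp only [map_one, Finset.sum_const, Finset.card_univ, ← Nat.cast_smul_eq_nsmul k,
      smul_mul_assoc, one_mul, mul_smul_comm, map_smul] at h1
    exact (W.smul_mem_iff hfac).1 h1
  set G0 := ∑ σ : Equiv.Perm (Fin m), ren k σ H0 with hG0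
  have hG0s : ∀ τ : Equiv.Perm (Fin m), ren k τ G0 = G0 := by
    intro τ
    rw [hG0, map_sum]
    exact Fintype.sum_equiv (Equiv.mulLeft τ) _ _ fun σ => ren_ren τ σ H0
  have hsum : ∀ F : LP k (Fin m), muL k ε l (∑ σ : Equiv.Perm (Fin m), ren k σ F) -
      ((Fintype.card (Equiv.Perm (Fin m)) : ℕ) : k) • muL k ε l F ∈ FilZ k ε m := by
    intro F
    rw [map_sum, Nat.cast_smul_eq_nsmul, ← Finset.card_univ, ← Finset.sum_const,
      ← Finset.sum_sub_distrib]
    exact Submodule.sum_mem _ fun σ _ => muL_symm_vir hε σ F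
  have hG0Q : ((Fintype.card (Equiv.Perm (Fin m)) : ℕ) : k) • q - muL k ε l G0 ∈ FilZ k ε m := by
    have := Submodule.sub_mem _ (Submodule.smul_mem _
      ((Fintype.card (Equiv.Perm (Fin m)) : ℕ) : k) hH0) (hsum H0)
    convert this using 1
    rw [smul_sub]; abel
  have hC : ∀ a, muL k ε l (psi k a * (Θ * G0)) ∈ W := by
    intro a
    have h1 := hA G0 ⟨_, Submodule.smul_of_tower_mem Q _ hq, hG0Q⟩ a
    have h2 := hsum (psi k a * G0)
    rw [← map_smul, ← map_sub] at h2
    have h3 := hB _ h2
    simp only [map_mul, hG0s, ren_psi, ← Finset.sum_mul] at h3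
    rw [mul_sub, map_sub, mul_smul_comm, map_smul] at h3
    have h5 := W.sub_mem h1 h3
    rw [sub_sub_cancel] at h5
    have := (W.smul_mem_iff hfac).1 h5
    rwa [mul_left_comm] at this
  obtain ⟨s, G1, hG1⟩ := exists_clear (Θ * G0)
  have hG1ne : G1 ≠ 0 := fun h => by
    rw [h, map_zero, eq_comm, (isUnit_psi_prod.pow s).mul_right_eq_zero] at hG1
    exact mul_ne_zero hΘ0 hG00 hG1
  have Zpow : ∀ (j : ℕ) G, (Z 1 ^ j) (mu (eP k ε 0) l G) = ((-4 : k) ^ m *
      ((Fintype.card (Equiv.Perm (Fin m)) : ℕ) : k)) ^ j • mu (eP k ε 0) l (Θ0 ^ j * G) := by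
    intro j
    induction j with
    | zero => simp
    | succ j ih =>
      intro G
      rw [pow_succ, Module.End.mul_apply, Zpol, map_smul, ih, smul_smul, ← mul_assoc, ← pow_succ,
        ← pow_succ']
  have ZQp : ∀ (j : ℕ), ∀ y ∈ Q, (Z 1 ^ j) y ∈ Q := by
    intro j
    induction j with
    | zero => simp
    | succ j ih => intro y hy; rw [pow_succ, Module.End.mul_apply]; exact ih _ (ZQ 1 y hy)
  refine disc_of_ne he Q hQ (G1 := Θ0 ^ m * G1) (mul_ne_zero (pow_ne_zero _ hΘ00) hG1ne)
    fun a => ?_
  have h1 : mu (eP k ε 0) l (a * G1) ∈ W := by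
    rw [← muL_psi, map_mul, hG1, ← mul_assoc, ← map_pow, ← map_mul]
    exact hC _
  obtain ⟨y, hy, w, hw, hyw⟩ := Submodule.mem_sup.1 h1
  have h2 := congrArg (Z 1 ^ m) hyw
  rw [map_add, Zkill m le_rfl w hw, add_zero, Zpow] at h2
  have h3 := ZQp m y hy
  rw [h2] at h3
  rw [mul_left_comm]
  exact (Submodule.smul_mem_iff (Q.restrictScalars k)
    (pow_ne_zero _ (mul_ne_zero h4 hfac))).1 h3

theorem thmA_vir [CharZero k] (hε : IsVir k ε c)
    (hgen : Algebra.adjoin k (Set.range ε) = ⊤) (Q : Ideal U) (hQ : ∀ q ∈ Q, ∀ u, q * u ∈ Q)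
    (h0 : Q ≠ ⊥) : ∃ m K : ℕ, ∀ H : MvPolynomial (Fin m) k,
      mu (eP k ε 0) (List.finRange m) (disc k id ^ K * H) ∈ Q := by
  classical
  obtain ⟨q, hq, hq0⟩ := Submodule.exists_mem_ne_zero_of_ne_bot h0
  have hex := exists_FilZ hgen q
  obtain ⟨m, hm1, hm2⟩ : ∃ m, q ∈ FilZ k ε (m + 1) ∧ q ∉ FilZ k ε m := by
    have h1 := Nat.find_spec hex
    have h2 : Nat.find hex ≠ 0 := by
      intro h
      rw [h] at h1
      simp [FilZ] at h1
      exact hq0 h1
    refine ⟨Nat.find hex - 1, ?_, Nat.find_min hex (by omega)⟩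
    rwa [Nat.sub_add_cancel (by omega)]
  obtain ⟨H0, hH0⟩ := exists_muL_of_FilZ ε hm1
  refine ⟨m, core_vir hε Q hQ hq hH0 fun h => hm2 ?_⟩
  have hfac : ((Fintype.card (Equiv.Perm (Fin m)) : ℕ) : k) ≠ 0 := by
    exact_mod_cast Fintype.card_ne_zero
  have h1 : ∑ σ : Equiv.Perm (Fin m), (muL k ε (List.finRange m) (ren k σ H0) -
      muL k ε (List.finRange m) H0) ∈ FilZ k ε m :=
    Submodule.sum_mem _ fun σ _ => muL_symm_vir hε σ H0
  rw [Finset.sum_sub_distrib, ← map_sum, h, map_zero, zero_sub, Finset.sum_const,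
    Finset.card_univ, ← Nat.cast_smul_eq_nsmul k, Submodule.neg_mem_iff,
    Submodule.smul_mem_iff _ hfac] at h1
  simpa using Submodule.add_mem _ hH0 h1

end

end Pool.Agent.Lib.MP_4da284_al.Q2
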