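import Pool.Agent.Lib.MP_4da284_al.H78Local

namespace Pool.Agent.Lib.MP_4da284_al.Q1

open MvPolynomial

noncomputable section

universe u

/- The coordinate ring of the configuration space of distinct points. -/
structure Base (k : Type*) [Field k] {I A : Type*} [Fintype I] [DecidableEq I] [CommRing A]
    [Algebra k A] (t : I → A) (d : I → Derivation k A A) : Prop where
  hd : ∀ i j, d i (t j) = if i = j then 1 else 0
  unit : ∀ i j, i ≠ j → IsUnit (t i - t j)
  surj : ∀ a, ∃ (r : ℕ) (a0 : MvPolynomial I k), aeval t (disc k (id : I → I)) ^ r * a = aeval t a0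
  inj : Function.Injective (aeval t : MvPolynomial I k →ₐ[k] A)

variable {k : Type u} [Field k]

theorem disc_ne_zero {I : Type*} [Fintype I] [DecidableEq I] : disc k (id : I → I) ≠ 0 := by
  refine Finset.prod_ne_zero_iff.2 fun p hp => sub_ne_zero.2 fun h => ?_
  exact (Finset.mem_filter.1 hp).2 (X_injective h)

theorem exists_base (k : Type u) [Field k] (I : Type) [Fintype I] [DecidableEq I] :
    ∃ (A : Type u) (_ : CommRing A) (_ : Algebra k A) (t : I → A) (d : I → Derivation k A A),
      Base k t d := by
  let A := Localization.Away (disc k (id : I → I))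
  let t : I → A := fun i => algebraMap (MvPolynomial I k) A (X i)
  have ht : ∀ a, aeval t a = algebraMap (MvPolynomial I k) A a := by
    intro a
    have : (aeval t : MvPolynomial I k →ₐ[k] A) = IsScalarTower.toAlgHom k (MvPolynomial I k) A :=
      MvPolynomial.algHom_ext fun i => by simp [t]
    rw [this]; rfl
  have hu : IsUnit (algebraMap (MvPolynomial I k) A (disc k id)) :=
    IsLocalization.Away.algebraMap_isUnit _
  have hder : ∀ i, ∃ δ : Derivation k A A, ∀ j, δ (t j) = if i = j then 1 else 0 := by
    intro i
    let φ : MvPolynomial I k →ₐ[k] TrivSqZeroExt A A :=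
      aeval fun j => TrivSqZeroExt.inl (t j) + TrivSqZeroExt.inr (if i = j then 1 else 0)
    have hφ : ∀ a, (φ a).fst = algebraMap (MvPolynomial I k) A a := by
      intro a
      have : (TrivSqZeroExt.fstHom k A A).comp φ = IsScalarTower.toAlgHom k (MvPolynomial I k) A :=
        MvPolynomial.algHom_ext fun i => by simp [φ, t]
      exact DFunLike.congr_fun this a
    have hφu : ∀ y : Submonoid.powers (disc k (id : I → I)), IsUnit (φ y) := by
      intro y
      rw [TrivSqZeroExt.isUnit_iff_isUnit_fst, hφ]
      exact IsLocalization.map_units A y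
    let ψ : A →ₐ[k] TrivSqZeroExt A A := IsLocalization.liftAlgHom hφu
    have hψ0 : ∀ a, ψ (algebraMap (MvPolynomial I k) A a) = φ a := fun a =>
      IsLocalization.lift_eq hφu a
    have hψ : ∀ a, (ψ a).fst = a := by
      intro a
      have : ((TrivSqZeroExt.fstHom k A A).comp ψ).toRingHom = RingHom.id A := by
        refine IsLocalization.ringHom_ext (Submonoid.powers (disc k (id : I → I))) ?_
        refine RingHom.ext fun a => ?_
        change (ψ (algebraMap (MvPolynomial I k) A a)).fst = _
        rw [hψ0, hφ]; rfl
      exact DFunLike.congr_fun this a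
    refine ⟨Derivation.mk' (((TrivSqZeroExt.sndHom A A).restrictScalars k).comp ψ.toLinearMap) ?_,
      ?_⟩
    · intro a b
      change (ψ (a * b)).snd = a • (ψ b).snd + b • (ψ a).snd
      rw [map_mul, TrivSqZeroExt.snd_mul, hψ, hψ, op_smul_eq_smul]
    · intro j
      change (ψ (algebraMap (MvPolynomial I k) A (X j))).snd = _
      rw [hψ0]; simp [φ]
  choose d hd using hder
  refine ⟨A, inferInstance, inferInstance, t, d, hd, ?_, ?_, ?_⟩
  · intro i j hij
    have := map_dvd (algebraMap (MvPolynomial I k) A) (dvd_disc (A := k) (id : I → I) hij)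
    rw [map_sub] at this
    exact isUnit_of_dvd_unit this hu
  · intro a
    obtain ⟨r, a0, h⟩ := IsLocalization.Away.surj (disc k (id : I → I)) a
    exact ⟨r, a0, by rw [ht, ht, mul_comm, h]⟩
  · intro a b h
    rw [ht, ht] at h
    exact IsLocalization.injective A
      (powers_le_nonZeroDivisors_of_noZeroDivisors (disc_ne_zero (k := k) (I := I))) h

variable {I A : Type*} [Fintype I] [DecidableEq I] [CommRing A] [Algebra k A]
  {t : I → A} {d : I → Derivation k A A}

theorem Base.unit_disc (hB : Base k t d) : IsUnit (aeval t (disc k (id : I → I))) := by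
  simp only [disc, map_prod, map_sub, aeval_X]
  exact IsUnit.prod_iff.2 fun p hp => hB.unit _ _ (Finset.mem_filter.1 hp).2

theorem Base.der_ext (hB : Base k t d) (δ : Derivation k A A) (h : ∀ i, δ (t i) = 0) : δ = 0 := by
  have h0 : ∀ a0 : MvPolynomial I k, δ (aeval t a0) = 0 := by
    intro a0
    induction a0 using MvPolynomial.induction_on with
    | C a => simp
    | add p q hp hq => simp only [map_add, hp, hq, add_zero]
    | mul_X p w hp => simp [hp, h]
  ext a
  obtain ⟨r, a0, ha⟩ := hB.surj a
  have := congrArg δ ha
  rw [h0, Derivation.leibniz, ← map_pow, h0, smul_zero, add_zero, smul_eq_mul, map_pow] at this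
  exact ((hB.unit_disc.pow r).mul_right_eq_zero).1 this

/- the vector field `∑ f(t_i) d_i` -/
def Df (t : I → A) (d : I → Derivation k A A) (f : Polynomial k) : Derivation k A A :=
  ∑ i, Polynomial.aeval (t i) f • d i

omit [DecidableEq I] in
theorem Df_apply (f : Polynomial k) (a : A) :
    Df t d f a = ∑ i, Polynomial.aeval (t i) f * d i a := by
  have : ∀ s : Finset I, (∑ i ∈ s, Polynomial.aeval (t i) f • d i) a =
      ∑ i ∈ s, Polynomial.aeval (t i) f * d i a := by
    classical
    intro s
    induction s using Finset.induction_on with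
    | empty => simp
    | insert i s hi ih => simp [Finset.sum_insert hi, ih]
  exact this _

theorem Base.Df_t (hB : Base k t d) (f : Polynomial k) (j : I) :
    Df t d f (t j) = Polynomial.aeval (t j) f := by
  simp [Df_apply, hB.hd]

theorem Base.Df_br (hB : Base k t d) (f g : Polynomial k) (a : A) :
    Df t d f (Df t d g a) - Df t d g (Df t d f a) =
      Df t d (f * Polynomial.derivative g - Polynomial.derivative f * g) a := by
  have := hB.der_ext (⁅Df t d f, Df t d g⁆ -
    Df t d (f * Polynomial.derivative g - Polynomial.derivative f * g)) (by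
      intro i
      simp only [Derivation.sub_apply, Derivation.commutator_apply, hB.Df_t, Derivation.map_aeval,
        smul_eq_mul, map_sub, map_mul]
      ring)
  rw [sub_eq_zero] at this
  rw [← this, Derivation.commutator_apply]

end

end Pool.Agent.Lib.MP_4da284_al.Q1
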