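import Pool.Agent.Lib.MP_4da284_al.H78Sep

namespace Pool.Agent.Lib.MP_4da284_al.Q1

open Polynomial

noncomputable section

universe u

section General

variable {k A R I : Type*} [Field k] [CommRing A] [Algebra k A] [Ring R] [Algebra k R]

theorem map_psum {R' : Type*} [Ring R'] [Algebra k R'] (ρ : R →ₐ[k] R') (ι : A →ₐ[k] R)
    (y : ℕ → R) (g : A[X]) : ρ (psum ι y g) = psum (ρ.comp ι) (fun n => ρ (y n)) g := by
  induction g using Polynomial.induction_on' with
  | monomial n a => simp [psum_monomial]
  | add p q hp hq => simp only [map_add, hp, hq]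

theorem map_phi1 {R' : Type*} [Ring R'] [Algebra k R'] (ρ : R →ₐ[k] R') (ι : A →ₐ[k] R) (t : A)
    (y : ℕ → R) (g : A[X]) : ρ (phi1 ι t y g) = phi1 (ρ.comp ι) t (fun n => ρ (y n)) g :=
  map_psum ρ ι y _

theorem psum_comm (ι : A →ₐ[k] R) (δ : Derivation k A A) (D : ℕ → R)
    (h0 : ∀ b, D 0 * ι b = ι b * D 0 + ι (δ b)) (h1 : ∀ α b, α ≠ 0 → D α * ι b = ι b * D α)
    (g : A[X]) (b : A) : psum ι D g * ι b = ι b * psum ι D g + ι (g.coeff 0 * δ b) := by
  induction g using Polynomial.induction_on' with
  | monomial n a =>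
    rw [psum_monomial, mul_assoc, ← map_mul, mul_comm a, map_mul, ← mul_assoc]
    by_cases hn : n = 0
    · subst hn
      rw [h0, add_mul, mul_assoc, ← map_mul]; simp [mul_comm]
    · rw [h1 n b hn, mul_assoc]; simp [coeff_monomial, hn]
  | add p q hp hq => simp only [map_add, add_mul, mul_add, hp, hq, coeff_add]; abel

theorem der_psum (ι : A →ₐ[k] R) (δ : Derivation k A A) (x : R) (y : ℕ → R)
    (h0 : ∀ b, x * ι b = ι b * x + ι (δ b)) (h1 : ∀ α, x * y α = y α * x) (g : A[X]) :
    x * psum ι y g = psum ι y g * x + psum ι y (pder δ g) := by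
  induction g using Polynomial.induction_on' with
  | monomial n a =>
    rw [pder_monomial, psum_monomial, psum_monomial, ← mul_assoc, h1, mul_assoc, h0, mul_add,
      mul_assoc]
  | add p q hp hq => simp only [map_add, add_mul, mul_add, hp, hq]; abel

theorem psum_add_one (ι : A →ₐ[k] R) (y : ℕ → R) (g : A[X]) :
    psum ι (fun α => y α + if α = 1 then 1 else 0) g = psum ι y g + ι (g.coeff 1) := by
  induction g using Polynomial.induction_on' with
  | monomial n a =>
    rw [psum_monomial, psum_monomial, coeff_monomial, add_mul]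
    split_ifs <;> simp
  | add p q hp hq => simp only [map_add, hp, hq, coeff_add]; abel

variable [Fintype I] [DecidableEq I] {ι : A →ₐ[k] R} {t : I → A} {d : I → Derivation k A A}
  {e : k[X] →ₗ[k] R} {D : I → ℕ → R}

theorem LocSys.comm (h : LocSys ι t d e D) (f : k[X]) (b : A) :
    e f * ι b = ι b * e f + ι (Df t d f b) := by
  rw [h.taylor, Finset.sum_mul, Finset.mul_sum, Df_apply, map_sum, ← Finset.sum_add_distrib]
  refine Finset.sum_congr rfl fun i _ => ?_
  rw [phi1_apply, psum_comm ι (d i) (D i) (h.sys.h0 i) (h.sys.h1 i), taylor_coeff_zero,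
    eval_map_algebraMap]

theorem LocSys.map {R' : Type*} [Ring R'] [Algebra k R'] (h : LocSys ι t d e D) (ρ : R →ₐ[k] R') :
    LocSys (ρ.comp ι) t d (ρ.toLinearMap ∘ₗ e) (fun i α => ρ (D i α)) where
  sys :=
    { hd := h.sys.hd
      h0 := fun i b => by simpa using congrArg ρ (h.sys.h0 i b)
      h1 := fun i α b hα => by simpa using congrArg ρ (h.sys.h1 i α b hα) }
  far := fun i j α β hij => by simpa using congrArg ρ (h.far i j α β hij)
  zero := fun i β => by simpa using congrArg ρ (h.zero i β)
  near := fun i α β => by simpa using congrArg ρ (h.near i α β)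
  br := fun f g => by simpa using congrArg ρ (h.br f g)
  taylor := fun f => by simpa [map_phi1] using congrArg ρ (h.taylor f)

theorem LocSys.far_phi1 (h : LocSys ι t d e D) {i j : I} (hij : i ≠ j) (f : k[X]) :
    D i 0 * phi1 ι (t j) (D j) (f.map (algebraMap k A)) =
      phi1 ι (t j) (D j) (f.map (algebraMap k A)) * D i 0 := by
  rw [phi1_apply, der_psum ι (d i) _ _ (h.sys.h0 i) (fun α => h.far i j 0 α hij)]
  have : Polynomial.taylor (t j) (f.map (algebraMap k A)) = aeval (X + C (t j)) f := by
    rw [taylor_apply, comp_eq_aeval, aeval_map_algebraMap]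
  rw [this, Derivation.map_aeval, map_add, pder_X, pder_C, h.sys.hd, if_neg hij]
  simp

def twE (ι : A →ₐ[k] R) (s : A) (e : k[X] →ₗ[k] R) : k[X] →ₗ[k] R :=
  e + ι.toLinearMap ∘ₗ (aeval s : k[X] →ₐ[k] A).toLinearMap ∘ₗ derivative

theorem twE_apply (ι : A →ₐ[k] R) (s : A) (e : k[X] →ₗ[k] R) (f : k[X]) :
    twE ι s e f = e f + ι (aeval s (derivative f)) := rfl

def twD (i : I) (D : I → ℕ → R) : I → ℕ → R :=
  fun j α => D j α + if j = i ∧ α = 1 then 1 else 0

theorem LocSys.twist (h : LocSys ι t d e D) (i : I) : LocSys ι t d (twE ι (t i) e) (twD i D) where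
  sys :=
    { hd := h.sys.hd
      h0 := fun j b => by simpa [twD] using h.sys.h0 j b
      h1 := fun j α b hα => by
        simp only [twD, add_mul, mul_add, h.sys.h1 j α b hα]
        split_ifs <;> simp }
  far := fun j j' α β hij => by
    simp only [twD, add_mul, mul_add, h.far j j' α β hij]
    split_ifs <;> simp <;> abel
  zero := fun j β => by
    simp only [twD, add_mul, mul_add, h.zero j β]
    split_ifs <;> simp <;> abel
  near := fun j α β => by
    have h1 : twD i D j (α + 1) * twD i D j (β + 1) - twD i D j (β + 1) * twD i D j (α + 1) =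
        D j (α + 1) * D j (β + 1) - D j (β + 1) * D j (α + 1) := by
      simp only [twD, add_mul, mul_add]
      split_ifs <;> simp <;> abel
    rw [h1, h.near, twD, smul_add]
    split_ifs with hc
    · obtain ⟨rfl, rfl⟩ : α = 0 ∧ β = 0 := by omega
      simp
    · simp
  br := fun f g => by
    have hD : ∀ f g : k[X], Df t d f (aeval (t i) g) = aeval (t i) (f * derivative g) := by
      intro f g
      rw [Derivation.map_aeval, Df_apply]
      simp [h.sys.hd, mul_comm]
    have h1 := h.comm f (aeval (t i) (derivative g))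
    have h2 := h.comm g (aeval (t i) (derivative f))
    have h3 : ι (aeval (t i) (derivative f)) * ι (aeval (t i) (derivative g)) =
        ι (aeval (t i) (derivative g)) * ι (aeval (t i) (derivative f)) := by
      rw [← map_mul, mul_comm, map_mul]
    have h4 : derivative (f * derivative g - derivative f * g) =
        f * derivative (derivative g) - g * derivative (derivative f) := by
      simp only [derivative_sub, derivative_mul]; ring
    rw [hD] at h1 h2
    rw [twE_apply ι _ e (_ - _), ← h.br f g, h4]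
    simp only [twE_apply, add_mul, mul_add, h1, h2, h3, map_sub]
    abel
  taylor := fun f => by
    rw [twE_apply, h.taylor, ← Finset.add_sum_erase _ _ (Finset.mem_univ i),
      ← Finset.add_sum_erase _ _ (Finset.mem_univ i), add_right_comm]
    congr 1
    · have : twD i D i = fun α => D i α + if α = 1 then 1 else 0 := by
        funext α; simp [twD]
      rw [this, phi1_apply, phi1_apply, psum_add_one, taylor_coeff_one, derivative_map,
        eval_map_algebraMap]
    · refine Finset.sum_congr rfl fun j hj => ?_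
      have : twD i D j = D j := by
        funext α; simp [twD, Finset.ne_of_mem_erase hj]
      rw [this]

section Mod

variable {V : Type*} [AddCommGroup V] [Module k V] [Module R V] [IsScalarTower k R V]

theorem stable_of_gen {s : Set R} (hs : Algebra.adjoin k s = ⊤) (P : Submodule k V)
    (h : ∀ r ∈ s, ∀ y ∈ P, r • y ∈ P) (r : R) : ∀ y ∈ P, r • y ∈ P := by
  have hr : r ∈ Algebra.adjoin k s := hs ▸ Algebra.mem_top
  induction hr using Algebra.adjoin_induction with
  | mem x hx => exact h x hx
  | algebraMap c => intro y hy; rw [algebraMap_smul]; exact P.smul_mem _ hy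
  | add a b _ _ ha hb => intro y hy; rw [add_smul]; exact P.add_mem (ha y hy) (hb y hy)
  | mul a b _ _ ha hb => intro y hy; rw [mul_smul]; exact ha _ (hb y hy)

def subOf {s : Set R} (hs : Algebra.adjoin k s = ⊤) (P : Submodule k V)
    (h : ∀ r ∈ s, ∀ y ∈ P, r • y ∈ P) : Submodule R V where
  carrier := P
  add_mem' := P.add_mem
  zero_mem' := P.zero_mem
  smul_mem' := fun r y hy => stable_of_gen hs P h r y hy

omit [IsScalarTower k R V] in
theorem psum_stable (ι : A →ₐ[k] R) (y : ℕ → R) (P : Submodule k V)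
    (h1 : ∀ a, ∀ x ∈ P, ι a • x ∈ P) (h2 : ∀ α, ∀ x ∈ P, y α • x ∈ P) (g : A[X]) :
    ∀ x ∈ P, psum ι y g • x ∈ P := by
  intro x hx
  induction g using Polynomial.induction_on' with
  | monomial n a => rw [psum_monomial, mul_smul]; exact h2 _ _ (h1 _ _ hx)
  | add p q hp hq => rw [map_add, add_smul]; exact P.add_mem hp hq

end Mod

end General

variable {k : Type u} [Field k] {U : Type u} [Ring U] [Algebra k U]
  {I : Type} {A R : Type u} [Fintype I] [DecidableEq I] [CommRing A] [Algebra k A]
  [Ring R] [Algebra k R] {e : k[X] →ₗ[k] U} {M : Type u} [AddCommGroup M] [Module k M]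
  [Module U M] {ι : A →ₐ[k] R} {t : I → A} {d : I → Derivation k A A} {n : I → ℕ}

def Cov.quot (c : Cov e M ι t d n) (Y : Submodule R c.X) (hY : Y ≠ ⊤) (n' : I → ℕ)
    (h : ∀ i α, n' i < α → ∀ x : c.X, c.D i α • x ∈ Y) : Cov e M ι t d n' where
  e' := c.e'
  D := c.D
  X := c.X ⧸ Y
  j := Y.mkQ.restrictScalars k ∘ₗ c.j
  loc := c.loc
  gen := c.gen
  ne := by
    intro h0
    refine hY (eq_top_iff.2 fun x _ => ?_)
    have hx := c.span x
    induction hx using Submodule.span_induction with
    | mem y hy =>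
      obtain ⟨a, v, rfl⟩ := hy
      exact Y.smul_mem _ ((Submodule.Quotient.mk_eq_zero Y).1 (LinearMap.congr_fun h0 v))
    | zero => exact Y.zero_mem
    | add a b _ _ ha hb => exact Y.add_mem (ha trivial) (hb trivial)
    | smul r a _ ha => exact Y.smul_of_tower_mem r (ha trivial)
  lin := fun f v => by
    change Y.mkQ (c.j _) = c.e' f • Y.mkQ (c.j v)
    rw [c.lin, map_smul]
  span := by
    intro x
    obtain ⟨x, rfl⟩ := Y.mkQ_surjective x
    have hx := c.span x
    induction hx using Submodule.span_induction with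
    | mem y hy =>
      obtain ⟨a, v, rfl⟩ := hy
      exact Submodule.subset_span ⟨a, v, map_smul _ _ _⟩
    | zero => rw [map_zero]; exact Submodule.zero_mem _
    | add a b _ _ ha hb => rw [map_add]; exact Submodule.add_mem _ ha hb
    | smul r a _ ha => exact Submodule.smul_mem _ r ha
  top := by
    intro i α hα x
    obtain ⟨x, rfl⟩ := Y.mkQ_surjective x
    rw [← map_smul]
    exact (Submodule.Quotient.mk_eq_zero Y).2 (h i α hα x)

/- the image of a normal element is a submodule -/
theorem Cov.exists_image (c : Cov e M ι t d n) (z : R) (h1 : ∀ a, z * ι a = ι a * z)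
    (h2 : ∀ j α (x : c.X), ∃ y : c.X, c.D j α • z • x = z • y) :
    ∃ Y : Submodule R c.X, ∀ x, x ∈ Y ↔ ∃ y : c.X, z • y = x := by
  let P : Submodule k c.X := LinearMap.range (Algebra.lsmul k k c.X z : c.X →ₗ[k] c.X)
  have hP1 : ∀ a, ∀ x ∈ P, ι a • x ∈ P := by
    rintro a _ ⟨y, rfl⟩
    exact ⟨ι a • y, by simp only [Algebra.lsmul_coe, ← mul_smul, h1]⟩
  have hP2 : ∀ j α, ∀ x ∈ P, c.D j α • x ∈ P := by
    rintro j α _ ⟨x, rfl⟩
    obtain ⟨y, hy⟩ := h2 j α x
    exact ⟨y, hy.symm⟩
  refine ⟨subOf c.gen P ?_, fun x => Iff.rfl⟩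
  rintro r (⟨a, rfl⟩ | ⟨f, rfl⟩)
  · exact hP1 a
  · intro x hx
    rw [c.loc.taylor, Finset.sum_smul]
    exact P.sum_mem fun j _ => psum_stable ι _ P hP1 (hP2 j) _ x hx

theorem Cov.top_surj (c : Cov e M ι t d n) (i : I) (hi : n i ≠ 0)
    (hmin : IsEmpty (Cov e M ι t d (Function.update n i (n i - 1)))) (x : c.X) :
    ∃ y : c.X, c.D i (n i) • y = x := by
  obtain ⟨Y, hY⟩ := c.exists_image (c.D i (n i)) (fun a => c.loc.sys.h1 i _ a hi) (by
    intro j α x
    rw [← mul_smul]
    by_cases hj : j = i
    · subst hj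
      rcases α with _ | α
      · exact ⟨c.D j 0 • x, by rw [c.loc.zero, mul_smul]⟩
      · obtain ⟨m, hm⟩ : ∃ m, n j = m + 1 := ⟨n j - 1, by omega⟩
        have := c.loc.near j α m
        rw [sub_eq_iff_eq_add, ← hm] at this
        rw [this, add_smul, mul_smul, smul_assoc]
        rcases α with _ | α
        · refine ⟨((m : k) - (0 : ℕ)) • x + c.D j (0 + 1) • x, ?_⟩
          rw [smul_add, zero_add m, ← hm, smul_comm]
        · rw [c.top j _ (by omega), smul_zero, zero_add]
          exact ⟨_, rfl⟩
    · exact ⟨c.D j α • x, by rw [c.loc.far j i _ _ hj, mul_smul]⟩)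
  rw [← hY]
  by_contra hx
  refine hmin.false (c.quot Y (fun h => hx (h ▸ Submodule.mem_top)) _ ?_)
  intro j α hα y
  by_cases hj : j = i
  · subst hj
    rw [Function.update_self] at hα
    by_cases h : α = n j
    · exact (hY _).2 ⟨y, by rw [h]⟩
    · rw [c.top j α (by omega)]; exact Y.zero_mem
  · rw [Function.update_of_ne hj] at hα
    rw [c.top j α hα]; exact Y.zero_mem

theorem Cov.twist_or (c : Cov e M ι t d n) (i : I) (hi : n i = 1)
    (h1 : ∀ x : c.X, (c.D i 1 + 1) • x = 0) :
    Nonempty (Cov e M ι t d (Function.update n i 0)) ∨ ∀ v, c.D i 0 • c.j v = 0 := by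
  by_cases h0 : ∀ v, c.D i 0 • c.j v = 0
  · exact Or.inr h0
  left
  have hD1 : ∀ x : c.X, c.D i 1 • x = -x := fun x => by
    have := h1 x
    rwa [add_smul, one_smul, add_eq_zero_iff_eq_neg] at this
  have hphi : ∀ (g : A[X]) (x : c.X), psum ι (c.D i) g • x =
      c.D i 0 • ι (g.coeff 0) • x - ι (g.coeff 1) • x := by
    intro g x
    induction g using Polynomial.induction_on' with
    | monomial m a =>
      rw [psum_monomial, mul_smul]
      rcases m with _ | _ | m
      · simp
      · simp [coeff_monomial, hD1]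
      · rw [c.top i _ (by omega)]; simp [coeff_monomial]
    | add p q hp hq =>
      simp only [map_add, add_smul, hp, hq, coeff_add, smul_add]; abel
  have hlin : ∀ f (x : c.X), c.D i 0 • c.e' f • x = twE ι (t i) c.e' f • c.D i 0 • x := by
    intro f x
    rw [twE_apply, c.loc.taylor, ← Finset.add_sum_erase _ _ (Finset.mem_univ i), add_right_comm,
      add_smul, add_smul, smul_add, Finset.sum_smul, Finset.sum_smul, Finset.smul_sum]
    congr 1
    · have hd : d i (aeval (t i) f) = aeval (t i) (derivative f) := by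
        rw [Derivation.map_aeval, c.loc.sys.hd]; simp
      rw [add_smul, phi1_apply, hphi, hphi, taylor_coeff_zero, taylor_coeff_one, derivative_map,
        eval_map_algebraMap, eval_map_algebraMap, sub_add_cancel, ← mul_smul (c.D i 0) (ι _) x,
        c.loc.sys.h0, hd, add_smul, add_sub_cancel_right, mul_smul]
    · refine Finset.sum_congr rfl fun j hj => ?_
      rw [← mul_smul, c.loc.far_phi1 (Finset.ne_of_mem_erase hj).symm, mul_smul]
  have hloc := c.loc.twist i
  have hgen : Algebra.adjoin k (Set.range ι ∪ Set.range (twE ι (t i) c.e')) = ⊤ := by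
    rw [eq_top_iff, ← c.gen, Algebra.adjoin_le_iff]
    rintro r (⟨a, rfl⟩ | ⟨f, rfl⟩)
    · exact Algebra.subset_adjoin (Or.inl ⟨a, rfl⟩)
    · have : c.e' f = twE ι (t i) c.e' f - ι (aeval (t i) (derivative f)) := by
        rw [twE_apply, add_sub_cancel_right]
      rw [this]
      exact Subalgebra.sub_mem _ (Algebra.subset_adjoin (Or.inr ⟨f, rfl⟩))
        (Algebra.subset_adjoin (Or.inl ⟨_, rfl⟩))
  let P : Submodule k c.X := Submodule.span k {y | ∃ a v, y = ι a • c.D i 0 • c.j v}
  have hP : ∀ r ∈ Set.range ι ∪ Set.range (twE ι (t i) c.e'), ∀ y ∈ P, r • y ∈ P := by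
    intro r hr y hy
    induction hy using Submodule.span_induction with
    | mem y hy =>
      obtain ⟨a, v, rfl⟩ := hy
      rcases hr with ⟨b, rfl⟩ | ⟨f, rfl⟩
      · exact Submodule.subset_span ⟨b * a, v, by rw [map_mul, mul_smul]⟩
      · rw [← mul_smul, hloc.comm, add_smul, mul_smul, ← hlin, ← c.lin]
        exact P.add_mem (Submodule.subset_span ⟨_, _, rfl⟩) (Submodule.subset_span ⟨_, _, rfl⟩)
    | zero => rw [smul_zero]; exact P.zero_mem
    | add a b _ _ ha hb => rw [smul_add]; exact P.add_mem ha hb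
    | smul s a _ ha => rw [smul_comm]; exact P.smul_mem _ ha
  let Y : Submodule R c.X := subOf hgen P hP
  have hj : ∀ v, c.D i 0 • c.j v ∈ Y := fun v =>
    Submodule.subset_span ⟨1, v, by rw [map_one, one_smul]⟩
  let j : M →ₗ[k] Y :=
    { toFun := fun v => ⟨c.D i 0 • c.j v, hj v⟩
      map_add' := fun v w => Subtype.ext (by simp)
      map_smul' := fun s v => Subtype.ext (by simp [smul_comm s]) }
  refine ⟨⟨twE ι (t i) c.e', twD i c.D, Y, j, hloc, hgen, ?_, ?_, ?_, ?_⟩⟩
  · intro h
    exact h0 fun v => congrArg Subtype.val (LinearMap.congr_fun h v)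
  · intro f v
    refine Subtype.ext ?_
    change c.D i 0 • c.j (e f • v) = _ • c.D i 0 • c.j v
    rw [c.lin, hlin]
  · rintro ⟨x, hx⟩
    change x ∈ P at hx
    induction hx using Submodule.span_induction with
    | mem y hy =>
      obtain ⟨a, v, rfl⟩ := hy
      exact Submodule.subset_span ⟨a, v, rfl⟩
    | zero => exact Submodule.zero_mem _
    | add a b _ _ ha hb => exact Submodule.add_mem _ ha hb
    | smul s a _ ha => exact Submodule.smul_mem _ s ha
  · intro m α hα x
    refine Subtype.ext ?_
    change twD i c.D m α • (x : c.X) = 0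
    by_cases hm : m = i
    · subst hm
      rw [Function.update_self] at hα
      by_cases h : α = 1
      · subst h; simpa [twD] using h1 x
      · simpa [twD, h] using c.top m α (by omega) x
    · rw [Function.update_of_ne hm] at hα
      simpa [twD, hm] using c.top m α hα x

end

end Pool.Agent.Lib.MP_4da284_al.Q1
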