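import Pool.Agent.Lib.MP_4da284_al.Defs

namespace Pool.Agent.Lib.MP_4da284_al

universe u

/- A prime ideal whose quotient has trivial centroid. -/
structure ClosedPrime (k : Type u) [Field k] {U : Type u} [Ring U] [Algebra k U]
    (Q : Ideal U) : Prop where
  ne_top : Q ≠ ⊤
  prime : ∀ r r' : U, (∀ y, r * y * r' ∈ Q) → r ∈ Q ∨ r' ∈ Q
  centroid : ∀ r r' : U, r ∉ Q → (∀ y, r * y * r' - r' * y * r ∈ Q) → ∃ c : k, r' - c • r ∈ Q

/- `B` embeds in a Weyl algebra. -/
def WE (k : Type u) [Field k] (B : Type u) [Ring B] [Algebra k B] : Prop :=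
  ∃ (p : ℕ) (j : B →ₐ[k] Weyl k (p + 1)), Function.Injective j

/- `C` is generated by a finite dimensional nilpotent Lie algebra `F 0` containing `1`. -/
structure NilData (k : Type u) [Field k] (C : Type u) [Ring C] [Algebra k C]
    (F : ℕ → Submodule k C) : Prop where
  fin : FiniteDimensional k (F 0)
  one : (1 : C) ∈ F 0
  le : ∀ p, F p ≤ F 0
  br : ∀ p, ∀ a ∈ F 0, ∀ b ∈ F p, a * b - b * a ∈ F (p + 1)
  bot : ∃ K, F K = ⊥
  gen : Algebra.adjoin k (F 0 : Set C) = ⊤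

end Pool.Agent.Lib.MP_4da284_al
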