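import Pool.Agent.Lib.MP_4da284_al.H78Defs

namespace Pool.Agent.Lib.MP_4da284_al

universe u

open TensorProduct

namespace NilStep

section basic

variable {k : Type u} [Field k] {C : Type u} [Ring C] [Algebra k C]

/- The inner derivation of `x`. -/
def ad (k : Type u) [Field k] {C : Type u} [Ring C] [Algebra k C] (x : C) : Module.End k C :=
  LinearMap.mulLeft k x - LinearMap.mulRight k x

theorem ad_apply (x a : C) : ad k x a = x * a - a * x := rfl

theorem ad_mul (x a b : C) : ad k x (a * b) = ad k x a * b + a * ad k x b := by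
  simp only [ad_apply]; noncomm_ring

theorem ad_pow_succ {x y : C} (h : x * y - y * x = 1) (n : ℕ) :
    ad k x (y ^ (n + 1)) = ((n + 1 : ℕ) : k) • y ^ n := by
  have h1 : ad k x y = 1 := h
  induction n with
  | zero => simp [h1]
  | succ n ih =>
    rw [pow_succ y (n + 1), ad_mul, ih, h1, mul_one, smul_mul_assoc, ← pow_succ,
      Nat.cast_succ (n + 1), add_smul, one_smul]

theorem pow_succ_apply (x a : C) (n : ℕ) : (ad k x ^ (n + 1)) a = (ad k x ^ n) (ad k x a) := by
  rw [pow_succ]; rfl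

theorem pow_succ_apply' (x a : C) (n : ℕ) : (ad k x ^ (n + 1)) a = ad k x ((ad k x ^ n) a) := by
  rw [pow_succ']; rfl

theorem pow_add_apply (x a : C) (m n : ℕ) :
    (ad k x ^ (m + n)) a = (ad k x ^ m) ((ad k x ^ n) a) := by
  rw [pow_add]; rfl

theorem nil_mul (x : C) (n : ℕ) : ∀ (r s : ℕ) (a b : C), r + s = n → (ad k x ^ r) a = 0 →
    (ad k x ^ s) b = 0 → (ad k x ^ n) (a * b) = 0 := by
  induction n with
  | zero =>
    intro r s a b h ha _
    obtain rfl : r = 0 := by omega
    have : a = 0 := by simpa using ha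
    simp [this]
  | succ n ih =>
    intro r s a b h ha hb
    rcases r with _ | r
    · have : a = 0 := by simpa using ha
      simp [this]
    rcases s with _ | s
    · have : b = 0 := by simpa using hb
      simp [this]
    rw [pow_succ_apply, ad_mul, map_add, ih r (s + 1) _ _ (by omega) _ hb,
      ih (r + 1) s _ _ (by omega) ha, add_zero]
    · rwa [← pow_succ_apply]
    · rwa [← pow_succ_apply]

/- Elements killed by a power of `ad x`. -/
def nilSub (k : Type u) [Field k] {C : Type u} [Ring C] [Algebra k C] (x : C) :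
    Subalgebra k C where
  carrier := {a | ∃ r : ℕ, (ad k x ^ r) a = 0}
  mul_mem' := by
    rintro a b ⟨r, ha⟩ ⟨s, hb⟩
    exact ⟨r + s, nil_mul x _ r s a b rfl ha hb⟩
  add_mem' := by
    rintro a b ⟨r, ha⟩ ⟨s, hb⟩
    refine ⟨r + s, ?_⟩
    rw [map_add, pow_add_apply x b, hb, add_comm r s, pow_add_apply x a, ha]
    simp
  algebraMap_mem' := by
    intro c
    refine ⟨1, ?_⟩
    rw [pow_one, ad_apply, Algebra.commutes, sub_self]

theorem kill [CharZero k] {x y : C} (h : x * y - y * x = 1) (e : C)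
    (he : ∃ r : ℕ, (ad k x ^ r) e = 0) (h0 : ad k x (y * e) = 0) : e = 0 := by
  have h1 : ad k x y = 1 := h
  have key : ∀ j : ℕ, (ad k x ^ (j + 1)) (y * e)
      = y * (ad k x ^ (j + 1)) e + ((j + 1 : ℕ) : k) • (ad k x ^ j) e := by
    intro j
    induction j with
    | zero => simp [ad_mul, h1, add_comm]
    | succ j ih =>
      rw [pow_succ_apply' x _ (j + 1), ih, map_add, map_smul, ad_mul, h1, one_mul,
        ← pow_succ_apply', ← pow_succ_apply', Nat.cast_succ (j + 1), add_smul, one_smul]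
      abel
  obtain ⟨r, hr⟩ := he
  induction r with
  | zero => simpa using hr
  | succ r ih =>
    apply ih
    have h2 := key r
    rw [pow_succ_apply, h0, map_zero, hr, mul_zero, zero_add] at h2
    exact (smul_eq_zero.mp h2.symm).resolve_left (Nat.cast_ne_zero.mpr (Nat.succ_ne_zero r))

/- The centraliser of one element. -/
def cz (k : Type u) [Field k] {C : Type u} [Ring C] [Algebra k C] (y : C) : Subalgebra k C :=
  Subalgebra.centralizer k {y}

theorem mem_cz {y a : C} : a ∈ cz k y ↔ y * a = a * y := by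
  simp [cz, Subalgebra.mem_centralizer_iff]

theorem self_mem_cz (y : C) : y ∈ cz k y := mem_cz.mpr rfl

theorem ad_mem_cz {x y a : C} (h : x * y - y * x = 1) (ha : a ∈ cz k y) :
    ad k x a ∈ cz k y := by
  rw [mem_cz] at ha ⊢
  have h1 : ad k x y = 1 := h
  have h2 := congrArg (ad k x) ha
  rw [ad_mul, ad_mul, h1, one_mul, mul_one, add_comm] at h2
  exact add_right_cancel h2

theorem ad_pow_mem_cz {x y a : C} (h : x * y - y * x = 1) (ha : a ∈ cz k y) (j : ℕ) :
    (ad k x ^ j) a ∈ cz k y := by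
  induction j with
  | zero => simpa using ha
  | succ j ih => rw [pow_succ_apply']; exact ad_mem_cz h ih

/- The Taylor coefficients. -/
def cf (k : Type u) [Field k] (j : ℕ) : k := (-1) ^ j / (j.factorial : k)

theorem cf_zero : cf k 0 = 1 := by simp [cf]

theorem cf_succ [CharZero k] (j : ℕ) : cf k j + cf k (j + 1) * ((j + 1 : ℕ) : k) = 0 := by
  have h1 : (j.factorial : k) ≠ 0 := Nat.cast_ne_zero.mpr (Nat.factorial_ne_zero j)
  have h2 : ((j + 1 : ℕ) : k) ≠ 0 := Nat.cast_ne_zero.mpr (Nat.succ_ne_zero j)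
  unfold cf
  rw [Nat.factorial_succ, Nat.cast_mul]
  field_simp
  ring

/- The truncated Taylor projection. -/
noncomputable def sig (k : Type u) [Field k] {C : Type u} [Ring C] [Algebra k C] (x y : C)
    (K : ℕ) : C →ₗ[k] C :=
  ∑ j ∈ Finset.range (K + 1), cf k j • (LinearMap.mulLeft k (y ^ j) ∘ₗ (ad k x ^ j))

theorem sig_apply (x y : C) (K : ℕ) (a : C) :
    sig k x y K a = ∑ j ∈ Finset.range (K + 1), cf k j • (y ^ j * (ad k x ^ j) a) := by
  simp [sig, LinearMap.sum_apply]

theorem ad_sig [CharZero k] {x y : C} (h : x * y - y * x = 1) (K : ℕ) (a : C) :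
    ad k x (sig k x y K a) = cf k K • (y ^ K * (ad k x ^ (K + 1)) a) := by
  induction K with
  | zero => simp [sig_apply, cf_zero]
  | succ K ih =>
    rw [sig_apply, Finset.sum_range_succ, ← sig_apply, map_add, ih, map_smul, ad_mul,
      ad_pow_succ h, ← pow_succ_apply', smul_add, smul_mul_assoc, smul_smul, ← add_assoc,
      ← add_smul, cf_succ, zero_smul, zero_add]

theorem sig_eq (x y : C) (K : ℕ) (a : C) :
    sig k x y K a
      = a + y * ∑ j ∈ Finset.range K, cf k (j + 1) • (y ^ j * (ad k x ^ (j + 1)) a) := by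
  rw [sig_apply, Finset.sum_range_succ', add_comm, Finset.mul_sum]
  congr 1
  · simp [cf_zero]
  · refine Finset.sum_congr rfl fun j _ => ?_
    rw [mul_smul_comm, ← mul_assoc, ← pow_succ']

theorem sig_rem {x y a : C} (h : x * y - y * x = 1) (K : ℕ) (ha : a ∈ cz k y) :
    ∃ e ∈ cz k y, sig k x y K a = a + y * e := by
  refine ⟨_, ?_, sig_eq x y K a⟩
  refine Subalgebra.sum_mem _ fun j _ => Subalgebra.smul_mem _ ?_ _
  exact Subalgebra.mul_mem _ (Subalgebra.pow_mem _ (self_mem_cz y) j) (ad_pow_mem_cz h ha _)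

theorem sig_mem_cz {x y a : C} (h : x * y - y * x = 1) (K : ℕ) (ha : a ∈ cz k y) :
    sig k x y K a ∈ cz k y := by
  obtain ⟨e, he, h1⟩ := sig_rem h K ha
  rw [h1]
  exact Subalgebra.add_mem _ ha (Subalgebra.mul_mem _ (self_mem_cz y) he)

theorem sig_mem_cz' [CharZero k] {x y a : C} (h : x * y - y * x = 1) (K : ℕ)
    (ha : (ad k x ^ K) a = 0) : sig k x y K a ∈ cz k x := by
  rw [mem_cz, ← sub_eq_zero, ← ad_apply (k := k), ad_sig h, pow_succ_apply', ha]
  simp

theorem sig_one (x y : C) (K : ℕ) : sig k x y K 1 = 1 := by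
  have : ad k x 1 = 0 := by simp [ad_apply]
  rw [sig_eq]
  simp [pow_succ_apply, this]

theorem sig_br [CharZero k] {x y a b : C} (h : x * y - y * x = 1) (K : ℕ)
    (hnil : ∀ e : C, ∃ r : ℕ, (ad k x ^ r) e = 0)
    (ha : a ∈ cz k y) (hb : b ∈ cz k y) (ha0 : (ad k x ^ K) a = 0) (hb0 : (ad k x ^ K) b = 0)
    (hab0 : (ad k x ^ K) (a * b - b * a) = 0) :
    sig k x y K a * sig k x y K b - sig k x y K b * sig k x y K a
      = sig k x y K (a * b - b * a) := by
  have hab : a * b - b * a ∈ cz k y :=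
    Subalgebra.sub_mem _ (Subalgebra.mul_mem _ ha hb) (Subalgebra.mul_mem _ hb ha)
  have hx : sig k x y K a * sig k x y K b - sig k x y K b * sig k x y K a
      - sig k x y K (a * b - b * a) ∈ cz k x :=
    Subalgebra.sub_mem _ (Subalgebra.sub_mem _
      (Subalgebra.mul_mem _ (sig_mem_cz' h K ha0) (sig_mem_cz' h K hb0))
      (Subalgebra.mul_mem _ (sig_mem_cz' h K hb0) (sig_mem_cz' h K ha0))) (sig_mem_cz' h K hab0)
  obtain ⟨e₁, he₁, h₁⟩ := sig_rem h K ha
  obtain ⟨e₂, he₂, h₂⟩ := sig_rem h K hb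
  obtain ⟨e₃, he₃, h₃⟩ := sig_rem h K hab
  rw [mem_cz] at ha hb he₁ he₂
  have key : sig k x y K a * sig k x y K b - sig k x y K b * sig k x y K a
      - sig k x y K (a * b - b * a)
      = y * (a * e₂ + e₁ * b + e₁ * y * e₂ - (b * e₁ + e₂ * a + e₂ * y * e₁) - e₃) := by
    have e1 : a * (y * e₂) = y * (a * e₂) := by rw [← mul_assoc, ← ha, mul_assoc]
    have e2 : b * (y * e₁) = y * (b * e₁) := by rw [← mul_assoc, ← hb, mul_assoc]
    rw [h₁, h₂, h₃]
    simp only [mul_add, add_mul, mul_sub, e1, e2, mul_assoc]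
    abel
  rw [← sub_eq_zero, key]
  rw [key, mem_cz, ← sub_eq_zero, ← ad_apply (k := k)] at hx
  rw [kill h _ (hnil _) hx, mul_zero]

theorem indep [CharZero k] {x y : C} (h : x * y - y * x = 1) (n : ℕ) :
    ∀ w : ℕ → C, (∀ a, w a ∈ cz k x) → ∑ a ∈ Finset.range n, y ^ a * w a = 0 →
      ∀ a < n, w a = 0 := by
  induction n with
  | zero => intro w _ _ a ha; omega
  | succ n ih =>
    intro w hw h0
    have hw' : ∀ a, ad k x (w a) = 0 := fun a => by
      rw [ad_apply, mem_cz.mp (hw a), sub_self]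
    have h1 := congrArg (ad k x) h0
    rw [Finset.sum_range_succ', map_add, map_sum, map_zero, pow_zero, one_mul, hw', add_zero] at h1
    have h2 : ∑ a ∈ Finset.range n, y ^ a * (((a + 1 : ℕ) : k) • w (a + 1)) = 0 := by
      rw [← h1]
      refine Finset.sum_congr rfl fun a _ => ?_
      rw [ad_mul, hw', mul_zero, add_zero, ad_pow_succ h, smul_mul_assoc, mul_smul_comm]
    have h3 := ih (fun a => ((a + 1 : ℕ) : k) • w (a + 1))
      (fun a => Subalgebra.smul_mem _ (hw _) _) h2
    have h4 : ∀ a < n, w (a + 1) = 0 := fun a ha =>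
      (smul_eq_zero.mp (h3 a ha)).resolve_left (Nat.cast_ne_zero.mpr (Nat.succ_ne_zero a))
    intro a ha
    rcases a with _ | a
    · rw [Finset.sum_range_succ', Finset.sum_eq_zero, zero_add, pow_zero, one_mul] at h0
      · exact h0
      · intro a ha
        rw [h4 a (Finset.mem_range.mp ha), mul_zero]
    · exact h4 a (by omega)

theorem indep₂ [CharZero k] {x y : C} (h : x * y - y * x = 1) (n : ℕ) (c : ℕ → ℕ → C)
    (hx : ∀ a b, c a b ∈ cz k x) (hy : ∀ a b, c a b ∈ cz k y)
    (h0 : ∑ a ∈ Finset.range n, ∑ b ∈ Finset.range n, y ^ a * x ^ b * c a b = 0) :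
    ∀ a < n, ∀ b < n, c a b = 0 := by
  intro a ha
  have h1 := indep (k := k) h n (fun a => ∑ b ∈ Finset.range n, x ^ b * c a b)
    (fun a => Subalgebra.sum_mem _ fun b _ =>
      Subalgebra.mul_mem _ (Subalgebra.pow_mem _ (self_mem_cz x) b) (hx a b))
    (by simpa only [Finset.mul_sum, mul_assoc] using h0) a ha
  have h' : -y * x - x * -y = 1 := by rw [← h]; noncomm_ring
  refine indep (k := k) h' n (c a) (fun b => ?_) h1
  rw [mem_cz, neg_mul, mul_neg, mem_cz.mp (hy a b)]

end basic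

section weyl

variable {k : Type u} [Field k] {C : Type u} [Ring C] [Algebra k C]

/- The generator `s` of the first Weyl algebra. -/
noncomputable def ws (k : Type u) [Field k] : Weyl k 1 :=
  RingQuot.mkAlgHom k (WeylRel k 1) (FreeAlgebra.ι k (Sum.inl 0))

/- The generator `d` of the first Weyl algebra. -/
noncomputable def wd (k : Type u) [Field k] : Weyl k 1 :=
  RingQuot.mkAlgHom k (WeylRel k 1) (FreeAlgebra.ι k (Sum.inr 0))

theorem wd_ws : wd k * ws k - ws k * wd k = 1 := by
  have := RingQuot.mkAlgHom_rel k (WeylRel.ds (k := k) (m := 1) 0 0)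
  rw [map_mul, map_add, map_mul, if_pos rfl, map_one] at this
  rw [sub_eq_iff_eq_add']
  exact this

theorem weyl_ind (A : Subalgebra k (Weyl k 1)) (hs : ws k ∈ A) (hd : wd k ∈ A) (w : Weyl k 1) :
    w ∈ A := by
  obtain ⟨f, rfl⟩ := RingQuot.mkAlgHom_surjective k (WeylRel k 1) w
  induction f using FreeAlgebra.induction with
  | grade0 c => rw [AlgHom.commutes]; exact A.algebraMap_mem c
  | grade1 i =>
    rcases i with i | i
    · obtain rfl : i = 0 := Subsingleton.elim _ _
      exact hs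
    · obtain rfl : i = 0 := Subsingleton.elim _ _
      exact hd
  | mul a b ha hb => rw [map_mul]; exact A.mul_mem ha hb
  | add a b ha hb => rw [map_add]; exact A.add_mem ha hb

theorem weyl_span (w : Weyl k 1) :
    w ∈ Submodule.span k (Set.range fun ab : ℕ × ℕ => ws k ^ ab.1 * wd k ^ ab.2) := by
  set V := Submodule.span k (Set.range fun ab : ℕ × ℕ => ws k ^ ab.1 * wd k ^ ab.2) with hV
  have hgen : ∀ a b : ℕ, ws k ^ a * wd k ^ b ∈ V := fun a b =>
    Submodule.subset_span ⟨(a, b), rfl⟩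
  let A : Subalgebra k (Weyl k 1) :=
    { carrier := {w | ∀ v ∈ V, w * v ∈ V}
      mul_mem' := fun {a b} ha hb v hv => by rw [mul_assoc]; exact ha _ (hb v hv)
      add_mem' := fun {a b} ha hb v hv => by rw [add_mul]; exact V.add_mem (ha v hv) (hb v hv)
      algebraMap_mem' := fun c v hv => by rw [← Algebra.smul_def]; exact V.smul_mem c hv }
  have hA : ∀ z : Weyl k 1, (∀ a b : ℕ, z * (ws k ^ a * wd k ^ b) ∈ V) → z ∈ A := by
    intro z hz v hv
    have : V ≤ V.comap (LinearMap.mulLeft k z) := by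
      rw [hV, Submodule.span_le]
      rintro _ ⟨ab, rfl⟩
      exact hz ab.1 ab.2
    exact this hv
  have hs : ws k ∈ A := hA _ fun a b => by
    rw [← mul_assoc, ← pow_succ']; exact hgen _ _
  have hd : wd k ∈ A := hA _ fun a b => by
    rcases a with _ | a
    · rw [pow_zero, one_mul, ← pow_succ']
      simpa using hgen 0 (b + 1)
    · have h1 := ad_pow_succ (k := k) (wd_ws (k := k)) a
      rw [ad_apply, sub_eq_iff_eq_add] at h1
      rw [← mul_assoc, h1, add_mul, smul_mul_assoc, mul_assoc, ← pow_succ']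
      exact V.add_mem (V.smul_mem _ (hgen _ _)) (hgen _ _)
  have := weyl_ind A hs hd w 1 (by simpa using hgen 0 0)
  rwa [mul_one] at this

/- The map from the first Weyl algebra given by a pair with commutator one. -/
noncomputable def wlift {x y : C} (h : x * y - y * x = 1) : Weyl k 1 →ₐ[k] C :=
  RingQuot.liftAlgHom k ⟨FreeAlgebra.lift k (Sum.elim (fun _ => y) (fun _ => x)), by
    intro a b hab
    cases hab with
    | ss i j => simp
    | dd i j => simp
    | ds i j =>
      obtain rfl : i = j := Subsingleton.elim _ _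
      simp [← h]⟩

theorem wlift_s {x y : C} (h : x * y - y * x = 1) : wlift (k := k) h (ws k) = y := by
  simp [wlift, ws]

theorem wlift_d {x y : C} (h : x * y - y * x = 1) : wlift (k := k) h (wd k) = x := by
  simp [wlift, wd]

theorem wlift_comm {x y : C} (h : x * y - y * x = 1) {c : C} (hx : c ∈ cz k x) (hy : c ∈ cz k y)
    (w : Weyl k 1) : Commute (wlift (k := k) h w) c := by
  have := weyl_ind ((cz k c).comap (wlift (k := k) h)) (by
    rw [Subalgebra.mem_comap, wlift_s, mem_cz, mem_cz.mp hy]) (by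
    rw [Subalgebra.mem_comap, wlift_d, mem_cz, mem_cz.mp hx]) w
  rw [Subalgebra.mem_comap, mem_cz] at this
  exact this.symm

/- The multiplication map. -/
noncomputable def theta {x y : C} (h : x * y - y * x = 1) (B : Subalgebra k C)
    (hx : B ≤ cz k x) (hy : B ≤ cz k y) : Weyl k 1 ⊗[k] B →ₐ[k] C :=
  Algebra.TensorProduct.lift (wlift h) B.val fun w c => wlift_comm h (hx c.2) (hy c.2) w

theorem theta_tmul {x y : C} (h : x * y - y * x = 1) (B : Subalgebra k C)
    (hx : B ≤ cz k x) (hy : B ≤ cz k y) (w : Weyl k 1) (c : B) :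
    theta h B hx hy (w ⊗ₜ c) = wlift (k := k) h w * c := by
  simp [theta]

theorem theta_inj [CharZero k] {x y : C} (h : x * y - y * x = 1) (B : Subalgebra k C)
    (hx : B ≤ cz k x) (hy : B ≤ cz k y) : Function.Injective (theta h B hx hy) := by
  classical
  let Ψ : (ℕ × ℕ →₀ B) →ₗ[k] Weyl k 1 ⊗[k] B :=
    Finsupp.lsum k fun ab => TensorProduct.mk k (Weyl k 1) B (ws k ^ ab.1 * wd k ^ ab.2)
  have hsurj : ∀ t, t ∈ LinearMap.range Ψ := by
    intro t
    induction t using TensorProduct.induction_on with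
    | zero => exact Submodule.zero_mem _
    | add a b ha hb => exact Submodule.add_mem _ ha hb
    | tmul w c =>
      have hw := weyl_span w
      induction hw using Submodule.span_induction with
      | mem z hz =>
        obtain ⟨ab, rfl⟩ := hz
        exact ⟨Finsupp.single ab c, by simp [Ψ]⟩
      | zero => rw [TensorProduct.zero_tmul]; exact Submodule.zero_mem _
      | add a b _ _ ha hb => rw [TensorProduct.add_tmul]; exact Submodule.add_mem _ ha hb
      | smul r a _ ha => rw [← TensorProduct.smul_tmul']; exact Submodule.smul_mem _ r ha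
  rw [injective_iff_map_eq_zero]
  intro t ht
  obtain ⟨c, rfl⟩ := hsurj t
  obtain ⟨n, hn⟩ : ∃ n : ℕ, c.support ⊆ Finset.range n ×ˢ Finset.range n := by
    refine ⟨c.support.sup (fun ab => ab.1 + ab.2) + 1, fun ab hab => ?_⟩
    have := Finset.le_sup (f := fun ab : ℕ × ℕ => ab.1 + ab.2) hab
    simp only [Finset.mem_product, Finset.mem_range]
    constructor <;> omega
  have h1 : Ψ c = ∑ a ∈ Finset.range n, ∑ b ∈ Finset.range n,
      (ws k ^ a * wd k ^ b) ⊗ₜ[k] c (a, b) := by
    rw [← Finset.sum_product' (f := fun a b => (ws k ^ a * wd k ^ b) ⊗ₜ[k] c (a, b))]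
    simp only [Ψ, Finsupp.lsum_apply]
    rw [Finsupp.sum_of_support_subset _ hn _ (by simp)]
    rfl
  have h2 := indep₂ (k := k) h n (fun a b => (c (a, b) : C)) (fun a b => hx (c (a, b)).2)
    (fun a b => hy (c (a, b)).2) (by
      rw [h1] at ht
      simpa only [map_sum, theta_tmul, map_mul, map_pow, wlift_s, wlift_d] using ht)
  rw [h1]
  refine Finset.sum_eq_zero fun a ha => Finset.sum_eq_zero fun b hb => ?_
  have : c (a, b) = 0 := Subtype.ext (h2 a (Finset.mem_range.mp ha) b (Finset.mem_range.mp hb))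
  rw [this, TensorProduct.tmul_zero]

end weyl

theorem exists_pair {k : Type u} [Field k] {C : Type u} [Ring C] [Algebra k C]
    {F : ℕ → Submodule k C} (hF : NilData k C F)
    (hcent : ∀ a : C, (∀ y, a * y = y * a) → ∃ c : k, a = algebraMap k C c)
    (hne : ¬ F 0 ≤ k ∙ (1 : C)) :
    ∃ x y : C, x ∈ F 0 ∧ x * y - y * x = 1 ∧
      ∀ a ∈ F 0, ∃ c : k, a - c • x ∈ cz k y := by
  classical
  obtain ⟨K, hK⟩ := hF.bot
  have hex : ∃ q, F q ≤ k ∙ (1 : C) := ⟨K, by rw [hK]; exact bot_le⟩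
  obtain ⟨p, hp⟩ : ∃ p, Nat.find hex = p + 1 := by
    refine Nat.exists_eq_succ_of_ne_zero fun h0 => hne ?_
    have := Nat.find_spec hex
    rwa [h0] at this
  have h1 : F (p + 1) ≤ k ∙ (1 : C) := hp ▸ Nat.find_spec hex
  have h2 : ¬ F p ≤ k ∙ (1 : C) := Nat.find_min hex (by omega)
  obtain ⟨y, hy, hy1⟩ := Set.not_subset.mp h2
  have hbr : ∀ a ∈ F 0, ∃ c : k, c • (1 : C) = a * y - y * a := fun a ha =>
    Submodule.mem_span_singleton.mp (h1 (hF.br p a ha y hy))
  obtain ⟨x₀, hx₀, hx₁⟩ : ∃ x₀ ∈ F 0, x₀ ∉ cz k y := by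
    by_contra hcon
    push Not at hcon
    have h3 : Algebra.adjoin k (F 0 : Set C) ≤ cz k y := Algebra.adjoin_le hcon
    rw [hF.gen] at h3
    obtain ⟨c, hc⟩ := hcent y fun z => mem_cz.mp (h3 Algebra.mem_top)
    exact hy1 (Submodule.mem_span_singleton.mpr ⟨c, by rw [hc, Algebra.algebraMap_eq_smul_one]⟩)
  obtain ⟨c₀, hc₀⟩ := hbr x₀ hx₀
  have hc : c₀ ≠ 0 := by
    rintro rfl
    rw [zero_smul, eq_comm, sub_eq_zero] at hc₀
    exact hx₁ (mem_cz.mpr hc₀.symm)
  have hxy : (c₀⁻¹ • x₀) * y - y * (c₀⁻¹ • x₀) = 1 := by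
    rw [smul_mul_assoc, mul_smul_comm, ← smul_sub, ← hc₀, smul_smul, inv_mul_cancel₀ hc, one_smul]
  refine ⟨c₀⁻¹ • x₀, y, (F 0).smul_mem _ hx₀, hxy, fun a ha => ?_⟩
  obtain ⟨c, hc⟩ := hbr a ha
  refine ⟨c, mem_cz.mpr ?_⟩
  rw [← hxy] at hc
  rw [mul_sub, sub_mul, mul_smul_comm c, smul_mul_assoc c, sub_eq_sub_iff_sub_eq_sub,
    ← smul_sub, ← neg_sub (a * y), ← hc, ← smul_neg, neg_sub]

end NilStep

open NilStep in
theorem nil_step (k : Type u) [Field k] [CharZero k] (C : Type u) [Ring C] [Algebra k C]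
    (F : ℕ → Submodule k C) (hF : NilData k C F)
    (hcent : ∀ a : C, (∀ y, a * y = y * a) → ∃ c : k, a = algebraMap k C c)
    (hne : ¬ F 0 ≤ k ∙ (1 : C)) :
    ∃ (C' : Type u) (_ : Ring C') (_ : Algebra k C') (F' : ℕ → Submodule k C')
      (θ : C →ₐ[k] Weyl k 1 ⊗[k] C'),
      NilData k C' F' ∧ Module.finrank k (F' 0) < Module.finrank k (F 0) ∧
        Function.Injective θ := by
  obtain ⟨x, y, hx, h, hdec⟩ := exists_pair hF hcent hne
  obtain ⟨K, hK⟩ := hF.bot
  have := hF.fin
  have hpow : ∀ (j : ℕ), ∀ a ∈ F 0, (ad k x ^ j) a ∈ F j := by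
    intro j a ha
    induction j with
    | zero => simpa using ha
    | succ j ih => rw [pow_succ_apply', ad_apply]; exact hF.br j x hx _ ih
  have hK0 : ∀ a ∈ F 0, (ad k x ^ K) a = 0 := fun a ha => by
    have := hpow K a ha
    rwa [hK, Submodule.mem_bot] at this
  have hnil : ∀ e : C, ∃ r : ℕ, (ad k x ^ r) e = 0 := by
    have h3 : Algebra.adjoin k (F 0 : Set C) ≤ nilSub k x :=
      Algebra.adjoin_le fun a ha => ⟨K, hK0 a ha⟩
    rw [hF.gen] at h3
    exact fun e => h3 Algebra.mem_top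
  let G : ℕ → Submodule k C := fun q =>
    (F q ⊓ Subalgebra.toSubmodule (cz k y)).map (sig k x y K)
  have hG : ∀ q z, z ∈ G q ↔ ∃ a, a ∈ F q ∧ a ∈ cz k y ∧ sig k x y K a = z := by
    intro q z
    simp only [G, Submodule.mem_map, Submodule.mem_inf, Subalgebra.mem_toSubmodule, and_assoc]
  let B : Subalgebra k C := Algebra.adjoin k (G 0 : Set C)
  have hBx : B ≤ cz k x := Algebra.adjoin_le fun z hz => by
    obtain ⟨a, ha, -, rfl⟩ := (hG 0 z).mp hz
    exact sig_mem_cz' h K (hK0 a ha)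
  have hBy : B ≤ cz k y := Algebra.adjoin_le fun z hz => by
    obtain ⟨a, -, ha, rfl⟩ := (hG 0 z).mp hz
    exact sig_mem_cz h K ha
  let F' : ℕ → Submodule k B := fun q => (G q).comap B.val.toLinearMap
  have hF' : ∀ q (z : B), z ∈ F' q ↔ (z : C) ∈ G q := fun q z => Iff.rfl
  have hinj := theta_inj h B hBx hBy
  have hsurj : Function.Surjective (theta h B hBx hBy) := by
    have hxr : x ∈ (theta h B hBx hBy).range :=
      ⟨wd k ⊗ₜ 1, by simp [theta_tmul, wlift_d]⟩
    have hyr : y ∈ (theta h B hBx hBy).range :=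
      ⟨ws k ⊗ₜ 1, by simp [theta_tmul, wlift_s]⟩
    have hn : ∀ (r : ℕ), ∀ a ∈ F 0, a ∈ cz k y → (ad k x ^ r) a = 0 →
        a ∈ (theta h B hBx hBy).range := by
      intro r
      induction r with
      | zero =>
        intro a _ _ h0
        have : a = 0 := by simpa using h0
        rw [this]; exact Subalgebra.zero_mem _
      | succ r ih =>
        intro a ha hay h0
        have h1 : sig k x y K a ∈ (theta h B hBx hBy).range :=
          ⟨1 ⊗ₜ ⟨sig k x y K a, Algebra.subset_adjoin ((hG 0 _).mpr ⟨a, ha, hay, rfl⟩)⟩, by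
            simp [theta_tmul]⟩
        rw [eq_sub_of_add_eq (sig_eq (k := k) x y K a).symm]
        refine Subalgebra.sub_mem _ h1 (Subalgebra.mul_mem _ hyr
          (Subalgebra.sum_mem _ fun j _ => Subalgebra.smul_mem _ ?_ _))
        refine Subalgebra.mul_mem _ (Subalgebra.pow_mem _ hyr j)
          (ih _ (hF.le _ (hpow _ a ha)) (ad_pow_mem_cz h hay _) ?_)
        rw [← pow_add_apply, show r + (j + 1) = j + (r + 1) by omega, pow_add_apply, h0, map_zero]
    have h3 : Algebra.adjoin k (F 0 : Set C) ≤ (theta h B hBx hBy).range := by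
      refine Algebra.adjoin_le fun a ha => ?_
      obtain ⟨c, hc⟩ := hdec a ha
      have h4 : a - c • x ∈ F 0 := (F 0).sub_mem ha ((F 0).smul_mem c hx)
      have h5 := hn K _ h4 hc (hK0 _ h4)
      have h6 := Subalgebra.add_mem _ h5 (Subalgebra.smul_mem _ hxr c)
      rwa [sub_add_cancel] at h6
    rw [hF.gen] at h3
    exact fun z => h3 Algebra.mem_top
  have hfin1 : FiniteDimensional k (F 0 ⊓ Subalgebra.toSubmodule (cz k y) : Submodule k C) :=
    Submodule.finiteDimensional_of_le inf_le_left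
  have hfin2 : FiniteDimensional k (G 0) := Module.Finite.map _ _
  let ι : F' 0 →ₗ[k] G 0 := B.val.toLinearMap.restrict fun z hz => hz
  have hι : Function.Injective ι := fun a b hab =>
    Subtype.ext (Subtype.ext (congrArg (fun z : G 0 => (z : C)) hab))
  let E := AlgEquiv.ofBijective (theta h B hBx hBy) ⟨hinj, hsurj⟩
  refine ⟨B, inferInstance, inferInstance, F', E.symm.toAlgHom, ⟨?_, ?_, ?_, ?_, ?_, ?_⟩, ?_,
    E.symm.injective⟩
  · exact Module.Finite.of_injective ι hι
  · exact (hF' 0 _).mpr ((hG 0 _).mpr ⟨1, hF.one, Subalgebra.one_mem _, sig_one x y K⟩)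
  · intro p z hz
    obtain ⟨a, ha, hay, hz⟩ := (hG p _).mp ((hF' p z).mp hz)
    exact (hF' 0 z).mpr ((hG 0 _).mpr ⟨a, hF.le p ha, hay, hz⟩)
  · intro p z hz w hw
    obtain ⟨a, ha, hay, hz⟩ := (hG 0 _).mp ((hF' 0 z).mp hz)
    obtain ⟨b, hb, hby, hw⟩ := (hG p _).mp ((hF' p w).mp hw)
    have hab := hF.br p a ha b hb
    refine (hF' _ _).mpr ((hG _ _).mpr ⟨a * b - b * a, hab,
      Subalgebra.sub_mem _ (Subalgebra.mul_mem _ hay hby) (Subalgebra.mul_mem _ hby hay), ?_⟩)
    rw [← sig_br h K hnil hay hby (hK0 a ha) (hK0 b (hF.le p hb)) (hK0 _ (hF.le _ hab)), hz, hw]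
    rfl
  · refine ⟨K, eq_bot_iff.mpr fun z hz => ?_⟩
    obtain ⟨a, ha, -, hz⟩ := (hG K _).mp ((hF' K z).mp hz)
    rw [hK, Submodule.mem_bot] at ha
    rw [ha, map_zero] at hz
    exact (Submodule.mem_bot k).mpr (Subtype.ext hz.symm)
  · exact Algebra.adjoin_adjoin_coe_preimage
  · have h1 : Module.finrank k (F' 0) ≤ Module.finrank k (G 0) :=
      LinearMap.finrank_le_finrank_of_injective hι
    have h2 : Module.finrank k (G 0)
        ≤ Module.finrank k (F 0 ⊓ Subalgebra.toSubmodule (cz k y) : Submodule k C) :=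
      Submodule.finrank_map_le _ _
    have h3 : (F 0 ⊓ Subalgebra.toSubmodule (cz k y) : Submodule k C) < F 0 := by
      refine lt_of_le_of_ne inf_le_left fun heq => hne fun a _ => ?_
      have h4 : x ∈ cz k y := (heq.ge hx).2
      rw [mem_cz] at h4
      rw [h4, sub_self] at h
      rw [← mul_one a, ← h, mul_zero]
      exact Submodule.zero_mem _
    exact lt_of_le_of_lt (h1.trans h2) (Submodule.finrank_lt_finrank_of_lt h3)

end Pool.Agent.Lib.MP_4da284_al
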