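import Pool.Agent.Lib.MP_4da284_al.H78Defs

namespace Pool.Agent.Lib.MP_4da284_al

universe u

open TensorProduct

namespace Torus

open Finset Polynomial

variable {k : Type u} [Field k]

/-- Vandermonde: a vector valued polynomial with infinitely many roots vanishes. -/
lemma vand {V : Type u} [AddCommGroup V] [Module k V] (a : ℕ → k) (ha : Function.Injective a)
    (n : ℕ) (v : ℕ → V) (hv : ∀ p, ∑ i ∈ range n, a p ^ i • v i = 0) : ∀ i < n, v i = 0 := by
  intro i hi
  rw [← Module.forall_dual_apply_eq_zero_iff k]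
  intro φ
  have hP : ∑ i ∈ range n, monomial i (φ (v i)) = 0 := by
    refine eq_zero_of_infinite_isRoot _ (Set.infinite_of_injective_forall_mem ha (fun p => ?_))
    have := congrArg φ (hv p)
    rw [map_sum, map_zero] at this
    simpa [IsRoot, eval_finsetSum, mul_comm] using this
  have := congrArg (fun P => coeff P i) hP
  simpa [coeff_monomial, hi] using this

variable {C : Type u} [Ring C] [Algebra k C]

lemma shift {h z : C} (hreg : ∀ y, z * y = 0 → y = 0) {N : k} (hhz : h * z - z * h = N • z)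
    (c : ℕ → C) (hc : ∀ j, z * c j = c j * z) (n : ℕ) (h0 : ∑ j ∈ range n, c j * h ^ j = 0)
    (p : ℕ) : ∑ j ∈ range n, c j * (algebraMap k C (p * N) + h) ^ j = 0 := by
  induction p with
  | zero => simpa using h0
  | succ p ih =>
    apply hreg
    have hs : SemiconjBy z (algebraMap k C ((p + 1 : ℕ) * N) + h) (algebraMap k C (p * N) + h) := by
      rw [SemiconjBy, mul_add, add_mul, eq_add_of_sub_eq hhz, ← Algebra.commutes,
        ← Algebra.smul_def, ← Algebra.smul_def, ← add_assoc, ← add_smul]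
      push_cast
      rw [add_mul, one_mul]
    rw [mul_sum, ← zero_mul z, ← ih, sum_mul]
    refine sum_congr rfl (fun j _ => ?_)
    rw [← mul_assoc, hc, mul_assoc, (hs.pow_right j).eq, mul_assoc]

lemma expand (h : C) (a : k) {j n : ℕ} (hj : j < n) :
    (algebraMap k C a + h) ^ j = ∑ m ∈ range n, a ^ m • (h ^ (j - m) * (j.choose m : C)) := by
  rw [(Algebra.commute_algebraMap_left a h).add_pow,
    sum_subset (range_subset_range.2 (Nat.succ_le_of_lt hj))]
  · refine sum_congr rfl (fun m _ => ?_)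
    rw [← map_pow, mul_assoc, ← Algebra.smul_def]
  · intro m _ hm
    rw [Nat.choose_eq_zero_of_lt (by simpa using hm), Nat.cast_zero, mul_zero]

/-- the powers of `h` are free over the elements commuting with `z` -/
lemma free [CharZero k] {h z : C} (hreg : ∀ y, z * y = 0 → y = 0) {N : k} (hN : N ≠ 0)
    (hhz : h * z - z * h = N • z) (c : ℕ → C) (hc : ∀ j, z * c j = c j * z) (n : ℕ) :
    ∑ j ∈ range n, c j * h ^ j = 0 → ∀ j < n, c j = 0 := by
  induction n with
  | zero => exact fun _ j hj => absurd hj (Nat.not_lt_zero j)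
  | succ n ih =>
    intro h0
    have hn : c n = 0 := by
      have := vand (fun p : ℕ => (p : k) * N)
        (fun p q e => Nat.cast_injective (mul_right_cancel₀ hN e)) (n + 1)
        (fun m => ∑ j ∈ range (n + 1), c j * (h ^ (j - m) * (j.choose m : C))) (fun p => by
          rw [← shift hreg hhz c hc (n + 1) h0 p]
          simp_rw [smul_sum]
          rw [sum_comm]
          refine sum_congr rfl (fun j hj => ?_)
          rw [expand h _ (mem_range.1 hj), mul_sum]
          simp only [mul_smul_comm]) n (Nat.lt_succ_self n)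
      rw [sum_range_succ, sum_eq_zero (fun j hj => by
        rw [Nat.choose_eq_zero_of_lt (mem_range.1 hj), Nat.cast_zero, mul_zero, mul_zero])] at this
      simpa using this
    rw [sum_range_succ, hn, zero_mul, add_zero] at h0
    intro j hj
    rcases (Nat.lt_succ_iff.1 hj).eq_or_lt with rfl | hj
    · exact hn
    · exact ih h0 j hj

lemma regular (hprime : ∀ a b : C, (∀ y, a * y * b = 0) → a = 0 ∨ b = 0)
    {S : Set C} {h z : C} {N : k} (hz : z ≠ 0) (hzS : ∀ g ∈ S, z * g = g * z)
    (hhz : h * z - z * h = N • z) (hgen : Algebra.adjoin k (insert h S) = ⊤) (y : C)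
    (hy : z * y = 0) : y = 0 := by
  refine (hprime z y (fun w => ?_)).resolve_left hz
  have hw : w ∈ Algebra.adjoin k (insert h S) := hgen ▸ Algebra.mem_top
  obtain ⟨w', e⟩ : ∃ w', z * w = w' * z := by
    induction hw using Algebra.adjoin_induction with
    | mem x hx =>
      rcases hx with rfl | hx
      · exact ⟨x - algebraMap k C N, by rw [sub_mul, ← Algebra.smul_def, ← hhz, sub_sub_cancel]⟩
      · exact ⟨x, hzS x hx⟩
    | algebraMap r => exact ⟨_, (Algebra.commutes r z).symm⟩
    | add x y _ _ ex ey =>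
      obtain ⟨x', ex⟩ := ex
      obtain ⟨y', ey⟩ := ey
      exact ⟨x' + y', by rw [mul_add, add_mul, ex, ey]⟩
    | mul x y _ _ ex ey =>
      obtain ⟨x', ex⟩ := ex
      obtain ⟨y', ey⟩ := ey
      exact ⟨x' * y', by rw [← mul_assoc, ex, mul_assoc, ey, mul_assoc]⟩
  rw [e, mul_assoc, hy, mul_zero]

section
variable {A : Type u} [Ring A] [Algebra k A] (B : Subalgebra k C) (h : C) (s E : A)

/-- the generators of the graph -/
def Gen : Set (C × A ⊗[k] B) := insert (h, E ⊗ₜ 1)
  {x | ∃ (d : ℕ) (c : B), h * c - c * h = (d : k) • (c : C) ∧ x = ((c : C), (s ^ d) ⊗ₜ c)}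

/-- normal forms -/
def NF : Submodule k (C × A ⊗[k] B) := Submodule.span k
  {x | ∃ (d j : ℕ) (c : B), h * c - c * h = (d : k) • (c : C) ∧
    x = ((c : C) * h ^ j, (s ^ d * E ^ j) ⊗ₜ c)}

lemma mem_NF (hE : E * s = s * E + s) {x : C × A ⊗[k] B} (hx : x ∈ Algebra.adjoin k (Gen B h s E)) :
    x ∈ NF B h s E := by
  have hEd : ∀ d : ℕ, E * s ^ d = s ^ d * E + (d : k) • s ^ d := fun d => by
    induction d with
    | zero => simp
    | succ d ih =>
      rw [pow_succ, ← mul_assoc, ih, add_mul, mul_assoc, hE, mul_add, smul_mul_assoc, ← mul_assoc,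
        Nat.cast_succ, add_smul, one_smul, add_assoc, add_comm (s ^ d * s)]
  have key : ∀ y ∈ NF B h s E, x * y ∈ NF B h s E := by
    induction hx using Algebra.adjoin_induction with
    | mem x hx =>
      intro y hy
      refine Submodule.span_induction (p := fun y _ => x * y ∈ NF B h s E) ?_ ?_ ?_ ?_ hy
      · rintro _ ⟨d, j, c, hc, rfl⟩
        rcases hx with rfl | ⟨e, g, hg, rfl⟩
        · have e : ((h, E ⊗ₜ 1) : C × A ⊗[k] B) * ((c : C) * h ^ j, (s ^ d * E ^ j) ⊗ₜ c) =
              ((c : C) * h ^ (j + 1), (s ^ d * E ^ (j + 1)) ⊗ₜ c) +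
                (d : k) • ((c : C) * h ^ j, (s ^ d * E ^ j) ⊗ₜ c) := by
            refine Prod.ext ?_ ?_
            · simp only [Prod.fst_mul, Prod.fst_add, Prod.smul_fst]
              rw [← mul_assoc, eq_add_of_sub_eq hc, add_mul, smul_mul_assoc, pow_succ', mul_assoc,
                add_comm]
            · simp only [Prod.snd_mul, Prod.snd_add, Prod.smul_snd,
                Algebra.TensorProduct.tmul_mul_tmul, one_mul]
              rw [← mul_assoc, hEd, add_mul, add_tmul, smul_mul_assoc, smul_tmul', pow_succ',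
                mul_assoc]
          rw [e]
          exact add_mem (Submodule.subset_span ⟨d, j + 1, c, hc, rfl⟩)
            (Submodule.smul_mem _ _ (Submodule.subset_span ⟨d, j, c, hc, rfl⟩))
        · refine Submodule.subset_span ⟨e + d, j, g * c, ?_, Prod.ext ?_ ?_⟩
          · rw [Subalgebra.coe_mul, ← mul_assoc, eq_add_of_sub_eq hg, add_mul, mul_assoc,
              eq_add_of_sub_eq hc, mul_add, Nat.cast_add, add_smul, smul_mul_assoc, mul_smul_comm,
              mul_assoc]
            abel
          · simp only [Prod.fst_mul, Subalgebra.coe_mul, mul_assoc]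
          · simp only [Prod.snd_mul, Algebra.TensorProduct.tmul_mul_tmul, pow_add, mul_assoc]
      · rw [mul_zero]
        exact zero_mem _
      · intro a b _ _ ha hb
        rw [mul_add]
        exact add_mem ha hb
      · intro r a _ ha
        rw [mul_smul_comm]
        exact Submodule.smul_mem _ _ ha
    | algebraMap r =>
      intro y hy
      rw [← Algebra.smul_def]
      exact Submodule.smul_mem _ _ hy
    | add a b _ _ ha hb =>
      intro y hy
      rw [add_mul]
      exact add_mem (ha y hy) (hb y hy)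
    | mul a b _ _ ha hb =>
      intro y hy
      rw [mul_assoc]
      exact ha _ (hb y hy)
  have := key 1 (Submodule.subset_span ⟨0, 0, 1, by simp, by
    simp [Algebra.TensorProduct.one_def, Prod.ext_iff]⟩)
  rwa [mul_one] at this

lemma NF_sum {x : C × A ⊗[k] B} (hx : x ∈ NF B h s E) : ∃ f : ℕ × ℕ →₀ B,
    (∀ q, h * f q - f q * h = (q.1 : k) • (f q : C)) ∧
      x = f.sum (fun q c => ((c : C) * h ^ q.2, (s ^ q.1 * E ^ q.2) ⊗ₜ c)) := by
  have z0 : ∀ q : ℕ × ℕ, ((((0 : B) : C) * h ^ q.2, (s ^ q.1 * E ^ q.2) ⊗ₜ (0 : B)) :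
      C × A ⊗[k] B) = 0 := fun q => by simp
  induction hx using Submodule.span_induction with
  | mem x hx =>
    obtain ⟨d, j, c, hc, rfl⟩ := hx
    refine ⟨Finsupp.single (d, j) c, fun q => ?_, by rw [Finsupp.sum_single_index (z0 _)]⟩
    by_cases e : q = (d, j)
    · subst e
      rwa [Finsupp.single_eq_same]
    · simp [Finsupp.single_eq_of_ne e]
  | zero => exact ⟨0, by simp, by simp⟩
  | add x y _ _ hx hy =>
    obtain ⟨f, hf, rfl⟩ := hx
    obtain ⟨g, hg, rfl⟩ := hy
    refine ⟨f + g, fun q => ?_, ?_⟩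
    · rw [Finsupp.add_apply, Subalgebra.coe_add, smul_add, ← hf, ← hg, mul_add, add_mul]
      abel
    · rw [Finsupp.sum_add_index' z0]
      intro q a b
      simp [add_mul, tmul_add]
  | smul r x _ hx =>
    obtain ⟨f, hf, rfl⟩ := hx
    refine ⟨r • f, fun q => ?_, ?_⟩
    · rw [Finsupp.smul_apply, Subalgebra.coe_smul, smul_comm, ← hf, mul_smul_comm, smul_mul_assoc,
        smul_sub]
    · rw [Finsupp.sum_smul_index' z0, Finsupp.smul_sum]
      simp [tmul_smul]

lemma NF_range {x : C × A ⊗[k] B} (hx : x ∈ NF B h s E) : ∃ (n : ℕ) (f : ℕ → ℕ → B),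
    (∀ d j, h * f d j - f d j * h = (d : k) • (f d j : C)) ∧
      x.1 = ∑ j ∈ range n, (∑ d ∈ range n, (f d j : C)) * h ^ j ∧
      x.2 = ∑ j ∈ range n, ∑ d ∈ range n, (s ^ d * E ^ j) ⊗ₜ f d j := by
  obtain ⟨f, hf, rfl⟩ := NF_sum B h s E hx
  obtain ⟨n, hn⟩ : ∃ n, f.support ⊆ range n ×ˢ range n :=
    ⟨f.support.sup (fun q => q.1 + q.2) + 1, fun q hq => by
      have := le_sup (f := fun q : ℕ × ℕ => q.1 + q.2) hq
      simp only [mem_product, mem_range]
      omega⟩
  refine ⟨n, fun d j => f (d, j), fun d j => hf (d, j), ?_⟩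
  rw [Finsupp.sum_of_support_subset f hn _ (fun q _ => by simp), sum_product_right]
  simp only [Prod.fst_sum, Prod.snd_sum, sum_mul, and_self]

end

/-- the torus step for an abstract target -/
theorem core [CharZero k] {A : Type u} [Ring A] [Algebra k A] (s E : A) (hE : E * s = s * E + s)
    (lam : ℕ → A →ₗ[k] k) (hlam : ∀ p d j : ℕ, lam p (s ^ d * E ^ j) = (p : k) ^ j)
    (S : Set C) (h z : C) (N : k) (hN : N ≠ 0) (hreg : ∀ y, z * y = 0 → y = 0)
    (hS : ∀ g ∈ S, ∃ d : ℕ, h * g - g * h = (d : k) • g)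
    (hzS : ∀ g ∈ S, z * g = g * z) (hhz : h * z - z * h = N • z)
    (hgen : Algebra.adjoin k (insert h S) = ⊤) :
    ∃ θ : C →ₐ[k] A ⊗[k] Algebra.adjoin k S, Function.Injective θ := by
  set B := Algebra.adjoin k S with hB
  set Γ := Algebra.adjoin k (Gen B h s E) with hΓ
  have hzB : ∀ c : B, Commute z c := fun c =>
    Algebra.commute_of_mem_adjoin_of_forall_mem_commute c.2 hzS
  have key : ∀ x ∈ Γ, x.1 = 0 ↔ x.2 = 0 := by
    intro x hx
    obtain ⟨n, f, hf, e1, e2⟩ := NF_range B h s E (mem_NF B h s E hE hx)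
    rw [e1, e2]
    constructor
    · intro h0
      have h1 := free hreg hN hhz _ (fun j => (Commute.sum_right _ _ _ (fun d _ => hzB _)).eq) n h0
      have hind := (Module.End.eigenspaces_iSupIndep
        (LinearMap.mulLeft k h - LinearMap.mulRight k h)).comp (Nat.cast_injective (R := k))
      rw [iSupIndep_iff_finsetSum_eq_zero_imp_eq_zero] at hind
      refine sum_eq_zero (fun j hj => sum_eq_zero (fun d hd => ?_))
      have h2 := hind (range n) (fun d => (f d j : C)) (fun d _ => by
        simpa [Module.End.mem_eigenspace_iff] using hf d j) (h1 j (mem_range.1 hj)) d hd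
      rw [show f d j = 0 from Subtype.ext h2, tmul_zero]
    · intro h0
      have h1 := vand (fun p : ℕ => (p : k)) Nat.cast_injective n
        (fun j => ∑ d ∈ range n, f d j) (fun p => by
          have := congrArg (fun t => TensorProduct.lid k B ((lam p).rTensor B t)) h0
          simpa [hlam, smul_sum] using this)
      refine sum_eq_zero (fun j hj => ?_)
      have h2 := congrArg (fun c : B => (c : C)) (h1 j (mem_range.1 hj))
      simp only [AddSubmonoidClass.coe_finsetSum, ZeroMemClass.coe_zero] at h2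
      rw [h2, zero_mul]
  let π : Γ →ₐ[k] C := (AlgHom.fst k C (A ⊗[k] B)).comp Γ.val
  have hπ : Function.Bijective π := by
    constructor
    · rw [injective_iff_map_eq_zero]
      intro x hx
      exact Subtype.ext (Prod.ext hx ((key x x.2).1 hx))
    · rw [← AlgHom.range_eq_top, eq_top_iff, ← hgen, Algebra.adjoin_le_iff]
      rintro g (rfl | hg)
      · exact ⟨⟨_, Algebra.subset_adjoin (Or.inl rfl)⟩, rfl⟩
      · obtain ⟨d, hd⟩ := hS g hg
        exact ⟨⟨_, Algebra.subset_adjoin
          (Or.inr ⟨d, ⟨g, Algebra.subset_adjoin hg⟩, hd, rfl⟩)⟩, rfl⟩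
  refine ⟨((AlgHom.snd k C (A ⊗[k] B)).comp Γ.val).comp
    (AlgEquiv.ofBijective π hπ).symm.toAlgHom, ?_⟩
  rw [injective_iff_map_eq_zero]
  intro c hc
  obtain ⟨x, rfl⟩ := (AlgEquiv.ofBijective π hπ).surjective c
  have hx : x.1.2 = 0 := by simpa using hc
  exact (key x x.2).2 hx

variable (k)

/-- the action of the first Weyl algebra on polynomials -/
noncomputable def rep : Weyl k 1 →ₐ[k] Module.End k k[X] :=
  RingQuot.liftAlgHom k ⟨FreeAlgebra.lift k
    (Sum.elim (fun _ => LinearMap.mulLeft k X) (fun _ => derivative)), fun x y r => by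
      cases r with
      | ss i j => simp
      | dd i j => simp
      | ds i j =>
        rw [if_pos (Subsingleton.elim i j)]
        refine LinearMap.ext (fun P => ?_)
        simp [add_comm]⟩

/-- the generator `s` -/
noncomputable def gs : Weyl k 1 := RingQuot.mkAlgHom k _ (FreeAlgebra.ι k (Sum.inl 0))

/-- the generator `d` -/
noncomputable def gd : Weyl k 1 := RingQuot.mkAlgHom k _ (FreeAlgebra.ι k (Sum.inr 0))

lemma gd_gs : gd k * gs k = gs k * gd k + 1 := by
  have := RingQuot.mkAlgHom_rel k (WeylRel.ds (k := k) (0 : Fin 1) 0)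
  simpa [gs, gd] using this

lemma rep_gs (P : k[X]) : rep k (gs k) P = X * P := by
  simp [rep, gs, RingQuot.liftAlgHom_mkAlgHom_apply]

lemma rep_gd (P : k[X]) : rep k (gd k) P = derivative P := by
  simp [rep, gd, RingQuot.liftAlgHom_mkAlgHom_apply]

lemma rep_E (p j : ℕ) : rep k ((gs k * gd k) ^ j) (X ^ p) = (p : k) ^ j • X ^ p := by
  induction j with
  | zero => simp
  | succ j ih =>
    rw [pow_succ', map_mul, Module.End.mul_apply, ih, map_smul, map_mul, Module.End.mul_apply,
      rep_gs, rep_gd, pow_succ, mul_smul]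
    congr 1
    cases p with
    | zero => simp
    | succ p =>
      rw [derivative_X_pow_succ, smul_eq_C_mul]
      push_cast
      ring

lemma rep_pow (d : ℕ) (P : k[X]) : rep k (gs k ^ d) P = X ^ d * P := by
  induction d with
  | zero => simp
  | succ d ih => rw [pow_succ', map_mul, Module.End.mul_apply, ih, rep_gs, pow_succ', mul_assoc]

end Torus

theorem torus_step (k : Type u) [Field k] [CharZero k] (C : Type u) [Ring C] [Algebra k C]
    (hprime : ∀ a b : C, (∀ y, a * y * b = 0) → a = 0 ∨ b = 0)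
    (S : Set C) (h z : C) (N : ℕ) (hN : N ≠ 0) (hz : z ≠ 0)
    (hS : ∀ g ∈ S, ∃ d : ℕ, h * g - g * h = (d : k) • g)
    (hzS : ∀ g ∈ S, z * g = g * z) (hhz : h * z - z * h = (N : k) • z)
    (hgen : Algebra.adjoin k (insert h S) = ⊤) :
    ∃ θ : C →ₐ[k] Weyl k 1 ⊗[k] Algebra.adjoin k S, Function.Injective θ := by
  refine Torus.core (Torus.gs k) (Torus.gs k * Torus.gd k) ?_
    (fun p => Polynomial.leval (1 : k) ∘ₗ LinearMap.applyₗ (Polynomial.X ^ p) ∘ₗ
      (Torus.rep k).toLinearMap) (fun p d j => ?_) S h z N (Nat.cast_ne_zero.2 hN)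
    (Torus.regular hprime hz hzS hhz hgen) hS hzS hhz hgen
  · rw [mul_assoc, Torus.gd_gs, mul_add, mul_one]
  · simp only [LinearMap.comp_apply, AlgHom.toLinearMap_apply, LinearMap.applyₗ_apply_apply]
    rw [map_mul, Module.End.mul_apply, Torus.rep_E, Torus.rep_pow]
    simp

end Pool.Agent.Lib.MP_4da284_al
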