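import Pool.Agent.Lib.MP_4da284_al.H78Defs

namespace Pool.Agent.Lib.MP_4da284_al

universe u

open TensorProduct

namespace H82Weyl

variable (k : Type u) [Field k]

/- The generators of the Weyl algebra. -/
noncomputable def gen (m : ℕ) (x : Fin m ⊕ Fin m) : Weyl k m :=
  RingQuot.mkAlgHom k (WeylRel k m) (FreeAlgebra.ι k x)

theorem gen_ss (m : ℕ) (i j : Fin m) :
    gen k m (Sum.inl i) * gen k m (Sum.inl j) = gen k m (Sum.inl j) * gen k m (Sum.inl i) := by
  have h := RingQuot.mkAlgHom_rel k (WeylRel.ss (k := k) i j)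
  rw [map_mul, map_mul] at h
  exact h

theorem gen_dd (m : ℕ) (i j : Fin m) :
    gen k m (Sum.inr i) * gen k m (Sum.inr j) = gen k m (Sum.inr j) * gen k m (Sum.inr i) := by
  have h := RingQuot.mkAlgHom_rel k (WeylRel.dd (k := k) i j)
  rw [map_mul, map_mul] at h
  exact h

theorem gen_ds (m : ℕ) (i j : Fin m) :
    gen k m (Sum.inr i) * gen k m (Sum.inl j) =
      gen k m (Sum.inl j) * gen k m (Sum.inr i) + if i = j then 1 else 0 := by
  have h := RingQuot.mkAlgHom_rel k (WeylRel.ds (k := k) i j)
  rw [map_mul, map_add, map_mul] at h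
  by_cases hij : i = j
  · rw [if_pos hij, map_one] at h
    rw [if_pos hij]
    exact h
  · rw [if_neg hij, map_zero] at h
    rw [if_neg hij]
    exact h

/- The universal property of the Weyl algebra. -/
noncomputable def lift {A : Type u} [Semiring A] [Algebra k A] (m : ℕ) (f : Fin m ⊕ Fin m → A)
    (hss : ∀ i j, f (Sum.inl i) * f (Sum.inl j) = f (Sum.inl j) * f (Sum.inl i))
    (hdd : ∀ i j, f (Sum.inr i) * f (Sum.inr j) = f (Sum.inr j) * f (Sum.inr i))
    (hds : ∀ i j, f (Sum.inr i) * f (Sum.inl j) =
      f (Sum.inl j) * f (Sum.inr i) + if i = j then 1 else 0) : Weyl k m →ₐ[k] A :=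
  RingQuot.liftAlgHom k ⟨FreeAlgebra.lift k f, by
    rintro _ _ (⟨i, j⟩ | ⟨i, j⟩ | ⟨i, j⟩)
    · rw [map_mul, map_mul, FreeAlgebra.lift_ι_apply, FreeAlgebra.lift_ι_apply]
      exact hss i j
    · rw [map_mul, map_mul, FreeAlgebra.lift_ι_apply, FreeAlgebra.lift_ι_apply]
      exact hdd i j
    · rw [map_mul, map_add, map_mul, FreeAlgebra.lift_ι_apply, FreeAlgebra.lift_ι_apply, hds i j]
      by_cases hij : i = j
      · rw [if_pos hij, if_pos hij, map_one]
      · rw [if_neg hij, if_neg hij, map_zero]⟩

theorem lift_gen {A : Type u} [Semiring A] [Algebra k A] (m : ℕ) (f : Fin m ⊕ Fin m → A)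
    (hss : ∀ i j, f (Sum.inl i) * f (Sum.inl j) = f (Sum.inl j) * f (Sum.inl i))
    (hdd : ∀ i j, f (Sum.inr i) * f (Sum.inr j) = f (Sum.inr j) * f (Sum.inr i))
    (hds : ∀ i j, f (Sum.inr i) * f (Sum.inl j) =
      f (Sum.inl j) * f (Sum.inr i) + if i = j then 1 else 0) (x : Fin m ⊕ Fin m) :
    lift k m f hss hdd hds (gen k m x) = f x := by
  rw [lift, gen, RingQuot.liftAlgHom_mkAlgHom_apply, FreeAlgebra.lift_ι_apply]

theorem induction (m : ℕ) {P : Weyl k m → Prop} (halg : ∀ c : k, P (algebraMap k _ c))
    (hgen : ∀ x, P (gen k m x)) (hmul : ∀ a b, P a → P b → P (a * b))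
    (hadd : ∀ a b, P a → P b → P (a + b)) (a : Weyl k m) : P a := by
  obtain ⟨b, rfl⟩ := RingQuot.mkAlgHom_surjective k (WeylRel k m) a
  induction b using FreeAlgebra.induction with
  | grade0 c => rw [AlgHom.commutes]; exact halg c
  | grade1 x => exact hgen x
  | mul a b ha hb => rw [map_mul]; exact hmul _ _ ha hb
  | add a b ha hb => rw [map_add]; exact hadd _ _ ha hb

theorem hom_ext {A : Type u} [Semiring A] [Algebra k A] (m : ℕ) (f g : Weyl k m →ₐ[k] A)
    (h : ∀ x, f (gen k m x) = g (gen k m x)) : f = g := by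
  apply AlgHom.ext
  intro a
  induction a using induction k m with
  | halg c => rw [AlgHom.commutes, AlgHom.commutes]
  | hgen x => exact h x
  | hmul a b ha hb => rw [map_mul, map_mul, ha, hb]
  | hadd a b ha hb => rw [map_add, map_add, ha, hb]

/- The map of Weyl algebras induced by an injective map of the variables. -/
noncomputable def ren (m n : ℕ) (e : Fin m → Fin n) (he : Function.Injective e) :
    Weyl k m →ₐ[k] Weyl k n :=
  lift k m (fun x => gen k n (Sum.map e e x)) (fun i j => gen_ss k n (e i) (e j))
    (fun i j => gen_dd k n (e i) (e j)) (fun i j => by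
      have h := gen_ds k n (e i) (e j)
      by_cases hij : i = j
      · rw [if_pos (congrArg e hij)] at h
        rw [if_pos hij]
        exact h
      · rw [if_neg (fun h' => hij (he h'))] at h
        rw [if_neg hij]
        exact h)

theorem ren_gen (m n : ℕ) (e : Fin m → Fin n) (he : Function.Injective e) (x : Fin m ⊕ Fin m) :
    ren k m n e he (gen k m x) = gen k n (Sum.map e e x) :=
  lift_gen k m _ _ _ _ x

theorem ren_commute (m m' n : ℕ) (e : Fin m → Fin n) (he : Function.Injective e)
    (e' : Fin m' → Fin n) (he' : Function.Injective e') (hne : ∀ i j, e i ≠ e' j)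
    (a : Weyl k m) (b : Weyl k m') : Commute (ren k m n e he a) (ren k m' n e' he' b) := by
  induction a using induction k m with
  | halg c => rw [AlgHom.commutes]; exact Algebra.commutes c _
  | hmul a a' ha ha' => rw [map_mul]; exact ha.mul_left ha'
  | hadd a a' ha ha' => rw [map_add]; exact ha.add_left ha'
  | hgen x =>
    induction b using induction k m' with
    | halg c => rw [AlgHom.commutes]; exact (Algebra.commutes c _).symm
    | hmul b b' hb hb' => rw [map_mul]; exact hb.mul_right hb'
    | hadd b b' hb hb' => rw [map_add]; exact hb.add_right hb'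
    | hgen y =>
      rw [ren_gen, ren_gen]
      rcases x with i | i <;> rcases y with j | j
      · exact gen_ss k n (e i) (e' j)
      · have h := gen_ds k n (e' j) (e i)
        rw [if_neg (fun h' => hne i j h'.symm), add_zero] at h
        exact h.symm
      · have h := gen_ds k n (e i) (e' j)
        rw [if_neg (hne i j), add_zero] at h
        exact h
      · exact gen_dd k n (e i) (e' j)

theorem last_inj (p : ℕ) : Function.Injective (fun _ : Fin 1 => Fin.last p) :=
  fun i j _ => Subsingleton.elim i j

/- The map from the tensor product to the Weyl algebra in one more variable. -/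
noncomputable def phi (p : ℕ) : Weyl k p ⊗[k] Weyl k 1 →ₐ[k] Weyl k (p + 1) :=
  Algebra.TensorProduct.lift (ren k p (p + 1) Fin.castSucc (Fin.castSucc_injective p))
    (ren k 1 (p + 1) (fun _ => Fin.last p) (last_inj p))
    (ren_commute k p 1 (p + 1) _ _ _ _ (fun i _ => (Fin.castSucc_lt_last i).ne))

/- The images of the generators under the inverse map. -/
noncomputable def img (p : ℕ) (t : Fin p → Fin p ⊕ Fin p) (t' : Fin 1 ⊕ Fin 1)
    (i : Fin (p + 1)) : Weyl k p ⊗[k] Weyl k 1 :=
  Fin.lastCases (motive := fun _ => Weyl k p ⊗[k] Weyl k 1) (1 ⊗ₜ gen k 1 t')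
    (fun i => gen k p (t i) ⊗ₜ 1) i

theorem img_last (p : ℕ) (t : Fin p → Fin p ⊕ Fin p) (t' : Fin 1 ⊕ Fin 1) :
    img k p t t' (Fin.last p) = 1 ⊗ₜ gen k 1 t' := by
  rw [img, Fin.lastCases_last]

theorem img_castSucc (p : ℕ) (t : Fin p → Fin p ⊕ Fin p) (t' : Fin 1 ⊕ Fin 1) (i : Fin p) :
    img k p t t' i.castSucc = gen k p (t i) ⊗ₜ 1 := by
  rw [img, Fin.lastCases_castSucc]

/- The inverse map. -/
noncomputable def psi (p : ℕ) : Weyl k (p + 1) →ₐ[k] Weyl k p ⊗[k] Weyl k 1 :=
  lift k (p + 1) (Sum.elim (img k p Sum.inl (Sum.inl 0)) (img k p Sum.inr (Sum.inr 0)))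
    (fun i j => by
      simp only [Sum.elim_inl]
      induction i using Fin.lastCases <;> induction j using Fin.lastCases <;>
        simp only [img_last, img_castSucc, Algebra.TensorProduct.tmul_mul_tmul, mul_one, one_mul]
      rw [gen_ss])
    (fun i j => by
      simp only [Sum.elim_inr]
      induction i using Fin.lastCases <;> induction j using Fin.lastCases <;>
        simp only [img_last, img_castSucc, Algebra.TensorProduct.tmul_mul_tmul, mul_one, one_mul]
      rw [gen_dd])
    (fun i j => by
      simp only [Sum.elim_inl, Sum.elim_inr]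
      induction i using Fin.lastCases with
      | last =>
        induction j using Fin.lastCases with
        | last =>
          rw [if_pos rfl]
          simp only [img_last, Algebra.TensorProduct.tmul_mul_tmul, mul_one]
          rw [gen_ds, if_pos rfl, tmul_add, Algebra.TensorProduct.one_def]
        | cast j =>
          rw [if_neg (Fin.castSucc_lt_last j).ne', add_zero]
          simp only [img_last, img_castSucc, Algebra.TensorProduct.tmul_mul_tmul, mul_one,
            one_mul]
      | cast i =>
        induction j using Fin.lastCases with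
        | last =>
          rw [if_neg (Fin.castSucc_lt_last i).ne, add_zero]
          simp only [img_last, img_castSucc, Algebra.TensorProduct.tmul_mul_tmul, mul_one,
            one_mul]
        | cast j =>
          simp only [img_castSucc, Algebra.TensorProduct.tmul_mul_tmul, mul_one]
          rw [gen_ds, add_tmul]
          by_cases hij : i = j
          · rw [if_pos hij, if_pos (congrArg Fin.castSucc hij), Algebra.TensorProduct.one_def]
          · rw [if_neg hij, if_neg (fun h => hij (Fin.castSucc_injective p h)), zero_tmul])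

theorem psi_gen (p : ℕ) (x : Fin (p + 1) ⊕ Fin (p + 1)) :
    psi k p (gen k (p + 1) x) =
      Sum.elim (img k p Sum.inl (Sum.inl 0)) (img k p Sum.inr (Sum.inr 0)) x :=
  lift_gen k (p + 1) _ _ _ _ x

theorem psi_left (p : ℕ) :
    (psi k p).comp (ren k p (p + 1) Fin.castSucc (Fin.castSucc_injective p)) =
      Algebra.TensorProduct.includeLeft := by
  refine hom_ext k p _ _ fun x => ?_
  rw [AlgHom.comp_apply, ren_gen, psi_gen, Algebra.TensorProduct.includeLeft_apply]
  rcases x with i | i
  · exact img_castSucc k p _ _ i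
  · exact img_castSucc k p _ _ i

theorem psi_right (p : ℕ) :
    (psi k p).comp (ren k 1 (p + 1) (fun _ => Fin.last p) (last_inj p)) =
      Algebra.TensorProduct.includeRight := by
  refine hom_ext k 1 _ _ fun x => ?_
  rw [AlgHom.comp_apply, ren_gen, psi_gen, Algebra.TensorProduct.includeRight_apply]
  rcases x with i | i
  · rw [Subsingleton.elim i 0]
    exact img_last k p _ _
  · rw [Subsingleton.elim i 0]
    exact img_last k p _ _

theorem psi_phi (p : ℕ) (z : Weyl k p ⊗[k] Weyl k 1) : psi k p (phi k p z) = z := by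
  induction z using TensorProduct.induction_on with
  | zero => rw [map_zero, map_zero]
  | add a b ha hb => rw [map_add, map_add, ha, hb]
  | tmul a b =>
    have h1 := AlgHom.congr_fun (psi_left k p) a
    have h2 := AlgHom.congr_fun (psi_right k p) b
    rw [AlgHom.comp_apply, Algebra.TensorProduct.includeLeft_apply] at h1
    rw [AlgHom.comp_apply, Algebra.TensorProduct.includeRight_apply] at h2
    rw [phi, Algebra.TensorProduct.lift_tmul, map_mul, h1, h2,
      Algebra.TensorProduct.tmul_mul_tmul, mul_one, one_mul]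

theorem phi_injective (p : ℕ) : Function.Injective (phi k p) :=
  Function.LeftInverse.injective (psi_phi k p)

theorem rank_weyl (m : ℕ) : Module.rank k (Weyl k m) ≤ Cardinal.aleph0 := by
  have h1 : Module.rank k (Weyl k m) ≤ Module.rank k (FreeAlgebra k (Fin m ⊕ Fin m)) :=
    LinearMap.rank_le_of_surjective (RingQuot.mkAlgHom k (WeylRel k m)).toLinearMap
      (RingQuot.mkAlgHom_surjective k (WeylRel k m))
  refine h1.trans ?_
  rw [FreeAlgebra.rank_eq]
  simp

end H82Weyl

theorem we_one (k : Type u) [Field k] : WE k (Weyl k 1) :=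
  ⟨0, AlgHom.id k _, Function.injective_id⟩

theorem we_tensor (k : Type u) [Field k] (B : Type u) [Ring B] [Algebra k B] (hB : WE k B) :
    WE k (B ⊗[k] Weyl k 1) := by
  obtain ⟨p, j, hj⟩ := hB
  refine ⟨p + 1, (H82Weyl.phi k (p + 1)).comp
    (Algebra.TensorProduct.map j (AlgHom.id k (Weyl k 1))), ?_⟩
  rw [AlgHom.coe_comp]
  refine (H82Weyl.phi_injective k (p + 1)).comp ?_
  exact Module.Flat.rTensor_preserves_injective_linearMap (M := Weyl k 1) j.toLinearMap hj

theorem rank_le_of_we (k : Type u) [Field k] (B : Type u) [Ring B] [Algebra k B] (hB : WE k B) :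
    Module.rank k B ≤ Cardinal.aleph0 := by
  obtain ⟨p, j, hj⟩ := hB
  exact (LinearMap.rank_le_of_injective j.toLinearMap hj).trans (H82Weyl.rank_weyl k (p + 1))

end Pool.Agent.Lib.MP_4da284_al
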