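import Pool.Agent.Lib.MP_4da284_al.H78Max
import Pool.Agent.Lib.MP_4da284_al.H78Weyl
import Pool.Agent.Lib.MP_4da284_al.H78Nil
import Pool.Agent.Lib.MP_4da284_al.H78Torus

namespace Pool.Agent.Lib.MP_4da284_al.Q1

universe u

open TensorProduct

variable {k : Type u} [Field k] {U : Type u} [Ring U] [Algebra k U] {Q : Ideal U}

theorem ker_comp_inj {B B' : Type u} [Semiring B] [Algebra k B] [Semiring B'] [Algebra k B']
    (φ : U →ₐ[k] B) (θ : B →ₐ[k] B') (hθ : Function.Injective θ) :
    RingHom.ker (θ.comp φ) = RingHom.ker φ := by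
  ext x
  simp only [RingHom.mem_ker, AlgHom.comp_apply, map_eq_zero_iff θ hθ]

theorem exists_shift {B C C' : Type u} [Ring B] [Algebra k B] [Ring C] [Algebra k C] [Ring C']
    [Algebra k C'] (φ : U →ₐ[k] B ⊗[k] C) (θ : C →ₐ[k] Weyl k 1 ⊗[k] C')
    (hθ : Function.Injective θ) :
    ∃ φ' : U →ₐ[k] (B ⊗[k] Weyl k 1) ⊗[k] C', RingHom.ker φ' = RingHom.ker φ := by
  refine ⟨((Algebra.TensorProduct.assoc k k k B (Weyl k 1) C').symm.toAlgHom.comp
    (Algebra.TensorProduct.map (AlgHom.id k B) θ)).comp φ, ker_comp_inj _ _ ?_⟩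
  refine (Algebra.TensorProduct.assoc k k k B (Weyl k 1) C').symm.injective.comp ?_
  exact Module.Flat.lTensor_preserves_injective_linearMap (M := B) θ.toLinearMap hθ

theorem rank_le_of_gen {C : Type u} [Ring C] [Algebra k C] {s : Set C} (hs : s.Countable)
    (h : Algebra.adjoin k s = ⊤) : Module.rank k C ≤ Cardinal.aleph0 := by
  have := Algebra.rank_adjoin_le (R := k) s
  rw [h] at this
  rw [← Subalgebra.rank_top (F := k)]
  exact this.trans (max_le (Cardinal.le_aleph0_iff_set_countable.2 hs) le_rfl)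

theorem embed_nil [IsAlgClosed k] [CharZero k] [Uncountable k] (hQ : ClosedPrime k Q) (n : ℕ) :
    ∀ (B C : Type u) [Ring B] [Algebra k B] [Ring C] [Algebra k C] (F : ℕ → Submodule k C)
      (φ : U →ₐ[k] B ⊗[k] C), WE k B → NilData k C F → Module.finrank k (F 0) < n →
      RingHom.ker φ = Q → ∃ m ≥ 1, ∃ ψ : U →ₐ[k] Weyl k m, RingHom.ker ψ = Q := by
  induction n with
  | zero => intros; omega
  | succ n ih =>
    intro B C _ _ _ _ F φ hB hF hn hφ
    have := hF.fin
    have hC : Module.rank k C ≤ Cardinal.aleph0 := by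
      obtain ⟨s, hs⟩ := (Submodule.fg_iff_finiteDimensional (F 0)).2 hF.fin
      refine rank_le_of_gen s.countable_toSet ?_
      rw [← Algebra.adjoin_span, hs, hF.gen]
    obtain ⟨C1, _, _, π, hπ, hker, -, hcent⟩ := exists_max k hQ B C (rank_le_of_we k B hB) hC φ hφ
    have hF1 : NilData k C1 (fun p => (F p).map π.toLinearMap) :=
      { fin := inferInstance
        one := ⟨1, hF.one, map_one π⟩
        le := fun p => Submodule.map_mono (hF.le p)
        br := by
          rintro p _ ⟨a, ha, rfl⟩ _ ⟨b, hb, rfl⟩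
          exact ⟨_, hF.br p a ha b hb, by simp⟩
        bot := by
          obtain ⟨K, hK⟩ := hF.bot
          exact ⟨K, by simp [hK]⟩
        gen := by
          have := congrArg (Subalgebra.map π) hF.gen
          rwa [AlgHom.map_adjoin, Algebra.map_top, (AlgHom.range_eq_top π).2 hπ] at this }
    by_cases hne : (F 0).map π.toLinearMap ≤ k ∙ (1 : C1)
    · obtain ⟨p, j, hj⟩ := hB
      have hall : ∀ c : C1, ∃ a : k, algebraMap k C1 a = c := by
        intro c
        have h1 : Algebra.adjoin k ((F 0).map π.toLinearMap : Set C1) ≤ ⊥ := by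
          rw [Algebra.adjoin_le_iff]
          intro x hx
          obtain ⟨a, rfl⟩ := Submodule.mem_span_singleton.1 (hne hx)
          exact Subalgebra.smul_mem _ (Subalgebra.one_mem _) _
        rw [hF1.gen] at h1
        exact Algebra.mem_bot.1 (h1 Algebra.mem_top)
      have hnt : Nontrivial C1 := by
        by_contra h
        rw [not_nontrivial_iff_subsingleton] at h
        refine hQ.ne_top ?_
        rw [← hker, eq_top_iff]
        intro x _
        exact Subsingleton.elim _ _
      let ε : k ≃ₐ[k] C1 := AlgEquiv.ofBijective (Algebra.ofId k C1)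
        ⟨(algebraMap k C1).injective, hall⟩
      let θ : B ⊗[k] C1 ≃ₐ[k] B :=
        (Algebra.TensorProduct.congr AlgEquiv.refl ε.symm).trans (Algebra.TensorProduct.rid k k B)
      have hinj : Function.Injective (j.comp θ.toAlgHom) := hj.comp θ.injective
      exact ⟨p + 1, by omega, (j.comp θ.toAlgHom).comp
        ((Algebra.TensorProduct.map (AlgHom.id k B) π).comp φ),
        (ker_comp_inj ((Algebra.TensorProduct.map (AlgHom.id k B) π).comp φ)
          (j.comp θ.toAlgHom) hinj).trans hker⟩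
    · obtain ⟨C', _, _, F', θ, hF', hlt, hθ⟩ := nil_step k C1 _ hF1 hcent hne
      obtain ⟨φ', hφ'⟩ := exists_shift ((Algebra.TensorProduct.map (AlgHom.id k B) π).comp φ) θ hθ
      refine ih _ C' F' φ' (we_tensor k B hB) hF' ?_ (hφ'.trans hker)
      have := Submodule.finrank_map_le π.toLinearMap (F 0)
      omega

structure JetRel (k : Type u) [Field k] {C : Type u} {I : Type} [Ring C] [Algebra k C]
    [DecidableEq I] (t : I → C) (D : I → ℕ → C) (N : ℕ) (T : Finset I) : Prop where
  tt : ∀ i j, t i * t j = t j * t i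
  d0t : ∀ i j, D i 0 * t j - t j * D i 0 = if i = j then 1 else 0
  dt : ∀ i j α, D i (α + 1) * t j = t j * D i (α + 1)
  far : ∀ i j α β, i ≠ j → D i α * D j β = D j β * D i α
  zero : ∀ i β, D i 0 * D i β = D i β * D i 0
  near : ∀ i α β, (α ≠ 0 ∧ β ≠ 0) ∨ i ∈ T →
    D i (α + 1) * D i (β + 1) - D i (β + 1) * D i (α + 1) = ((β : k) - α) • D i (α + β + 1)
  top : ∀ i α, N ≤ α → D i α = 0
  gen : Algebra.adjoin k (Set.range t ∪ {x | ∃ i α, (α ≠ 1 ∨ i ∈ T) ∧ x = D i α}) = ⊤

variable {I : Type} [Fintype I] [DecidableEq I]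

omit [Fintype I] in
theorem JetRel.map {C C' : Type u} [Ring C] [Algebra k C] [Ring C'] [Algebra k C']
    {t : I → C} {D : I → ℕ → C} {N : ℕ} {T : Finset I} (h : JetRel k t D N T) (π : C →ₐ[k] C')
    (hπ : Function.Surjective π) : JetRel k (fun i => π (t i)) (fun i α => π (D i α)) N T where
  tt := fun i j => by simpa using congrArg π (h.tt i j)
  d0t := fun i j => by simpa [apply_ite π] using congrArg π (h.d0t i j)
  dt := fun i j α => by simpa using congrArg π (h.dt i j α)
  far := fun i j α β hij => by simpa using congrArg π (h.far i j α β hij)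
  zero := fun i β => by simpa using congrArg π (h.zero i β)
  near := fun i α β hc => by simpa using congrArg π (h.near i α β hc)
  top := fun i α hα => by simp [h.top i α hα]
  gen := by
    have := congrArg (Subalgebra.map π) h.gen
    rw [AlgHom.map_adjoin, Algebra.map_top, (AlgHom.range_eq_top π).2 hπ] at this
    rw [eq_top_iff, ← this]
    refine Algebra.adjoin_mono ?_
    rintro _ ⟨x, (⟨i, rfl⟩ | ⟨i, α, hc, rfl⟩), rfl⟩
    · exact Or.inl ⟨i, rfl⟩
    · exact Or.inr ⟨i, α, hc, rfl⟩

theorem JetRel.rank_le {C : Type u} [Ring C] [Algebra k C]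
    {t : I → C} {D : I → ℕ → C} {N : ℕ} {T : Finset I} (h : JetRel k t D N T) :
    Module.rank k C ≤ Cardinal.aleph0 := by
  refine rank_le_of_gen (Set.Countable.union (Set.countable_range t) ?_) h.gen
  refine (Set.countable_range (fun p : I × ℕ => D p.1 p.2)).mono ?_
  rintro _ ⟨i, α, -, rfl⟩
  exact ⟨(i, α), rfl⟩

theorem JetRel.nil {C : Type u} [Ring C] [Algebra k C]
    {t : I → C} {D : I → ℕ → C} {N : ℕ} (h : JetRel k t D N ∅) :
    ∃ F : ℕ → Submodule k C, NilData k C F := by
  let G : ℕ → Set C := fun p => {x | (p ≤ 1 ∧ x = 1) ∨ (p = 0 ∧ ∃ i, x = t i ∨ x = D i 0) ∨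
    ∃ i α, p ≤ α ∧ x = D i (α + 2)}
  have hG : ∀ p, G p ⊆ G 0 := by
    rintro p x (⟨-, hx⟩ | ⟨-, hx⟩ | ⟨i, α, -, hx⟩)
    · exact Or.inl ⟨by omega, hx⟩
    · exact Or.inr (Or.inl ⟨rfl, hx⟩)
    · exact Or.inr (Or.inr ⟨i, α, by omega, hx⟩)
  have hDD : ∀ i j α, D i 0 * D j α = D j α * D i 0 := by
    intro i j α
    by_cases hij : i = j
    · subst hij; exact h.zero i α
    · exact h.far i j 0 α hij
  have hone : ∀ c : Prop, [Decidable c] → (if c then (1 : C) else 0) ∈ Submodule.span k (G 1) := by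
    intro c _
    split_ifs
    · exact Submodule.subset_span (Or.inl ⟨le_rfl, rfl⟩)
    · exact Submodule.zero_mem _
  refine ⟨fun p => Submodule.span k (G p), ?_, ?_, fun p => Submodule.span_mono (hG p), ?_, ?_, ?_⟩
  · refine FiniteDimensional.span_of_finite k ?_
    refine ((((Set.finite_singleton (1 : C)).union (Set.finite_singleton (0 : C))).union
      (Set.finite_range t)).union
      (Set.finite_range (fun p : I × Fin (N + 1) => D p.1 p.2))).subset ?_
    rintro x (⟨-, rfl⟩ | ⟨-, i, rfl | rfl⟩ | ⟨i, α, -, rfl⟩)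
    · simp
    · exact Or.inl (Or.inr ⟨i, rfl⟩)
    · exact Or.inr ⟨(i, 0), rfl⟩
    · by_cases hα : α + 2 < N + 1
      · exact Or.inr ⟨(i, ⟨α + 2, hα⟩), rfl⟩
      · rw [h.top i _ (by omega)]; simp
  · exact Submodule.subset_span (Or.inl ⟨by omega, rfl⟩)
  · intro p a ha b hb
    induction ha using Submodule.span_induction with
    | zero => simp
    | add x y _ _ hx hy =>
      have := Submodule.add_mem _ hx hy
      convert this using 1; noncomm_ring
    | smul c x _ hx =>
      have := Submodule.smul_mem _ c hx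
      rwa [smul_sub, ← smul_mul_assoc, ← mul_smul_comm] at this
    | mem a ha =>
      induction hb using Submodule.span_induction with
      | zero => simp
      | add x y _ _ hx hy =>
        have := Submodule.add_mem _ hx hy
        convert this using 1; noncomm_ring
      | smul c x _ hx =>
        have := Submodule.smul_mem _ c hx
        rwa [smul_sub, ← mul_smul_comm, ← smul_mul_assoc] at this
      | mem b hb =>
        rcases ha with ⟨-, rfl⟩ | ⟨-, i, rfl | rfl⟩ | ⟨i, α, -, rfl⟩
        · simp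
        · rcases hb with ⟨-, rfl⟩ | ⟨rfl, j, rfl | rfl⟩ | ⟨j, β, -, rfl⟩
          · simp
          · simp [h.tt i j]
          · rw [← neg_sub, h.d0t]; exact Submodule.neg_mem _ (hone _)
          · simp [h.dt j i (β + 1)]
        · rcases hb with ⟨-, rfl⟩ | ⟨rfl, j, rfl | rfl⟩ | ⟨j, β, -, rfl⟩
          · simp
          · rw [h.d0t]; exact hone _
          · simp [hDD i j 0]
          · simp [hDD i j]
        · rcases hb with ⟨-, rfl⟩ | ⟨rfl, j, rfl | rfl⟩ | ⟨j, β, hβ, rfl⟩
          · simp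
          · simp [h.dt i j (α + 1)]
          · simp [hDD j i]
          · by_cases hij : i = j
            · subst hij
              rw [h.near i (α + 1) (β + 1) (Or.inl ⟨by omega, by omega⟩)]
              exact Submodule.smul_mem _ _ (Submodule.subset_span
                (Or.inr (Or.inr ⟨i, α + β + 1, by omega, by congr 1; omega⟩)))
            · simp [h.far i j _ _ hij]
  · refine ⟨N + 2, Submodule.span_eq_bot.2 ?_⟩
    rintro x (⟨hp, -⟩ | ⟨hp, -⟩ | ⟨i, α, hα, rfl⟩)
    · omega
    · omega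
    · exact h.top i _ (by omega)
  · rw [Algebra.adjoin_span, eq_top_iff, ← h.gen]
    refine Algebra.adjoin_mono ?_
    rintro _ (⟨i, rfl⟩ | ⟨i, α, hc, rfl⟩)
    · exact Or.inr (Or.inl ⟨rfl, i, Or.inl rfl⟩)
    · rcases α with _ | _ | α
      · exact Or.inr (Or.inl ⟨rfl, i, Or.inr rfl⟩)
      · simp at hc
      · exact Or.inr (Or.inr ⟨i, α, by omega, rfl⟩)

omit [Fintype I] in
theorem JetRel.restrict {C : Type u} [Ring C] [Algebra k C]
    {t : I → C} {D : I → ℕ → C} {N : ℕ} {T T' : Finset I} (h : JetRel k t D N T) (hT : T' ⊆ T) :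
    ∃ (t' : I → Algebra.adjoin k (Set.range t ∪ {x | ∃ i α, (α ≠ 1 ∨ i ∈ T') ∧ x = D i α}))
      (D' : I → ℕ → Algebra.adjoin k (Set.range t ∪ {x | ∃ i α, (α ≠ 1 ∨ i ∈ T') ∧ x = D i α})),
      JetRel k t' D' N T' := by
  set S := Set.range t ∪ {x | ∃ i α, (α ≠ 1 ∨ i ∈ T') ∧ x = D i α} with hS
  let D0 : I → ℕ → C := fun i α => if α ≠ 1 ∨ i ∈ T' then D i α else 0
  have hD0 : ∀ i α, D0 i α ∈ Algebra.adjoin k S := by
    intro i α
    simp only [D0]
    split_ifs with hc
    · exact Algebra.subset_adjoin (Or.inr ⟨i, α, hc, rfl⟩)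
    · exact Subalgebra.zero_mem _
  have h00 : ∀ i, D0 i 0 = D i 0 := fun i => by simp [D0]
  refine ⟨fun i => ⟨t i, Algebra.subset_adjoin (Or.inl ⟨i, rfl⟩)⟩, fun i α => ⟨D0 i α, hD0 i α⟩,
    fun i j => Subtype.ext (h.tt i j), fun i j => Subtype.ext ?_, fun i j α => Subtype.ext ?_,
    fun i j α β hij => Subtype.ext ?_, fun i β => Subtype.ext ?_, fun i α β hc => Subtype.ext ?_,
    fun i α hα => Subtype.ext ?_, ?_⟩
  · simpa [h00, apply_ite Subtype.val] using h.d0t i j
  · change D0 i _ * t j = t j * D0 i _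
    simp only [D0]; split_ifs
    · exact h.dt i j α
    · simp
  · change D0 i _ * D0 j _ = D0 j _ * D0 i _
    simp only [D0]; split_ifs <;> simp [h.far i j α β hij]
  · change D0 i 0 * D0 i β = D0 i β * D0 i 0
    rw [h00]
    simp only [D0]; split_ifs <;> simp [h.zero i β]
  · change D0 i _ * D0 i _ - D0 i _ * D0 i _ = _ • D0 i _
    have h1 : α + 1 ≠ 1 ∨ i ∈ T' := hc.imp (fun h => by omega) id
    have h2 : β + 1 ≠ 1 ∨ i ∈ T' := hc.imp (fun h => by omega) id
    have h3 : α + β + 1 ≠ 1 ∨ i ∈ T' := hc.imp (fun h => by omega) id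
    simp only [D0, if_pos h1, if_pos h2, if_pos h3]
    exact h.near i α β (hc.imp id fun h => hT h)
  · change D0 i α = 0
    simp [D0, h.top i α hα]
  · rw [eq_top_iff, ← Algebra.adjoin_adjoin_coe_preimage (R := k) (s := S)]
    refine Algebra.adjoin_mono ?_
    rintro ⟨x, hx⟩ (⟨i, rfl⟩ | ⟨i, α, hc, hx'⟩)
    · exact Or.inl ⟨i, rfl⟩
    · exact Or.inr ⟨i, α, hc, Subtype.ext (by simpa [D0, if_pos hc] using hx')⟩

theorem embed_jet [IsAlgClosed k] [CharZero k] [Uncountable k] (hQ : ClosedPrime k Q) (N : ℕ)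
    (T : Finset I) :
    ∀ (B C : Type u) [Ring B] [Algebra k B] [Ring C] [Algebra k C] (t : I → C) (D : I → ℕ → C)
      (φ : U →ₐ[k] B ⊗[k] C), WE k B → JetRel k t D N T →
      RingHom.ker φ = Q → ∃ m ≥ 1, ∃ ψ : U →ₐ[k] Weyl k m, RingHom.ker ψ = Q := by
  induction T using Finset.induction_on with
  | empty =>
    intro B C _ _ _ _ t D φ hB h hφ
    obtain ⟨F, hF⟩ := h.nil
    exact embed_nil hQ _ B C F φ hB hF (Nat.lt_succ_self _) hφ
  | insert i T hi ih =>
    intro B C0 _ _ _ _ t0 D0 φ0 hB h0 hφ0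
    obtain ⟨C, _, _, π, hπ, hker, hprime, hcent⟩ :=
      exists_max k hQ B C0 (rank_le_of_we k B hB) h0.rank_le φ0 hφ0
    have h := h0.map π hπ
    generalize (fun i => π (t0 i)) = t at h
    generalize (fun i α => π (D0 i α)) = D at h
    generalize ((Algebra.TensorProduct.map (AlgHom.id k B) π).comp φ0) = φ at hker
    set S := Set.range t ∪ {x | ∃ j α, (α ≠ 1 ∨ j ∈ T) ∧ x = D j α} with hS
    have hgen : Algebra.adjoin k (insert (D i 1) S) = ⊤ := by
      rw [eq_top_iff, ← h.gen]
      refine Algebra.adjoin_mono ?_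
      rintro _ (⟨j, rfl⟩ | ⟨j, α, hc, rfl⟩)
      · exact Or.inr (Or.inl ⟨j, rfl⟩)
      · by_cases hα : α = 1
        · subst hα
          rcases Finset.mem_insert.1 (hc.resolve_left (by simp)) with rfl | hj
          · exact Or.inl rfl
          · exact Or.inr (Or.inr ⟨j, 1, Or.inr hj, rfl⟩)
        · exact Or.inr (Or.inr ⟨j, α, Or.inl hα, rfl⟩)
    have hwt : ∀ β, D i 1 * D i (β + 1) - D i (β + 1) * D i 1 = (β : k) • D i (β + 1) := by
      intro β
      simpa using h.near i 0 β (Or.inr (Finset.mem_insert_self _ _))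
    have hcom : ∀ α, (∀ β, D i (α + 1) * D i (β + 2) = D i (β + 2) * D i (α + 1)) →
        ∀ g ∈ S, D i (α + 1) * g = g * D i (α + 1) := by
      rintro α hα _ (⟨j, rfl⟩ | ⟨j, β, hc, rfl⟩)
      · exact h.dt i j α
      · by_cases hij : i = j
        · subst hij
          rcases β with _ | _ | β
          · exact (h.zero i _).symm
          · exact absurd (hc.resolve_left (by simp)) hi
          · exact hα β
        · exact h.far i j _ _ hij
    by_cases hz : ∀ α, D i (α + 2) = 0
    · have hc : ∀ y, D i 1 * y = y * D i 1 := by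
        intro y
        have hy : y ∈ Algebra.adjoin k (insert (D i 1) S) := hgen ▸ Algebra.mem_top
        refine (Algebra.commute_of_mem_adjoin_of_forall_mem_commute hy ?_).eq
        rintro g (rfl | hg)
        · exact Commute.refl _
        · exact hcom 0 (fun β => by simp [hz]) g hg
      obtain ⟨c, hc⟩ := hcent _ hc
      refine ih B C t D φ hB { h with near := fun j α β hc => ?_, gen := ?_ } hker
      · exact h.near j α β (hc.imp id Finset.mem_insert_of_mem)
      · rw [eq_top_iff, ← hgen, Algebra.adjoin_le_iff]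
        rintro g (rfl | hg)
        · rw [hc]; exact Subalgebra.algebraMap_mem _ _
        · exact Algebra.subset_adjoin hg
    · push Not at hz
      obtain ⟨n, hn, hmax⟩ : ∃ n, D i (n + 2) ≠ 0 ∧ ∀ m, n < m → D i (m + 2) = 0 := by
        classical
        obtain ⟨α, hα⟩ := hz
        have hαN : α ≤ N := by
          by_contra hlt
          exact hα (h.top i _ (by omega))
        refine ⟨Nat.findGreatest (fun n => D i (n + 2) ≠ 0) N,
          Nat.findGreatest_spec (P := fun n => D i (n + 2) ≠ 0) hαN hα, fun m hm => ?_⟩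
        by_cases hmN : m ≤ N
        · exact not_not.1 (Nat.findGreatest_is_greatest hm hmN)
        · exact h.top i _ (by omega)
      obtain ⟨θ, hθ⟩ := torus_step k C hprime S (D i 1) (D i (n + 2)) (n + 1) (by omega) hn (by
          rintro _ (⟨j, rfl⟩ | ⟨j, β, hc, rfl⟩)
          · exact ⟨0, by simp [h.dt i j 0]⟩
          · by_cases hij : i = j
            · subst hij
              rcases β with _ | β
              · exact ⟨0, by simp [h.zero i 1]⟩
              · exact ⟨β, hwt β⟩
            · exact ⟨0, by simp [h.far i j _ _ hij]⟩)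
        (hcom (n + 1) fun β => by
          rw [← sub_eq_zero, h.near i (n + 1) (β + 1) (Or.inl ⟨by omega, by omega⟩),
            show n + 1 + (β + 1) + 1 = (n + β + 1) + 2 by omega, hmax _ (by omega), smul_zero])
        (hwt (n + 1)) hgen
      obtain ⟨φ', hφ'⟩ := exists_shift φ θ hθ
      obtain ⟨t', D', h'⟩ := h.restrict (Finset.subset_insert i T)
      exact ih _ _ t' D' φ' (we_tensor k B hB) h' (hφ'.trans hker)

theorem embed_sys [IsAlgClosed k] [CharZero k] [Uncountable k] (hQ : ClosedPrime k Q) {N : ℕ}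
    {C : Type u} [Ring C] [Algebra k C] {t : I → C} {D : I → ℕ → C}
    (h : JetRel k t D N Finset.univ) (φ : U →ₐ[k] C) (hφ : RingHom.ker φ = Q) :
    ∃ m ≥ 1, ∃ ψ : U →ₐ[k] Weyl k m, RingHom.ker ψ = Q := by
  have hW : Nontrivial (Weyl k 1) := (Torus.rep k).toRingHom.domain_nontrivial
  refine embed_jet hQ N Finset.univ (Weyl k 1) C t D
    (Algebra.TensorProduct.includeRight.comp φ) (we_one k) h ((ker_comp_inj _ _ ?_).trans hφ)
  exact Algebra.TensorProduct.includeRight_injective (algebraMap k (Weyl k 1)).injective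

end Pool.Agent.Lib.MP_4da284_al.Q1
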