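import Pool.Agent.Lib.MP_4da284_al.H78Main

namespace Pool.Agent.Lib.MP_4da284_al.Q1

noncomputable section

universe u

section Bern

variable {k R G : Type*} [Field k] [Ring R] [Algebra k R] (g : G → R)

variable (k) in
def Bn (n : ℕ) : Submodule k R :=
  Submodule.span k {x | ∃ L : List G, L.length < n ∧ x = (L.map g).prod}

theorem Bn_mono {i j : ℕ} (h : i ≤ j) : Bn k g i ≤ Bn k g j :=
  Submodule.span_mono fun _ ⟨L, hL, hp⟩ => ⟨L, by omega, hp⟩

theorem Bn_mul {i j : ℕ} {p q : R} (hp : p ∈ Bn k g (i + 1)) (hq : q ∈ Bn k g j) :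
    p * q ∈ Bn k g (i + j) := by
  induction hp using Submodule.span_induction with
  | mem x hx =>
    obtain ⟨L, hL, rfl⟩ := hx
    induction hq using Submodule.span_induction with
    | mem y hy =>
      obtain ⟨L', hL', rfl⟩ := hy
      exact Submodule.subset_span ⟨L ++ L', by simp; omega, by simp⟩
    | zero => simp
    | add a b _ _ ha hb => rw [mul_add]; exact Submodule.add_mem _ ha hb
    | smul c a _ ha => rw [mul_smul_comm]; exact Submodule.smul_mem _ _ ha
  | zero => simp
  | add a b _ _ ha hb => rw [add_mul]; exact Submodule.add_mem _ ha hb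
  | smul c a _ ha => rw [smul_mul_assoc]; exact Submodule.smul_mem _ _ ha

theorem one_mem_Bn : (1 : R) ∈ Bn k g 1 := Submodule.subset_span ⟨[], by simp, rfl⟩

theorem gen_mem_Bn (a : G) : g a ∈ Bn k g 2 := Submodule.subset_span ⟨[a], by simp, by simp⟩

theorem Bn_perm (hg : ∀ a b, ∃ c : k, g a * g b = g b * g a + algebraMap k R c) {L L' : List G}
    (h : L.Perm L') : (L.map g).prod - (L'.map g).prod ∈ Bn k g L.length := by
  induction h with
  | nil => simp
  | cons a _ ih =>
    simp only [List.map_cons, List.prod_cons, ← mul_sub, List.length_cons]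
    rw [add_comm]
    exact Bn_mul g (gen_mem_Bn g a) ih
  | swap a b L =>
    obtain ⟨c, hc⟩ := hg b a
    simp only [List.map_cons, List.prod_cons, ← mul_assoc, hc, add_mul, add_sub_cancel_left,
      List.length_cons, ← Algebra.smul_def]
    exact Submodule.smul_mem _ _ (Submodule.subset_span ⟨L, by omega, rfl⟩)
  | trans h1 _ ih1 ih2 =>
    rw [← h1.length_eq] at ih2
    have := Submodule.add_mem _ ih1 ih2
    rwa [sub_add_sub_cancel] at this

theorem finrank_Bn [Fintype G] [DecidableEq G]
    (hg : ∀ a b, ∃ c : k, g a * g b = g b * g a + algebraMap k R c) (n : ℕ) :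
    ∃ S : Submodule k R, FiniteDimensional k S ∧ Module.finrank k S ≤ n ^ Fintype.card G ∧
      Bn k g n ≤ S := by
  let srt : (G → ℕ) → List G := fun c =>
    (Finset.univ : Finset G).toList.flatMap fun a => List.replicate (c a) a
  have hperm : ∀ L : List G, L.Perm (srt fun a => L.count a) := by
    intro L
    rw [List.perm_iff_count]
    intro a
    simp only [srt, List.count_flatMap, Finset.sum_map_toList, Function.comp, List.count_replicate]
    simp
  have key : ∀ n, Bn k g n ≤ Submodule.span k
      (Set.range fun c : G → Fin n => ((srt fun a => c a).map g).prod) := by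
    intro n
    induction n with
    | zero => simp [Bn]
    | succ n ih =>
      refine Submodule.span_le.2 ?_
      rintro _ ⟨L, hL, rfl⟩
      have h1 := ih (Bn_mono g (by omega) (Bn_perm g hg (hperm L)))
      have h2 : Submodule.span k (Set.range fun c : G → Fin n => ((srt fun a => c a).map g).prod) ≤
          Submodule.span k
            (Set.range fun c : G → Fin (n + 1) => ((srt fun a => c a).map g).prod) := by
        refine Submodule.span_mono ?_
        rintro _ ⟨c, rfl⟩
        exact ⟨fun a => (c a).castSucc, rfl⟩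
      have h3 : ((srt fun a => L.count a).map g).prod ∈ Submodule.span k
          (Set.range fun c : G → Fin (n + 1) => ((srt fun a => c a).map g).prod) :=
        Submodule.subset_span ⟨fun a => ⟨L.count a, lt_of_le_of_lt List.count_le_length hL⟩, rfl⟩
      simpa using Submodule.add_mem _ (h2 h1) h3
  refine ⟨_, FiniteDimensional.span_of_finite k (Set.finite_range _), ?_, key n⟩
  refine (finrank_range_le_card _).trans ?_
  simp

end Bern

open MvPolynomial

variable {k : Type u} [Field k] {U : Type u} [Ring U] [Algebra k U]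

theorem map_Phi {R R' ς : Type*} [Ring R] [Algebra k R] [Ring R'] [Algebra k R'] (ρ : R →ₐ[k] R')
    (x : ς → ℕ → R) (l : List ς) (F : MvPolynomial ς k) :
    ρ (Phi (Algebra.ofId k R) x l F) = Phi (Algebra.ofId k R') (fun v n => ρ (x v n)) l F := by
  have hw : ∀ β, ρ (word x l β) = word (fun v n => ρ (x v n)) l β := by
    intro β
    induction l with
    | nil => simp [word]
    | cons v l ih => simp [word, ih]
  induction F using MvPolynomial.induction_on' with
  | monomial β b => simp [Phi_monomial, hw, Algebra.ofId_apply]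
  | add p q hp hq => simp only [map_add, hp, hq]

def LT (k : Type u) [Field k] (I : Type) [Fintype I] :
    Polynomial k →ₗ[k] Module.End k (MvPolynomial I k) where
  toFun f := (Df (fun i => X i) (fun i => pderiv i) f).toLinearMap -
    LinearMap.mulLeft k (∑ i, Polynomial.aeval (X i : MvPolynomial I k) (Polynomial.derivative f))
  map_add' f g := LinearMap.ext fun y => by
    simp [Df_apply, add_mul, Finset.sum_add_distrib]; ring
  map_smul' c f := LinearMap.ext fun y => by
    simp [Df_apply, Finset.smul_sum, smul_sub, Finset.sum_mul]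

theorem LT_apply {I : Type} [Fintype I] (f : Polynomial k) (y : MvPolynomial I k) :
    LT k I f y = Df (fun i => X i) (fun i => pderiv i) f y -
      (∑ i, Polynomial.aeval (X i : MvPolynomial I k) (Polynomial.derivative f)) * y := rfl

theorem isBr_LT {I : Type} [Fintype I] [DecidableEq I] : IsBr (LT k I) := by
  intro f g
  refine LinearMap.ext fun y => ?_
  have hX : ∀ (f : Polynomial k) i, Df (fun i => (X i : MvPolynomial I k)) (fun i => pderiv i) f (X i)
      = Polynomial.aeval (X i : MvPolynomial I k) f := by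
    intro f i
    simp [Df_apply, Pi.single_apply]
  have h1 : ⁅Df (fun i => (X i : MvPolynomial I k)) (fun i => pderiv i) f,
      Df (fun i => (X i : MvPolynomial I k)) (fun i => pderiv i) g⁆ =
      Df (fun i => (X i : MvPolynomial I k)) (fun i => pderiv i)
        (f * Polynomial.derivative g - Polynomial.derivative f * g) := by
    refine derivation_ext fun i => ?_
    simp only [Derivation.commutator_apply, hX, Derivation.map_aeval, smul_eq_mul, map_sub, map_mul]
    ring
  have h2 := DFunLike.congr_fun h1 y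
  rw [Derivation.commutator_apply] at h2
  have h4 : Polynomial.derivative (f * Polynomial.derivative g - Polynomial.derivative f * g) =
      f * Polynomial.derivative (Polynomial.derivative g) -
        g * Polynomial.derivative (Polynomial.derivative f) := by
    simp only [Polynomial.derivative_sub, Polynomial.derivative_mul]; ring
  rw [LT_apply, ← h2, h4]
  simp only [LinearMap.sub_apply, Module.End.mul_apply, LT_apply, map_sub, Derivation.leibniz,
    map_sum, Derivation.map_aeval, hX, smul_eq_mul, map_mul, Finset.sum_sub_distrib]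
  simp only [mul_comm (Polynomial.aeval _ f), mul_comm (Polynomial.aeval _ g)]
  ring

theorem LT_pow {I : Type} {ς : Type*} [Fintype I] [DecidableEq I] (v : ς) (n : ℕ) :
    LT k I (Polynomial.X ^ n) =
      xE (Algebra.lmul k (MvPolynomial I k)) (fun i => X i) (DT k) v n := by
  refine LinearMap.ext fun y => ?_
  rw [xE_DT, LT_apply, Df_apply, Finset.sum_mul, ← Finset.sum_sub_distrib]
  rfl

theorem ker_ne_bot_abstract [CharZero k] {e : Polynomial k →ₗ[k] U} (he : IsBr e)
    (huniv : ∀ (R : Type u) [Ring R] [Algebra k R] (e' : Polynomial k →ₗ[k] R), IsBr e' →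
      ∃ φ : U →ₐ[k] R, ∀ f, φ (e f) = e' f)
    {R G : Type*} [Ring R] [Algebra k R] [Fintype G] [DecidableEq G] (g : G → R)
    (hg : ∀ a b, ∃ c : k, g a * g b = g b * g a + algebraMap k R c)
    (hall : ∀ x, ∃ n, x ∈ Bn k g n) (φ : U →ₐ[k] R) : ¬ Function.Injective φ := by
  intro hφ
  obtain ⟨c, hc⟩ : ∃ c, ∀ n, φ (e (Polynomial.X ^ n)) ∈ Bn k g (c * (n + 1) + 1) := by
    choose s hs using fun n : ℕ => hall (φ (e (Polynomial.X ^ n)))
    refine ⟨s 0 + s 1 + s 2 + s 3, fun n => ?_⟩
    induction n with
    | zero => exact Bn_mono g (by omega) (hs 0)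
    | succ n ih =>
      by_cases hn : n < 3
      · refine Bn_mono g ?_ (hs (n + 1))
        interval_cases n <;> simp <;> omega
      · obtain ⟨m, rfl⟩ : ∃ m, n = m + 3 := ⟨n - 3, by omega⟩
        have h1 := he (Polynomial.X ^ 2) (Polynomial.X ^ (m + 3))
        have h2 : (Polynomial.X ^ 2 * Polynomial.derivative (Polynomial.X ^ (m + 3)) -
            Polynomial.derivative (Polynomial.X ^ 2) * Polynomial.X ^ (m + 3) : Polynomial k) =
            ((m + 1 : ℕ) : k) • Polynomial.X ^ (m + 3 + 1) := by
          rw [Polynomial.derivative_X_pow, Polynomial.derivative_X_pow, Polynomial.smul_eq_C_mul]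
          simp only [Nat.add_one_sub_one, map_natCast]
          push_cast
          ring
        rw [h2, map_smul] at h1
        rw [← Submodule.smul_mem_iff _ (Nat.cast_ne_zero.2 (Nat.succ_ne_zero m) :
          ((m + 1 : ℕ) : k) ≠ 0), ← map_smul, ← h1, map_sub, map_mul, map_mul]
        have h3 : φ (e (Polynomial.X ^ 2)) ∈ Bn k g (s 0 + s 1 + s 2 + s 3 + 1) :=
          Bn_mono g (by omega) (hs 2)
        exact Submodule.sub_mem _ (Bn_mono g (le_of_eq (by ring)) (Bn_mul g h3 ih))
          (Bn_mono g (le_of_eq (by ring)) (Bn_mul g ih h3))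
  have hmu : ∀ {ς : Type} (l : List ς) (F : MvPolynomial ς k),
      φ (mu e l F) ∈ Bn k g (c * (F.totalDegree + 1) * l.length + 1) := by
    intro ς l F
    have hw : ∀ β : ς →₀ ℕ, (∀ v, β v ≤ F.totalDegree) →
        φ (word (fun _ n => e (Polynomial.X ^ n)) l β) ∈
          Bn k g (c * (F.totalDegree + 1) * l.length + 1) := by
      intro β hβ
      induction l with
      | nil => simpa [word] using one_mem_Bn g
      | cons v l ih =>
        rw [word, map_mul]
        refine Bn_mono g ?_ (Bn_mul g ih (hc (β v)))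
        have := Nat.mul_le_mul_left c (Nat.succ_le_succ (hβ v))
        simp only [List.length_cons, Nat.succ_eq_add_one] at this ⊢
        nlinarith
    conv => enter [2, 2, 2]; rw [F.as_sum]
    rw [map_sum, map_sum]
    refine Submodule.sum_mem _ fun β hβ => ?_
    rw [mu, Phi_monomial, map_mul, Algebra.ofId_apply, AlgHom.commutes, ← Algebra.commutes,
      ← Algebra.smul_def]
    refine Submodule.smul_mem _ _ (hw β fun v => ?_)
    exact (Finsupp.le_degree v β).trans (le_totalDegree hβ)
  set m := Fintype.card G + 1 with hm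
  set l := List.finRange m with hl
  have hln : l.Nodup := List.nodup_finRange m
  have hlc : ∀ v, v ∈ l := List.mem_finRange
  set K := 2 * (2 + (pl l).length) with hK
  obtain ⟨ψ, hψ⟩ := huniv _ _ (isBr_LT (k := k) (I := Fin m))
  set F0 : MvPolynomial (Fin m × Bool) k := PP k (fun _ => top 1) l * disc k Prod.fst ^ K with hF0
  let z : MvPolynomial (Fin m) k →ₗ[k] U := mu e (pl l) ∘ₗ LinearMap.mulLeft k F0 ∘ₗ
    (rename (fun i => (i, true)) : MvPolynomial (Fin m) k →ₐ[k] _).toLinearMap
  set Θ : MvPolynomial (Fin m) k :=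
    eval (fun v : Fin m × Bool => (X v.1 : MvPolynomial (Fin m) k))
      (disc (MvPolynomial (Fin m) k) Prod.fst) ^ K with hΘ
  have hΘ0 : Θ ≠ 0 := by
    refine pow_ne_zero _ ?_
    simp only [disc, map_prod, map_sub, eval_X]
    refine Finset.prod_ne_zero_iff.2 fun p hp => sub_ne_zero.2 fun h => ?_
    exact (Finset.mem_filter.1 hp).2 (X_injective h)
  have hz : ∀ h, ψ (z h) 1 = ((-4 : k) ^ m) • (Θ * ∑ σ : Equiv.Perm (Fin m), rename σ h) := by
    intro h
    change ψ (mu e (pl l) (F0 * rename (fun i => (i, true)) h)) 1 = _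
    have hx : (fun (_ : Fin m × Bool) n => ψ (e (Polynomial.X ^ n))) =
        xE (Algebra.lmul k (MvPolynomial (Fin m) k)) (fun i => X i) (DT k) := by
      funext v n; rw [hψ, LT_pow v]
    rw [mu, map_Phi, hx, ← Phi_map (Algebra.lmul k (MvPolynomial (Fin m) k)), hF0, mul_assoc,
      map_mul (map _), map_mul (map _), map_pow, map_disc, map_PP,
      isSys_DT.pair_formula (n := fun _ => 1) (fun i α h => DT_zero i α h) (N := 2)
        (fun _ => one_lt_two) hln hlc le_rfl]
    simp only [LinearMap.coe_sum, Finset.sum_apply, Finset.mul_sum, Finset.smul_sum]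
    refine Finset.sum_congr rfl fun σ _ => ?_
    have hc : (fun i : Fin m => cc (DT k (σ i)) (top 1)) =
        fun _ => algebraMap k (Module.End k (MvPolynomial (Fin m) k)) (-4) := by
      funext i
      rw [cc_one (fun α h => DT_zero _ α h)]
      simp only [DT, one_ne_zero, if_false, if_true, map_neg, map_ofNat]
      norm_num
    have hlen : l.length = m := List.length_finRange
    rw [hc, cw_const, ← map_pow, hlen, map_mul (eval _), map_pow (eval _), eval_map_perm,
      eval_disc_perm (fun i => (X i : MvPolynomial (Fin m) k)) σ, ← hK, ← hΘ,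
      Module.End.mul_apply, Module.algebraMap_end_apply]
    simp
  have hzz : ∀ h, z h = mu e (pl l) (F0 * rename (fun i => (i, true)) h) := fun _ => rfl
  clear_value z Θ F0 K
  obtain ⟨C0, hC0⟩ : ∃ C0, C0 = c * (F0.totalDegree + m * m + 1) * (pl l).length + 1 := ⟨_, rfl⟩
  obtain ⟨n, hn⟩ : ∃ n, n = C0 ^ Fintype.card G + 1 := ⟨_, rfl⟩
  have hn0 : 0 < n := by omega
  let β : (Fin m → Fin n) → (Fin m →₀ ℕ) := fun γ =>
    Finsupp.equivFunOnFinite.symm fun i => (γ i : ℕ) + n * i
  have hβ : ∀ γ i, β γ i = (γ i : ℕ) + n * i := fun _ _ => rfl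
  have hli : LinearIndependent k fun γ => φ (z (monomial (β γ) 1)) := by
    rw [Fintype.linearIndependent_iff]
    intro a ha γ0
    have h1 : z (∑ γ, a γ • monomial (β γ) (1 : k)) = 0 := by
      refine hφ ?_
      simp only [map_sum, map_smul, map_zero]
      exact ha
    have h2 := hz (∑ γ, a γ • monomial (β γ) (1 : k))
    rw [h1, map_zero, LinearMap.zero_apply, eq_comm, smul_eq_zero, mul_eq_zero] at h2
    have h3 := congrArg (coeff (β γ0))
      ((h2.resolve_left (pow_ne_zero _ (by norm_num))).resolve_left hΘ0)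
    simp only [map_sum, map_smul, rename_monomial, coeff_sum, coeff_smul, coeff_monomial,
      coeff_zero] at h3
    have h4 : ∀ (σ : Equiv.Perm (Fin m)) γ, Finsupp.mapDomain σ (β γ) = β γ0 → σ = 1 ∧ γ = γ0 := by
      intro σ γ h
      have h5 : ∀ i, (γ i : ℕ) + n * i = γ0 (σ i) + n * σ i := by
        intro i
        rw [← hβ, ← hβ, ← h, Finsupp.mapDomain_apply σ.injective]
      have h6 : ∀ i, σ i = i := by
        intro i
        have := congrArg (· / n) (h5 i)
        simp only [Nat.add_mul_div_left _ _ hn0, Nat.div_eq_of_lt (Fin.is_lt _), zero_add] at this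
        exact Fin.ext this.symm
      refine ⟨Equiv.ext h6, funext fun i => Fin.ext ?_⟩
      have := h5 i
      rw [h6] at this
      omega
    rw [Finset.sum_eq_single 1, Finset.sum_eq_single γ0] at h3
    · simpa using h3
    · intro γ _ hγ
      rw [if_neg fun h => hγ (h4 _ _ h).2, smul_zero]
    · simp
    · intro σ _ hσ
      refine Finset.sum_eq_zero fun γ _ => ?_
      rw [if_neg fun h => hσ (h4 _ _ h).1, smul_zero]
    · simp
  obtain ⟨S, hS1, hS2, hS3⟩ := finrank_Bn g hg (C0 * n)
  have hmem : ∀ γ, φ (z (monomial (β γ) 1)) ∈ S := by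
    intro γ
    rw [hzz]
    refine hS3 (Bn_mono g ?_ (hmu (pl l) (F0 * rename (fun i => (i, true)) (monomial (β γ) 1))))
    have h1 : (F0 * rename (fun i => (i, true)) (monomial (β γ) (1 : k))).totalDegree ≤
        F0.totalDegree + m * (n * m) := by
      refine (totalDegree_mul _ _).trans (Nat.add_le_add_left ?_ _)
      refine (totalDegree_rename_le _ _).trans ((totalDegree_monomial_le _ _).trans ?_)
      rw [Finsupp.sum_fintype _ _ (by simp)]
      refine (Finset.sum_le_card_nsmul _ _ (n * m) fun i _ => ?_).trans (by simp)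
      have h2 := (γ i).is_lt
      have h3 := Nat.mul_le_mul_left n (Nat.succ_le_of_lt i.is_lt)
      simp only [id, hβ, Nat.succ_eq_add_one] at h3 ⊢
      nlinarith
    have h2 : (F0 * rename (fun i => (i, true)) (monomial (β γ) (1 : k))).totalDegree + 1 ≤
        (F0.totalDegree + m * m + 1) * n := by nlinarith
    have h3 := Nat.mul_le_mul_right (pl l).length (Nat.mul_le_mul_left c h2)
    rw [hC0]
    nlinarith
  have h5 := (LinearIndependent.of_comp S.subtype (v := fun γ => (⟨_, hmem γ⟩ : S))
    hli).fintype_card_le_finrank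
  simp only [Fintype.card_fun, Fintype.card_fin] at h5
  have h6 := h5.trans hS2
  rw [hm, pow_succ, mul_pow, mul_comm] at h6
  have := Nat.le_of_mul_le_mul_right h6 (pow_pos hn0 _)
  omega

theorem ker_ne_bot [CharZero k] (m : ℕ)
    (φ : UniversalEnvelopingAlgebra k (Derivation k (Polynomial k) (Polynomial k)) →ₐ[k] Weyl k m) :
    RingHom.ker φ ≠ ⊥ := by
  intro h
  refine ker_ne_bot_abstract isBr_eW univ_eW (H82Weyl.gen k m) ?_ ?_ φ
    ((RingHom.injective_iff_ker_eq_bot φ).2 h)
  · rintro (i | i) (j | j)
    · exact ⟨0, by rw [H82Weyl.gen_ss]; simp⟩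
    · refine ⟨-(if j = i then 1 else 0), ?_⟩
      rw [H82Weyl.gen_ds]; split_ifs <;> simp
    · refine ⟨if i = j then 1 else 0, ?_⟩
      rw [H82Weyl.gen_ds]; split_ifs <;> simp
    · exact ⟨0, by rw [H82Weyl.gen_dd]; simp⟩
  · intro x
    refine H82Weyl.induction k m (P := fun x => ∃ n, x ∈ Bn k (H82Weyl.gen k m) n) ?_ ?_ ?_ ?_ x
    · intro c
      refine ⟨1, ?_⟩
      rw [Algebra.algebraMap_eq_smul_one]
      exact Submodule.smul_mem _ _ (one_mem_Bn _)
    · exact fun a => ⟨2, gen_mem_Bn _ a⟩
    · rintro a b ⟨i, hi⟩ ⟨j, hj⟩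
      exact ⟨i + j, Bn_mul _ (Bn_mono _ (Nat.le_succ i) hi) hj⟩
    · rintro a b ⟨i, hi⟩ ⟨j, hj⟩
      exact ⟨i + j, Submodule.add_mem _ (Bn_mono _ (by omega) hi) (Bn_mono _ (by omega) hj)⟩

end

end Pool.Agent.Lib.MP_4da284_al.Q1
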