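import Pool.Agent.Lib.MP_4da284_al.H78Mu

namespace Pool.Agent.Lib.MP_4da284_al.Q1

open MvPolynomial

noncomputable section

variable {k U ς : Type*} [Field k] [Ring U] [Algebra k U]

theorem exists_const_of_pderiv [CharZero k] (J : Set (MvPolynomial ς k))
    (hJ : ∀ v, ∀ G ∈ J, pderiv v G ∈ J) {G : MvPolynomial ς k} (hG : G ∈ J) (h0 : G ≠ 0) :
    ∃ c : k, c ≠ 0 ∧ C c ∈ J := by
  classical
  induction hn : G.totalDegree using Nat.strong_induction_on generalizing G with
  | _ n ih =>
    by_cases h : n = 0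
    · subst h
      rw [totalDegree_eq_zero_iff_eq_C] at hn
      refine ⟨coeff 0 G, fun h => h0 ?_, hn ▸ hG⟩
      rw [hn, h, C_0]
    · obtain ⟨β, hβ, hβn⟩ := Finset.exists_mem_eq_sup G.support (support_nonempty.2 h0)
        (fun s => s.sum fun _ e => e)
      have hβ0 : β ≠ 0 := by
        rintro rfl
        apply h
        rw [← hn, totalDegree, hβn]; simp
      obtain ⟨v, hv⟩ := Finsupp.ne_iff.1 hβ0
      have hv' : Finsupp.single v 1 ≤ β := by
        rw [Finsupp.single_le_iff]; simp at hv; omega
      refine ih (pderiv v G).totalDegree ?_ (hJ v G hG) ?_ rfl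
      · rw [totalDegree, Finset.sup_lt_iff (Nat.pos_of_ne_zero h)]
        intro γ hγ
        rw [mem_support_iff, coeff_pderiv] at hγ
        have := le_totalDegree (mem_support_iff.2 (left_ne_zero_of_mul hγ))
        rw [Finsupp.sum_add_index' (by simp) (by simp), Finsupp.sum_single_index (by simp)] at this
        omega
      · intro h1
        have := coeff_pderiv (i := v) G (β - Finsupp.single v 1)
        rw [h1, coeff_zero, tsub_add_cancel_of_le hv'] at this
        refine mul_ne_zero (mem_support_iff.1 hβ) ?_ this.symm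
        exact Nat.cast_add_one_ne_zero _

theorem disc_pow_mem [CharZero k] [Fintype ς] [DecidableEq ς] (I : Ideal (MvPolynomial ς k))
    (hI : I ≠ ⊥) (hD : ∀ f : Polynomial k, ∀ G ∈ I,
      ∑ v, Polynomial.aeval (X v : MvPolynomial ς k) f * pderiv v G ∈ I) :
    ∃ K, disc k (id : ς → ς) ^ K ∈ I := by
  have h1 : ∀ g : Polynomial (MvPolynomial ς k), ∀ G ∈ I,
      ∑ v, g.eval (X v) * pderiv v G ∈ I := by
    intro g G hG
    induction g using Polynomial.induction_on' with
    | monomial n a =>
      have := I.mul_mem_left a (hD (Polynomial.X ^ n) G hG)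
      simpa [Finset.mul_sum, mul_assoc] using this
    | add p q hp hq =>
      simp only [Polynomial.eval_add, add_mul, Finset.sum_add_distrib]
      exact I.add_mem hp hq
  have h2 : ∀ i, ∃ c, ∀ G ∈ I, disc k (id : ς → ς) ^ c * pderiv i G ∈ I := by
    intro i
    have hd : (∏ j ∈ Finset.univ.erase i, (X i - X j : MvPolynomial ς k)) ∣
        disc k (id : ς → ς) ^ (Finset.univ.erase i).card := by
      rw [← Finset.prod_const]
      exact Finset.prod_dvd_prod_of_dvd _ _ fun j hj =>
        dvd_disc id (Finset.ne_of_mem_erase hj).symm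
    obtain ⟨a, ha⟩ := hd
    refine ⟨(Finset.univ.erase i).card, fun G hG => ?_⟩
    have := h1 (∏ j ∈ Finset.univ.erase i, (Polynomial.X - Polynomial.C (X j))) G hG
    rw [Finset.sum_eq_single i] at this
    · rw [ha, mul_comm _ a, mul_assoc]
      refine I.mul_mem_left a ?_
      simpa [Polynomial.eval_prod] using this
    · intro v _ hv
      rw [Polynomial.eval_prod, Finset.prod_eq_zero (i := v) (by simp [hv]) (by simp), zero_mul]
    · simp
  obtain ⟨G, hG, h0⟩ := Submodule.exists_mem_ne_zero_of_ne_bot hI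
  obtain ⟨c, hc, r, hr⟩ := exists_const_of_pderiv {G | ∃ r, disc k (id : ς → ς) ^ r * G ∈ I}
    (G := G) (by
      rintro v G ⟨r, hr⟩
      obtain ⟨c, hc⟩ := h2 v
      have h3 := hc _ (I.mul_mem_left (disc k id) hr)
      rw [← mul_assoc (disc k id), ← pow_succ', Derivation.leibniz, Derivation.leibniz_pow] at h3
      have h4 := I.mul_mem_left (disc k id ^ c *
        (((r + 1 : ℕ) : MvPolynomial ς k) * pderiv v (disc k (id : ς → ς)))) hr
      refine ⟨c + (r + 1), ?_⟩
      have := I.sub_mem h3 h4
      convert this using 1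
      simp only [smul_eq_mul, nsmul_eq_mul, Nat.add_sub_cancel]
      ring) ⟨0, by simpa using hG⟩ h0
  refine ⟨r, ?_⟩
  have := I.mul_mem_left (C c⁻¹) hr
  rwa [mul_left_comm, ← C_mul, inv_mul_cancel₀ hc, C_1, mul_one] at this

/- the adjoint action on polynomials in several variables as a system of points -/
def DT (k : Type*) [Field k] {I : Type*} (i : I) (α : ℕ) : Module.End k (MvPolynomial I k) :=
  if α = 0 then (pderiv i).toLinearMap else if α = 1 then -2 else 0

theorem isSys_DT {I : Type*} [DecidableEq I] :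
    IsSys (Algebra.lmul k (MvPolynomial I k)) (fun i => X i) (fun i => pderiv i) (DT k) where
  hd i j := by
    rw [pderiv_X, Pi.single_apply]
    simp [eq_comm]
  h0 i b := by
    refine LinearMap.ext fun y => ?_
    simp [DT, mul_comm]
  h1 i α b hα := by
    refine LinearMap.ext fun y => ?_
    simp only [DT, if_neg hα]
    split_ifs <;> simp [mul_left_comm]

theorem DT_zero {I : Type*} (i : I) (α : ℕ) (h : 1 < α) : DT k i α = 0 := by
  simp only [DT]; rw [if_neg (by omega), if_neg (by omega)]

theorem xE_DT {I : Type*} [Fintype I] [DecidableEq I] (v : ς) (n : ℕ) (G : MvPolynomial I k) :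
    xE (Algebra.lmul k (MvPolynomial I k)) (fun i => X i) (DT k) v n G =
      ∑ i, Lv (Polynomial.X ^ n) i G := by
  simp only [xE, LinearMap.coe_sum, Finset.sum_apply]
  refine Finset.sum_congr rfl fun i _ => ?_
  rw [phi1_apply, psum_eq_sum _ _ 2 (fun α h => DT_zero i α h)]
  simp only [Finset.sum_range_succ, Finset.range_zero, Finset.sum_empty, zero_add,
    Polynomial.taylor_coeff_zero, Polynomial.taylor_coeff_one]
  simp [DT, Lv, Polynomial.derivative_X_pow]
  ring

def adE (e : Polynomial k →ₗ[k] U) : ς → ℕ → Module.End k U :=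
  fun _ n => LinearMap.mulLeft k (e (Polynomial.X ^ n)) - LinearMap.mulRight k (e (Polynomial.X ^ n))

theorem ad_mu {I : Type*} [Fintype I] [DecidableEq I] {e : Polynomial k →ₗ[k] U} (he : IsBr e)
    {l' : List I} (hl : l'.Nodup) (hc : ∀ v, v ∈ l') (l : List ς) (F : MvPolynomial ς k)
    (G : MvPolynomial I k) :
    Phi (Algebra.ofId k _) (adE e) l F (mu e l' G) =
      mu e l' (Phi (Algebra.lmul k (MvPolynomial I k))
        (xE (Algebra.lmul k (MvPolynomial I k)) (fun i => X i) (DT k)) l
          (map (algebraMap k _) F) G) := by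
  rw [Phi_map]
  refine (Phi_intertwine (mu e l')
    (xE (Algebra.lmul k (MvPolynomial I k)) (fun i => X i) (DT k)) (adE e) ?_ l F G).symm
  intro v n y
  simp only [Module.End.smul_def, xE_DT, adE, LinearMap.sub_apply, LinearMap.mulLeft_apply,
    LinearMap.mulRight_apply]
  exact (mu_comm he _ hl hc y).symm

theorem cw_const {J R : Type*} [Ring R] (c : R) (lp : List J) :
    cw (fun _ => c) lp = c ^ lp.length := by
  induction lp with
  | nil => simp [cw]
  | cons m lp ih => simp [cw, ih, pow_succ]

theorem eval_map_perm {I : Type*} (σ : I → I) (h : MvPolynomial I k) :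
    eval (fun v : I × Bool => (X (σ v.1) : MvPolynomial I k))
      (map (algebraMap k _) (rename (fun i => (i, true)) h)) = rename σ h := by
  induction h using MvPolynomial.induction_on with
  | C a => simp
  | add p q hp hq => simp only [map_add, hp, hq]
  | mul_X p w hp => simp only [map_mul, hp]; simp

theorem eval_disc_perm {I A : Type*} [CommRing A] [Fintype I] [DecidableEq I] (t : I → A)
    (σ : Equiv.Perm I) :
    eval (fun v : I × Bool => t (σ v.1)) (disc A Prod.fst) =
      eval (fun v : I × Bool => t v.1) (disc A Prod.fst) := by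
  simp only [disc, map_prod, map_sub, eval_X]
  refine Finset.prod_equiv ((σ.prodCongr (Equiv.refl Bool)).prodCongr
    (σ.prodCongr (Equiv.refl Bool))) ?_ ?_
  · intro p; simp
  · intro p _; simp

theorem thmA [CharZero k] {e : Polynomial k →ₗ[k] U} (he : IsBr e)
    (hgen : Algebra.adjoin k (Set.range e) = ⊤) (Q : Ideal U) (hQ : ∀ q ∈ Q, ∀ u, q * u ∈ Q)
    (h0 : Q ≠ ⊥) : ∃ m K : ℕ, ∀ H : MvPolynomial (Fin m) k,
      mu e (List.finRange m) (disc k id ^ K * H) ∈ Q := by
  classical
  obtain ⟨q, hq, hq0⟩ := Submodule.exists_mem_ne_zero_of_ne_bot h0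
  have hex := exists_Fil hgen q
  obtain ⟨m, hm1, hm2⟩ : ∃ m, q ∈ Fil e (m + 1) ∧ q ∉ Fil e m := by
    have h1 := Nat.find_spec hex
    have h2 : Nat.find hex ≠ 0 := by
      intro h
      rw [h] at h1
      simp [Fil] at h1
      exact hq0 h1
    refine ⟨Nat.find hex - 1, ?_, Nat.find_min hex (by omega)⟩
    rwa [Nat.sub_add_cancel (by omega)]
  obtain ⟨H0, hH0⟩ := exists_mu_of_Fil e hm1
  set l := List.finRange m with hl
  have hln : l.Nodup := List.nodup_finRange m
  have hlc : ∀ v, v ∈ l := List.mem_finRange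
  set K := 2 * (2 + (pl l).length) with hK
  let Z : MvPolynomial (Fin m) k → Module.End k U := fun h =>
    Phi (Algebra.ofId k _) (adE e) (pl l) (PP k (fun _ => top 1) l *
      (disc k Prod.fst ^ K * rename (fun i => (i, true)) h))
  have ZQ : ∀ h, ∀ y ∈ Q, Z h y ∈ Q := by
    intro h y hy
    refine Phi_stable (Q.restrictScalars k) (adE e) ?_ (pl l) _ hy
    intro v n y hy
    exact Q.sub_mem (Q.mul_mem_left _ hy) (hQ _ hy _)
  have Zlow : ∀ h, ∀ y ∈ Fil e m, Z h y = 0 := by
    intro h y hy
    induction hy using Submodule.span_induction with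
    | mem x hx =>
      obtain ⟨L, hL, rfl⟩ := hx
      obtain ⟨G, hG⟩ := rprod_eq_mu e L
      rw [← hG]
      simp only [Z]
      rw [ad_mu he (List.nodup_finRange _) List.mem_finRange, mul_left_comm, map_mul, map_pow,
        map_disc, isSys_DT.pigeon Prod.fst Prod.fst_surjective (by simpa using hL)
          (N := 2) (fun i α h => DT_zero i α h) (nodup_pl hln) (fun v => mem_pl.2 (hlc _)) le_rfl]
      simp
    | zero => simp
    | add a b _ _ ha hb => rw [map_add, ha, hb, add_zero]
    | smul c a _ ha => rw [map_smul, ha, smul_zero]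
  set Θ : MvPolynomial (Fin m) k :=
    eval (fun v : Fin m × Bool => (X v.1 : MvPolynomial (Fin m) k))
      (disc (MvPolynomial (Fin m) k) Prod.fst) ^ K with hΘ
  have hΘ0 : Θ ≠ 0 := by
    refine pow_ne_zero _ ?_
    simp only [disc, map_prod, map_sub, eval_X]
    refine Finset.prod_ne_zero_iff.2 fun p hp => sub_ne_zero.2 fun h => ?_
    exact (Finset.mem_filter.1 hp).2 (X_injective h)
  have Ztop : ∀ h G, Z h (mu e l G) =
      ((-4 : k) ^ m) • mu e l (Θ * ((∑ σ : Equiv.Perm (Fin m), rename σ h) * G)) := by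
    intro h G
    simp only [Z]
    rw [ad_mu he hln hlc, map_mul (map _), map_mul (map _), map_pow, map_disc, map_PP,
      isSys_DT.pair_formula (n := fun _ => 1) (fun i α h => DT_zero i α h) (N := 2)
        (fun _ => one_lt_two) hln hlc le_rfl, ← map_smul]
    congr 1
    simp only [LinearMap.coe_sum, Finset.sum_apply, Finset.sum_mul, Finset.mul_sum,
      Finset.smul_sum]
    refine Finset.sum_congr rfl fun σ _ => ?_
    have hc : (fun i : Fin m => cc (DT k (σ i)) (top 1)) =
        fun _ => algebraMap k (Module.End k (MvPolynomial (Fin m) k)) (-4) := by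
      funext i
      rw [cc_one (fun α h => DT_zero _ α h)]
      simp only [DT, one_ne_zero, if_false, if_true, map_neg, map_ofNat]
      norm_num
    have hlen : l.length = m := List.length_finRange
    rw [hc, cw_const, ← map_pow, hlen, map_mul (eval _), map_pow (eval _), eval_map_perm,
      eval_disc_perm (fun i => (X i : MvPolynomial (Fin m) k)) σ, ← hK, ← hΘ]
    rw [Module.End.mul_apply, Module.algebraMap_end_apply]
    simp [mul_assoc]
  have h4 : ((-4 : k) ^ m) ≠ 0 := pow_ne_zero _ (by norm_num)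
  have hfac : ((Fintype.card (Equiv.Perm (Fin m)) : ℕ) : k) ≠ 0 := by
    exact_mod_cast Fintype.card_ne_zero
  -- consequences
  have hA : ∀ G, (∃ y ∈ Q, y - mu e l G ∈ Fil e m) → ∀ h,
      mu e l (Θ * ((∑ σ : Equiv.Perm (Fin m), rename σ h) * G)) ∈ Q := by
    rintro G ⟨y, hy, hG⟩ h
    have h1 := Zlow h _ hG
    rw [map_sub, sub_eq_zero, Ztop] at h1
    have h2 := ZQ h y hy
    rw [h1] at h2
    exact (Submodule.smul_mem_iff (Q.restrictScalars k) h4).1 h2
  have hB : ∀ G, mu e l G ∈ Fil e m → mu e l (Θ * G) = 0 := by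
    intro G hG
    have h1 := Zlow 1 _ hG
    rw [Ztop] at h1
    simp only [map_one, Finset.sum_const, Finset.card_univ, ← Nat.cast_smul_eq_nsmul k,
      smul_mul_assoc, one_mul, mul_smul_comm, map_smul, smul_eq_zero, h4, hfac, false_or] at h1
    exact h1
  set G0 := ∑ σ : Equiv.Perm (Fin m), rename σ H0 with hG0
  have hG0s : ∀ τ : Equiv.Perm (Fin m), rename τ G0 = G0 := by
    intro τ
    rw [hG0, map_sum]
    refine Fintype.sum_equiv (Equiv.mulLeft τ) _ _ fun σ => ?_
    rw [rename_rename]; rfl
  have hsum : ∀ F : MvPolynomial (Fin m) k, mu e l (∑ σ : Equiv.Perm (Fin m), rename σ F) -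
      ((Fintype.card (Equiv.Perm (Fin m)) : ℕ) : k) • mu e l F ∈ Fil e m := by
    intro F
    rw [map_sum, Nat.cast_smul_eq_nsmul, ← Finset.card_univ, ← Finset.sum_const,
      ← Finset.sum_sub_distrib]
    exact Submodule.sum_mem _ fun σ _ => mu_symm he σ F
  have hG0Q : ((Fintype.card (Equiv.Perm (Fin m)) : ℕ) : k) • q - mu e l G0 ∈ Fil e m := by
    have := Submodule.sub_mem _ (Submodule.smul_mem _
      ((Fintype.card (Equiv.Perm (Fin m)) : ℕ) : k) hH0) (hsum H0)
    convert this using 1
    rw [smul_sub]; abel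
  have hG00 : G0 ≠ 0 := by
    intro h
    rw [h, map_zero, sub_zero] at hG0Q
    exact hm2 ((Submodule.smul_mem_iff _ hfac).1 hG0Q)
  have hC : ∀ a, mu e l (a * (Θ * G0)) ∈ Q := by
    intro a
    have h1 := hA G0 ⟨_, Submodule.smul_of_tower_mem Q _ hq, hG0Q⟩ a
    have h2 := hsum (a * G0)
    rw [← map_smul, ← map_sub] at h2
    have h3 := hB _ h2
    simp only [map_mul, hG0s, ← Finset.sum_mul] at h3
    rw [mul_sub, map_sub, sub_eq_zero, mul_smul_comm, map_smul] at h3
    rw [h3] at h1
    have := (Submodule.smul_mem_iff (Q.restrictScalars k) hfac).1 h1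
    rwa [mul_left_comm] at this
  let I : Ideal (MvPolynomial (Fin m) k) :=
    { carrier := {G | ∀ a, mu e l (a * G) ∈ Q}
      add_mem' := fun {x y} hx hy a => by rw [mul_add, map_add]; exact Q.add_mem (hx a) (hy a)
      zero_mem' := fun a => by simp
      smul_mem' := fun c x hx a => by rw [smul_eq_mul, ← mul_assoc]; exact hx _ }
  obtain ⟨K', hK'⟩ := disc_pow_mem I
    (fun h => mul_ne_zero hΘ0 hG00 (by
      have : Θ * G0 ∈ I := hC
      rwa [h] at this)) (by
      intro f G hG a
      have h1 : mu e l (∑ v, Lv f v (a * G)) ∈ Q := by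
        rw [← mu_comm he f hln hlc]
        exact Q.sub_mem (Q.mul_mem_left _ (hG a)) (hQ _ (hG a) _)
      have h2 := hG (∑ v, Lv f v a)
      have := Q.sub_mem h1 h2
      rw [← map_sub] at this
      convert this using 2
      rw [Finset.mul_sum, Finset.sum_mul, ← Finset.sum_sub_distrib]
      refine Finset.sum_congr rfl fun v _ => ?_
      simp only [Lv, Derivation.leibniz, smul_eq_mul]
      ring)
  exact ⟨m, K', fun H => by rw [mul_comm]; exact hK' H⟩

end

end Pool.Agent.Lib.MP_4da284_al.Q1
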