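import Pool.Agent.Lib.MP_4da284_al.H78Cov
import Pool.Agent.Lib.MP_4da284_al.H78ThmA

namespace Pool.Agent.Lib.MP_4da284_al.Q1

open Polynomial

noncomputable section

universe u

variable {k : Type u} [Field k] {U : Type u} [Ring U] [Algebra k U]
  {I : Type} {A R : Type u} [Fintype I] [DecidableEq I] [CommRing A] [Algebra k A]
  [Ring R] [Algebra k R] {e : k[X] →ₗ[k] U} {M : Type u} [AddCommGroup M] [Module k M]
  [Module U M] [IsScalarTower k U M]
  {ι : A →ₐ[k] R} {t : I → A} {d : I → Derivation k A A} {n : I → ℕ}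

theorem Cov.j_inj [IsSimpleModule U M] (hgen : Algebra.adjoin k (Set.range e) = ⊤)
    (c : Cov e M ι t d n) : Function.Injective c.j := by
  let P : Submodule U M := subOf hgen (LinearMap.ker c.j) (by
    rintro _ ⟨f, rfl⟩ y hy
    rw [LinearMap.mem_ker] at hy ⊢
    rw [c.lin, hy, smul_zero])
  rcases eq_bot_or_eq_top P with h | h
  · rw [← LinearMap.ker_eq_bot, eq_bot_iff]
    intro y hy
    have : y ∈ P := hy
    rwa [h] at this
  · refine absurd (LinearMap.ext fun y => ?_) c.ne
    have : y ∈ P := h ▸ Submodule.mem_top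
    exact this

abbrev Cov.ρ (c : Cov e M ι t d n) : R →ₐ[k] Module.End k c.X := Algebra.lsmul k k c.X

omit [IsScalarTower k U M] in
theorem Cov.topX (c : Cov e M ι t d n) (i : I) (α : ℕ) (h : n i < α) : c.ρ (c.D i α) = 0 :=
  LinearMap.ext fun x => c.top i α h x

theorem Cov.j_mu (c : Cov e M ι t d n) {ς : Type*} (l : List ς) (F : MvPolynomial ς k) (v : M) :
    c.j (mu e l F • v) = Phi (c.ρ.comp ι) (xE (c.ρ.comp ι) t fun i α => c.ρ (c.D i α)) l
      (MvPolynomial.map (algebraMap k A) F) (c.j v) := by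
  rw [Phi_map]
  refine Phi_intertwine c.j _ (xE (c.ρ.comp ι) t fun i α => c.ρ (c.D i α)) ?_ l F v
  intro _ m y
  have := (c.loc.map c.ρ).taylor (Polynomial.X ^ m)
  simp only [Polynomial.map_pow, map_X] at this
  rw [c.lin, xE, ← this]; rfl

theorem Cov.not_kill [IsSimpleModule U M] (hgen : Algebra.adjoin k (Set.range e) = ⊤)
    {l : List I} (hl : l.Nodup) (hc : ∀ v, v ∈ l)
    (hne : ∀ K, ∃ (H : MvPolynomial I k) (v : M), mu e l (disc k id ^ K * H) • v ≠ 0)
    (c : Cov e M ι t d n) (i : I) (hi : n i = 1) (h1 : ∀ x : c.X, (c.D i 1 + 1) • x = 0)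
    (h0 : ∀ v, c.D i 0 • c.j v = 0) : False := by
  set N := Finset.univ.sup n + 1 with hN
  obtain ⟨H, v, hv⟩ := hne (2 * (N + l.length))
  refine hv (c.j_inj hgen ?_)
  have hL := c.loc.map c.ρ
  have hS : IsSys (c.ρ.comp ι) (fun j : {j // j ≠ i} => t j) (fun j => d j)
      (fun j α => c.ρ (c.D j α)) :=
    { hd := fun a b => by rw [hL.sys.hd]; simp [Subtype.ext_iff]
      h0 := fun a b => hL.sys.h0 a b
      h1 := fun a α b hα => hL.sys.h1 a α b hα }
  have hp := hS.pigeon (id : I → I) Function.surjective_id (by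
      simp only [ne_eq, Fintype.card_subtype_compl, Fintype.card_unique]
      have : 0 < Fintype.card I := Fintype.card_pos_iff.2 ⟨i⟩
      omega) (N := N) (fun a α hα => c.topX _ _ (by
      have := Finset.le_sup (f := n) (Finset.mem_univ (a : I))
      omega)) hl hc le_rfl (MvPolynomial.map (algebraMap k A) H)
  rw [← map_disc (k := k), ← map_pow, ← map_mul, Phi_map] at hp
  rw [map_zero, mu, Phi_intertwine c.j _ (xE (c.ρ.comp ι) (fun j : {j // j ≠ i} => t j)
    (fun j α => c.ρ (c.D j α))) ?_, hp, zero_smul]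
  intro _ m y
  have h2 := hL.taylor (Polynomial.X ^ m)
  simp only [Polynomial.map_pow, map_X] at h2
  rw [c.lin, xE]
  change (c.ρ.toLinearMap ∘ₗ c.e') (Polynomial.X ^ m) (c.j y) = _
  rw [h2, ← Finset.add_sum_erase _ _ (Finset.mem_univ i), LinearMap.add_apply,
    Finset.sum_subtype (Finset.univ.erase i) (p := fun j => j ≠ i) (by simp), Module.End.smul_def]
  have hD1 : c.ρ (c.D i 1) = -1 := LinearMap.ext fun x => by
    have := h1 x
    rwa [add_smul, one_smul, add_eq_zero_iff_eq_neg] at this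
  have : phi1 (c.ρ.comp ι) (t i) (fun α => c.ρ (c.D i α)) (Polynomial.X ^ m) (c.j y) = 0 := by
    rw [phi1_apply, psum_eq_sum _ _ 2 (fun α hα => c.topX i α (by omega))]
    simp only [Finset.sum_range_succ, Finset.range_zero, Finset.sum_empty, zero_add,
      taylor_coeff_zero, taylor_coeff_one, hL.sys.h0, hD1]
    have hd : d i (eval (t i) (Polynomial.X ^ m)) = eval (t i) (derivative (Polynomial.X ^ m)) := by
      simp [derivative_X_pow, c.loc.sys.hd]
    rw [hd, neg_one_mul, add_neg_cancel_right, Module.End.mul_apply]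
    change (c.ρ.comp ι) _ (c.D i 0 • c.j y) = 0
    rw [h0, map_zero]
  rw [this, zero_add]

theorem Cov.cancel [CharZero k] [IsSimpleModule U M] (hgen : Algebra.adjoin k (Set.range e) = ⊤)
    {l : List I} (hl : l.Nodup) (hc : ∀ v, v ∈ l)
    (hne : ∀ K, ∃ (H : MvPolynomial I k) (v : M), mu e l (disc k id ^ K * H) • v ≠ 0)
    (c : Cov e M ι t d n)
    (hmin : ∀ n' : I → ℕ, ∑ i, n' i < ∑ i, n i → IsEmpty (Cov e M ι t d n')) (i : I)
    (x : Module.End k c.X) (hx : x ∈ adNil (c.ρ.comp ι))
    (h : x * cc (fun α => c.ρ (c.D i α)) (Q1.top (n i)) = 0) : x = 0 := by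
  have hL := c.loc.map c.ρ
  have hup : ∀ m, m < n i → IsEmpty (Cov e M ι t d (Function.update n i m)) := by
    intro m hm
    refine hmin _ ?_
    rw [Finset.sum_update_of_mem (Finset.mem_univ i),
      ← Finset.add_sum_erase _ n (Finset.mem_univ i), Finset.sdiff_singleton_eq_erase]
    omega
  have hsurj : ∀ (x z : Module.End k c.X), Function.Surjective z → x * z = 0 → x = 0 := by
    intro x z hz h
    refine LinearMap.ext fun y => ?_
    obtain ⟨y, rfl⟩ := hz y
    exact LinearMap.congr_fun h y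
  have htop : n i ≠ 0 → Function.Surjective (c.ρ (c.D i (n i))) := fun hi =>
    c.top_surj i hi (hup _ (by omega))
  by_cases h0 : n i = 0
  · rw [h0, cc_zero (fun α hα => c.topX i α (by omega)), mul_neg, neg_eq_zero] at h
    refine cancel_der (a := t i) ?_ hx h
    rw [hL.sys.h0, hL.sys.hd, if_pos rfl, map_one]
  by_cases h1 : n i = 1
  · have hs1 := htop h0
    rw [h1] at hs1
    have hs2 : Function.Surjective (c.ρ (c.D i 1) + 1 : Module.End k c.X) := by
      obtain ⟨Y, hY⟩ := c.exists_image (c.D i 1 + 1)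
        (fun a => by rw [add_mul, mul_add, c.loc.sys.h1 i 1 a one_ne_zero]; simp) (by
          intro j α x
          by_cases hj : j = i
          · subst hj
            rcases α with _ | _ | α
            · exact ⟨c.D j 0 • x, by
                simp only [← mul_smul, add_mul, mul_add, c.loc.zero, mul_one, one_mul]⟩
            · exact ⟨c.D j 1 • x, by
                simp only [← mul_smul, add_mul, mul_add, zero_add, mul_one, one_mul]⟩
            · exact ⟨0, by rw [c.top j _ (by omega), smul_zero]⟩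
          · exact ⟨c.D j α • x, by
              simp only [← mul_smul, add_mul, mul_add, c.loc.far j i _ _ hj, mul_one, one_mul]⟩)
      intro y
      by_contra hy
      have hY' : Y ≠ ⊤ := by
        intro hY'
        obtain ⟨z, hz⟩ := (hY y).1 (hY' ▸ Submodule.mem_top)
        exact hy ⟨z, by rw [← hz, add_smul, one_smul]; rfl⟩
      let c' := c.quot Y hY' n (fun j α hα x => by rw [c.top j α hα]; exact Y.zero_mem)
      have hc' : ∀ x : c'.X, (c'.D i 1 + 1) • x = 0 := by
        intro x
        obtain ⟨x, rfl⟩ := Y.mkQ_surjective x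
        exact (Submodule.Quotient.mk_eq_zero Y).2 ((hY _).2 ⟨x, rfl⟩)
      rcases c'.twist_or i h1 hc' with ⟨⟨c''⟩⟩ | h
      · exact (hup 0 (by omega)).false c''
      · exact c'.not_kill hgen hl hc hne i h1 hc' h
    rw [h1, cc_one (fun α hα => c.topX i α (by omega)), ← mul_assoc, ← mul_assoc] at h
    have h3 := hsurj _ _ hs1 (hsurj _ _ hs2 h)
    rw [mul_neg, neg_eq_zero, mul_two, ← two_smul k, smul_eq_zero] at h3
    exact h3.resolve_left two_ne_zero
  · rw [cc_two (by omega) (fun α hα => c.topX i α hα), mul_smul_comm, ← Int.cast_smul_eq_zsmul k,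
      smul_eq_zero, ← mul_assoc] at h
    refine hsurj _ _ (htop h0) (hsurj _ _ (htop h0) (h.resolve_left ?_))
    have : (2 * n i).choose (n i) ≠ 0 := (Nat.choose_pos (by omega)).ne'
    push_cast
    exact mul_ne_zero (pow_ne_zero _ (by norm_num)) (Nat.cast_ne_zero.2 this)

theorem Cov.ker_eq [CharZero k] [IsSimpleModule U M] (hB : Base k t d)
    (hgen : Algebra.adjoin k (Set.range e) = ⊤) {l : List I} (hl : l.Nodup) (hc : ∀ v, v ∈ l)
    (hne : ∀ K, ∃ (H : MvPolynomial I k) (v : M), mu e l (disc k id ^ K * H) • v ≠ 0)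
    (c : Cov e M ι t d n)
    (hmin : ∀ n' : I → ℕ, ∑ i, n' i < ∑ i, n i → IsEmpty (Cov e M ι t d n'))
    (φ : U →ₐ[k] Module.End k c.X) (hφ : ∀ f, φ (e f) = c.ρ (c.e' f)) :
    RingHom.ker φ = Module.annihilator U M := by
  have hL := c.loc.map c.ρ
  have hj : ∀ u v, c.j (u • v) = φ u (c.j v) := by
    intro u
    have hu : u ∈ Algebra.adjoin k (Set.range e) := hgen ▸ Algebra.mem_top
    induction hu using Algebra.adjoin_induction with
    | mem x hx => obtain ⟨f, rfl⟩ := hx; intro v; rw [c.lin, hφ]; rfl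
    | algebraMap r => intro v; simp
    | add a b _ _ ha hb => intro v; simp [add_smul, ha, hb]
    | mul a b _ _ ha hb => intro v; simp [mul_smul, ha, hb]
  have hφN : ∀ u, φ u ∈ adNil (c.ρ.comp ι) := by
    intro u
    have hu : u ∈ Algebra.adjoin k (Set.range e) := hgen ▸ Algebra.mem_top
    induction hu using Algebra.adjoin_induction with
    | mem x hx =>
      obtain ⟨f, rfl⟩ := hx
      rw [hφ]
      exact mem_adNil_of_comm fun b => ⟨_, hL.comm f b⟩
    | algebraMap r => rw [AlgHom.commutes]; exact Subalgebra.algebraMap_mem _ _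
    | add a b _ _ ha hb => rw [map_add]; exact Subalgebra.add_mem _ ha hb
    | mul a b _ _ ha hb => rw [map_mul]; exact Subalgebra.mul_mem _ ha hb
  have hDN : ∀ i α, c.ρ (c.D i α) ∈ adNil (c.ρ.comp ι) := by
    intro i α
    refine mem_adNil_of_comm fun b => ?_
    by_cases hα : α = 0
    · subst hα; exact ⟨_, hL.sys.h0 i b⟩
    · exact ⟨0, by rw [hL.sys.h1 i α b hα]; simp⟩
  ext q
  rw [RingHom.mem_ker, Module.mem_annihilator]
  refine ⟨fun h v => c.j_inj hgen (by rw [hj, h, map_zero]; rfl), fun hq => ?_⟩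
  set N := Finset.univ.sup n + 1 with hN
  set K := 2 * (N + (pl l).length) with hK
  set Θ := MvPolynomial.eval (fun v : I × Bool => t v.1) (disc A Prod.fst) ^ K with hΘ
  have hΘu : IsUnit Θ := by
    refine IsUnit.pow _ ?_
    simp only [disc, map_prod, map_sub, MvPolynomial.eval_X]
    exact IsUnit.prod_iff.2 fun p hp => hB.unit _ _ (Finset.mem_filter.1 hp).2
  have hev : ∀ (σ : I → I) (h : MvPolynomial I k),
      MvPolynomial.eval (fun v : I × Bool => t (σ v.1)) (MvPolynomial.map (algebraMap k A)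
        (MvPolynomial.rename (fun i => (i, true)) h)) =
        MvPolynomial.aeval (fun i => t (σ i)) h := by
    intro σ h
    induction h using MvPolynomial.induction_on with
    | C a => simp
    | add p q hp hq => simp only [map_add, hp, hq]
    | mul_X p w hp => simp only [map_mul, hp]; simp
  let S : Equiv.Perm I → Module.End k c.X := fun σ =>
    φ q * cw (fun m => cc (fun α => c.ρ (c.D (σ m) α)) (Q1.top (n m))) l * (c.ρ.comp ι) Θ
  have hcw : ∀ σ : Equiv.Perm I,
      cw (fun m => cc (fun α => c.ρ (c.D (σ m) α)) (Q1.top (n m))) l ∈ adNil (c.ρ.comp ι) :=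
    fun σ => cw_mem _ _ (fun m => cc_mem _ _ (hDN _) _) l
  have h1 : ∀ v a, S 1 ((c.ρ.comp ι) a (c.j v)) = 0 := by
    intro v
    refine sep_perm hB (c.ρ.comp ι) S (fun σ => Subalgebra.mul_mem _
      (Subalgebra.mul_mem _ (hφN q) (hcw σ)) (ι_mem_adNil _)) (c.j v) fun p => ?_
    have h2 := hj q (mu e (pl l) (PP k (fun m => Q1.top (n m)) l *
      (disc k Prod.fst ^ K * MvPolynomial.rename (fun i => (i, true)) p)) • v)
    rw [hq, map_zero, c.j_mu, map_mul (MvPolynomial.map _), map_mul (MvPolynomial.map _), map_pow,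
      map_disc, map_PP, hL.sys.pair_formula c.topX (N := N) (fun i => by
        have := Finset.le_sup (f := n) (Finset.mem_univ i)
        omega) hl hc le_rfl, LinearMap.sum_apply, map_sum] at h2
    rw [h2]
    refine Finset.sum_congr rfl fun σ _ => ?_
    rw [map_mul (MvPolynomial.eval _), map_pow (MvPolynomial.eval _), hev, eval_disc_perm t σ,
      ← hK, ← hΘ, map_mul]
    rfl
  have h3 : S 1 = 0 := by
    refine LinearMap.ext fun x => ?_
    have hx := c.span x
    induction hx using Submodule.span_induction with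
    | mem y hy => obtain ⟨a, v, rfl⟩ := hy; exact h1 v a
    | zero => simp
    | add a b _ _ ha hb => simp only [map_add, ha, hb]
    | smul r a _ ha => simp only [map_smul, ha]
  have h4 := ((hΘu.map (c.ρ.comp ι)).mul_left_eq_zero).1 h3
  exact cancel_cw _ (fun m => cc_mem _ _ (hDN _) _)
    (fun m x hx h => c.cancel hgen hl hc hne hmin m x hx h) l (hφN q) h4

end

end Pool.Agent.Lib.MP_4da284_al.Q1
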