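import Pool.Agent.Lib.MP_4da284_al.H78Mu

namespace Pool.Agent.Lib.MP_4da284_al.Q1

open Polynomial

noncomputable section

variable {k A R I : Type*} [Field k] [CommRing A] [Algebra k A] [Ring R] [Algebra k R]

def pder (δ : Derivation k A A) : Derivation k A[X] A[X] :=
  PolynomialModule.equivPolynomialSelf.compDer δ.mapCoeffs

theorem coeff_pder (δ : Derivation k A A) (p : A[X]) (n : ℕ) :
    (pder δ p).coeff n = δ (p.coeff n) := rfl

theorem pder_monomial (δ : Derivation k A A) (n : ℕ) (a : A) :
    pder δ (monomial n a) = monomial n (δ a) := by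
  ext m
  simp only [coeff_pder, coeff_monomial]
  split_ifs <;> simp

theorem pder_C (δ : Derivation k A A) (a : A) : pder δ (C a) = C (δ a) := pder_monomial δ 0 a

theorem pder_X (δ : Derivation k A A) : pder δ (X : A[X]) = 0 := by
  rw [← monomial_one_one_eq_X, pder_monomial]; simp

/- A system of points with all commutation relations. -/
structure LocSys [Fintype I] [DecidableEq I] (ι : A →ₐ[k] R) (t : I → A)
    (d : I → Derivation k A A) (e : k[X] →ₗ[k] R) (D : I → ℕ → R) : Prop where
  sys : IsSys ι t d D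
  far : ∀ i j α β, i ≠ j → D i α * D j β = D j β * D i α
  zero : ∀ i β, D i 0 * D i β = D i β * D i 0
  near : ∀ i α β, D i (α + 1) * D i (β + 1) - D i (β + 1) * D i (α + 1) =
    ((β : k) - α) • D i (α + β + 1)
  br : IsBr e
  taylor : ∀ f, e f = ∑ i, phi1 ι (t i) (D i) (f.map (algebraMap k A))

def ext1 (ι : A →ₐ[k] R) (e : k[X] →ₗ[k] R) : A[X] →ₗ[k] R := psum ι (fun n => e (X ^ n))

theorem ext1_monomial (ι : A →ₐ[k] R) (e : k[X] →ₗ[k] R) (n : ℕ) (a : A) :
    ext1 ι e (monomial n a) = e (X ^ n) * ι a := psum_monomial _ _ _ _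

theorem ext1_mul_C (ι : A →ₐ[k] R) (e : k[X] →ₗ[k] R) (g : A[X]) (a : A) :
    ext1 ι e (g * C a) = ext1 ι e g * ι a := psum_mul_C _ _ _ _

theorem ext1_map (ι : A →ₐ[k] R) (e : k[X] →ₗ[k] R) (f : k[X]) :
    ext1 ι e (f.map (algebraMap k A)) = e f := by
  induction f using Polynomial.induction_on' with
  | monomial n a =>
    rw [Polynomial.map_monomial, ext1_monomial, AlgHom.commutes, ← Algebra.commutes,
      ← Algebra.smul_def, ← map_smul, smul_eq_C_mul, C_mul_X_pow_eq_monomial]
  | add p q hp hq => simp only [Polynomial.map_add, map_add, hp, hq]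

variable [Fintype I] {ι : A →ₐ[k] R} {t : I → A} {d : I → Derivation k A A} {e : k[X] →ₗ[k] R}

theorem ext1_comm
    (hcomm : ∀ f b, e f * ι b = ι b * e f + ι (∑ i, aeval (t i) f * d i b)) (G : A[X]) (b : A) :
    ext1 ι e G * ι b = ι b * ext1 ι e G + ι (∑ i, G.eval (t i) * d i b) := by
  induction G using Polynomial.induction_on' with
  | monomial n a =>
    rw [ext1_monomial, mul_assoc, ← map_mul, mul_comm a, map_mul, ← mul_assoc, hcomm, add_mul,
      mul_assoc, ← map_mul, Finset.sum_mul]
    congr 3
    funext i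
    simp only [map_pow, aeval_X, eval_monomial]; ring
  | add p q hp hq =>
    simp only [map_add, add_mul, mul_add, hp, hq, eval_add, Finset.sum_add_distrib]; abel

def brk (t : I → A) (d : I → Derivation k A A) (G H : A[X]) : A[X] :=
  G * derivative H - derivative G * H + ∑ i, C (G.eval (t i)) * pder (d i) H -
    ∑ i, C (H.eval (t i)) * pder (d i) G

theorem ext1_br (he : IsBr e)
    (hcomm : ∀ f b, e f * ι b = ι b * e f + ι (∑ i, aeval (t i) f * d i b)) (G H : A[X]) :
    ext1 ι e G * ext1 ι e H - ext1 ι e H * ext1 ι e G = ext1 ι e (brk t d G H) := by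
  induction G using Polynomial.induction_on' with
  | add p q hp hq =>
    have : brk t d (p + q) H = brk t d p H + brk t d q H := by
      simp only [brk, map_add, eval_add, add_mul, mul_add, Finset.sum_add_distrib]; ring
    rw [this, map_add, map_add, ← hp, ← hq]; noncomm_ring
  | monomial n a =>
    induction H using Polynomial.induction_on' with
    | add p q hp hq =>
      have : brk t d (monomial n a) (p + q) = brk t d (monomial n a) p + brk t d (monomial n a) q := by
        simp only [brk, map_add, eval_add, add_mul, mul_add, Finset.sum_add_distrib]; ring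
      rw [this, map_add, map_add, ← hp, ← hq]; noncomm_ring
    | monomial m b =>
      have e1 : monomial n a * derivative (monomial m b) - derivative (monomial n a) * monomial m b
          = (X ^ n * derivative (X ^ m) - derivative (X ^ n) * X ^ m : k[X]).map (algebraMap k A) *
            C (a * b) := by
        simp only [← C_mul_X_pow_eq_monomial, derivative_C_mul, Polynomial.map_sub,
          Polynomial.map_mul, Polynomial.map_pow, map_X, ← derivative_map, C_mul]
        ring
      have e2 : ∀ (n m : ℕ) (a b : A), ∑ i, C ((monomial n a).eval (t i)) * pder (d i) (monomial m b)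
          = monomial m ((∑ i, aeval (t i) (X ^ n : k[X]) * d i b) * a) := by
        intro n m a b
        rw [Finset.sum_mul, map_sum]
        refine Finset.sum_congr rfl fun i _ => ?_
        rw [pder_monomial, C_mul_monomial]
        congr 1
        simp only [map_pow, aeval_X, eval_monomial]; ring
      rw [brk, e1, e2, e2, map_sub, map_add, ext1_mul_C, ext1_map, ← he, ext1_monomial,
        ext1_monomial, ext1_monomial, ext1_monomial]
      have h1 := hcomm (X ^ m) a
      have h2 := hcomm (X ^ n) b
      rw [← sub_eq_iff_eq_add] at h1 h2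
      have h3 : ι a * ι b = ι b * ι a := by rw [← map_mul, mul_comm, map_mul]
      rw [mul_assoc, ← mul_assoc (ι a), ← h1, mul_assoc (e (X ^ m)), ← mul_assoc (ι b), ← h2]
      simp only [map_mul, sub_mul, mul_sub, mul_assoc, h3]
      abel

theorem exists_local [DecidableEq I] (hd : ∀ i j, d i (t j) = if i = j then 1 else 0)
    (hunit : ∀ i j, i ≠ j → IsUnit (t i - t j)) (he : IsBr e)
    (hcomm : ∀ f b, e f * ι b = ι b * e f + ι (∑ i, aeval (t i) f * d i b))
    (N : ℕ) (hkill : ∀ H : A[X], ext1 ι e ((∏ i, (X - C (t i))) ^ N * H) = 0) :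
    ∃ D : I → ℕ → R, LocSys ι t d e D ∧ ∀ i α, N ≤ α → D i α = 0 := by
  have hcop : ∀ M : ℕ, Pairwise (Function.onFun IsCoprime fun j => (X - C (t j)) ^ M) :=
    fun M i j hij => (isCoprime_X_sub_C_of_isUnit_sub (hunit i j hij)).pow
  have kill : ∀ G : A[X], (∀ j, (X - C (t j)) ^ N ∣ G) → ext1 ι e G = 0 := by
    intro G hG
    obtain ⟨H, rfl⟩ := Fintype.prod_dvd_of_coprime (hcop N) hG
    rw [Finset.prod_pow]; exact hkill H
  have hε : ∀ i, ∃ ε : A[X], ∀ j, (X - C (t j)) ^ (N + 1) ∣ ε - if i = j then 1 else 0 := by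
    intro i
    obtain ⟨r, hr⟩ := Ideal.exists_forall_sub_mem_ideal
      (I := fun j => Ideal.span {(X - C (t j)) ^ (N + 1)})
      (fun a b hab => (Ideal.isCoprime_span_singleton_iff _ _).2 (hcop (N + 1) hab))
      (fun j => if i = j then 1 else 0)
    exact ⟨r, fun j => Ideal.mem_span_singleton.1 (hr j)⟩
  choose ε hε using hε
  let q : ∀ j, A[X] →+* A[X] ⧸ Ideal.span {(X - C (t j)) ^ N} := fun j => Ideal.Quotient.mk _
  have kill' : ∀ G : A[X], (∀ j, q j G = 0) → ext1 ι e G = 0 := fun G hG =>
    kill G fun j => Ideal.mem_span_singleton.1 (Ideal.Quotient.eq_zero_iff_mem.1 (hG j))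
  have qz : ∀ j G, (X - C (t j)) ^ N ∣ G → q j G = 0 := fun j G h =>
    Ideal.Quotient.eq_zero_iff_mem.2 (Ideal.mem_span_singleton.2 h)
  have q1 : ∀ i j, q j (ε i) = if i = j then 1 else 0 := by
    intro i j
    have := qz j _ ((pow_dvd_pow _ (Nat.le_succ N)).trans (hε i j))
    rw [map_sub, sub_eq_zero] at this
    rw [this]; split_ifs <;> simp
  have qd : ∀ (δ : Derivation k A[X] A[X]) i j, q j (δ (ε i)) = 0 := by
    intro δ i j
    obtain ⟨w, hw⟩ := hε i j
    have h1 : δ (ε i) = δ ((X - C (t j)) ^ (N + 1) * w) := by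
      rw [← hw, map_sub]; split_ifs <;> simp
    refine qz j _ ?_
    rw [h1, Derivation.leibniz, Derivation.leibniz_pow]
    refine ⟨(X - C (t j)) * δ w + w * (((N + 1 : ℕ) : A[X]) * δ (X - C (t j))), ?_⟩
    simp only [smul_eq_mul, nsmul_eq_mul, Nat.add_sub_cancel]
    ring
  have q2 : ∀ i j, q j (derivative (ε i)) = 0 := fun i j =>
    qd ((derivative' : Derivation A A[X] A[X]).restrictScalars k) i j
  have hev : ∀ i α l, (ε i * (X - C (t i)) ^ α).eval (t l) = if l = i ∧ α = 0 then 1 else 0 := by
    intro i α l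
    obtain ⟨w, hw⟩ := hε i l
    have h1 := congrArg (eval (t l)) hw
    simp only [eval_sub, eval_mul, eval_pow, eval_X, eval_C, sub_self, ne_eq,
      Nat.add_eq_zero_iff, one_ne_zero, and_false, not_false_eq_true, zero_pow, zero_mul,
      sub_eq_zero] at h1
    rw [eval_mul, h1]
    by_cases h : i = l
    · subst h; by_cases hα : α = 0 <;> simp [hα]
    · simp [h, Ne.symm h]
  have hsum : ∀ {M : Type _} [AddCommMonoid M] (i : I) (α : ℕ) (F : A → I → M),
      (∀ l, F 0 l = 0) → ∑ l, F ((ε i * (X - C (t i)) ^ α).eval (t l)) l =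
        if α = 0 then F 1 i else 0 := by
    intro M _ i α F hF
    simp only [hev]
    rw [Finset.sum_eq_single i]
    · by_cases hα : α = 0 <;> simp [hα, hF]
    · intro l _ hl; simp [hl, hF]
    · simp
  have hpu : ∀ i j, pder (d i) (X - C (t j)) = if i = j then -1 else 0 := by
    intro i j
    rw [map_sub, pder_X, pder_C, hd]; split_ifs <;> simp
  have hbr : ∀ i j α β l, q l (brk t d (ε i * (X - C (t i)) ^ α) (ε j * (X - C (t j)) ^ β)) =
      if i = j then q l (ε i) * ((q l (X - C (t i)) ^ α * (β * q l (X - C (t i)) ^ (β - 1)) -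
        α * q l (X - C (t i)) ^ (α - 1) * q l (X - C (t i)) ^ β) -
        (if α = 0 then β * q l (X - C (t i)) ^ (β - 1) else 0) +
        (if β = 0 then α * q l (X - C (t i)) ^ (α - 1) else 0)) else 0 := by
    intro i j α β l
    rw [brk, hsum i α (fun c l => C c * pder (d l) (ε j * (X - C (t j)) ^ β)) (by simp),
      hsum j β (fun c l => C c * pder (d l) (ε i * (X - C (t i)) ^ α)) (by simp)]
    simp only [map_sub (q l), map_add (q l), apply_ite (q l), map_mul (q l), derivative_mul,
      derivative_X_sub_C_pow, Derivation.leibniz, Derivation.leibniz_pow, smul_eq_mul,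
      nsmul_eq_mul, hpu, qd, q2, q1, map_pow (q l), map_natCast, map_one, map_zero, map_neg]
    by_cases hij : i = j
    · subst hij
      by_cases hl : i = l <;> simp [hl]
      split_ifs <;> ring
    · have hji : ¬ j = i := Ne.symm hij
      by_cases hl : i = l
      · subst hl; simp [hij, hji]
      · simp [hij, hji, hl]
  refine ⟨fun i α => ext1 ι e (ε i * (X - C (t i)) ^ α), ⟨⟨hd, ?_, ?_⟩, ?_, ?_, ?_, he, ?_⟩, ?_⟩
  · intro i b
    rw [ext1_comm hcomm, hsum i 0 (fun c l => c * d l b) (by simp)]; simp
  · intro i α b hα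
    rw [ext1_comm hcomm, hsum i α (fun c l => c * d l b) (by simp)]; simp [hα]
  · intro i j α β hij
    rw [← sub_eq_zero, ext1_br he hcomm]
    exact kill' _ fun l => by rw [hbr, if_neg hij]
  · intro i β
    rw [← sub_eq_zero, ext1_br he hcomm]
    refine kill' _ fun l => ?_
    rw [hbr]; simp
  · intro i α β
    rw [ext1_br he hcomm, ← map_smul, ← sub_eq_zero, ← map_sub]
    refine kill' _ fun l => ?_
    rw [map_sub, hbr, Algebra.smul_def]
    simp only [if_true, Nat.add_eq_zero_iff, one_ne_zero, and_false, if_false, map_sub,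
      map_natCast, map_mul, map_pow, Nat.add_sub_cancel]
    push_cast
    ring
  · intro f
    have h1 : ∀ i (g : A[X]), phi1 ι (t i) (fun α => ext1 ι e (ε i * (X - C (t i)) ^ α)) g =
        ext1 ι e (ε i * g) := by
      intro i g
      have hg : g = taylor (-t i) (taylor (t i) g) := by rw [taylor_taylor]; simp
      rw [hg]
      generalize taylor (t i) g = g'
      induction g' using Polynomial.induction_on' with
      | monomial n a =>
        rw [taylor_monomial, map_neg, ← sub_eq_add_neg, mul_comm (C a), phi1_mul_C, phi1_u_pow,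
          ← mul_assoc, ext1_mul_C]
      | add p q hp hq => simp only [map_add, mul_add, hp, hq]
    simp only [h1]
    rw [← map_sum, ← ext1_map ι e f, ← sub_eq_zero, ← map_sub]
    refine kill' _ fun l => ?_
    simp [q1, Finset.sum_ite_eq']
  · intro i α hα
    refine kill' _ fun l => ?_
    rw [map_mul, q1]
    split_ifs with h
    · subst h; rw [qz i _ (pow_dvd_pow _ hα), mul_zero]
    · rw [zero_mul]

end

end Pool.Agent.Lib.MP_4da284_al.Q1
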