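import Pool.Agent.Lib.MP_4da284_al.H78Kernel
import Pool.Agent.Lib.MP_4da284_al.H78Embed

namespace Pool.Agent.Lib.MP_4da284_al.Q1

open Polynomial

noncomputable section

universe u

variable {k : Type u} [Field k] {U : Type u} [Ring U] [Algebra k U]

theorem phi1_mem {A R : Type*} [CommRing A] [Algebra k A] [Ring R] [Algebra k R] (ι : A →ₐ[k] R)
    (s : A) (D : ℕ → R) (S : Subalgebra k R) (hs : ι s ∈ S) (hD : ∀ α, D α ∈ S) (f : k[X]) :
    phi1 ι s D (f.map (algebraMap k A)) ∈ S := by
  induction f using Polynomial.induction_on' with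
  | add p q hp hq => rw [Polynomial.map_add, map_add]; exact S.add_mem hp hq
  | monomial n a =>
    have : (monomial n a).map (algebraMap k A) = ∑ m ∈ Finset.range (n + 1),
        (X - C s) ^ m * C (s ^ (n - m) * algebraMap k A ((n.choose m : k) * a)) := by
      rw [Polynomial.map_monomial, ← C_mul_X_pow_eq_monomial,
        show (X : A[X]) ^ n = ((X - C s) + C s) ^ n by ring, add_pow, Finset.mul_sum]
      refine Finset.sum_congr rfl fun m _ => ?_
      simp only [map_mul, map_pow, map_natCast]
      ring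
    rw [this, map_sum]
    refine S.sum_mem fun m _ => ?_
    rw [phi1_mul_C, phi1_u_pow, map_mul, map_pow, AlgHom.commutes]
    exact S.mul_mem (hD m) (S.mul_mem (S.pow_mem hs _) (S.algebraMap_mem _))

theorem main_abstract [IsAlgClosed k] [CharZero k] [Uncountable k] {e : k[X] →ₗ[k] U}
    (he : IsBr e) (hgen : Algebra.adjoin k (Set.range e) = ⊤)
    (huniv : ∀ (R : Type u) [Ring R] [Algebra k R] (e' : k[X] →ₗ[k] R), IsBr e' →
      ∃ φ : U →ₐ[k] R, ∀ f, φ (e f) = e' f)
    {Q : Ideal U} (hQ : IsPrimitiveIdeal Q) (h0 : Q ≠ ⊥) :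
    ∃ m ≥ 1, ∃ ψ : U →ₐ[k] Weyl k m, RingHom.ker ψ = Q := by
  classical
  have hU : Module.rank k U ≤ Cardinal.aleph0 := by
    refine rank_le_of_gen (Set.countable_range fun n : ℕ => e (X ^ n)) ?_
    rw [eq_top_iff, ← hgen, Algebra.adjoin_le_iff]
    rintro _ ⟨f, rfl⟩
    induction f using Polynomial.induction_on' with
    | add p q hp hq => rw [map_add]; exact Subalgebra.add_mem _ hp hq
    | monomial n a =>
      rw [← C_mul_X_pow_eq_monomial, ← smul_eq_C_mul, map_smul]
      exact Subalgebra.smul_mem _ (Algebra.subset_adjoin (Set.mem_range_self n)) _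
  have hC := closedPrime_of_primitive k hU hQ
  obtain ⟨M, _, _, hM, rfl⟩ := hQ
  let _ : Module k M := Module.compHom M (algebraMap k U)
  have : IsScalarTower k U M := ⟨fun c u v => by
    rw [Algebra.smul_def, mul_smul]; rfl⟩
  have hnt : Nontrivial M := IsSimpleModule.nontrivial U M
  have hex : ∃ m K : ℕ, ∀ H : MvPolynomial (Fin m) k,
      mu e (List.finRange m) (disc k id ^ K * H) ∈ Module.annihilator U M :=
    thmA he hgen _ (fun q hq u => Module.mem_annihilator.2 fun v => by
      rw [mul_smul]; exact Module.mem_annihilator.1 hq _) h0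
  obtain ⟨l, ⟨K, hK⟩, hl⟩ : ∃ l, (∃ K : ℕ, ∀ H : MvPolynomial (Fin (l + 1)) k,
      mu e (List.finRange (l + 1)) (disc k id ^ K * H) ∈ Module.annihilator U M) ∧
      ¬ ∃ K : ℕ, ∀ H : MvPolynomial (Fin l) k,
        mu e (List.finRange l) (disc k id ^ K * H) ∈ Module.annihilator U M := by
    have h1 := Nat.find_spec hex
    have h2 : Nat.find hex ≠ 0 := by
      intro h
      rw [h] at h1
      obtain ⟨K, hK⟩ := h1
      have := hK 1
      have e1 : disc k (id : Fin 0 → Fin 0) = 1 := by simp [disc]
      rw [e1, one_pow, mul_one, mu, ← MvPolynomial.C_1, MvPolynomial.C_apply, Phi_monomial] at this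
      simp only [List.finRange_zero, word, map_one, mul_one] at this
      exact hC.ne_top ((Ideal.eq_top_iff_one _).2 this)
    obtain ⟨l, hl⟩ : ∃ l, Nat.find hex = l + 1 := ⟨Nat.find hex - 1, by omega⟩
    exact ⟨l, hl ▸ h1, Nat.find_min hex (by omega)⟩
  have hne : ∀ K, ∃ (H : MvPolynomial (Fin l) k) (v : M),
      mu e (List.finRange l) (disc k id ^ K * H) • v ≠ 0 := by
    intro K
    by_contra h
    push Not at h
    exact hl ⟨K, fun H => Module.mem_annihilator.2 (h H)⟩
  have hmin : ∀ (K' : ℕ) (v : M), (∀ b : MvPolynomial (Fin l) k,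
      mu e (List.finRange l) (disc k id ^ K' * b) • v = 0) → v = 0 := by
    intro K'
    let P0 : Submodule k M :=
      { carrier := {v | ∀ b : MvPolynomial (Fin l) k,
          mu e (List.finRange l) (disc k id ^ K' * b) • v = 0}
        add_mem' := fun {x y} hx hy b => by rw [smul_add, hx b, hy b, add_zero]
        zero_mem' := fun b => smul_zero _
        smul_mem' := fun c x hx b => by rw [smul_comm, hx b, smul_zero] }
    let P : Submodule U M := subOf hgen P0 (by
      rintro _ ⟨f, rfl⟩ v hv b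
      have h1 := mu_comm he f (List.nodup_finRange l) List.mem_finRange (disc k id ^ K' * b)
      rw [sub_eq_iff_eq_add, ← sub_eq_iff_eq_add'] at h1
      rw [← mul_smul, ← h1, sub_smul, mul_smul, hv b, smul_zero, zero_sub, neg_eq_zero]
      let δ : Derivation k (MvPolynomial (Fin l) k) (MvPolynomial (Fin l) k) :=
        Df (fun i => MvPolynomial.X i) (fun i => MvPolynomial.pderiv i) f
      have hδ : ∀ i, δ (MvPolynomial.X i) = aeval (MvPolynomial.X i) f := by
        intro i
        simp [δ, Df_apply, Pi.single_apply]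
      obtain ⟨c, hc⟩ : disc k (id : Fin l → Fin l) ^ K' ∣ δ (disc k id ^ K' * b) := by
        refine der_pow_dvd δ (der_prod_dvd δ _ _ fun p _ => ?_) K' b
        rw [map_sub, hδ, hδ]
        have := sub_dvd_eval_sub (MvPolynomial.X p.1 : MvPolynomial (Fin l) k) (MvPolynomial.X p.2)
          (f.map (algebraMap k _))
        rwa [eval_map_algebraMap, eval_map_algebraMap] at this
      have h2 : ∑ v, Lv f v (disc k (id : Fin l → Fin l) ^ K' * b) = disc k id ^ K' *
          (c - (∑ v, aeval (MvPolynomial.X v : MvPolynomial (Fin l) k) (derivative f)) * b) := by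
        rw [mul_sub, ← hc, Df_apply]
        simp only [Lv, Finset.sum_sub_distrib, Finset.sum_mul, Finset.mul_sum]
        congr 1
        exact Finset.sum_congr rfl fun v _ => by ring
      rw [h2, hv])
    rcases eq_bot_or_eq_top P with h | h
    · intro v hv
      have : v ∈ P := hv
      rwa [h] at this
    · obtain ⟨H, v, hv⟩ := hne K'
      have : v ∈ P := h ▸ Submodule.mem_top
      exact absurd (this H) hv
  obtain ⟨A, _, _, t, d, hB⟩ := exists_base k (Fin l)
  obtain ⟨R, _, _, ι, n0, hn0⟩ := exists_cov hB he M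
    (fun H v => Module.mem_annihilator.1 (hK H) v) hmin
  have hex2 : ∃ s, ∃ n : Fin l → ℕ, ∑ i, n i = s ∧ Nonempty (Cov e M ι t d n) := ⟨_, n0, rfl, hn0⟩
  obtain ⟨n, hn, ⟨c⟩⟩ := Nat.find_spec hex2
  have hmin2 : ∀ n' : Fin l → ℕ, ∑ i, n' i < ∑ i, n i → IsEmpty (Cov e M ι t d n') := by
    intro n' h
    rw [hn] at h
    exact ⟨fun c' => Nat.find_min hex2 h ⟨n', rfl, ⟨c'⟩⟩⟩
  have hL := c.loc.map c.ρ
  obtain ⟨φ, hφ⟩ := huniv _ _ hL.br
  have hker := c.ker_eq hB hgen (List.nodup_finRange l) List.mem_finRange hne hmin2 φ hφ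
  let tX : Fin l → Module.End k c.X := fun i => c.ρ (ι (t i))
  let DX : Fin l → ℕ → Module.End k c.X := fun i α => c.ρ (c.D i α)
  let S := Algebra.adjoin k (Set.range tX ∪ Set.range fun p : Fin l × ℕ => DX p.1 p.2)
  have ht : ∀ i, tX i ∈ S := fun i => Algebra.subset_adjoin (Or.inl ⟨i, rfl⟩)
  have hD : ∀ i α, DX i α ∈ S := fun i α => Algebra.subset_adjoin (Or.inr ⟨(i, α), rfl⟩)
  have hφS : ∀ u, φ u ∈ S := by
    intro u
    have hu : u ∈ Algebra.adjoin k (Set.range e) := hgen ▸ Algebra.mem_top
    induction hu using Algebra.adjoin_induction with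
    | mem x hx =>
      obtain ⟨f, rfl⟩ := hx
      rw [hφ, hL.taylor]
      exact S.sum_mem fun i _ => phi1_mem _ _ _ S (ht i) (hD i) f
    | algebraMap r => rw [AlgHom.commutes]; exact Subalgebra.algebraMap_mem _ _
    | add a b _ _ ha hb => rw [map_add]; exact Subalgebra.add_mem _ ha hb
    | mul a b _ _ ha hb => rw [map_mul]; exact Subalgebra.mul_mem _ ha hb
  have hJ : JetRel k (fun i => (⟨tX i, ht i⟩ : S)) (fun i α => (⟨DX i α, hD i α⟩ : S))
      (Finset.univ.sup n + 1) Finset.univ :=
    { tt := fun i j => Subtype.ext (by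
        change tX i * tX j = tX j * tX i
        simp only [tX, ← map_mul, mul_comm])
      d0t := fun i j => Subtype.ext (by
        have := hL.sys.h0 i (t j)
        rw [hL.sys.hd, ← sub_eq_iff_eq_add'] at this
        rw [apply_ite Subtype.val]
        refine this.trans ?_
        split_ifs <;> simp)
      dt := fun i j α => Subtype.ext (hL.sys.h1 i (α + 1) (t j) (Nat.succ_ne_zero α))
      far := fun i j α β hij => Subtype.ext (hL.far i j α β hij)
      zero := fun i β => Subtype.ext (hL.zero i β)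
      near := fun i α β _ => Subtype.ext (hL.near i α β)
      top := fun i α hα => Subtype.ext (c.topX i α (by
        have := Finset.le_sup (f := n) (Finset.mem_univ i)
        omega))
      gen := by
        rw [eq_top_iff, ← Algebra.adjoin_adjoin_coe_preimage (R := k)
          (s := Set.range tX ∪ Set.range fun p : Fin l × ℕ => DX p.1 p.2)]
        refine Algebra.adjoin_mono ?_
        rintro ⟨x, hx⟩ (⟨i, rfl⟩ | ⟨⟨i, α⟩, rfl⟩)
        · exact Or.inl ⟨i, rfl⟩
        · exact Or.inr ⟨i, α, Or.inr (Finset.mem_univ _), rfl⟩ }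
  refine embed_sys hC hJ (φ.codRestrict S hφS) ?_
  rw [← hker]
  exact (ker_comp_inj (φ.codRestrict S hφS) S.val Subtype.val_injective).symm

attribute [local instance 100] LieRing.ofAssociativeRing

def eW (k : Type u) [Field k] :
    k[X] →ₗ[k] UniversalEnvelopingAlgebra k (Derivation k k[X] k[X]) :=
  (UniversalEnvelopingAlgebra.ι k).toLinearMap ∘ₗ mkDerivation k

theorem mkDerivation_br (f g : k[X]) : ⁅mkDerivation k f, mkDerivation k g⁆ =
    mkDerivation k (f * derivative g - derivative f * g) := by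
  refine derivation_ext ?_
  simp [Derivation.commutator_apply, mkDerivation_apply, mul_comm]

theorem isBr_eW : IsBr (eW k) := by
  intro f g
  simp only [eW, LinearMap.comp_apply, LieHom.coe_toLinearMap]
  rw [← mkDerivation_br, LieHom.map_lie]; rfl

theorem gen_eW : Algebra.adjoin k (Set.range (eW k)) = ⊤ := by
  rw [eq_top_iff]
  intro u _
  obtain ⟨x, rfl⟩ : ∃ x, UniversalEnvelopingAlgebra.mkAlgHom k _ x = u := Quot.exists_rep u
  induction x using TensorAlgebra.induction with
  | algebraMap r => rw [AlgHom.commutes]; exact Subalgebra.algebraMap_mem _ _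
  | ι x =>
    refine Algebra.subset_adjoin ⟨x X, ?_⟩
    have : mkDerivation k (x X) = x := derivation_ext (mkDerivation_X _ _)
    simp only [eW, LinearMap.comp_apply, LieHom.coe_toLinearMap, this]
    rfl
  | mul a b ha hb => rw [map_mul]; exact Subalgebra.mul_mem _ (ha trivial) (hb trivial)
  | add a b ha hb => rw [map_add]; exact Subalgebra.add_mem _ (ha trivial) (hb trivial)

theorem univ_eW (R : Type u) [Ring R] [Algebra k R] (e' : k[X] →ₗ[k] R) (he : IsBr e') :
    ∃ φ : UniversalEnvelopingAlgebra k (Derivation k k[X] k[X]) →ₐ[k] R,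
      ∀ f, φ (eW k f) = e' f := by
  let ψ : Derivation k k[X] k[X] →ₗ⁅k⁆ R :=
    { e' ∘ₗ (mkDerivationEquiv k).symm.toLinearMap with
      map_lie' := fun {x y} => by
        obtain ⟨f, rfl⟩ := (mkDerivationEquiv k).surjective x
        obtain ⟨g, rfl⟩ := (mkDerivationEquiv k).surjective y
        change e' (⁅mkDerivation k f, mkDerivation k g⁆ X) =
          e' (mkDerivation k f X) * e' (mkDerivation k g X) -
            e' (mkDerivation k g X) * e' (mkDerivation k f X)
        rw [mkDerivation_br, mkDerivation_X, mkDerivation_X, mkDerivation_X, he] }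
  refine ⟨UniversalEnvelopingAlgebra.lift k ψ, fun f => ?_⟩
  simp only [eW, LinearMap.comp_apply, LieHom.coe_toLinearMap,
    UniversalEnvelopingAlgebra.lift_ι_apply]
  change e' (mkDerivation k f X) = _
  rw [mkDerivation_X]

theorem main [IsAlgClosed k] [CharZero k] [Uncountable k]
    (Q : Ideal (UniversalEnvelopingAlgebra k (Derivation k k[X] k[X])))
    (hQ : IsPrimitiveIdeal Q) (h0 : Q ≠ ⊥) :
    ∃ m ≥ 1, ∃ ψ : UniversalEnvelopingAlgebra k (Derivation k k[X] k[X]) →ₐ[k] Weyl k m,
      RingHom.ker ψ = Q :=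
  main_abstract isBr_eW gen_eW univ_eW hQ h0

end

end Pool.Agent.Lib.MP_4da284_al.Q1
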