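import Pool.Agent.Lib.MP_4da284_al.H78Defs

namespace Pool.Agent.Lib.MP_4da284_al

universe u

open TensorProduct

namespace MaxAux

open Polynomial

variable {k : Type u} [Field k]

theorem aeval_reg [IsAlgClosed k] {R : Type u} [Ring R] [Algebra k R] {a : R}
    (ha : ∀ (c : k) (x : R), x * (a - algebraMap k R c) = 0 → x = 0) (p : k[X]) (hp : p ≠ 0) :
    ∀ x : R, x * aeval a p = 0 → x = 0 := by
  induction hn : p.natDegree using Nat.strong_induction_on generalizing p with
  | _ n ih =>
    intro x hx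
    by_cases h0 : p.degree = 0
    · rw [eq_C_of_degree_eq_zero h0] at hx hp
      rw [aeval_C, ← Algebra.commutes, ← Algebra.smul_def] at hx
      exact (smul_eq_zero.1 hx).resolve_left fun h => hp (by rw [h, C_0])
    · obtain ⟨c, hc⟩ := IsAlgClosed.exists_root p h0
      obtain ⟨q, rfl⟩ := dvd_iff_isRoot.2 hc
      have hq : q ≠ 0 := right_ne_zero_of_mul hp
      rw [natDegree_mul (X_sub_C_ne_zero c) hq, natDegree_X_sub_C] at hn
      rw [map_mul, ← mul_assoc, map_sub, aeval_X, aeval_C] at hx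
      exact ha c x (ih q.natDegree (by omega) q hq rfl _ hx)

open Classical in
theorem nodal_ne {S T : Finset k} (hT : T ⊆ S) (κ : k → k) {j : k} (hj : j ∈ T) (hκ : κ j ≠ 0) :
    ∑ c ∈ T, κ c • Lagrange.nodal (S.erase c) id ≠ 0 := by
  intro h
  have h1 := congrArg (eval j) h
  rw [eval_finsetSum, eval_zero, Finset.sum_eq_single j (fun c _ hc => by
    rw [eval_smul, show eval j (Lagrange.nodal (S.erase c) id) = 0 from
      Lagrange.eval_nodal_at_node (v := id) (Finset.mem_erase.2 ⟨hc.symm, hT hj⟩), smul_zero]) (fun h => (h hj).elim), eval_smul,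
    smul_eq_mul] at h1
  refine mul_ne_zero hκ (Lagrange.eval_nodal_not_at_node fun i hi => ?_) h1
  exact (Finset.mem_erase.1 hi).1.symm

open Classical in
theorem exists_dep [Uncountable k] {R : Type u} [Ring R] [Algebra k R]
    (hR : Module.rank k R ≤ Cardinal.aleph0) (a : R) (y : k → R) :
    ∃ (S : Finset k) (κ : k → k), (∃ j ∈ S, κ j ≠ 0) ∧
      ∑ c ∈ S, κ c • (y c * (a - algebraMap k R c)) *
        aeval a (Lagrange.nodal (S.erase c) id) = 0 := by
  have h1 : ¬ LinearIndependent k y := fun h =>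
    absurd (h.cardinal_le_rank.trans hR) (not_le.2 Cardinal.aleph0_lt_mk)
  obtain ⟨S, κ, h2, h3⟩ := not_linearIndependent_iff.1 h1
  refine ⟨S, κ, h3, ?_⟩
  have h4 := congrArg (· * aeval a (Lagrange.nodal S id)) h2
  simp only [zero_mul, Finset.sum_mul] at h4
  rw [← h4]
  refine Finset.sum_congr rfl fun c hc => ?_
  rw [Lagrange.nodal_eq_mul_nodal_erase hc, map_mul, map_sub, aeval_X, aeval_C]
  simp only [smul_mul_assoc, mul_assoc, id]

theorem scalar_of_divisionRing [IsAlgClosed k] [Uncountable k] {D : Type u} [DivisionRing D]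
    [Algebra k D] (hD : Module.rank k D ≤ Cardinal.aleph0) (a : D) :
    ∃ c : k, a = algebraMap k D c := by
  classical
  by_contra h
  have h1 : ∀ c, a - algebraMap k D c ≠ 0 := fun c hc => h ⟨c, sub_eq_zero.1 hc⟩
  obtain ⟨S, κ, ⟨j, hj, hκ⟩, h2⟩ := exists_dep hD a fun c => (a - algebraMap k D c)⁻¹
  refine one_ne_zero (aeval_reg (fun c x hx => (mul_eq_zero.1 hx).resolve_right (h1 c)) _
    (nodal_ne subset_rfl κ hj hκ) 1 ?_)
  rw [one_mul, map_sum, ← h2]
  refine Finset.sum_congr rfl fun c _ => ?_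
  rw [inv_mul_cancel₀ (h1 c), map_smul, smul_mul_assoc, one_mul]

theorem martindale {U R ι : Type u} [Ring U] [Algebra k U] [Ring R] [Algebra k R] {Q : Ideal U}
    (hQ : ClosedPrime k Q) (φ : U →ₐ[k] R) (hφ : ∀ r, r ∈ Q ↔ φ r = 0) (z : ι → R)
    (hz : ∀ j y, z j * y = y * z j) (S : Finset ι)
    (hreg : ∀ T ⊆ S, ∀ κ : ι → k, ∀ j ∈ T, κ j ≠ 0 → ∀ x, x * ∑ c ∈ T, κ c • z c = 0 → x = 0) :
    ∀ T ⊆ S, ∀ u : ι → U, ∑ c ∈ T, φ (u c) * z c = 0 → ∀ j ∈ T, u j ∈ Q := by
  classical
  intro T
  induction T using Finset.strongInduction with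
  | H T ih =>
    intro hT u hu j hj
    by_contra hn
    have h1 : ∀ y, ∀ c ∈ T, u j * y * u c - u c * y * u j ∈ Q := by
      intro y c hc
      by_cases hcj : c = j
      · rw [hcj, sub_self]; exact zero_mem _
      refine ih (T.erase j) (Finset.erase_ssubset hj) ((Finset.erase_subset _ _).trans hT)
        (fun c => u j * y * u c - u c * y * u j) ?_ c (Finset.mem_erase.2 ⟨hcj, hc⟩)
      rw [Finset.sum_erase _ (by simp)]
      have h2 : φ (u j * y) * ∑ c ∈ T, φ (u c) * z c - (∑ c ∈ T, φ (u c) * z c) * φ (y * u j) =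
          0 := by rw [hu, mul_zero, zero_mul, sub_zero]
      rw [← h2, Finset.mul_sum, Finset.sum_mul, ← Finset.sum_sub_distrib]
      refine Finset.sum_congr rfl fun c _ => ?_
      rw [mul_assoc (φ (u c)), hz c (φ (y * u j))]
      simp only [map_sub, map_mul, sub_mul, mul_assoc]
    choose! κ hκ using fun c hc => hQ.centroid (u j) (u c) hn fun y => h1 y c hc
    have h3 : ∀ c ∈ T, φ (u c) = κ c • φ (u j) := fun c hc => by
      have := (hφ _).1 (hκ c hc)
      rwa [map_sub, map_smul, sub_eq_zero] at this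
    refine hn ((hφ _).2 (hreg T hT κ j hj (fun h0 => hn ((hφ _).2 ?_)) _ ?_))
    · rw [h3 j hj, h0, zero_smul]
    · rw [← hu, Finset.mul_sum]
      exact Finset.sum_congr rfl fun c hc => by rw [h3 c hc, mul_smul_comm, smul_mul_assoc]

section Coord
variable {B C C' ι : Type u} [Ring B] [Algebra k B] [Ring C] [Algebra k C] [Ring C'] [Algebra k C']
  [DecidableEq ι] (b : Module.Basis ι k B)

theorem coord_map (π : C →ₐ[k] C') (x : B ⊗[k] C) (i : ι) :
    equivFinsuppOfBasisLeft b (Algebra.TensorProduct.map (AlgHom.id k B) π x) i =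
      π (equivFinsuppOfBasisLeft b x i) := by
  induction x with
  | zero => simp
  | tmul m n => simp
  | add x y hx hy => simp only [map_add, Finsupp.add_apply, hx, hy]

theorem mem_span_of_coord {I : Set C} {x : B ⊗[k] C}
    (h : ∀ i, equivFinsuppOfBasisLeft b x i ∈ I) :
    x ∈ Submodule.span k {t : B ⊗[k] C | ∃ m, ∃ c ∈ I, t = m ⊗ₜ c} := by
  rw [← (equivFinsuppOfBasisLeft b).symm_apply_apply x, equivFinsuppOfBasisLeft_symm_apply]
  exact Submodule.sum_mem _ fun i _ => Submodule.subset_span ⟨b i, _, h i, rfl⟩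

end Coord

end MaxAux

open MaxAux

theorem closedPrime_of_primitive (k : Type u) [Field k] [IsAlgClosed k] [Uncountable k]
    {U : Type u} [Ring U] [Algebra k U] (hU : Module.rank k U ≤ Cardinal.aleph0)
    {Q : Ideal U} (hQ : IsPrimitiveIdeal Q) : ClosedPrime k Q := by
  classical
  obtain ⟨M, _, _, hM, rfl⟩ := hQ
  have hgen : ∀ (r : U) (m : M), m ≠ 0 → (∀ y : U, r • y • m = 0) →
      r ∈ Module.annihilator U M := fun r m hm h => Module.mem_annihilator.2 fun x => by
    obtain ⟨y, rfl⟩ := IsSimpleModule.toSpanSingleton_surjective U hm x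
    exact h y
  have : Nontrivial M := IsSimpleModule.nontrivial U M
  refine ⟨fun h => ?_, fun r r' h => ?_, fun r r' hr h => ?_⟩
  · obtain ⟨m, hm⟩ := exists_ne (0 : M)
    have h1 : (1 : U) ∈ Module.annihilator U M := h ▸ Submodule.mem_top
    exact hm (by simpa using Module.mem_annihilator.1 h1 m)
  · by_cases h1 : r' ∈ Module.annihilator U M
    · exact Or.inr h1
    · rw [Module.mem_annihilator] at h1
      push Not at h1
      obtain ⟨m, hm⟩ := h1
      exact Or.inl (hgen r _ hm fun y => by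
        simpa only [mul_smul] using Module.mem_annihilator.1 (h y) m)
  · let _ : Module k M := Module.compHom M (algebraMap k U)
    have hsm : ∀ (c : k) (m : M), c • m = algebraMap k U c • m := fun _ _ => rfl
    have : IsScalarTower k U M := ⟨fun c y m => by rw [hsm, Algebra.smul_def, mul_smul]⟩
    have : SMulCommClass U k M := ⟨fun y c m => by
      rw [hsm, hsm, ← mul_smul, ← mul_smul, Algebra.commutes]⟩
    have hcomm : ∀ (y : U) (m : M), r • y • r' • m = r' • y • r • m := fun y m => by
      have := Module.mem_annihilator.1 (h y) m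
      simpa only [sub_smul, mul_smul, sub_eq_zero] using this
    obtain ⟨m, hm⟩ : ∃ m : M, r • m ≠ 0 := by
      by_contra hn
      push Not at hn
      exact hr (Module.mem_annihilator.2 hn)
    have hs := IsSimpleModule.toSpanSingleton_surjective U hm
    have hker : LinearMap.ker (LinearMap.toSpanSingleton U M (r • m)) ≤
        LinearMap.ker (LinearMap.toSpanSingleton U M (r' • m)) := by
      intro y hy
      simp only [LinearMap.mem_ker, LinearMap.toSpanSingleton_apply] at hy ⊢
      by_contra hn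
      refine hr (hgen r _ hn fun w => ?_)
      rw [← mul_smul w y, hcomm, mul_smul, hy, smul_zero, smul_zero]
    let T : Module.End U M := (LinearMap.ker _).liftQ _ hker ∘ₗ
      ((LinearMap.toSpanSingleton U M (r • m)).quotKerEquivOfSurjective hs).symm.toLinearMap
    have hT : T (r • m) = r' • m := by
      have h1 : ((LinearMap.toSpanSingleton U M (r • m)).quotKerEquivOfSurjective hs).symm
          (r • m) = Submodule.Quotient.mk 1 := by
        rw [LinearEquiv.symm_apply_eq]
        simp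
      simp only [T, LinearMap.comp_apply, LinearEquiv.coe_coe, h1, Submodule.liftQ_apply,
        LinearMap.toSpanSingleton_apply, one_smul]
    have hD : Module.rank k (Module.End U M) ≤ Cardinal.aleph0 := by
      let ev : Module.End U M →ₗ[k] M :=
        { toFun := fun f => f (r • m), map_add' := fun _ _ => rfl, map_smul' := fun _ _ => rfl }
      have h1 : Function.Injective ev := (injective_iff_map_eq_zero ev).2 fun f hf => by
        ext x
        obtain ⟨y, rfl⟩ := hs x
        have : f (r • m) = 0 := hf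
        simp [this]
      exact (ev.rank_le_of_injective h1).trans ((LinearMap.rank_le_of_surjective
        ((LinearMap.toSpanSingleton U M (r • m)).restrictScalars k) hs).trans hU)
    obtain ⟨c, hc⟩ := scalar_of_divisionRing hD T
    have h2 : r' • m = c • r • m := by rw [← hT, hc]; rfl
    refine ⟨c, hgen _ _ hm fun y => ?_⟩
    rw [sub_smul, ← hcomm, h2, smul_assoc, smul_comm y c, smul_comm r c, sub_self]

theorem exists_max (k : Type u) [Field k] [IsAlgClosed k] [Uncountable k]
    {U : Type u} [Ring U] [Algebra k U] {Q : Ideal U} (hQ : ClosedPrime k Q)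
    (B C : Type u) [Ring B] [Algebra k B] [Ring C] [Algebra k C]
    (hB : Module.rank k B ≤ Cardinal.aleph0) (hC : Module.rank k C ≤ Cardinal.aleph0)
    (φ : U →ₐ[k] B ⊗[k] C) (hφ : RingHom.ker φ = Q) :
    ∃ (C' : Type u) (_ : Ring C') (_ : Algebra k C') (π : C →ₐ[k] C'),
      Function.Surjective π ∧
      RingHom.ker ((Algebra.TensorProduct.map (AlgHom.id k B) π).comp φ) = Q ∧
      (∀ a b : C', (∀ y, a * y * b = 0) → a = 0 ∨ b = 0) ∧
      (∀ a : C', (∀ y, a * y = y * a) → ∃ c : k, a = algebraMap k C' c) := by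
  classical
  let b := Module.Basis.ofVectorSpace k B
  obtain ⟨J, -, ⟨hJ, hJQ⟩, hmax⟩ := zorn_le_nonempty₀
    {J : Ideal C | J.IsTwoSided ∧ ∀ r, (∀ i, equivFinsuppOfBasisLeft b (φ r) i ∈ J) → r ∈ Q}
    (fun c hc hch J₀ hJ₀ => by
      have hdir := hch.directedOn
      have hmem : ∀ x, x ∈ sSup c ↔ ∃ J ∈ c, x ∈ J := fun x =>
        Submodule.mem_sSup_of_directed ⟨J₀, hJ₀⟩ hdir
      refine ⟨sSup c, ⟨⟨fun y hx => ?_⟩, fun r hr => ?_⟩, fun J hJ => le_sSup hJ⟩
      · obtain ⟨J, h1, h2⟩ := (hmem _).1 hx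
        exact (hmem _).2 ⟨J, h1, (hc h1).1.mul_mem_of_left y h2⟩
      · have key : ∀ s : Finset (Module.Basis.ofVectorSpaceIndex k B), ∃ J ∈ c, ∀ i ∈ s,
            equivFinsuppOfBasisLeft b (φ r) i ∈ J := by
          intro s
          induction s using Finset.induction_on with
          | empty => exact ⟨J₀, hJ₀, by simp⟩
          | insert i s _ ih =>
            obtain ⟨J₁, h1, h2⟩ := ih
            obtain ⟨J₂, h3, h4⟩ := (hmem _).1 (hr i)
            obtain ⟨J₃, h5, h6, h7⟩ := hdir J₁ h1 J₂ h3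
            refine ⟨J₃, h5, fun j hj => ?_⟩
            rcases Finset.mem_insert.1 hj with rfl | hj
            exacts [h7 h4, h6 (h2 j hj)]
        obtain ⟨J, h1, h2⟩ := key (equivFinsuppOfBasisLeft b (φ r)).support
        refine (hc h1).2 r fun i => ?_
        by_cases hi : i ∈ (equivFinsuppOfBasisLeft b (φ r)).support
        · exact h2 i hi
        · rw [Finsupp.notMem_support_iff.1 hi]; exact zero_mem _)
    ⊥ ⟨inferInstance, fun r hr => by
      rw [← hφ, RingHom.mem_ker, ← (equivFinsuppOfBasisLeft b).map_eq_zero_iff]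
      exact Finsupp.ext hr⟩
  let π : C →ₐ[k] C ⧸ J := Ideal.Quotient.mkₐ k J
  have hπ : Function.Surjective π := Ideal.Quotient.mkₐ_surjective k J
  set ψ := (Algebra.TensorProduct.map (AlgHom.id k B) π).comp φ with hψ
  have hco : ∀ r i, equivFinsuppOfBasisLeft b (ψ r) i = π (equivFinsuppOfBasisLeft b (φ r) i) :=
    fun r i => coord_map b π (φ r) i
  have hker : ∀ r, r ∈ Q ↔ ψ r = 0 := fun r =>
    ⟨fun h => by
      have : φ r = 0 := by rwa [← hφ] at h
      rw [hψ, AlgHom.comp_apply, this, map_zero],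
    fun h => hJQ r fun i => Ideal.Quotient.eq_zero_iff_mem.1 (by
      have := hco r i
      rw [h, map_zero] at this
      exact this.symm)⟩
  have hI : ∀ I : Ideal (C ⧸ J), I.IsTwoSided → ∀ a ∈ I, a ≠ 0 → ∃ r ∉ Q, ψ r ∈
      Submodule.span k {t : B ⊗[k] (C ⧸ J) | ∃ m, ∃ c ∈ (I : Set (C ⧸ J)), t = m ⊗ₜ c} := by
    intro I _ a ha ha0
    by_contra hn
    push Not at hn
    have h1 : J ≤ I.comap π := fun x hx => by
      rw [Ideal.mem_comap, show π x = 0 from Ideal.Quotient.eq_zero_iff_mem.2 hx]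
      exact zero_mem _
    have h2 := hmax (y := I.comap π) ⟨inferInstance, fun r hr => by
      by_contra h
      exact hn r h (mem_span_of_coord b fun i => by rw [hco]; exact hr i)⟩ h1
    obtain ⟨a, rfl⟩ := hπ a
    exact ha0 (Ideal.Quotient.eq_zero_iff_mem.2 (h2 ha))
  have hprime : ∀ a a' : C ⧸ J, (∀ y, a * y * a' = 0) → a = 0 ∨ a' = 0 := by
    intro a a' h
    by_contra hn
    push Not at hn
    let I₁ : Ideal (C ⧸ J) :=
      { carrier := {x | ∀ y, x * y * a' = 0}
        add_mem' := fun h1 h2 y => by rw [add_mul, add_mul, h1 y, h2 y, add_zero]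
        zero_mem' := fun y => by rw [zero_mul, zero_mul]
        smul_mem' := fun c x h1 y => by
          rw [smul_eq_mul, mul_assoc c, mul_assoc c, h1 y, mul_zero] }
    have t₁ : I₁.IsTwoSided := ⟨fun {x} w h1 y => by rw [mul_assoc x w]; exact h1 (w * y)⟩
    let I₂ : Ideal (C ⧸ J) :=
      { carrier := {x | ∀ w ∈ I₁, w * x = 0}
        add_mem' := fun h1 h2 w hw => by rw [mul_add, h1 w hw, h2 w hw, add_zero]
        zero_mem' := fun w _ => mul_zero w
        smul_mem' := fun c x h1 w hw => by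
          rw [smul_eq_mul, ← mul_assoc]; exact h1 _ (t₁.mul_mem_of_left c hw) }
    have t₂ : I₂.IsTwoSided := ⟨fun {x} y h1 w hw => by rw [← mul_assoc, h1 w hw, zero_mul]⟩
    obtain ⟨r₁, g1, g2⟩ := hI I₁ t₁ a h hn.1
    obtain ⟨r₂, g3, g4⟩ := hI I₂ t₂ a' (fun w hw => by simpa using hw 1) hn.2
    refine (hQ.prime r₁ r₂ fun y => (hker _).2 ?_).elim g1 g3
    rw [map_mul, map_mul]
    generalize ψ r₁ = x₁ at g2
    generalize ψ r₂ = x₂ at g4
    generalize ψ y = t
    induction g2 using Submodule.span_induction with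
    | zero => simp
    | add _ _ _ _ h1 h2 => rw [add_mul, add_mul, h1, h2, add_zero]
    | smul c _ _ h1 => rw [smul_mul_assoc, smul_mul_assoc, h1, smul_zero]
    | mem x hx =>
      obtain ⟨m₁, c₁, hc₁, rfl⟩ := hx
      induction g4 using Submodule.span_induction with
      | zero => simp
      | add _ _ _ _ h1 h2 => rw [mul_add, h1, h2, add_zero]
      | smul c _ _ h1 => rw [mul_smul_comm, h1, smul_zero]
      | mem x hx =>
        obtain ⟨m₂, c₂, hc₂, rfl⟩ := hx
        induction t with
        | zero => simp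
        | add _ _ h1 h2 => rw [mul_add, add_mul, h1, h2, add_zero]
        | tmul m c =>
          rw [Algebra.TensorProduct.tmul_mul_tmul, Algebra.TensorProduct.tmul_mul_tmul,
            hc₂ _ (t₁.mul_mem_of_left c hc₁), tmul_zero]
  refine ⟨C ⧸ J, inferInstance, inferInstance, π, hπ,
    Ideal.ext fun r => (RingHom.mem_ker.trans (hker r).symm), hprime, fun a ha => ?_⟩
  by_contra hn
  have h1 : ∀ c, a - algebraMap k _ c ≠ 0 := fun c hc => hn ⟨c, sub_eq_zero.1 hc⟩
  have h2 : ∀ c y, (a - algebraMap k _ c) * y = y * (a - algebraMap k _ c) := fun c y => by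
    rw [sub_mul, mul_sub, ha, Algebra.commutes]
  set z : B ⊗[k] (C ⧸ J) := 1 ⊗ₜ a with hz
  have h3 : ∀ c, z - algebraMap k _ c = 1 ⊗ₜ (a - algebraMap k _ c) := fun c => by
    rw [tmul_sub, Algebra.TensorProduct.algebraMap_apply']
  have h4 : ∀ y, z * y = y * z := fun y => by
    induction y with
    | zero => simp
    | add _ _ g1 g2 => rw [mul_add, add_mul, g1, g2]
    | tmul m c => simp [hz, ha]
  have h5 : ∀ (c : k) x, x * (z - algebraMap k _ c) = 0 → x = 0 := by
    intro c x hx
    have g1 : Function.Injective (LinearMap.mulRight k (a - algebraMap k _ c)) :=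
      (injective_iff_map_eq_zero _).2 fun y hy => (hprime y _ fun w => by
        rw [mul_assoc, ← h2, ← mul_assoc, show y * _ = 0 from hy, zero_mul]).resolve_right (h1 c)
    have g2 : ∀ x : B ⊗[k] (C ⧸ J), x * (z - algebraMap k _ c) =
        LinearMap.lTensor B (LinearMap.mulRight k (a - algebraMap k _ c)) x := fun x => by
      rw [h3]
      induction x with
      | zero => simp
      | add _ _ g1 g2 => rw [add_mul, map_add, g1, g2]
      | tmul m c => simp
    exact Module.Flat.lTensor_preserves_injective_linearMap _ g1 (by rw [← g2, hx, map_zero])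
  have h6 : ∀ c : k, ∃ r ∉ Q, ∃ y, y * (z - algebraMap k _ c) = ψ r := by
    intro c
    obtain ⟨r, g1, g2⟩ := hI (Ideal.span {a - algebraMap k _ c}) ⟨fun {x} y hx => by
      obtain ⟨w, rfl⟩ := Ideal.mem_span_singleton'.1 hx
      exact Ideal.mem_span_singleton'.2 ⟨w * y, by rw [mul_assoc, mul_assoc, h2]⟩⟩ _
      (Ideal.subset_span rfl) (h1 c)
    refine ⟨r, g1, ?_⟩
    generalize ψ r = x at g2
    induction g2 using Submodule.span_induction with
    | zero => exact ⟨0, zero_mul _⟩
    | add _ _ _ _ g3 g4 =>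
      obtain ⟨y, rfl⟩ := g3
      obtain ⟨y', rfl⟩ := g4
      exact ⟨y + y', add_mul _ _ _⟩
    | smul e _ _ g3 =>
      obtain ⟨y, rfl⟩ := g3
      exact ⟨e • y, smul_mul_assoc _ _ _⟩
    | mem x hx =>
      obtain ⟨m, w, hw, rfl⟩ := hx
      obtain ⟨w, rfl⟩ := Ideal.mem_span_singleton'.1 hw
      exact ⟨m ⊗ₜ w, by rw [h3, Algebra.TensorProduct.tmul_mul_tmul, mul_one]⟩
  choose r hr y hy using h6
  have hR : Module.rank k (B ⊗[k] (C ⧸ J)) ≤ Cardinal.aleph0 := by
    rw [rank_tensorProduct']
    exact (mul_le_mul' hB ((π.toLinearMap.rank_le_of_surjective hπ).trans hC)).trans_eq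
      Cardinal.aleph0_mul_aleph0
  obtain ⟨S, κ, ⟨j, hj, hκ⟩, h7⟩ := exists_dep hR z y
  have h8 := martindale hQ ψ hker (fun c => Polynomial.aeval z (Lagrange.nodal (S.erase c) id))
    (fun c w => ?_) S (fun T hT κ' i hi hκ' x hx => aeval_reg h5 _ (nodal_ne hT κ' hi hκ') x
      (by simpa only [map_sum, map_smul] using hx)) S subset_rfl (fun c => κ c • r c)
    (by simpa only [hy, map_smul] using h7) j hj
  · refine hr j ((hker _).2 ?_)
    have := (hker _).1 h8
    rw [map_smul] at this
    exact (smul_eq_zero.1 this).resolve_left hκ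
  · induction Lagrange.nodal (S.erase c) id using Polynomial.induction_on' with
    | add p q g1 g2 => rw [map_add, add_mul, mul_add, g1, g2]
    | monomial n e =>
      rw [Polynomial.aeval_monomial, mul_assoc, (Commute.pow_left (h4 w) n).eq, ← mul_assoc,
        Algebra.commutes, mul_assoc]

end Pool.Agent.Lib.MP_4da284_al
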