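import Pool.Agent.Lib.MP_4da284_al.H78Pair

namespace Pool.Agent.Lib.MP_4da284_al.Q1

open MvPolynomial

noncomputable section

variable {k U ς : Type*} [Field k] [Ring U] [Algebra k U]

theorem Phi_intertwine {R R' V V' : Type*} [Ring R] [Algebra k R] [Ring R'] [Algebra k R']
    [AddCommGroup V] [Module k V] [Module R V] [IsScalarTower k R V]
    [AddCommGroup V'] [Module k V'] [Module R' V'] [IsScalarTower k R' V']
    (g : V →ₗ[k] V') (x : ς → ℕ → R) (x' : ς → ℕ → R')
    (h : ∀ v n y, g (x v n • y) = x' v n • g y) (l : List ς) (F : MvPolynomial ς k) (y : V) :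
    g (Phi (Algebra.ofId k R) x l F • y) = Phi (Algebra.ofId k R') x' l F • g y := by
  have hw : ∀ β y, g (word x l β • y) = word x' l β • g y := by
    intro β
    induction l with
    | nil => simp [word]
    | cons v l ih => intro y; simp only [word, mul_smul, ih, h]
  induction F using MvPolynomial.induction_on' with
  | monomial β b =>
    simp only [Phi_monomial, mul_smul, hw, Algebra.ofId_apply, algebraMap_smul, map_smul]
  | add p q hp hq => simp only [map_add, add_smul, hp, hq]

theorem Phi_stable {R V : Type*} [Ring R] [Algebra k R]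
    [AddCommGroup V] [Module k V] [Module R V] [IsScalarTower k R V]
    (P : Submodule k V) (x : ς → ℕ → R) (h : ∀ v n, ∀ y ∈ P, x v n • y ∈ P)
    (l : List ς) (F : MvPolynomial ς k) {y : V} (hy : y ∈ P) :
    Phi (Algebra.ofId k R) x l F • y ∈ P := by
  have hw : ∀ β, ∀ y ∈ P, word x l β • y ∈ P := by
    intro β
    induction l with
    | nil => simp [word]
    | cons v l ih => intro y hy; simp only [word, mul_smul]; exact ih _ (h _ _ _ hy)
  induction F using MvPolynomial.induction_on' with
  | monomial β b =>
    simp only [Phi_monomial, mul_smul, Algebra.ofId_apply, algebraMap_smul]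
    exact hw _ _ (P.smul_mem _ hy)
  | add p q hp hq => simp only [map_add, add_smul]; exact P.add_mem hp hq

/- The bracket relation of vector fields on the line. -/
def IsBr (e : Polynomial k →ₗ[k] U) : Prop :=
  ∀ f g, e f * e g - e g * e f = e (f * Polynomial.derivative g - Polynomial.derivative f * g)

def mu (e : Polynomial k →ₗ[k] U) (l : List ς) : MvPolynomial ς k →ₗ[k] U :=
  Phi (Algebra.ofId k U) (fun _ n => e (Polynomial.X ^ n)) l

theorem mu_cons (e : Polynomial k →ₗ[k] U) {l : List ς} {v : ς} (hv : v ∉ l)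
    (g : Polynomial k) {G : MvPolynomial ς k} (hG : G ∈ supported k ({v}ᶜ : Set ς)) :
    mu e (v :: l) (Polynomial.aeval (X v : MvPolynomial ς k) g * G) = mu e l G * e g := by
  rw [mu, Phi_cons_const _ hv g hG, psum_lin]; rfl

theorem mu_rename {ς' : Type*} (e : Polynomial k →ₗ[k] U) (f : ς → ς') (hf : Function.Injective f)
    (l : List ς) (F : MvPolynomial ς k) : mu e (l.map f) (rename f F) = mu e l F :=
  Phi_rename f hf _ _ l F

theorem rename_succ_supp {m : ℕ} (G : MvPolynomial (Fin m) k) :
    rename Fin.succ G ∈ supported k ({0}ᶜ : Set (Fin (m + 1))) := by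
  induction G using MvPolynomial.induction_on with
  | C a => rw [rename_C]; exact C_mem_supp _ a
  | add p q hp hq => rw [map_add]; exact Subalgebra.add_mem _ hp hq
  | mul_X p w hp =>
    rw [map_mul, rename_X]; exact Subalgebra.mul_mem _ hp (X_mem_supp (Fin.succ_ne_zero w))

theorem mu_succ (e : Polynomial k →ₗ[k] U) {m : ℕ} (g : Polynomial k) (G : MvPolynomial (Fin m) k) :
    mu e (List.finRange (m + 1))
      (Polynomial.aeval (X 0 : MvPolynomial (Fin (m + 1)) k) g * rename Fin.succ G) =
      mu e (List.finRange m) G * e g := by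
  rw [List.finRange_succ, mu_cons e _ g (rename_succ_supp G), mu_rename e _ (Fin.succ_injective m)]
  simp [Fin.succ_ne_zero]

def Lv (f : Polynomial k) (v : ς) (F : MvPolynomial ς k) : MvPolynomial ς k :=
  Polynomial.aeval (X v : MvPolynomial ς k) f * pderiv v F -
    Polynomial.aeval (X v : MvPolynomial ς k) (Polynomial.derivative f) * F

theorem pderiv_aeval_X [DecidableEq ς] (g : Polynomial k) (v w : ς) :
    pderiv w (Polynomial.aeval (X v : MvPolynomial ς k) g) =
      if v = w then Polynomial.aeval (X v : MvPolynomial ς k) (Polynomial.derivative g) else 0 := by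
  rw [Derivation.map_aeval, pderiv_X]
  split_ifs with h
  · subst h; simp
  · simp [h]

theorem aeval_X_supp {s : Set ς} {v : ς} (h : v ∈ s) (g : Polynomial k) :
    Polynomial.aeval (X v : MvPolynomial ς k) g ∈ supported k s := by
  induction g using Polynomial.induction_on' with
  | monomial n a =>
    rw [Polynomial.aeval_monomial]
    exact Subalgebra.mul_mem _ (Subalgebra.algebraMap_mem _ _)
      (Subalgebra.pow_mem _ (X_mem_supp h) _)
  | add p q hp hq => rw [map_add]; exact Subalgebra.add_mem _ hp hq

theorem pderiv_supp {s : Set ς} (w : ς) {G : MvPolynomial ς k} (hG : G ∈ supported k s) :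
    pderiv w G ∈ supported k s := by
  classical
  rw [mem_supp_iff] at hG ⊢
  intro β hβ v hv
  rw [coeff_pderiv] at hβ
  refine hG _ (left_ne_zero_of_mul hβ) v ?_
  simp [hv]

theorem mu_comm_aux [DecidableEq ς] {e : Polynomial k →ₗ[k] U} (he : IsBr e) (f : Polynomial k)
    {l : List ς} (hl : l.Nodup) (F : MvPolynomial ς k) :
    e f * mu e l F - mu e l F * e f = mu e l (∑ v ∈ l.toFinset, Lv f v F) := by
  induction l generalizing F with
  | nil =>
    induction F using MvPolynomial.induction_on' with
    | monomial β b =>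
      simp [mu, Phi_monomial, word, Algebra.ofId_apply, Algebra.commutes]
    | add p q hp hq =>
      simp only [map_add, mul_add, add_mul, List.toFinset_nil, Finset.sum_empty, map_zero] at hp hq ⊢
      rw [sub_eq_zero] at hp hq ⊢
      rw [hp, hq]
  | cons v l ih =>
    obtain ⟨hv, hl⟩ := List.nodup_cons.1 hl
    induction F using ind_u v (0 : k) with
    | hadd F G hF hG =>
      have : ∑ w ∈ (v :: l).toFinset, Lv f w (F + G) =
          ∑ w ∈ (v :: l).toFinset, Lv f w F + ∑ w ∈ (v :: l).toFinset, Lv f w G := by
        rw [← Finset.sum_add_distrib]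
        refine Finset.sum_congr rfl fun w _ => ?_
        simp only [Lv, map_add]; ring
      rw [this, map_add, map_add, ← hF, ← hG]; noncomm_ring
    | h α G hG =>
      have e1 : (X v - C 0 : MvPolynomial ς k) ^ α =
          Polynomial.aeval (X v : MvPolynomial ς k) (Polynomial.X ^ α : Polynomial k) := by simp
      rw [e1]
      generalize (Polynomial.X ^ α : Polynomial k) = g
      have hG0 : pderiv v G = 0 := by
        refine pderiv_eq_zero_of_notMem_vars fun h => ?_
        exact mem_supported.1 hG h rfl
      have e2 : Lv f v (Polynomial.aeval (X v : MvPolynomial ς k) g * G) =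
          Polynomial.aeval (X v : MvPolynomial ς k)
            (f * Polynomial.derivative g - Polynomial.derivative f * g) * G := by
        simp only [Lv, Derivation.leibniz, hG0, pderiv_aeval_X, if_true, smul_eq_mul, map_sub,
          map_mul]
        ring
      have e3 : ∑ w ∈ l.toFinset, Lv f w (Polynomial.aeval (X v : MvPolynomial ς k) g * G) =
          Polynomial.aeval (X v : MvPolynomial ς k) g * ∑ w ∈ l.toFinset, Lv f w G := by
        rw [Finset.mul_sum]
        refine Finset.sum_congr rfl fun w hw => ?_
        have : v ≠ w := fun h => hv (h ▸ List.mem_toFinset.1 hw)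
        simp only [Lv, Derivation.leibniz, pderiv_aeval_X, if_neg this, smul_eq_mul]
        ring
      have e4 : ∑ w ∈ l.toFinset, Lv f w G ∈ supported k ({v}ᶜ : Set ς) := by
        refine Subalgebra.sum_mem _ fun w hw => ?_
        have : w ≠ v := fun h => hv (h ▸ List.mem_toFinset.1 hw)
        exact Subalgebra.sub_mem _
          (Subalgebra.mul_mem _ (aeval_X_supp this _) (pderiv_supp w hG))
          (Subalgebra.mul_mem _ (aeval_X_supp this _) hG)
      rw [List.toFinset_cons, Finset.sum_insert (by simpa using hv), e2, e3, map_add,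
        mu_cons e hv _ hG, mu_cons e hv _ hG, mu_cons e hv _ e4, ← ih hl, ← he]
      noncomm_ring

theorem mu_comm [Fintype ς] [DecidableEq ς] {e : Polynomial k →ₗ[k] U} (he : IsBr e)
    (f : Polynomial k) {l : List ς} (hl : l.Nodup) (hc : ∀ v, v ∈ l) (F : MvPolynomial ς k) :
    e f * mu e l F - mu e l F * e f = mu e l (∑ v, Lv f v F) := by
  rw [mu_comm_aux he f hl]
  congr 2
  ext v; simp [hc]

def rprod (e : Polynomial k →ₗ[k] U) : List (Polynomial k) → U
  | [] => 1
  | f :: L => rprod e L * e f

theorem rprod_append (e : Polynomial k →ₗ[k] U) (L L' : List (Polynomial k)) :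
    rprod e (L ++ L') = rprod e L' * rprod e L := by
  induction L with
  | nil => simp [rprod]
  | cons f L ih => simp [rprod, ih, mul_assoc]

def Fil (e : Polynomial k →ₗ[k] U) (j : ℕ) : Submodule k U :=
  Submodule.span k {p | ∃ L : List (Polynomial k), L.length < j ∧ p = rprod e L}

theorem Fil_mono (e : Polynomial k →ₗ[k] U) {i j : ℕ} (h : i ≤ j) : Fil e i ≤ Fil e j :=
  Submodule.span_mono fun _ ⟨L, hL, hp⟩ => ⟨L, by omega, hp⟩

theorem Fil_mul (e : Polynomial k →ₗ[k] U) {i j : ℕ} {p q : U} (hp : p ∈ Fil e i)
    (hq : q ∈ Fil e (j + 1)) : p * q ∈ Fil e (i + j) := by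
  induction hp using Submodule.span_induction with
  | mem x hx =>
    obtain ⟨L, hL, rfl⟩ := hx
    induction hq using Submodule.span_induction with
    | mem y hy =>
      obtain ⟨L', hL', rfl⟩ := hy
      exact Submodule.subset_span ⟨L' ++ L, by simp; omega, (rprod_append e _ _).symm⟩
    | zero => simp
    | add a b _ _ ha hb => rw [mul_add]; exact Submodule.add_mem _ ha hb
    | smul c a _ ha => rw [mul_smul_comm]; exact Submodule.smul_mem _ _ ha
  | zero => simp
  | add a b _ _ ha hb => rw [add_mul]; exact Submodule.add_mem _ ha hb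
  | smul c a _ ha => rw [smul_mul_assoc]; exact Submodule.smul_mem _ _ ha

theorem e_mem_Fil (e : Polynomial k →ₗ[k] U) (f : Polynomial k) : e f ∈ Fil e 2 :=
  Submodule.subset_span ⟨[f], by simp, by simp [rprod]⟩

theorem exists_Fil {e : Polynomial k →ₗ[k] U} (hgen : Algebra.adjoin k (Set.range e) = ⊤) (u : U) :
    ∃ j, u ∈ Fil e j := by
  have hu : u ∈ Algebra.adjoin k (Set.range e) := hgen ▸ Algebra.mem_top
  induction hu using Algebra.adjoin_induction with
  | mem x hx => obtain ⟨f, rfl⟩ := hx; exact ⟨2, e_mem_Fil e f⟩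
  | algebraMap r =>
    refine ⟨1, ?_⟩
    rw [Algebra.algebraMap_eq_smul_one]
    exact Submodule.smul_mem _ _ (Submodule.subset_span ⟨[], by simp, rfl⟩)
  | add x y _ _ hx hy =>
    obtain ⟨i, hi⟩ := hx
    obtain ⟨j, hj⟩ := hy
    exact ⟨i + j, Submodule.add_mem _ (Fil_mono e (by omega) hi) (Fil_mono e (by omega) hj)⟩
  | mul x y _ _ hx hy =>
    obtain ⟨i, hi⟩ := hx
    obtain ⟨j, hj⟩ := hy
    exact ⟨i + j, Fil_mul e hi (Fil_mono e (by omega) hj)⟩

theorem rprod_perm {e : Polynomial k →ₗ[k] U} (he : IsBr e) {L L' : List (Polynomial k)}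
    (h : L.Perm L') : rprod e L - rprod e L' ∈ Fil e L.length := by
  induction h with
  | nil => simp
  | cons f _ ih =>
    simp only [rprod, ← sub_mul, List.length_cons]
    exact Fil_mul e ih (e_mem_Fil e f)
  | swap f g L =>
    simp only [rprod, mul_assoc, ← mul_sub, he f g, List.length_cons]
    exact Submodule.subset_span ⟨_ :: L, by simp, rfl⟩
  | trans h1 _ ih1 ih2 =>
    rw [← h1.length_eq] at ih2
    have := Submodule.add_mem _ ih1 ih2
    rwa [sub_add_sub_cancel] at this

theorem word_eq_rprod (e : Polynomial k →ₗ[k] U) (l : List ς) (β : ς →₀ ℕ) :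
    word (fun _ n => e (Polynomial.X ^ n)) l β = rprod e (l.map fun v => Polynomial.X ^ β v) := by
  induction l with
  | nil => rfl
  | cons v l ih => simp [word, rprod, ih]

theorem mu_perm {e : Polynomial k →ₗ[k] U} (he : IsBr e) {l l' : List ς} (h : l.Perm l')
    (F : MvPolynomial ς k) : mu e l F - mu e l' F ∈ Fil e l.length := by
  induction F using MvPolynomial.induction_on' with
  | monomial β b =>
    simp only [mu, Phi_monomial, word_eq_rprod, Algebra.ofId_apply,
      ← Algebra.commutes, ← Algebra.smul_def, ← smul_sub]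
    have := rprod_perm he (h.map fun v => (Polynomial.X : Polynomial k) ^ β v)
    rw [List.length_map] at this
    exact Submodule.smul_mem _ _ this
  | add p q hp hq =>
    simp only [map_add]
    have := Submodule.add_mem _ hp hq
    convert this using 1
    abel

theorem mu_symm {e : Polynomial k →ₗ[k] U} (he : IsBr e) {m : ℕ} (σ : Equiv.Perm (Fin m))
    (F : MvPolynomial (Fin m) k) :
    mu e (List.finRange m) (rename σ F) - mu e (List.finRange m) F ∈ Fil e m := by
  have h1 := mu_rename e σ σ.injective (List.finRange m) F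
  have h2 := mu_perm he (Equiv.Perm.map_finRange_perm σ).symm (rename σ F)
  rwa [h1, List.length_finRange] at h2

theorem rprod_eq_mu (e : Polynomial k →ₗ[k] U) (L : List (Polynomial k)) :
    ∃ G : MvPolynomial (Fin L.length) k, mu e (List.finRange L.length) G = rprod e L := by
  induction L with
  | nil =>
    refine ⟨1, ?_⟩
    rw [mu, ← C_1, C_apply, Phi_monomial]; simp [word, rprod]
  | cons f L ih =>
    obtain ⟨G, hG⟩ := ih
    exact ⟨_, (mu_succ e f G).trans (by rw [hG]; rfl)⟩

theorem exists_mu_of_Fil (e : Polynomial k →ₗ[k] U) {m : ℕ} {q : U} (hq : q ∈ Fil e (m + 1)) :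
    ∃ H : MvPolynomial (Fin m) k, q - mu e (List.finRange m) H ∈ Fil e m := by
  induction hq using Submodule.span_induction with
  | mem x hx =>
    obtain ⟨L, hL, rfl⟩ := hx
    by_cases h : L.length = m
    · subst h
      obtain ⟨G, hG⟩ := rprod_eq_mu e L
      exact ⟨G, by simp [hG]⟩
    · refine ⟨0, ?_⟩
      rw [map_zero, sub_zero]
      exact Submodule.subset_span ⟨L, by omega, rfl⟩
  | zero => exact ⟨0, by simp⟩
  | add a b _ _ ha hb =>
    obtain ⟨G, hG⟩ := ha
    obtain ⟨G', hG'⟩ := hb
    refine ⟨G + G', ?_⟩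
    have := Submodule.add_mem _ hG hG'
    rw [map_add]
    convert this using 1
    abel
  | smul c a _ ha =>
    obtain ⟨G, hG⟩ := ha
    exact ⟨c • G, by rw [map_smul, ← smul_sub]; exact Submodule.smul_mem _ _ hG⟩

end

end Pool.Agent.Lib.MP_4da284_al.Q1
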