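import Pool.Agent.Lib.MP_4da284_al.H78Phi

namespace Pool.Agent.Lib.MP_4da284_al.Q1

open MvPolynomial

noncomputable section

variable {k A R ς I : Type*} [Field k] [CommRing A] [Algebra k A] [Ring R] [Algebra k R]

structure IsSys [DecidableEq I] (ι : A →ₐ[k] R) (t : I → A) (d : I → Derivation k A A)
    (D : I → ℕ → R) : Prop where
  hd : ∀ i j, d i (t j) = if i = j then 1 else 0
  h0 : ∀ i b, D i 0 * ι b = ι b * D i 0 + ι (d i b)
  h1 : ∀ i α b, α ≠ 0 → D i α * ι b = ι b * D i α

/- operators attached to an assignment of variables to points -/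
def xs (ι : A →ₐ[k] R) (t : I → A) (D : I → ℕ → R) (π : ς → I) : ς → ℕ → R :=
  fun v n => phi1 ι (t (π v)) (D (π v)) (Polynomial.X ^ n)

def xE [Fintype I] (ι : A →ₐ[k] R) (t : I → A) (D : I → ℕ → R) : ς → ℕ → R :=
  fun _ n => ∑ i, phi1 ι (t i) (D i) (Polynomial.X ^ n)

variable [DecidableEq I] {ι : A →ₐ[k] R} {t : I → A} {d : I → Derivation k A A} {D : I → ℕ → R}

theorem IsSys.cons (hS : IsSys ι t d D) (π : ς → I) {l : List ς} {v : ς} (hv : v ∉ l)
    (α : ℕ) {G : MvPolynomial ς A} (hG : G ∈ supported A ({v}ᶜ : Set ς)) :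
    Phi ι (xs ι t D π) (v :: l) ((X v - C (t (π v))) ^ α * G) =
      Phi ι (xs ι t D π) l G * D (π v) α +
        if α = 0 then Phi ι (xs ι t D π) l (cder (d (π v)) G) else 0 :=
  Phi_cons_pt ι _ hv (t (π v)) (d (π v)) (D (π v)) (fun _ => rfl) (hS.h0 _) (hS.h1 _) α hG

theorem cder_pow_mul (δ : Derivation k A A) (u G : MvPolynomial ς A) (K : ℕ) :
    cder δ (u ^ (K + 1) * G) = u ^ K * (u * cder δ G + (K + 1 : ℕ) * cder δ u * G) := by
  rw [Derivation.leibniz, Derivation.leibniz_pow]
  simp only [smul_eq_mul, nsmul_eq_mul, Nat.add_sub_cancel]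
  ring

theorem IsSys.nil (hS : IsSys ι t d D) {N : ℕ} (hN : ∀ i α, N ≤ α → D i α = 0) (π : ς → I)
    {l : List ς} (hl : l.Nodup) {w : ς} (hw : w ∈ l) {K : ℕ} (hK : N + l.length ≤ K)
    (H : MvPolynomial ς A) :
    Phi ι (xs ι t D π) l ((X w - C (t (π w))) ^ K * H) = 0 := by
  induction l generalizing K H with
  | nil => simp at hw
  | cons v l ih =>
    obtain ⟨hv, hl⟩ := List.nodup_cons.1 hl
    simp only [List.length_cons] at hK
    induction H using ind_u v (t (π v)) with
    | hadd F G hF hG => rw [mul_add, map_add, hF, hG, add_zero]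
    | h α G hG =>
      by_cases hwv : w = v
      · subst hwv
        rw [← mul_assoc, ← pow_add, hS.cons π hv _ hG, hN _ _ (by omega), if_neg (by omega)]
        simp
      · have hw' : w ∈ l := by
          rcases List.mem_cons.1 hw with h | h
          · exact absurd h hwv
          · exact h
        obtain ⟨K, rfl⟩ : ∃ K', K = K' + 1 := ⟨K - 1, by omega⟩
        rw [mul_left_comm, hS.cons π hv _
          (Subalgebra.mul_mem _ (Subalgebra.pow_mem _ (u_mem_supp hwv _) _) hG),
          ih hl hw' (by omega), cder_pow_mul, ih hl hw' (by omega)]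
        simp

theorem IsSys.nil_diff (hS : IsSys ι t d D) {N : ℕ} (hN : ∀ i α, N ≤ α → D i α = 0) (π : ς → I)
    {l : List ς} (hl : l.Nodup) {v w : ς} (hv : v ∈ l) (hw : w ∈ l) (hπ : π v = π w) {K : ℕ}
    (hK : 2 * (N + l.length) ≤ K) (H : MvPolynomial ς A) :
    Phi ι (xs ι t D π) l ((X v - X w) ^ K * H) = 0 := by
  have : (X v - X w : MvPolynomial ς A) = (X v - C (t (π v))) + (-(X w - C (t (π w)))) := by
    rw [hπ]; ring
  rw [this, add_pow, Finset.sum_mul, map_sum]
  refine Finset.sum_eq_zero fun m hm => ?_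
  by_cases h : N + l.length ≤ m
  · rw [mul_assoc, mul_assoc]; exact hS.nil hN π hl hv h _
  · rw [neg_pow]
    have := hS.nil hN π hl hw (K := K - m) (by omega)
      ((X v - C (t (π v))) ^ m * (-1) ^ (K - m) * (K.choose m : MvPolynomial ς A) * H)
    rw [← this]; congr 1; ring

variable (A) in
/- product of `s_v - s_w` over all ordered pairs of variables in different blocks -/
def disc [Fintype ς] {J : Type*} [DecidableEq J] (b : ς → J) : MvPolynomial ς A :=
  ∏ p ∈ Finset.univ.filter (fun p : ς × ς => b p.1 ≠ b p.2), (X p.1 - X p.2)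

theorem map_disc [Fintype ς] {J : Type*} [DecidableEq J] (b : ς → J) :
    map (algebraMap k A) (disc k b) = disc A b := by
  simp [disc, map_prod]

theorem dvd_disc [Fintype ς] {J : Type*} [DecidableEq J] (b : ς → J) {v w : ς} (h : b v ≠ b w) :
    (X v - X w : MvPolynomial ς A) ∣ disc A b :=
  Finset.dvd_prod_of_mem (fun p : ς × ς => (X p.1 - X p.2 : MvPolynomial ς A))
    (a := (v, w)) (by simpa using h)

theorem IsSys.nil_disc [Fintype ς] {J : Type*} [DecidableEq J] (b : ς → J)
    (hS : IsSys ι t d D) {N : ℕ} (hN : ∀ i α, N ≤ α → D i α = 0) (π : ς → I)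
    {l : List ς} (hl : l.Nodup) (hc : ∀ v, v ∈ l) {v w : ς} (hb : b v ≠ b w) (hπ : π v = π w)
    {K : ℕ} (hK : 2 * (N + l.length) ≤ K) (H : MvPolynomial ς A) :
    Phi ι (xs ι t D π) l (disc A b ^ K * H) = 0 := by
  obtain ⟨c, hc'⟩ := dvd_disc (A := A) b hb
  rw [hc', mul_pow, mul_assoc]
  exact hS.nil_diff hN π hl (hc v) (hc w) hπ hK _

theorem IsSys.pigeon [Fintype ς] [DecidableEq ς] [Fintype I] {J : Type*} [Fintype J]
    [DecidableEq J] (b : ς → J) (hb : Function.Surjective b)
    (hcard : Fintype.card I < Fintype.card J)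
    (hS : IsSys ι t d D) {N : ℕ} (hN : ∀ i α, N ≤ α → D i α = 0)
    {l : List ς} (hl : l.Nodup) (hc : ∀ v, v ∈ l)
    {K : ℕ} (hK : 2 * (N + l.length) ≤ K) (H : MvPolynomial ς A) :
    Phi ι (xE ι t D) l (disc A b ^ K * H) = 0 := by
  unfold xE
  rw [Phi_sum ι _ hl hc]
  refine Finset.sum_eq_zero fun π _ => ?_
  obtain ⟨s, hs⟩ := hb.hasRightInverse
  obtain ⟨j, j', hj, hπ⟩ := Fintype.exists_ne_map_eq_of_card_lt (fun j => π (s j)) hcard
  exact hS.nil_disc b hN π hl hc (v := s j) (w := s j') (by rwa [hs, hs]) hπ hK H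

section Pairs

variable {J : Type*}

def pl : List J → List (J × Bool)
  | [] => []
  | m :: lp => (m, true) :: (m, false) :: pl lp

theorem mem_pl {lp : List J} {v : J × Bool} : v ∈ pl lp ↔ v.1 ∈ lp := by
  induction lp with
  | nil => simp [pl]
  | cons m lp ih =>
    obtain ⟨a, b⟩ := v
    simp only [pl, List.mem_cons, Prod.mk.injEq] at ih ⊢
    rw [ih]
    cases b <;> simp

theorem nodup_pl {lp : List J} (h : lp.Nodup) : (pl lp).Nodup := by
  induction lp with
  | nil => simp [pl]
  | cons m lp ih =>
    obtain ⟨hm, h⟩ := List.nodup_cons.1 h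
    simp [pl, mem_pl, hm, ih h]

def top (n : ℕ) : ℕ := max (2 * n) (n + 1)

def LL (D : ℕ → R) (a b : ℕ) : R := D a * D b - if b = 0 then (a : R) * D (a - 1) else 0

def cc (D : ℕ → R) (j : ℕ) : R :=
  ∑ a ∈ Finset.range (j + 1), ((-1) ^ (j - a) * (j.choose a : ℤ)) • LL D a (j - a)

def cw (c : J → R) : List J → R
  | [] => 1
  | m :: lp => cw c lp * c m

def PP (A : Type*) [CommRing A] (j : J → ℕ) (lp : List J) : MvPolynomial (J × Bool) A :=
  (lp.map fun m => (X (m, false) - X (m, true)) ^ j m).prod

theorem map_PP (j : J → ℕ) (lp : List J) : map (algebraMap k A) (PP k j lp) = PP A j lp := by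
  induction lp with
  | nil => simp [PP]
  | cons m lp ih => simp only [PP, List.map_cons, List.prod_cons, map_mul] at ih ⊢; simp [ih]

theorem cder_u (hS : IsSys ι t d D) (i j : I) (v : ς) :
    cder (d i) (X v - C (t j) : MvPolynomial ς A) = if i = j then -1 else 0 := by
  rw [map_sub, cder_X, cder_C, hS.hd]
  split_ifs <;> simp

theorem IsSys.cons2 (hS : IsSys ι t d D) (σ : J → I) {lp : List J} {m : J} (hm : m ∉ lp)
    (a b : ℕ) {G : MvPolynomial (J × Bool) A}
    (h1 : G ∈ supported A ({(m, true)}ᶜ : Set (J × Bool)))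
    (h2 : G ∈ supported A ({(m, false)}ᶜ : Set (J × Bool))) :
    Phi ι (xs ι t D fun v => σ v.1) (pl (m :: lp))
        ((X (m, false) - C (t (σ m))) ^ a * (X (m, true) - C (t (σ m))) ^ b * G) =
      Phi ι (xs ι t D fun v => σ v.1) (pl lp) G * LL (D (σ m)) a b +
      Phi ι (xs ι t D fun v => σ v.1) (pl lp) (cder (d (σ m)) G) *
        ((if a = 0 then D (σ m) b else 0) +
          if b = 0 then D (σ m) a - (if a = 1 then 1 else 0) else 0) +
      Phi ι (xs ι t D fun v => σ v.1) (pl lp) (cder (d (σ m)) (cder (d (σ m)) G)) *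
        (if a = 0 ∧ b = 0 then 1 else 0) := by
  have hv1 : (m, true) ∉ (m, false) :: pl lp := by simp [mem_pl, hm]
  have hv2 : (m, false) ∉ pl lp := by simp [mem_pl, hm]
  have c1 := fun α G hG => hS.cons (fun v : J × Bool => σ v.1) hv1 α (G := G) hG
  have c2 := fun α G hG => hS.cons (fun v : J × Bool => σ v.1) hv2 α (G := G) hG
  simp only at c1 c2
  have hu : (X (m, false) - C (t (σ m)) : MvPolynomial (J × Bool) A) ∈
      supported A ({(m, true)}ᶜ : Set (J × Bool)) := u_mem_supp (by simp) _
  rw [pl, mul_comm (_ ^ a), mul_assoc, c1 b _ (Subalgebra.mul_mem _ (Subalgebra.pow_mem _ hu _) h1),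
    c2 a _ h2]
  have h2' := cder_mem_supp (d (σ m)) _ h2
  by_cases hb : b = 0
  · subst hb
    rcases a with _ | a
    · have := c2 0 _ h2'
      simp only [pow_zero, one_mul, if_true] at this
      simp [LL, this, mul_add, add_mul, add_assoc, mul_assoc]
    · rw [if_pos rfl, cder_pow_mul, cder_u hS, if_pos rfl, mul_add, ← mul_assoc, ← pow_succ,
        map_add, c2 _ _ h2']
      have e : (X (m, false) - C (t (σ m))) ^ a * (((a + 1 : ℕ) : MvPolynomial (J × Bool) A) * -1 * G)
          = -(((a + 1 : ℕ) : k) • ((X (m, false) - C (t (σ m))) ^ a * G)) := by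
        rw [Nat.cast_smul_eq_nsmul, nsmul_eq_mul]; ring
      rw [e, map_neg, map_smul, c2 a _ h2, Nat.cast_smul_eq_nsmul, nsmul_eq_mul]
      simp only [LL, Nat.add_eq_zero_iff, one_ne_zero, and_false, if_false, if_true,
        Nat.add_sub_cancel, Nat.add_eq_right, false_and, mul_zero, add_zero, zero_add]
      have hc := (Nat.cast_commute (a + 1) (Phi ι (xs ι t D fun v => σ v.1) (pl lp) G)).eq
      split_ifs with ha
      · subst ha
        simp only [zero_add, Nat.cast_one, one_mul]
        noncomm_ring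
      · rw [add_zero, sub_zero, mul_sub, ← mul_assoc, ← mul_assoc, ← mul_assoc, hc]
        abel
  · simp only [hb, if_false, LL, and_false, mul_zero, add_zero, sub_zero]
    split_ifs <;> simp [add_mul, mul_assoc]

theorem LL_eq_zero {D : ℕ → R} {n : ℕ} (hn : ∀ α, n < α → D α = 0) {a b : ℕ}
    (h : top n < a + b) : LL D a b = 0 := by
  unfold top at h
  have h1 : D a * D b = 0 := by
    by_cases ha : n < a
    · rw [hn a ha, zero_mul]
    · rw [hn b (by omega), mul_zero]
  rw [LL, h1]
  split_ifs with hb
  · rw [hn (a - 1) (by omega)]; simp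
  · simp

theorem IsSys.pair_zero [DecidableEq J] (hS : IsSys ι t d D) {n : I → ℕ}
    (hn : ∀ i α, n i < α → D i α = 0) {σ : J → I} (hσ : Function.Injective σ)
    {lp : List J} (hl : lp.Nodup) {m : J} (hm : m ∈ lp) {a b : ℕ} (hab : top (n (σ m)) < a + b)
    (H : MvPolynomial (J × Bool) A) :
    Phi ι (xs ι t D fun v => σ v.1) (pl lp)
      ((X (m, false) - C (t (σ m))) ^ a * (X (m, true) - C (t (σ m))) ^ b * H) = 0 := by
  induction lp generalizing a b H with
  | nil => simp at hm
  | cons m0 lp ih =>
    obtain ⟨hm0, hl⟩ := List.nodup_cons.1 hl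
    induction H using ind_u (m0, true) (t (σ m0)) with
    | hadd F G hF hG => rw [mul_add, map_add, hF, hG, add_zero]
    | h b0 G hG =>
      -- split off the variable `(m0, false)` as well
      have hdec : ∀ G : MvPolynomial (J × Bool) A, G ∈ supported A ({(m0, true)}ᶜ : Set (J × Bool)) →
          ∀ P : MvPolynomial (J × Bool) A → Prop, (∀ F G, P F → P G → P (F + G)) → P 0 →
          (∀ (α : ℕ) G, G ∈ supported A ({(m0, true)}ᶜ : Set (J × Bool)) →
            G ∈ supported A ({(m0, false)}ᶜ : Set (J × Bool)) →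
            P ((X (m0, false) - C (t (σ m0))) ^ α * G)) → P G := by
        intro G hG P hadd h0 h
        let ρ : MvPolynomial (J × Bool) A →ₐ[A] MvPolynomial (J × Bool) A :=
          aeval (fun v => if v = (m0, true) then 0 else X v)
        have hρ : ∀ s : Set (J × Bool), ∀ F ∈ supported A s,
            ρ F ∈ supported A (s ∩ {(m0, true)}ᶜ) := by
          intro s F hF
          rw [supported_eq_adjoin_X] at hF
          induction hF using Algebra.adjoin_induction with
          | mem x hx =>
            obtain ⟨v, hv, rfl⟩ := hx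
            simp only [ρ, aeval_X]
            split_ifs with h
            · exact Subalgebra.zero_mem _
            · exact X_mem_supp ⟨hv, h⟩
          | algebraMap r => rw [AlgHom.commutes]; exact Subalgebra.algebraMap_mem _ _
          | add x y _ _ hx hy => rw [map_add]; exact Subalgebra.add_mem _ hx hy
          | mul x y _ _ hx hy => rw [map_mul]; exact Subalgebra.mul_mem _ hx hy
        have hρG : ρ G = G := by
          rw [supported_eq_adjoin_X] at hG
          induction hG using Algebra.adjoin_induction with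
          | mem x hx =>
            obtain ⟨v, hv, rfl⟩ := hx
            simp only [ρ, aeval_X]
            exact if_neg hv
          | algebraMap r => rw [AlgHom.commutes]
          | add x y _ _ hx hy => rw [map_add, hx, hy]
          | mul x y _ _ hx hy => rw [map_mul, hx, hy]
        rw [← hρG]
        clear hρG hG
        induction G using ind_u (m0, false) (t (σ m0)) with
        | hadd F G hF hG => rw [map_add]; exact hadd _ _ hF hG
        | h α G hG =>
          have := h α (ρ G) (supported_mono Set.inter_subset_right (hρ _ _ hG))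
            (supported_mono Set.inter_subset_left (hρ _ _ hG))
          simpa [ρ] using this
      refine hdec G hG (fun G => Phi ι (xs ι t D fun v => σ v.1) (pl (m0 :: lp))
        ((X (m, false) - C (t (σ m))) ^ a * (X (m, true) - C (t (σ m))) ^ b *
          ((X (m0, true) - C (t (σ m0))) ^ b0 * G)) = 0) ?_ (by simp) ?_
      · intro F G hF hG; simp only [mul_add, map_add, hF, hG, add_zero]
      · intro a0 G h1 h2
        by_cases hmm : m = m0
        · subst hmm
          have e : (X (m, false) - C (t (σ m))) ^ a * (X (m, true) - C (t (σ m))) ^ b *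
              ((X (m, true) - C (t (σ m))) ^ b0 * ((X (m, false) - C (t (σ m))) ^ a0 * G)) =
              (X (m, false) - C (t (σ m))) ^ (a + a0) * (X (m, true) - C (t (σ m))) ^ (b + b0) * G := by
            ring
          rw [e, hS.cons2 σ hm0 _ _ h1 h2, LL_eq_zero (hn _) (by omega)]
          unfold top at hab
          have e1 : (if a + a0 = 0 then D (σ m) (b + b0) else 0) = 0 := by
            split_ifs
            · exact hn _ _ (by omega)
            · rfl
          have e2 : (if b + b0 = 0 then D (σ m) (a + a0) - (if a + a0 = 1 then 1 else 0) else 0)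
              = 0 := by
            split_ifs
            · omega
            · rw [hn _ _ (by omega), sub_zero]
            · rfl
          rw [e1, e2, if_neg (by omega)]
          simp
        · have hm' : m ∈ lp := by
            rcases List.mem_cons.1 hm with h | h
            · exact absurd h hmm
            · exact h
          set w : MvPolynomial (J × Bool) A :=
            (X (m, false) - C (t (σ m))) ^ a * (X (m, true) - C (t (σ m))) ^ b with hw
          have e : w * ((X (m0, true) - C (t (σ m0))) ^ b0 * ((X (m0, false) - C (t (σ m0))) ^ a0 * G)) =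
              (X (m0, false) - C (t (σ m0))) ^ a0 * (X (m0, true) - C (t (σ m0))) ^ b0 * (w * G) := by
            ring
          have hws : ∀ c : Bool, w ∈ supported A ({(m0, c)}ᶜ : Set (J × Bool)) := fun c =>
            Subalgebra.mul_mem _ (Subalgebra.pow_mem _ (u_mem_supp (by simp [hmm]) _) _)
              (Subalgebra.pow_mem _ (u_mem_supp (by simp [hmm]) _) _)
          have hne : σ m0 ≠ σ m := fun h => hmm (hσ h).symm
          have hdw : cder (d (σ m0)) w = 0 := by
            rw [hw, Derivation.leibniz, Derivation.leibniz_pow, Derivation.leibniz_pow,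
              cder_u hS, cder_u hS, if_neg hne]
            simp
          have hd : ∀ G, cder (d (σ m0)) (w * G) = w * cder (d (σ m0)) G := by
            intro G; rw [Derivation.leibniz, hdw]; simp
          rw [e, hS.cons2 σ hm0 _ _ (Subalgebra.mul_mem _ (hws _) h1)
            (Subalgebra.mul_mem _ (hws _) h2), hd, hd, ih hl hm' hab, ih hl hm' hab, ih hl hm' hab]
          simp

theorem PP_supp (j : J → ℕ) {lp : List J} {m : J} (hm : m ∉ lp) (c : Bool) :
    PP A j lp ∈ supported A ({(m, c)}ᶜ : Set (J × Bool)) := by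
  refine Subalgebra.list_prod_mem _ fun x hx => ?_
  obtain ⟨m', hm', rfl⟩ := List.mem_map.1 hx
  have : m' ≠ m := fun h => hm (h ▸ hm')
  exact Subalgebra.pow_mem _ (Subalgebra.sub_mem _ (X_mem_supp (by simp [this]))
    (X_mem_supp (by simp [this]))) _

theorem cder_PP (δ : Derivation k A A) (j : J → ℕ) (lp : List J) : cder δ (PP A j lp) = 0 := by
  induction lp with
  | nil => simp [PP]
  | cons m lp ih =>
    simp only [PP, List.map_cons, List.prod_cons] at ih ⊢
    rw [Derivation.leibniz, ih, Derivation.leibniz_pow, map_sub, cder_X, cder_X]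
    simp

theorem sub_pow_eq (u u' : MvPolynomial ς A) (j : ℕ) :
    (u - u') ^ j = ∑ a ∈ Finset.range (j + 1),
      ((-1) ^ (j - a) * (j.choose a : ℤ)) • (u ^ a * u' ^ (j - a)) := by
  rw [sub_eq_add_neg, add_pow]
  refine Finset.sum_congr rfl fun a _ => ?_
  rw [neg_pow u', zsmul_eq_mul]
  push_cast
  ring

theorem IsSys.pair_PP (hS : IsSys ι t d D) (σ : J → I) (j : J → ℕ)
    {lp : List J} (hl : lp.Nodup) :
    Phi ι (xs ι t D fun v => σ v.1) (pl lp) (PP A j lp) =
      cw (fun m => cc (D (σ m)) (j m)) lp := by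
  induction lp with
  | nil =>
    simp only [PP, List.map_nil, List.prod_nil, cw, pl]
    rw [← C_1, C_apply, Phi_monomial]; simp [word]
  | cons m lp ih =>
    obtain ⟨hm, hl⟩ := List.nodup_cons.1 hl
    have e : PP A j (m :: lp) =
        ((X (m, false) - C (t (σ m))) - (X (m, true) - C (t (σ m)))) ^ j m * PP A j lp := by
      simp [PP]
    rw [e, sub_pow_eq, Finset.sum_mul, map_sum, cw, cc, Finset.mul_sum]
    refine Finset.sum_congr rfl fun a _ => ?_
    rw [smul_mul_assoc, map_zsmul, hS.cons2 σ hm _ _ (PP_supp j hm _) (PP_supp j hm _), cder_PP,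
      ih hl, mul_smul_comm]
    simp only [map_zero, zero_mul, add_zero]

theorem IsSys.pair_eval [DecidableEq J] (hS : IsSys ι t d D) {n : I → ℕ}
    (hn : ∀ i α, n i < α → D i α = 0) {σ : J → I} (hσ : Function.Injective σ)
    {lp : List J} (hl : lp.Nodup) (hc : ∀ m, m ∈ lp) (j : J → ℕ)
    (hj : (∀ m, top (n (σ m)) ≤ j m) ∨ ∃ m, top (n (σ m)) < j m)
    (H : MvPolynomial (J × Bool) A) :
    Phi ι (xs ι t D fun v => σ v.1) (pl lp) (PP A j lp * H) =
      cw (fun m => cc (D (σ m)) (j m)) lp * ι (eval (fun v => t (σ v.1)) H) := by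
  have hdvd : ∀ m, ∃ G, PP A j lp =
      ((X (m, false) - C (t (σ m))) - (X (m, true) - C (t (σ m)))) ^ j m * G := by
    intro m
    have : ((X (m, false) - C (t (σ m))) - (X (m, true) - C (t (σ m))) : MvPolynomial (J × Bool) A)
        = X (m, false) - X (m, true) := by ring
    rw [this]
    exact List.dvd_prod (List.mem_map.2 ⟨m, hc m, rfl⟩)
  have key : ∀ m (a b : ℕ) G, top (n (σ m)) < j m + a + b →
      Phi ι (xs ι t D fun v => σ v.1) (pl lp) (PP A j lp *
        ((X (m, false) - C (t (σ m))) ^ a * (X (m, true) - C (t (σ m))) ^ b * G)) = 0 := by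
    intro m a b G h
    obtain ⟨G', hG'⟩ := hdvd m
    rw [hG', sub_pow_eq, Finset.sum_mul, Finset.sum_mul, map_sum]
    refine Finset.sum_eq_zero fun c hc' => ?_
    have hc'' := Finset.mem_range.1 hc'
    rw [smul_mul_assoc, smul_mul_assoc, map_zsmul]
    have := hS.pair_zero hn hσ hl (hc m) (a := c + a) (b := j m - c + b) (by omega) (G' * G)
    rw [show (X (m, false) - C (t (σ m))) ^ c * (X (m, true) - C (t (σ m))) ^ (j m - c) * G' *
        ((X (m, false) - C (t (σ m))) ^ a * (X (m, true) - C (t (σ m))) ^ b * G) =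
        (X (m, false) - C (t (σ m))) ^ (c + a) * (X (m, true) - C (t (σ m))) ^ (j m - c + b) *
          (G' * G) by ring, this, smul_zero]
  rw [← hS.pair_PP σ j hl]
  rcases hj with hj | ⟨m, hm⟩
  · have h1 : ∀ (v : J × Bool) G, Phi ι (xs ι t D fun v => σ v.1) (pl lp)
        (PP A j lp * ((X v - C (t (σ v.1))) * G)) = 0 := by
      rintro ⟨m, c⟩ G
      have := hj m
      cases c
      · simpa using key m 1 0 G (by omega)
      · simpa using key m 0 1 G (by omega)
    have h2 : ∀ H G : MvPolynomial (J × Bool) A, Phi ι (xs ι t D fun v => σ v.1) (pl lp)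
        (PP A j lp * ((H - C (eval (fun v => t (σ v.1)) H)) * G)) = 0 := by
      intro H
      induction H using MvPolynomial.induction_on with
      | C a => simp
      | add p q hp hq =>
        intro G
        have : (p + q - C (eval (fun v => t (σ v.1)) (p + q))) * G =
            (p - C (eval (fun v => t (σ v.1)) p)) * G + (q - C (eval (fun v => t (σ v.1)) q)) * G := by
          simp only [map_add]; ring
        rw [this, mul_add, map_add, hp, hq, add_zero]
      | mul_X p v hp =>
        intro G
        have : (p * X v - C (eval (fun v => t (σ v.1)) (p * X v))) * G =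
            (p - C (eval (fun v => t (σ v.1)) p)) * (X v * G) +
              (X v - C (t (σ v.1))) * (C (eval (fun v => t (σ v.1)) p) * G) := by
          simp only [map_mul, eval_X]; ring
        rw [this, mul_add, map_add, hp, h1, add_zero]
    have := h2 H 1
    rw [mul_one, mul_sub, map_sub, sub_eq_zero, Phi_mul_C] at this
    exact this
  · have h1 := key m 0 0 H (by omega)
    have h2 := key m 0 0 1 (by omega)
    simp only [pow_zero, one_mul, mul_one] at h1 h2
    rw [h1, h2, zero_mul]

theorem IsSys.pair_formula [Fintype I] (hS : IsSys ι t d D) {n : I → ℕ}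
    (hn : ∀ i α, n i < α → D i α = 0) {N : ℕ} (hN : ∀ i, n i < N)
    {lp : List I} (hl : lp.Nodup) (hc : ∀ m, m ∈ lp) {K : ℕ} (hK : 2 * (N + (pl lp).length) ≤ K)
    (H : MvPolynomial (I × Bool) A) :
    Phi ι (xE ι t D) (pl lp) (PP A (fun m => top (n m)) lp * (disc A Prod.fst ^ K * H)) =
      ∑ σ : Equiv.Perm I, cw (fun m => cc (D (σ m)) (top (n m))) lp *
        ι (eval (fun v => t (σ v.1)) (disc A Prod.fst ^ K * H)) := by
  have hN' : ∀ i α, N ≤ α → D i α = 0 := fun i α h => hn i α (lt_of_lt_of_le (hN i) h)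
  have hl' := nodup_pl hl
  have hc' : ∀ v : I × Bool, v ∈ pl lp := fun v => mem_pl.2 (hc _)
  unfold xE
  rw [Phi_sum ι _ hl' hc']
  let f : Equiv.Perm I → (I × Bool → I) := fun σ v => σ v.1
  have hf : Function.Injective f := by
    intro σ τ h
    ext m
    exact congrFun h (m, true)
  rw [← Finset.sum_subset (Finset.subset_univ (Finset.univ.image f)), Finset.sum_image
    (fun _ _ _ _ h => hf h)]
  · refine Finset.sum_congr rfl fun σ _ => ?_
    refine hS.pair_eval hn σ.injective hl hc _ ?_ _
    by_contra h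
    rw [not_or] at h
    obtain ⟨h1, h2⟩ := h
    push Not at h1 h2
    obtain ⟨m, hm⟩ := h1
    have := Finset.sum_lt_sum (s := Finset.univ) (fun m _ => h2 m) ⟨m, Finset.mem_univ _, hm⟩
    rw [Equiv.sum_comp σ (fun m => top (n m))] at this
    exact lt_irrefl _ this
  · intro π _ hπ
    by_cases hsep : ∃ v w : I × Bool, v.1 ≠ w.1 ∧ π v = π w
    · obtain ⟨v, w, hvw, h⟩ := hsep
      rw [mul_left_comm]
      exact hS.nil_disc Prod.fst hN' π hl' hc' hvw h hK _
    · push Not at hsep
      have hinj : Function.Injective fun m => π (m, true) := by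
        intro m m' h
        by_contra hne
        exact hsep (m, true) (m', true) hne h
      have hbij := Finite.injective_iff_bijective.1 hinj
      refine absurd (Finset.mem_image.2 ⟨Equiv.ofBijective _ hbij, Finset.mem_univ _, ?_⟩) hπ
      funext ⟨m, c⟩
      cases c
      · obtain ⟨m', hm'⟩ := hbij.2 (π (m, false))
        by_cases hmm : m' = m
        · subst hmm; exact hm'
        · exact absurd hm' (hsep (m', true) (m, false) hmm)
      · rfl

theorem cc_zero {D : ℕ → R} (hn : ∀ α, 0 < α → D α = 0) : cc D (top 0) = -D 0 := by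
  simp [cc, top, Finset.sum_range_succ, LL, hn 1 one_pos]

theorem cc_one {D : ℕ → R} (hn : ∀ α, 1 < α → D α = 0) :
    cc D (top 1) = -(2 : R) * (D 1 * (D 1 + 1)) := by
  simp [cc, top, Finset.sum_range_succ, LL, hn 2 one_lt_two]
  noncomm_ring

theorem cc_two {D : ℕ → R} {n : ℕ} (h2 : 2 ≤ n) (hn : ∀ α, n < α → D α = 0) :
    cc D (top n) = ((-1) ^ n * ((2 * n).choose n : ℤ)) • (D n * D n) := by
  have ht : top n = 2 * n := by unfold top; omega
  rw [ht, cc, Finset.sum_eq_single n]
  · rw [show 2 * n - n = n by omega, LL, if_neg (by omega), sub_zero]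
  · intro a ha hne
    have ha' := Finset.mem_range.1 ha
    have h1 : D a * D (2 * n - a) = 0 := by
      by_cases h : n < a
      · rw [hn a h, zero_mul]
      · rw [hn (2 * n - a) (by omega), mul_zero]
    rw [LL, h1]
    split_ifs with hb
    · rw [hn (a - 1) (by omega)]; simp
    · simp
  · intro h; exact absurd (Finset.mem_range.2 (by omega)) h

end Pairs

end

end Pool.Agent.Lib.MP_4da284_al.Q1
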