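import Pool.Agent.Lib.MP_4da284_al.H78Defs

namespace Pool.Agent.Lib.MP_4da284_al.Q1

open MvPolynomial

noncomputable section

section Cmap

variable {k V A : Type*} [Field k] [CommRing A] [Algebra k A]

def cmap (δ : A →ₗ[k] A) : MvPolynomial V A →ₗ[k] MvPolynomial V A :=
  (AddMonoidAlgebra.coeffLinearEquiv k).symm.toLinearMap ∘ₗ Finsupp.mapRange.linearMap δ ∘ₗ
    (AddMonoidAlgebra.coeffLinearEquiv k).toLinearMap

@[simp] theorem coeff_cmap (δ : A →ₗ[k] A) (p : MvPolynomial V A) (e : V →₀ ℕ) :
    coeff e (cmap δ p) = δ (coeff e p) := rfl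

theorem cmap_monomial (δ : A →ₗ[k] A) (b : V →₀ ℕ) (g : A) :
    cmap δ (monomial b g) = monomial b (δ g) := by
  classical
  ext e
  simp only [coeff_cmap, coeff_monomial]
  split_ifs <;> simp

theorem cmap_mul (δ : Derivation k A A) (p q : MvPolynomial V A) :
    cmap δ.toLinearMap (p * q) = p * cmap δ.toLinearMap q + cmap δ.toLinearMap p * q := by
  classical
  ext e
  simp only [coeff_cmap, coeff_mul, coeff_add, map_sum, ← Finset.sum_add_distrib]
  refine Finset.sum_congr rfl fun x _ => ?_
  simp [Derivation.leibniz, mul_comm]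

def cder (δ : Derivation k A A) : Derivation k (MvPolynomial V A) (MvPolynomial V A) :=
  Derivation.mk' (cmap δ.toLinearMap) (fun p q => by
    rw [cmap_mul, smul_eq_mul, smul_eq_mul, mul_comm q])

theorem cder_monomial (δ : Derivation k A A) (b : V →₀ ℕ) (g : A) :
    cder δ (monomial b g) = monomial b (δ g) := cmap_monomial _ b g

theorem coeff_cder (δ : Derivation k A A) (p : MvPolynomial V A) (e : V →₀ ℕ) :
    coeff e (cder δ p) = δ (coeff e p) := rfl

theorem cder_C (δ : Derivation k A A) (g : A) : cder δ (C g : MvPolynomial V A) = C (δ g) :=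
  cder_monomial δ 0 g

theorem cder_X (δ : Derivation k A A) (j : V) : cder δ (X j : MvPolynomial V A) = 0 := by
  rw [X, cder_monomial]; simp

theorem mem_supp_iff (s : Set V) (G : MvPolynomial V A) :
    G ∈ supported A s ↔ ∀ β, coeff β G ≠ 0 → ∀ v, β v ≠ 0 → v ∈ s := by
  classical
  rw [mem_supported]
  constructor
  · intro h β hβ v hv
    exact h ((mem_vars_iff_mem_support v).2 ⟨β, mem_support_iff.2 hβ, Finsupp.mem_support_iff.2 hv⟩)
  · intro h v hv
    obtain ⟨β, hβ, hv⟩ := (mem_vars_iff_mem_support v).1 hv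
    exact h β (mem_support_iff.1 hβ) v (Finsupp.mem_support_iff.1 hv)

theorem cder_mem_supp (δ : Derivation k A A) (s : Set V) {G : MvPolynomial V A}
    (hG : G ∈ supported A s) : cder δ G ∈ supported A s := by
  rw [mem_supp_iff] at hG ⊢
  intro β hβ
  refine hG β fun h => hβ ?_
  rw [coeff_cder, h, map_zero]

theorem X_mem_supp {s : Set V} {v : V} (h : v ∈ s) : (X v : MvPolynomial V A) ∈ supported A s :=
  Algebra.subset_adjoin ⟨v, h, rfl⟩

theorem C_mem_supp (s : Set V) (a : A) : (C a : MvPolynomial V A) ∈ supported A s :=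
  Subalgebra.algebraMap_mem _ a

theorem u_mem_supp {s : Set V} {v : V} (h : v ∈ s) (a : A) :
    (X v - C a : MvPolynomial V A) ∈ supported A s :=
  Subalgebra.sub_mem _ (X_mem_supp h) (C_mem_supp s a)

theorem ind_u (v : V) (t : A) (P : MvPolynomial V A → Prop)
    (hadd : ∀ F G, P F → P G → P (F + G))
    (h : ∀ (α : ℕ) G, G ∈ supported A ({v}ᶜ : Set V) → P ((X v - C t) ^ α * G)) (H) : P H := by
  let T : AddSubmonoid (MvPolynomial V A) := AddSubmonoid.closure
    {F | ∃ (α : ℕ) (G : MvPolynomial V A), G ∈ supported A ({v}ᶜ : Set V) ∧ F = (X v - C t) ^ α * G}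
  have hT : H ∈ T := by
    induction H using MvPolynomial.induction_on with
    | C a => exact AddSubmonoid.subset_closure ⟨0, C a, C_mem_supp _ a, by simp⟩
    | add p q hp hq => exact T.add_mem hp hq
    | mul_X p w hp =>
      induction hp using AddSubmonoid.closure_induction with
      | mem x hx =>
        obtain ⟨α, G, hG, rfl⟩ := hx
        by_cases hw : w = v
        · subst hw
          have : (X w - C t) ^ α * G * X w =
              (X w - C t) ^ (α + 1) * G + (X w - C t) ^ α * (G * C t) := by ring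
          rw [this]
          exact T.add_mem (AddSubmonoid.subset_closure ⟨_, _, hG, rfl⟩)
            (AddSubmonoid.subset_closure ⟨_, _, Subalgebra.mul_mem _ hG (C_mem_supp _ t), rfl⟩)
        · rw [mul_assoc]
          exact AddSubmonoid.subset_closure ⟨_, _, Subalgebra.mul_mem _ hG (X_mem_supp hw), rfl⟩
      | zero => rw [zero_mul]; exact T.zero_mem
      | add x y _ _ hx hy => rw [add_mul]; exact T.add_mem hx hy
  induction hT using AddSubmonoid.closure_induction with
  | mem x hx => obtain ⟨α, G, hG, rfl⟩ := hx; exact h α G hG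
  | zero => simpa using h 0 0 (Subalgebra.zero_mem _)
  | add x y _ _ hx hy => exact hadd _ _ hx hy

end Cmap

section Phi

variable {k A R ς : Type*} [Field k] [CommRing A] [Algebra k A] [Ring R] [Algebra k R]

/- Ordered product; the head of the list stands on the right. -/
def word (x : ς → ℕ → R) : List ς → (ς →₀ ℕ) → R
  | [], _ => 1
  | v :: l, β => word x l β * x v (β v)

theorem word_congr (x : ς → ℕ → R) (l : List ς) {β γ : ς →₀ ℕ} (h : ∀ v ∈ l, β v = γ v) :
    word x l β = word x l γ := by
  induction l with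
  | nil => rfl
  | cons v l ih =>
    simp only [word]
    rw [ih fun w hw => h w (List.mem_cons_of_mem _ hw), h v List.mem_cons_self]

theorem word_eq (x : ς → ℕ → R) (l : List ς) (β : ς →₀ ℕ) :
    word x l β = (l.reverse.map fun v => x v (β v)).prod := by
  induction l with
  | nil => rfl
  | cons v l ih => simp [word, ih]

def Phi (ι : A →ₐ[k] R) (x : ς → ℕ → R) (l : List ς) : MvPolynomial ς A →ₗ[k] R :=
  Finsupp.lsum k (fun β => (LinearMap.mulLeft k (word x l β)).comp ι.toLinearMap) ∘ₗ
    (AddMonoidAlgebra.coeffLinearEquiv k).toLinearMap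

theorem Phi_monomial (ι : A →ₐ[k] R) (x : ς → ℕ → R) (l : List ς) (β : ς →₀ ℕ) (a : A) :
    Phi ι x l (monomial β a) = word x l β * ι a := by
  have : (AddMonoidAlgebra.coeffLinearEquiv k) (monomial β a : MvPolynomial ς A) =
      Finsupp.single β a := rfl
  simp [Phi, this]

theorem Phi_mul_C (ι : A →ₐ[k] R) (x : ς → ℕ → R) (l : List ς) (F : MvPolynomial ς A) (a : A) :
    Phi ι x l (F * C a) = Phi ι x l F * ι a := by
  induction F using MvPolynomial.induction_on' with
  | monomial β b =>
    rw [C_apply, monomial_mul, add_zero, Phi_monomial, Phi_monomial, map_mul, mul_assoc]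
  | add p q hp hq => simp only [add_mul, map_add, hp, hq]

theorem Phi_map (ι : A →ₐ[k] R) (x : ς → ℕ → R) (l : List ς) (F : MvPolynomial ς k) :
    Phi ι x l (map (algebraMap k A) F) = Phi (Algebra.ofId k R) x l F := by
  induction F using MvPolynomial.induction_on' with
  | monomial β b => rw [map_monomial, Phi_monomial, Phi_monomial]; simp [Algebra.ofId_apply]
  | add p q hp hq => simp only [map_add, hp, hq]

theorem word_map {ς' : Type*} (f : ς → ς') (hf : Function.Injective f) (x : ς' → ℕ → R)
    (l : List ς) (β : ς →₀ ℕ) :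
    word x (l.map f) (Finsupp.mapDomain f β) = word (fun v => x (f v)) l β := by
  induction l with
  | nil => rfl
  | cons v l ih => simp only [List.map_cons, word, ih, Finsupp.mapDomain_apply hf]

theorem Phi_rename {ς' : Type*} (f : ς → ς') (hf : Function.Injective f) (ι : A →ₐ[k] R)
    (x : ς' → ℕ → R) (l : List ς) (F : MvPolynomial ς A) :
    Phi ι x (l.map f) (rename f F) = Phi ι (fun v => x (f v)) l F := by
  induction F using MvPolynomial.induction_on' with
  | monomial β b => rw [rename_monomial, Phi_monomial, Phi_monomial, word_map f hf]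
  | add p q hp hq => simp only [map_add, hp, hq]

/- `psum ι y (∑ a_n X^n) = ∑ y_n ι(a_n)`. -/
def psum (ι : A →ₐ[k] R) (y : ℕ → R) : Polynomial A →ₗ[k] R :=
  Polynomial.lsum (fun n => (LinearMap.mulLeft k (y n)).comp ι.toLinearMap)

theorem psum_monomial (ι : A →ₐ[k] R) (y : ℕ → R) (n : ℕ) (a : A) :
    psum ι y (Polynomial.monomial n a) = y n * ι a := by
  simp [psum, Polynomial.lsum_apply]

theorem psum_mul_C (ι : A →ₐ[k] R) (y : ℕ → R) (g : Polynomial A) (a : A) :
    psum ι y (g * Polynomial.C a) = psum ι y g * ι a := by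
  induction g using Polynomial.induction_on' with
  | monomial n b =>
    rw [Polynomial.monomial_mul_C, psum_monomial, psum_monomial, map_mul, mul_assoc]
  | add p q hp hq => simp only [add_mul, map_add, hp, hq]

theorem psum_X_pow (ι : A →ₐ[k] R) (y : ℕ → R) (n : ℕ) :
    psum ι y (Polynomial.X ^ n) = y n := by
  rw [Polynomial.X_pow_eq_monomial, psum_monomial, map_one, mul_one]

theorem psum_eq_sum (ι : A →ₐ[k] R) (y : ℕ → R) (N : ℕ) (hN : ∀ n, N ≤ n → y n = 0)
    (g : Polynomial A) : psum ι y g = ∑ n ∈ Finset.range N, y n * ι (g.coeff n) := by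
  induction g using Polynomial.induction_on' with
  | monomial n b =>
    rw [psum_monomial]
    by_cases hn : n < N
    · rw [Finset.sum_eq_single n]
      · simp
      · intro m _ hm; simp [Polynomial.coeff_monomial, hm.symm]
      · intro h; exact absurd (Finset.mem_range.2 hn) h
    · rw [hN n (not_lt.1 hn), zero_mul]
      refine (Finset.sum_eq_zero fun m hm => ?_).symm
      have : n ≠ m := by have := Finset.mem_range.1 hm; omega
      simp [Polynomial.coeff_monomial, this]
  | add p q hp hq => simp only [map_add, hp, hq, Polynomial.coeff_add, mul_add,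
      Finset.sum_add_distrib]

/- The operator of the vector field `g(s) d/ds` at the point `t`. -/
def phi1 (ι : A →ₐ[k] R) (t : A) (D : ℕ → R) : Polynomial A →ₗ[k] R :=
  psum ι D ∘ₗ (Polynomial.taylor t).restrictScalars k

theorem phi1_apply (ι : A →ₐ[k] R) (t : A) (D : ℕ → R) (g : Polynomial A) :
    phi1 ι t D g = psum ι D (Polynomial.taylor t g) := rfl

theorem phi1_u_pow (ι : A →ₐ[k] R) (t : A) (D : ℕ → R) (α : ℕ) :
    phi1 ι t D ((Polynomial.X - Polynomial.C t) ^ α) = D α := by
  rw [phi1_apply, Polynomial.taylor_pow, map_sub, Polynomial.taylor_X, Polynomial.taylor_C,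
    add_sub_cancel_right, psum_X_pow]

theorem phi1_mul_C (ι : A →ₐ[k] R) (t : A) (D : ℕ → R) (g : Polynomial A) (a : A) :
    phi1 ι t D (g * Polynomial.C a) = phi1 ι t D g * ι a := by
  rw [phi1_apply, Polynomial.taylor_mul, Polynomial.taylor_C, psum_mul_C, phi1_apply]

theorem psum_phi1 (ι : A →ₐ[k] R) (t : A) (D : ℕ → R) (g : Polynomial A) :
    psum ι (fun n => phi1 ι t D (Polynomial.X ^ n)) g = phi1 ι t D g := by
  induction g using Polynomial.induction_on' with
  | monomial n b => rw [psum_monomial, ← phi1_mul_C, ← Polynomial.C_mul_X_pow_eq_monomial, mul_comm]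
  | add p q hp hq => simp only [map_add, hp, hq]

theorem Phi_cons_monomial (ι : A →ₐ[k] R) (x : ς → ℕ → R) {l : List ς} {v : ς} (hv : v ∉ l)
    (g : Polynomial A) (β : ς →₀ ℕ) (hβ : β v = 0) (b : A) :
    Phi ι x (v :: l) (Polynomial.aeval (X v : MvPolynomial ς A) g * monomial β b) =
      word x l β * psum ι (x v) g * ι b := by
  induction g using Polynomial.induction_on' with
  | monomial n a =>
    rw [Polynomial.aeval_monomial, psum_monomial, X_pow_eq_monomial, algebraMap_eq, C_mul_monomial,
      monomial_mul, Phi_monomial]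
    simp only [word]
    rw [word_congr x l (γ := β)]
    · simp [hβ, mul_assoc]
    · intro w hw
      have : w ≠ v := fun h => hv (h ▸ hw)
      simp [this.symm]
  | add p q hp hq => simp only [map_add, add_mul, mul_add, hp, hq]

theorem supp_induction {s : Set ς} (P : MvPolynomial ς A → Prop) (h0 : P 0)
    (hadd : ∀ F G, P F → P G → P (F + G))
    (h : ∀ (β : ς →₀ ℕ) b, (∀ v, β v ≠ 0 → v ∈ s) → P (monomial β b))
    {G : MvPolynomial ς A} (hG : G ∈ supported A s) : P G := by
  rw [G.as_sum]
  refine Finset.sum_induction _ P hadd h0 fun β hβ => h β _ ?_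
  exact (mem_supp_iff s G).1 hG β (mem_support_iff.1 hβ)

/- Recursion for constant coefficients. -/
theorem Phi_cons_const (x : ς → ℕ → R) {l : List ς} {v : ς} (hv : v ∉ l)
    (g : Polynomial k) {G : MvPolynomial ς k} (hG : G ∈ supported k ({v}ᶜ : Set ς)) :
    Phi (Algebra.ofId k R) x (v :: l) (Polynomial.aeval (X v : MvPolynomial ς k) g * G) =
      Phi (Algebra.ofId k R) x l G * psum (Algebra.ofId k R) (x v) g := by
  refine supp_induction (fun G => Phi (Algebra.ofId k R) x (v :: l)
      (Polynomial.aeval (X v : MvPolynomial ς k) g * G) =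
      Phi (Algebra.ofId k R) x l G * psum (Algebra.ofId k R) (x v) g) (by simp) ?_ ?_ hG
  · intro F G hF hG; simp only [mul_add, add_mul, map_add, hF, hG]
  · intro β b hβ
    have : β v = 0 := by by_contra h; exact hβ v h rfl
    rw [Phi_cons_monomial _ x hv g β this, Phi_monomial, Algebra.ofId_apply, mul_assoc, mul_assoc,
      Algebra.commutes]

theorem psum_lin (e : Polynomial k →ₗ[k] R) (g : Polynomial k) :
    psum (Algebra.ofId k R) (fun n => e (Polynomial.X ^ n)) g = e g := by
  induction g using Polynomial.induction_on' with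
  | monomial n a =>
    rw [psum_monomial, Algebra.ofId_apply, ← Algebra.commutes, ← Algebra.smul_def, ← map_smul,
      Polynomial.smul_eq_C_mul, Polynomial.C_mul_X_pow_eq_monomial]
  | add p q hp hq => simp only [map_add, hp, hq]

/- Recursion at a point. -/
theorem Phi_cons_pt (ι : A →ₐ[k] R) (x : ς → ℕ → R) {l : List ς} {v : ς} (hv : v ∉ l)
    (t : A) (δ : Derivation k A A) (D : ℕ → R)
    (hx : ∀ n, x v n = phi1 ι t D (Polynomial.X ^ n))
    (h0 : ∀ b, D 0 * ι b = ι b * D 0 + ι (δ b)) (h1 : ∀ α b, α ≠ 0 → D α * ι b = ι b * D α)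
    (α : ℕ) {G : MvPolynomial ς A} (hG : G ∈ supported A ({v}ᶜ : Set ς)) :
    Phi ι x (v :: l) ((X v - C t) ^ α * G) =
      Phi ι x l G * D α + if α = 0 then Phi ι x l (cder δ G) else 0 := by
  refine supp_induction (fun G => Phi ι x (v :: l) ((X v - C t) ^ α * G) =
      Phi ι x l G * D α + if α = 0 then Phi ι x l (cder δ G) else 0) (by simp) ?_ ?_ hG
  · intro F G hF hG
    simp only [mul_add, add_mul, map_add, hF, hG]
    split_ifs <;> abel
  · intro β b hβ
    have hβv : β v = 0 := by by_contra h; exact hβ v h rfl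
    have := Phi_cons_monomial ι x hv ((Polynomial.X - Polynomial.C t) ^ α) β hβv b
    rw [show x v = fun n => phi1 ι t D (Polynomial.X ^ n) from funext hx, psum_phi1,
      phi1_u_pow] at this
    simp only [map_pow, map_sub, Polynomial.aeval_X, Polynomial.aeval_C, algebraMap_eq] at this
    rw [this, Phi_monomial, cder_monomial, Phi_monomial, mul_assoc]
    split_ifs with hα
    · subst hα; rw [h0, mul_add, mul_assoc]
    · rw [h1 α b hα, mul_assoc, add_zero]

theorem word_sum {I : Type*} [Fintype I] [Fintype ς] [DecidableEq ς] (y : I → ℕ → R)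
    {l : List ς} (hl : l.Nodup) (hc : ∀ v, v ∈ l) (β : ς →₀ ℕ) :
    word (fun _ n => ∑ i, y i n) l β = ∑ π : ς → I, word (fun v n => y (π v) n) l β := by
  simp only [word_eq]
  have hl' : l.reverse.Nodup := List.nodup_reverse.2 hl
  have hc' : ∀ v, v ∈ l.reverse := fun v => List.mem_reverse.2 (hc v)
  generalize l.reverse = l' at hl' hc'
  let o := hl'.getEquivOfForallMemList l' hc'
  have ho : l' = List.ofFn o := by
    conv_lhs => rw [← List.ofFn_get l']
    rfl
  have key := (MultilinearMap.mkPiAlgebraFin ℤ l'.length R).map_sum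
    (fun (j : Fin l'.length) (i : I) => y i (β (o j)))
  simp only [MultilinearMap.mkPiAlgebraFin_apply] at key
  have e1 : ∀ f : ς → R, l'.map f = List.ofFn (fun j => f (o j)) := by
    intro f
    conv_lhs => rw [ho]
    rw [List.map_ofFn]; rfl
  simp only [e1]
  rw [key]
  refine Fintype.sum_equiv (Equiv.arrowCongr o (Equiv.refl I)) _ _ fun r => ?_
  simp [Equiv.arrowCongr]

theorem Phi_sum {I : Type*} [Fintype I] [Fintype ς] [DecidableEq ς] (ι : A →ₐ[k] R)
    (y : I → ℕ → R) {l : List ς} (hl : l.Nodup) (hc : ∀ v, v ∈ l) (F : MvPolynomial ς A) :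
    Phi ι (fun _ n => ∑ i, y i n) l F = ∑ π : ς → I, Phi ι (fun v n => y (π v) n) l F := by
  induction F using MvPolynomial.induction_on' with
  | monomial β b => simp only [Phi_monomial, word_sum y hl hc, Finset.sum_mul]
  | add p q hp hq => simp only [map_add, hp, hq, Finset.sum_add_distrib]

end Phi

end

end Pool.Agent.Lib.MP_4da284_al.Q1
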