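import Pool.Agent.Lib.MP_4da284_al.H78Univ

namespace Pool.Agent.Lib.MP_4da284_al.Q1

open Polynomial

noncomputable section

variable {k : Type*} [Field k]

section AdNil

variable {R : Type*} [Ring R] [Algebra k R]

variable (k) in
def ad (a : R) : Module.End k R := LinearMap.mulLeft k a - LinearMap.mulRight k a

theorem ad_apply (a x : R) : ad k a x = a * x - x * a := rfl

theorem ad_pow_mul (a : R) (n : ℕ) : ∀ (r s : ℕ) (x y : R), r + s ≤ n → (ad k a ^ r) x = 0 →
    (ad k a ^ s) y = 0 → (ad k a ^ n) (x * y) = 0 := by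
  induction n with
  | zero =>
    intro r s x y h hx _
    obtain rfl : r = 0 := by omega
    simp only [pow_zero, Module.End.one_apply] at hx
    simp [hx]
  | succ n ih =>
    intro r s x y h hx hy
    rcases r with _ | r
    · simp only [pow_zero, Module.End.one_apply] at hx
      simp [hx]
    rcases s with _ | s
    · simp only [pow_zero, Module.End.one_apply] at hy
      simp [hy]
    have : ad k a (x * y) = ad k a x * y + x * ad k a y := by
      simp only [ad_apply]; noncomm_ring
    rw [pow_succ, Module.End.mul_apply, this, map_add, ih r (s + 1) _ _ (by omega) hx hy,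
      ih (r + 1) s _ _ (by omega) hx hy, add_zero]

theorem pow_apply_mono {V : Type*} [AddCommGroup V] [Module k V] {P : Module.End k V} {x : V}
    {r s : ℕ} (h : r ≤ s) (hx : (P ^ r) x = 0) : (P ^ s) x = 0 := by
  obtain ⟨c, rfl⟩ := Nat.exists_eq_add_of_le' h
  rw [pow_add, Module.End.mul_apply, hx, map_zero]

/- operators on which every `ad (ι a)` is nilpotent -/
def adNil {A : Type*} [CommRing A] [Algebra k A] (ι : A →ₐ[k] R) : Subalgebra k R where
  carrier := {x | ∀ a, ∃ r, (ad k (ι a) ^ r) x = 0}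
  mul_mem' := fun {x y} hx hy a => by
    obtain ⟨r, hr⟩ := hx a
    obtain ⟨s, hs⟩ := hy a
    exact ⟨r + s, ad_pow_mul _ _ r s x y le_rfl hr hs⟩
  add_mem' := fun {x y} hx hy a => by
    obtain ⟨r, hr⟩ := hx a
    obtain ⟨s, hs⟩ := hy a
    exact ⟨r + s, by rw [map_add, pow_apply_mono (Nat.le_add_right r s) hr,
      pow_apply_mono (Nat.le_add_left s r) hs, add_zero]⟩
  algebraMap_mem' := fun c a => ⟨1, by simp [ad_apply, Algebra.commutes]⟩

variable {A : Type*} [CommRing A] [Algebra k A] {ι : A →ₐ[k] R}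

theorem mem_adNil_of_comm {x : R} (h : ∀ b, ∃ c, x * ι b = ι b * x + ι c) : x ∈ adNil ι := by
  intro a
  obtain ⟨c, hc⟩ := h a
  refine ⟨2, ?_⟩
  rw [pow_two, Module.End.mul_apply, ad_apply _ x, hc, ad_apply]
  have : ι a * ι c = ι c * ι a := by rw [← map_mul, mul_comm, map_mul]
  simp [this]

theorem ι_mem_adNil (a : A) : ι a ∈ adNil ι :=
  mem_adNil_of_comm fun b => ⟨0, by rw [← map_mul, mul_comm, map_mul]; simp⟩

theorem cancel_der [CharZero k] {x D : R} {a : A} (hD : D * ι a = ι a * D + 1) (hx : x ∈ adNil ι)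
    (h : x * D = 0) : x = 0 := by
  have h1 : ∀ r : ℕ, (ad k (ι a) ^ (r + 1)) x * D = ((r + 1 : ℕ) : k) • (ad k (ι a) ^ r) x := by
    have key : ∀ y : R, ad k (ι a) y * D = ad k (ι a) (y * D) + y := by
      intro y
      simp only [ad_apply, sub_mul, mul_assoc, hD]; noncomm_ring
    intro r
    induction r with
    | zero => simp [key, h]
    | succ r ih =>
      rw [pow_succ' _ (r + 1), Module.End.mul_apply, key, ih, map_smul, ← Module.End.mul_apply,
        ← pow_succ']
      push_cast
      rw [add_smul ((r : k) + 1), one_smul]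
  obtain ⟨r, hr⟩ := hx a
  induction r with
  | zero => simpa using hr
  | succ r ih =>
    refine ih ?_
    have := h1 r
    rw [hr, zero_mul, eq_comm, smul_eq_zero] at this
    exact this.resolve_left (Nat.cast_ne_zero.2 (Nat.succ_ne_zero r))

theorem cancel_cw {J : Type*} (c : J → R) (hc : ∀ m, c m ∈ adNil ι)
    (hc' : ∀ m, ∀ x ∈ adNil ι, x * c m = 0 → x = 0) (lp : List J) {x : R} (hx : x ∈ adNil ι)
    (h : x * cw c lp = 0) : x = 0 := by
  have hm : ∀ lp, cw c lp ∈ adNil ι := by
    intro lp
    induction lp with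
    | nil => exact Subalgebra.one_mem _
    | cons m lp ih => exact Subalgebra.mul_mem _ ih (hc m)
  induction lp with
  | nil => simpa [cw] using h
  | cons m lp ih =>
    rw [cw, ← mul_assoc] at h
    exact ih (hc' m _ (Subalgebra.mul_mem _ hx (hm lp)) h)

theorem cw_mem {J : Type*} (S : Subalgebra k R) (c : J → R) (hc : ∀ m, c m ∈ S) (lp : List J) :
    cw c lp ∈ S := by
  induction lp with
  | nil => exact Subalgebra.one_mem _
  | cons m lp ih => exact Subalgebra.mul_mem _ ih (hc m)

theorem cc_mem (S : Subalgebra k R) (D : ℕ → R) (hD : ∀ α, D α ∈ S) (j : ℕ) : cc D j ∈ S := by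
  refine Subalgebra.sum_mem _ fun a _ => Subalgebra.zsmul_mem _ ?_ _
  refine Subalgebra.sub_mem _ (Subalgebra.mul_mem _ (hD _) (hD _)) ?_
  split_ifs
  · exact Subalgebra.mul_mem _ (Subalgebra.natCast_mem _ _) (hD _)
  · exact Subalgebra.zero_mem _

end AdNil

section Sep

variable {V : Type*} [AddCommGroup V] [Module k V]

theorem sub_pow_apply {P P' : Module.End k V} (hc : Commute P P') {x : V} {r s : ℕ}
    (hr : (P ^ r) x = 0) (hs : (P' ^ s) x = 0) : ((P - P') ^ (r + s)) x = 0 := by
  rw [sub_eq_add_neg, hc.neg_right.add_pow, LinearMap.sum_apply]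
  refine Finset.sum_eq_zero fun m _ => ?_
  rw [← (Nat.cast_commute _ _).eq, Module.End.mul_apply]
  by_cases h : r ≤ m
  · rw [(hc.neg_right.pow_pow _ _).eq, Module.End.mul_apply, pow_apply_mono h hr]; simp
  · rw [neg_pow, ← mul_assoc, Module.End.mul_apply, pow_apply_mono (by omega) hs]; simp

theorem sep {I S : Type*} (L Rr : I → Module.End k V) (hLL : ∀ a b, Commute (L a) (L b))
    (hLR : ∀ a b, Commute (L a) (Rr b)) (hRR : ∀ a b, Commute (Rr a) (Rr b))
    (hinj : ∀ a b, a ≠ b → Function.Injective (L a - L b))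
    (g : S → I → I) (hg : Function.Injective g) (s : Finset S) (T : S → V)
    (hnil : ∀ σ ∈ s, ∀ m, ∃ r, ((L (g σ m) - Rr m) ^ r) (T σ) = 0) (hsum : ∑ σ ∈ s, T σ = 0) :
    ∀ σ ∈ s, T σ = 0 := by
  classical
  have hcomm : ∀ a b m m', Commute (L a - Rr m) (L b - Rr m') := fun a b m m' =>
    ((hLL a b).sub_right (hLR a m')).sub_left (((hLR b m).symm).sub_right (hRR m m'))
  induction s using Finset.induction_on generalizing T with
  | empty => simp
  | insert σ0 s hs ih =>
    rw [Finset.sum_insert hs] at hsum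
    have h1 : ∀ σ ∈ s, T σ = 0 := by
      intro σ1 hσ1
      have hne : g σ0 ≠ g σ1 := fun h => hs (hg h ▸ hσ1)
      obtain ⟨m, hm⟩ := Function.ne_iff.1 hne
      obtain ⟨r, hr⟩ := hnil σ0 (Finset.mem_insert_self _ _) m
      have h2 := ih (fun σ => ((L (g σ0 m) - Rr m) ^ r) (T σ)) (by
        intro σ hσ m'
        obtain ⟨r', hr'⟩ := hnil σ (Finset.mem_insert_of_mem hσ) m'
        refine ⟨r', ?_⟩
        rw [← Module.End.mul_apply, ((hcomm _ _ _ _).pow_pow _ _).eq, Module.End.mul_apply, hr',
          map_zero]) (by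
        have := congrArg ((L (g σ0 m) - Rr m) ^ r) hsum
        rwa [map_add, hr, zero_add, map_sum, map_zero] at this) σ1 hσ1
      obtain ⟨r', hr'⟩ := hnil σ1 (Finset.mem_insert_of_mem hσ1) m
      have h3 := sub_pow_apply (hcomm _ _ _ _) h2 hr'
      rw [sub_sub_sub_cancel_right] at h3
      have h4 : Function.Injective ((L (g σ0 m) - L (g σ1 m)) ^ (r + r')) := by
        rw [Module.End.coe_pow]; exact (hinj _ _ hm).iterate _
      exact h4 (by rw [h3, map_zero])
    rw [Finset.sum_eq_zero h1, add_zero] at hsum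
    intro σ hσ
    rcases Finset.mem_insert.1 hσ with rfl | h
    · exact hsum
    · exact h1 σ h

variable {A I : Type*} [CommRing A] [Algebra k A] [Fintype I] [DecidableEq I]
  {t : I → A} {d : I → Derivation k A A}

theorem unit_inj (ι : A →ₐ[k] Module.End k V) {a : A} (ha : IsUnit a) :
    Function.Injective (ι a) := ((Module.End.isUnit_iff _).1 (ha.map ι)).1

theorem sep_perm (hB : Base k t d) (ι : A →ₐ[k] Module.End k V)
    (S : Equiv.Perm I → Module.End k V) (hS : ∀ σ, S σ ∈ adNil ι) (w : V)
    (h : ∀ p : MvPolynomial I k,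
      ∑ σ : Equiv.Perm I, S σ (ι (MvPolynomial.aeval (fun i => t (σ i)) p) w) = 0) (a : A) :
    S 1 (ι a w) = 0 := by
  let L : I → Module.End k (MvPolynomial I k →ₗ[k] V) := fun i =>
    LinearMap.llcomp k _ V V (ι (t i))
  let Rr : I → Module.End k (MvPolynomial I k →ₗ[k] V) := fun i =>
    LinearMap.lcomp k V (LinearMap.mulLeft k (MvPolynomial.X i))
  let Tm : Equiv.Perm I → Module.End k V → (MvPolynomial I k →ₗ[k] V) := fun σ x =>
    x ∘ₗ LinearMap.applyₗ w ∘ₗ ι.toLinearMap ∘ₗ
      (MvPolynomial.aeval (fun i => t (σ i)) : MvPolynomial I k →ₐ[k] A).toLinearMap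
  have hTm : ∀ σ x p, Tm σ x p = x (ι (MvPolynomial.aeval (fun i => t (σ i)) p) w) :=
    fun _ _ _ => rfl
  have hcomm : ∀ a b : A, ι a * ι b = ι b * ι a := fun a b => by
    rw [← map_mul, mul_comm, map_mul]
  have h1 := sep L Rr
    (fun a b => LinearMap.ext fun T => LinearMap.ext fun p =>
      LinearMap.congr_fun (hcomm (t a) (t b)) (T p))
    (fun a b => LinearMap.ext fun T => LinearMap.ext fun p => rfl)
    (fun a b => LinearMap.ext fun T => LinearMap.ext fun p => by
      simp [Rr, mul_left_comm])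
    (fun a b hab T T' hT => LinearMap.ext fun p => unit_inj ι (hB.unit a b hab) (by
      have := LinearMap.congr_fun hT p
      simpa [L] using this))
    (fun σ : Equiv.Perm I => (σ : I → I)) DFunLike.coe_injective Finset.univ
    (fun σ => Tm σ (S σ)) (by
      intro σ _ m
      obtain ⟨r, hr⟩ := hS σ (t (σ m))
      refine ⟨r, ?_⟩
      have : ∀ (r : ℕ) x, ((L (σ m) - Rr m) ^ r) (Tm σ x) = Tm σ ((ad k (ι (t (σ m))) ^ r) x) := by
        intro r
        induction r with
        | zero => intro x; rfl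
        | succ r ih =>
          intro x
          rw [pow_succ, pow_succ, Module.End.mul_apply, Module.End.mul_apply, ← ih]
          congr 1
          refine LinearMap.ext fun p => ?_
          simp [L, Rr, hTm, ad_apply]
      rw [this, hr]
      exact LinearMap.ext fun p => rfl) (by
      refine LinearMap.ext fun p => ?_
      rw [LinearMap.sum_apply]
      exact h p) 1 (Finset.mem_univ _)
  have h2 : ∀ p : MvPolynomial I k, S 1 (ι (MvPolynomial.aeval t p) w) = 0 :=
    fun p => LinearMap.congr_fun h1 p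
  set Δ := MvPolynomial.aeval t (disc k (id : I → I)) with hΔ
  obtain ⟨r, hr⟩ := hS 1 Δ
  generalize S 1 = x at h2 hr
  induction r generalizing x a with
  | zero =>
    simp only [pow_zero, Module.End.one_apply] at hr
    simp [hr]
  | succ r ih =>
    rw [pow_succ, Module.End.mul_apply] at hr
    have h3 : ∀ a, ad k (ι Δ) x (ι a w) = 0 := fun a => ih a _ (by
      intro p
      have := h2 (disc k id * p)
      rw [map_mul, map_mul, ← hΔ] at this
      simp only [ad_apply, LinearMap.sub_apply, Module.End.mul_apply, h2, map_zero, zero_sub,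
        neg_eq_zero]
      exact this) hr
    have h4 : ∀ (s : ℕ) a, ι (Δ ^ s) (x (ι a w)) = x (ι (Δ ^ s * a) w) := by
      intro s
      induction s with
      | zero => simp
      | succ s ih' =>
        intro a
        have := h3 (Δ ^ s * a)
        simp only [ad_apply, LinearMap.sub_apply, Module.End.mul_apply, sub_eq_zero] at this
        rw [pow_succ', map_mul, Module.End.mul_apply, ih', this, mul_assoc, map_mul ι Δ,
          Module.End.mul_apply]
    obtain ⟨s, a0, ha⟩ := hB.surj a
    refine unit_inj ι (hB.unit_disc.pow s) ?_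
    rw [h4, ha, h2, map_zero]

end Sep

end

end Pool.Agent.Lib.MP_4da284_al.Q1
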