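import Pool.Agent.Lib.MP_4da284_al.H78Base

namespace Pool.Agent.Lib.MP_4da284_al.Q1

open Polynomial TensorProduct

noncomputable section

universe u

variable {k : Type u} [Field k] {U : Type u} [Ring U] [Algebra k U]

/- A module over a system of points which is generated by the image of `M`. -/
structure Cov {I : Type} {A R : Type u} [Fintype I] [DecidableEq I] [CommRing A] [Algebra k A]
    [Ring R] [Algebra k R] (e : k[X] →ₗ[k] U) (M : Type u) [AddCommGroup M] [Module k M]
    [Module U M] (ι : A →ₐ[k] R) (t : I → A) (d : I → Derivation k A A) (n : I → ℕ) where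
  e' : k[X] →ₗ[k] R
  D : I → ℕ → R
  X : Type u
  [i1 : AddCommGroup X]
  [i2 : Module k X]
  [i3 : Module R X]
  [i4 : IsScalarTower k R X]
  j : M →ₗ[k] X
  loc : LocSys ι t d e' D
  gen : Algebra.adjoin k (Set.range ι ∪ Set.range e') = ⊤
  ne : j ≠ 0
  lin : ∀ f v, j (e f • v) = e' f • j v
  span : ∀ x, x ∈ Submodule.span k {y | ∃ a v, y = ι a • j v}
  top : ∀ i α, n i < α → ∀ x : X, D i α • x = 0

attribute [instance] Cov.i1 Cov.i2 Cov.i3 Cov.i4

theorem map_ext1 {A R R' : Type*} [CommRing A] [Algebra k A] [Ring R] [Algebra k R] [Ring R']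
    [Algebra k R'] (ρ : R →ₐ[k] R') (ι : A →ₐ[k] R) (e : k[X] →ₗ[k] R) (G : A[X]) :
    ρ (ext1 ι e G) = ext1 (ρ.comp ι) (ρ.toLinearMap ∘ₗ e) G := by
  induction G using Polynomial.induction_on' with
  | monomial n a => simp [ext1_monomial]
  | add p q hp hq => simp only [map_add, hp, hq]

theorem exists_local_gen {A R I : Type*} [CommRing A] [Algebra k A] [Ring R] [Algebra k R]
    [Fintype I] [DecidableEq I] {ι0 : A →ₐ[k] R} {t : I → A} {d : I → Derivation k A A}
    {e0 : k[X] →ₗ[k] R} (hd : ∀ i j, d i (t j) = if i = j then 1 else 0)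
    (hunit : ∀ i j, i ≠ j → IsUnit (t i - t j)) (hbr0 : IsBr e0)
    (hcomm0 : ∀ f b, e0 f * ι0 b = ι0 b * e0 f + ι0 (∑ i, aeval (t i) f * d i b))
    (N : ℕ) (hkill0 : ∀ H : A[X], ext1 ι0 e0 ((∏ i, (X - C (t i))) ^ N * H) = 0) :
    ∃ (S : Subalgebra k R) (ι : A →ₐ[k] S) (e' : k[X] →ₗ[k] S) (D : I → ℕ → S),
      (∀ a, (ι a : R) = ι0 a) ∧ (∀ f, (e' f : R) = e0 f) ∧
      Algebra.adjoin k (Set.range ι ∪ Set.range e') = ⊤ ∧
      LocSys ι t d e' D ∧ ∀ i α, N ≤ α → D i α = 0 := by
  let S := Algebra.adjoin k (Set.range ι0 ∪ Set.range e0)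
  let ι : A →ₐ[k] S := ι0.codRestrict S fun a => Algebra.subset_adjoin (Or.inl ⟨a, rfl⟩)
  let e' : k[X] →ₗ[k] S :=
    { toFun := fun f => ⟨e0 f, Algebra.subset_adjoin (Or.inr ⟨f, rfl⟩)⟩
      map_add' := fun f g => Subtype.ext (map_add e0 f g)
      map_smul' := fun c f => Subtype.ext (map_smul e0 c f) }
  have hbr : IsBr (U := S) e' := fun f g => Subtype.ext (hbr0 f g)
  have hcomm : ∀ f b, e' f * ι b = ι b * e' f + ι (∑ i, aeval (t i) f * d i b) :=
    fun f b => Subtype.ext (hcomm0 f b)
  have hkill : ∀ H : A[X], ext1 ι e' ((∏ i, (X - C (t i))) ^ N * H) = 0 := by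
    intro H
    have h1 := map_ext1 S.val ι e' ((∏ i, (X - C (t i))) ^ N * H)
    have h2 : S.val.comp ι = ι0 := rfl
    have h3 : S.val.toLinearMap ∘ₗ e' = e0 := rfl
    rw [h2, h3, hkill0] at h1
    exact Subtype.ext h1
  obtain ⟨D, hD, hDN⟩ := exists_local hd hunit hbr hcomm N hkill
  refine ⟨S, ι, e', D, fun _ => rfl, fun _ => rfl, ?_, hD, hDN⟩
  have := Algebra.adjoin_adjoin_coe_preimage (R := k) (s := Set.range ι0 ∪ Set.range e0)
  rw [← this]
  congr 1
  ext x
  constructor
  · rintro (⟨a, rfl⟩ | ⟨f, rfl⟩)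
    · exact Or.inl ⟨a, rfl⟩
    · exact Or.inr ⟨f, rfl⟩
  · rintro (⟨a, ha⟩ | ⟨f, hf⟩)
    · exact Or.inl ⟨a, Subtype.ext ha⟩
    · exact Or.inr ⟨f, Subtype.ext hf⟩

theorem der_pow_dvd {A : Type*} [CommRing A] [Algebra k A] (δ : Derivation k A A) {p : A}
    (hp : p ∣ δ p) (N : ℕ) (H : A) : p ^ N ∣ δ (p ^ N * H) := by
  obtain ⟨c, hc⟩ := hp
  rcases N with _ | N
  · simp
  · refine ⟨δ H + H * (((N + 1 : ℕ) : A) * c), ?_⟩
    rw [Derivation.leibniz, Derivation.leibniz_pow, hc]
    simp only [smul_eq_mul, nsmul_eq_mul, Nat.add_sub_cancel]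
    ring

theorem der_prod_dvd {A I : Type*} [CommRing A] [Algebra k A] (δ : Derivation k A A) (u : I → A)
    (s : Finset I) (hu : ∀ i ∈ s, u i ∣ δ (u i)) : ∏ i ∈ s, u i ∣ δ (∏ i ∈ s, u i) := by
  classical
  induction s using Finset.induction_on with
  | empty => simp
  | insert i s hi ih =>
    rw [Finset.prod_insert hi, Derivation.leibniz, smul_eq_mul, smul_eq_mul]
    refine dvd_add (mul_dvd_mul_left _ (ih fun j hj => hu j (Finset.mem_insert_of_mem hj))) ?_
    rw [mul_comm]
    exact mul_dvd_mul_left _ (hu i (Finset.mem_insert_self _ _))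

section Omega

variable {A : Type u} [CommRing A] [Algebra k A] (e : k[X] →ₗ[k] U)
  {M : Type u} [AddCommGroup M] [Module k M] [Module U M] [IsScalarTower k U M]

def Om (v : M) : A[X] →ₗ[A] A ⊗[k] M :=
  Polynomial.lsum (fun n => LinearMap.toSpanSingleton A (A ⊗[k] M) (1 ⊗ₜ (e (X ^ n) • v)))

omit [IsScalarTower k U M] in
theorem Om_monomial (v : M) (n : ℕ) (a : A) :
    Om e v (monomial n a) = a ⊗ₜ (e (X ^ n) • v) := by
  simp [Om, Polynomial.lsum_apply, smul_tmul']

theorem Om_map (v : M) (g : k[X]) (a : A) :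
    Om e v (C a * g.map (algebraMap k A)) = a ⊗ₜ (e g • v) := by
  induction g using Polynomial.induction_on' with
  | monomial n c =>
    rw [Polynomial.map_monomial, C_mul_monomial, Om_monomial, ← C_mul_X_pow_eq_monomial,
      ← smul_eq_C_mul, map_smul, smul_assoc, ← smul_tmul c, mul_comm, Algebra.smul_def]
  | add p q hp hq => simp only [Polynomial.map_add, mul_add, map_add, hp, hq, add_smul, tmul_add]

variable {I : Type} [Fintype I] (t : I → A) (d : I → Derivation k A A)

def et (f : k[X]) : A ⊗[k] M →ₗ[k] A ⊗[k] M :=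
  (Df t d f).toLinearMap.rTensor M + (Algebra.lsmul k k M (e f) : M →ₗ[k] M).lTensor A

theorem et_tmul (f : k[X]) (a : A) (v : M) :
    et e t d f (a ⊗ₜ v) = Df t d f a ⊗ₜ v + a ⊗ₜ (e f • v) := by
  simp [et]

theorem et_smul (f : k[X]) (a : A) (x : A ⊗[k] M) :
    et e t d f (a • x) = a • et e t d f x + Df t d f a • x := by
  induction x using TensorProduct.induction_on with
  | zero => simp
  | tmul b v =>
    simp only [smul_tmul', smul_eq_mul, et_tmul, Derivation.leibniz, add_tmul, smul_add,
      mul_comm b]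
    abel
  | add x y hx hy => simp only [smul_add, map_add, hx, hy]; abel

variable {e}

theorem et_Om (he : IsBr e) (f : k[X]) (v : M) (G : A[X]) :
    et e t d f (Om e v G) = Om e v (pder (Df t d f) G + f.map (algebraMap k A) * derivative G -
      (derivative f).map (algebraMap k A) * G) + Om e (e f • v) G := by
  induction G using Polynomial.induction_on' with
  | monomial n a =>
    have e1 : f.map (algebraMap k A) * derivative (monomial n a) -
        (derivative f).map (algebraMap k A) * monomial n a =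
        C a * (f * derivative (X ^ n) - derivative f * X ^ n).map (algebraMap k A) := by
      simp only [← C_mul_X_pow_eq_monomial, derivative_C_mul, Polynomial.map_sub,
        Polynomial.map_mul, Polynomial.map_pow, map_X, ← derivative_map]
      ring
    rw [add_sub_assoc, e1, map_add, Om_map, pder_monomial, Om_monomial, Om_monomial, Om_monomial,
      et_tmul, ← he, sub_smul, mul_smul, mul_smul, tmul_sub]
    abel
  | add p q hp hq =>
    simp only [map_add, hp, hq, mul_add, map_sub]
    abel

end Omega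

theorem disc_succ_dvd (k : Type u) [Field k] (l : ℕ) :
    ∃ c, disc k (id : Fin (l + 1) → Fin (l + 1)) ∣
      ((∏ i : Fin l, (MvPolynomial.X 0 - MvPolynomial.X i.succ)) *
        MvPolynomial.rename Fin.succ (disc k (id : Fin l → Fin l))) ^ c := by
  refine ⟨(Finset.univ.filter (fun p : Fin (l + 1) × Fin (l + 1) => id p.1 ≠ id p.2)).card, ?_⟩
  rw [← Finset.prod_const, disc]
  refine Finset.prod_dvd_prod_of_dvd _ _ ?_
  rintro ⟨v, w⟩ hp
  have hvw : v ≠ w := (Finset.mem_filter.1 hp).2
  have h0 : ∀ i : Fin l, (MvPolynomial.X 0 - MvPolynomial.X i.succ : MvPolynomial (Fin (l + 1)) k) ∣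
      ∏ i : Fin l, (MvPolynomial.X 0 - MvPolynomial.X i.succ) := fun i =>
    Finset.dvd_prod_of_mem (fun i : Fin l =>
      (MvPolynomial.X 0 - MvPolynomial.X i.succ : MvPolynomial (Fin (l + 1)) k)) (Finset.mem_univ i)
  induction v using Fin.cases with
  | zero =>
    induction w using Fin.cases with
    | zero => exact absurd rfl hvw
    | succ w => exact (h0 w).mul_right _
  | succ v =>
    induction w using Fin.cases with
    | zero =>
      refine Dvd.dvd.mul_right ?_ _
      rw [← neg_sub, neg_dvd]; exact h0 v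
    | succ w =>
      have := map_dvd (MvPolynomial.rename (R := k) (Fin.succ : Fin l → Fin (l + 1)))
        (dvd_disc (A := k) (id : Fin l → Fin l) (v := v) (w := w) fun h => hvw (congrArg _ h))
      rw [map_sub, MvPolynomial.rename_X, MvPolynomial.rename_X] at this
      exact this.mul_left _

theorem exists_cov {l : ℕ} {A : Type u} [CommRing A] [Algebra k A] {t : Fin l → A}
    {d : Fin l → Derivation k A A} (hB : Base k t d) {e : k[X] →ₗ[k] U} (he : IsBr e)
    (M : Type u) [AddCommGroup M] [Module k M] [Module U M] [IsScalarTower k U M] [Nontrivial M]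
    {K : ℕ} (hK : ∀ (H : MvPolynomial (Fin (l + 1)) k) (v : M),
      mu e (List.finRange (l + 1)) (disc k id ^ K * H) • v = 0)
    (hmin : ∀ (K' : ℕ) (v : M), (∀ b : MvPolynomial (Fin l) k,
      mu e (List.finRange l) (disc k id ^ K' * b) • v = 0) → v = 0) :
    ∃ (R : Type u) (_ : Ring R) (_ : Algebra k R) (ι : A →ₐ[k] R) (n : Fin l → ℕ),
      Nonempty (Cov e M ι t d n) := by
  obtain ⟨c, hc⟩ := disc_succ_dvd k l
  set N := c * K + 2 with hN
  set p : A[X] := ∏ i, (X - C (t i)) with hp
  let Y : Submodule A (A ⊗[k] M) := Submodule.span A {y | ∃ v H, y = Om e v (p ^ N * H)}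
  have hYgen : ∀ v G, p ^ N ∣ G → Om e v G ∈ Y := by
    rintro v _ ⟨H, rfl⟩
    exact Submodule.subset_span ⟨v, H, rfl⟩
  have hY : ∀ f, ∀ y ∈ Y, et e t d f y ∈ Y := by
    intro f y hy
    induction hy using Submodule.span_induction with
    | mem x hx =>
      obtain ⟨v, H, rfl⟩ := hx
      rw [et_Om t d he]
      refine Y.add_mem (hYgen _ _ (dvd_sub ?_ ((dvd_mul_right _ _).mul_left _)))
        (hYgen _ _ (dvd_mul_right _ _))
      let δ : Derivation k A[X] A[X] := pder (Df t d f) +
        f.map (algebraMap k A) • (derivative' : Derivation A A[X] A[X]).restrictScalars k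
      refine der_pow_dvd δ (der_prod_dvd δ _ _ fun i _ => ?_) N H
      rw [dvd_iff_isRoot]
      change eval (t i) (pder (Df t d f) (X - C (t i)) +
        f.map (algebraMap k A) * derivative (X - C (t i))) = 0
      rw [map_sub, pder_X, pder_C, hB.Df_t]
      simp [eval_map_algebraMap]
    | zero => simp
    | add a b _ _ ha hb => rw [map_add]; exact Y.add_mem ha hb
    | smul a x hx ih => rw [et_smul]; exact Y.add_mem (Y.smul_mem _ ih) (Y.smul_mem _ hx)
  let XX := (A ⊗[k] M) ⧸ Y
  have hext : ∀ {T T' : Module.End k XX},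
      (∀ a v, T (Submodule.Quotient.mk (a ⊗ₜ v)) = T' (Submodule.Quotient.mk (a ⊗ₜ v))) → T = T' := by
    intro T T' h
    refine LinearMap.ext fun x => ?_
    obtain ⟨x, rfl⟩ := Submodule.Quotient.mk_surjective Y x
    induction x using TensorProduct.induction_on with
    | zero => simp
    | tmul a v => exact h a v
    | add x y hx hy => simp only [Submodule.Quotient.mk_add, map_add, hx, hy]
  have hdesc : ∀ f, ∃ T : Module.End k XX, ∀ x, T (Submodule.Quotient.mk x) =
      Submodule.Quotient.mk (et e t d f x) := by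
    intro f
    refine ⟨(Y.restrictScalars k).liftQ (Y.mkQ.restrictScalars k ∘ₗ et e t d f) ?_ ∘ₗ
      (Submodule.Quotient.restrictScalarsEquiv k Y).symm.toLinearMap, fun x => rfl⟩
    intro y hy
    exact (Submodule.Quotient.mk_eq_zero Y).2 (hY f y hy)
  choose T hT using hdesc
  have hDadd : ∀ f g a, Df t d (f + g) a = Df t d f a + Df t d g a := by
    intro f g a; simp [Df_apply, add_mul, Finset.sum_add_distrib]
  have hDsmul : ∀ (c : k) f a, Df t d (c • f) a = c • Df t d f a := by
    intro c f a; simp [Df_apply, Finset.smul_sum]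
  let e0 : k[X] →ₗ[k] Module.End k XX :=
    { toFun := T
      map_add' := fun f g => hext fun a v => by
        simp only [LinearMap.add_apply, hT, et_tmul, hDadd, map_add, add_smul, add_tmul, tmul_add,
          Submodule.Quotient.mk_add]
        abel
      map_smul' := fun c f => hext fun a v => by
        simp only [LinearMap.smul_apply, hT, et_tmul, hDsmul, map_smul, smul_assoc, RingHom.id_apply,
          tmul_smul, ← smul_tmul', ← smul_add, Submodule.Quotient.mk_smul] }
  have he0 : ∀ f x, e0 f (Submodule.Quotient.mk x) = Submodule.Quotient.mk (et e t d f x) := hT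
  let ι0 : A →ₐ[k] Module.End k XX := Algebra.lsmul k k XX
  have hι0 : ∀ a x, ι0 a (Submodule.Quotient.mk x) = Submodule.Quotient.mk (a • x) :=
    fun _ _ => rfl
  have hbr0 : IsBr e0 := fun f g => hext fun a v => by
    simp only [LinearMap.sub_apply, Module.End.mul_apply, he0]
    simp only [et_tmul, map_add, ← hB.Df_br, ← he f g, sub_smul, mul_smul, sub_tmul, tmul_sub,
      Submodule.Quotient.mk_add, Submodule.Quotient.mk_sub]
    abel
  have hcomm0 : ∀ f b, e0 f * ι0 b = ι0 b * e0 f + ι0 (∑ i, aeval (t i) f * d i b) :=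
    fun f b => hext fun a v => by
      simp only [LinearMap.add_apply, Module.End.mul_apply, he0, hι0, Submodule.Quotient.mk_add,
        et_smul, Df_apply]
  have hkill0 : ∀ H : A[X], ext1 ι0 e0 (p ^ N * H) = 0 := by
    have h1 : ∀ (G : A[X]) a v, ext1 ι0 e0 G (Submodule.Quotient.mk (a ⊗ₜ v)) =
        Submodule.Quotient.mk (Om e v (G * C a) +
          (∑ i, eval (t i) (pder (d i) (G * C a))) ⊗ₜ v) := by
      intro G a v
      induction G using Polynomial.induction_on' with
      | monomial n g =>
        rw [ext1_monomial, Module.End.mul_apply, hι0, he0, monomial_mul_C, Om_monomial, smul_tmul',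
          et_tmul, add_comm, Df_apply]
        simp [pder_monomial, mul_comm, mul_add]
      | add p q hp hq =>
        simp only [map_add, LinearMap.add_apply, hp, hq, add_mul, eval_add, Finset.sum_add_distrib,
          add_tmul, Submodule.Quotient.mk_add]
        abel
    intro H
    refine hext fun a v => ?_
    rw [h1, LinearMap.zero_apply, Submodule.Quotient.mk_eq_zero, Finset.sum_eq_zero, zero_tmul,
      add_zero]
    · exact hYgen _ _ ((dvd_mul_right _ _).mul_right _)
    · intro i _
      have : eval (t i) p = 0 := by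
        rw [hp, eval_prod, Finset.prod_eq_zero (Finset.mem_univ i)]; simp
      rw [mul_assoc, Derivation.leibniz, Derivation.leibniz_pow]
      simp [this, hN]
  obtain ⟨R, ι, e', D, hι, he', hgen, hD, hDN⟩ :=
    exists_local_gen hB.hd hB.unit hbr0 hcomm0 N hkill0
  let j : M →ₗ[k] XX := Y.mkQ.restrictScalars k ∘ₗ TensorProduct.mk k A M 1
  have hj : ∀ v, j v = Submodule.Quotient.mk (1 ⊗ₜ v) := fun _ => rfl
  refine ⟨R, inferInstance, inferInstance, ι, fun _ => N, ⟨⟨e', D, XX, j, hD, hgen, ?_, ?_, ?_, ?_⟩⟩⟩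
  · intro h0
    obtain ⟨v, hv⟩ := exists_ne (0 : M)
    have hvY : (1 : A) ⊗ₜ[k] v ∈ Y := by
      rw [← Submodule.Quotient.mk_eq_zero, ← hj, h0]; rfl
    obtain ⟨ρ, hρ⟩ := LinearMap.exists_leftInverse_of_injective
      (MvPolynomial.aeval t : MvPolynomial (Fin l) k →ₐ[k] A).toLinearMap
      (LinearMap.ker_eq_bot.2 hB.inj)
    have hρ' : ∀ a, ρ (MvPolynomial.aeval t a) = a := fun a => DFunLike.congr_fun hρ a
    let Λ : A ⊗[k] M →ₗ[k] M := TensorProduct.lift ((Algebra.lsmul k k M).toLinearMap ∘ₗ
      mu e (List.finRange l) ∘ₗ LinearMap.mulLeft k (disc k id ^ N) ∘ₗ ρ)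
    have hΛ : ∀ a v, Λ (MvPolynomial.aeval t a ⊗ₜ v) =
        mu e (List.finRange l) (disc k id ^ N * a) • v := by
      intro a v; simp [Λ, hρ']
    let ψ : (MvPolynomial (Fin l) k)[X] →+* MvPolynomial (Fin (l + 1)) k :=
      eval₂RingHom (MvPolynomial.rename Fin.succ).toRingHom (MvPolynomial.X 0)
    have hΛOm : ∀ v (G : (MvPolynomial (Fin l) k)[X]),
        Λ (Om e v (G.map (MvPolynomial.aeval t : MvPolynomial (Fin l) k →ₐ[k] A).toRingHom)) =
          mu e (List.finRange (l + 1))
            (ψ G * MvPolynomial.rename Fin.succ (disc k id ^ N)) • v := by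
      intro v G
      induction G using Polynomial.induction_on' with
      | monomial n a =>
        rw [Polynomial.map_monomial, Om_monomial]
        change Λ (MvPolynomial.aeval t a ⊗ₜ _) = _
        rw [hΛ, ← mul_smul, ← mu_succ]
        congr 2
        simp [ψ]; ring
      | add p q hp hq => simp only [Polynomial.map_add, map_add, hp, hq, add_mul, add_smul]
    have hclear : ∀ H : A[X], ∃ (r : ℕ) (H0 : (MvPolynomial (Fin l) k)[X]),
        C (MvPolynomial.aeval t (disc k (id : Fin l → Fin l)) ^ r) * H =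
          H0.map (MvPolynomial.aeval t : MvPolynomial (Fin l) k →ₐ[k] A).toRingHom := by
      intro H
      induction H using Polynomial.induction_on' with
      | monomial n a =>
        obtain ⟨r, a0, h⟩ := hB.surj a
        exact ⟨r, monomial n a0, by rw [C_mul_monomial, h, Polynomial.map_monomial]; rfl⟩
      | add p q hp hq =>
        obtain ⟨r, H0, h⟩ := hp
        obtain ⟨s, H1, h'⟩ := hq
        refine ⟨r + s, C (disc k id ^ s) * H0 + C (disc k id ^ r) * H1, ?_⟩
        simp only [Polynomial.map_add, Polynomial.map_mul, map_C, ← h, ← h', pow_add, map_mul,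
          map_pow, Polynomial.map_pow]
        simp only [AlgHom.toRingHom_eq_coe, RingHom.coe_coe]
        ring
    have hmain : ∀ y ∈ Y, ∃ r : ℕ, ∀ b : MvPolynomial (Fin l) k,
        Λ (MvPolynomial.aeval t (disc k id ^ r * b) • y) = 0 := by
      intro y hy
      induction hy using Submodule.span_induction with
      | mem x hx =>
        obtain ⟨v, H, rfl⟩ := hx
        obtain ⟨r, H0, h⟩ := hclear H
        refine ⟨r, fun b => ?_⟩
        have e1 : MvPolynomial.aeval t (disc k id ^ r * b) • (p ^ N * H) =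
            (C b * (∏ i, (X - C (MvPolynomial.X i))) ^ N * H0).map
              (MvPolynomial.aeval t : MvPolynomial (Fin l) k →ₐ[k] A).toRingHom := by
          rw [Polynomial.map_mul, ← h, smul_eq_C_mul]
          simp only [Polynomial.map_mul, Polynomial.map_pow, Polynomial.map_prod,
            Polynomial.map_sub, map_X, map_C, map_mul, map_pow]
          simp only [AlgHom.toRingHom_eq_coe, RingHom.coe_coe, MvPolynomial.aeval_X, ← hp]
          ring
        rw [← map_smul, e1, hΛOm]
        obtain ⟨w, hw⟩ := hc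
        have e2 : ψ (C b * (∏ i, (X - C (MvPolynomial.X i))) ^ N * H0) *
            MvPolynomial.rename Fin.succ (disc k (id : Fin l → Fin l) ^ N) =
            disc k id ^ K * (w ^ K * (((∏ i : Fin l, (MvPolynomial.X 0 - MvPolynomial.X i.succ)) *
              MvPolynomial.rename Fin.succ (disc k (id : Fin l → Fin l))) ^ 2 *
                (ψ (C b) * ψ H0))) := by
          have : ψ (∏ i, (X - C (MvPolynomial.X i))) =
              ∏ i : Fin l, (MvPolynomial.X 0 - MvPolynomial.X i.succ) := by
            simp [ψ, map_prod]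
          rw [← mul_assoc, ← mul_pow, ← hw, ← pow_mul, ← mul_assoc, ← pow_add, ← hN, map_mul,
            map_mul, map_pow, map_pow, this]
          ring
        rw [e2, hK]
      | zero => exact ⟨0, by simp⟩
      | add x y _ _ hx hy =>
        obtain ⟨r, hr⟩ := hx
        obtain ⟨s, hs⟩ := hy
        refine ⟨r + s, fun b => ?_⟩
        have h1 := hr (disc k id ^ s * b)
        have h2 := hs (disc k id ^ r * b)
        rw [← mul_assoc, ← pow_add] at h1 h2
        rw [add_comm s] at h2
        rw [smul_add, map_add, h1, h2, add_zero]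
      | smul a x _ ih =>
        obtain ⟨r, hr⟩ := ih
        obtain ⟨s, a0, ha⟩ := hB.surj a
        refine ⟨r + s, fun b => ?_⟩
        rw [smul_smul, ← hr (b * a0)]
        congr 2
        simp only [map_mul, ← ha, map_pow, pow_add]
        ring
    obtain ⟨r, hr⟩ := hmain _ hvY
    refine hv (hmin (N + r) v fun b => ?_)
    have := hr b
    rwa [smul_tmul', smul_eq_mul, mul_one, hΛ, ← mul_assoc, ← pow_add] at this
  · intro f v
    change _ = (e' f : Module.End k XX) (j v)
    rw [he', hj, hj, he0, et_tmul]; simp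
  · intro x
    obtain ⟨x, rfl⟩ := Submodule.Quotient.mk_surjective Y x
    induction x using TensorProduct.induction_on with
    | zero => simp
    | tmul a v =>
      refine Submodule.subset_span ⟨a, v, ?_⟩
      change _ = (ι a : Module.End k XX) (j v)
      rw [hι, hj, hι0, smul_tmul', smul_eq_mul, mul_one]
    | add x y hx hy => rw [Submodule.Quotient.mk_add]; exact Submodule.add_mem _ hx hy
  · intro i α hα x
    rw [hDN i α hα.le, zero_smul]

end

end Pool.Agent.Lib.MP_4da284_al.Q1
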