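import Pool.Agent.Lib.MP_4da284_al.DiffOp
import Pool.Agent.Lib.MP_4da284_al.H78Growth

namespace Pool.Agent.Lib.MP_4da284_al.Q1

noncomputable section

universe u

section Symbol

open MvPolynomial

theorem exists_symbol {k V C₀ A : Type*} [Field k] [CommRing C₀] [IsDomain C₀] [Algebra k C₀]
    [Ring A] [Algebra k A] (m : MonomialOrder V)
    (δ : V → Derivation k C₀ C₀) (pos : C₀ →ₐ[k] A) (D : V → A)
    (hDD : ∀ i j, D i * D j = D j * D i)
    (hDp : ∀ j g, D j * pos g = pos g * D j + pos (δ j g))
    (hgen : Algebra.adjoin k (Set.range pos ∪ Set.range D) = ⊤)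
    (act : A →ₐ[k] Module.End k (MvPolynomial V C₀))
    (hap : ∀ g, act (pos g) = mulC g) (haD : ∀ j, act (D j) = momOp δ j) :
    ∃ ev : A →ₗ[k] MvPolynomial V C₀, Function.Injective ev ∧ (∀ g, ev (pos g) = C g) ∧
      ∀ P Q : A, P ≠ 0 → Q ≠ 0 →
        m.degree (ev (P * Q)) = m.degree (ev P) + m.degree (ev Q) ∧
        m.leadingCoeff (ev (P * Q)) = m.leadingCoeff (ev P) * m.leadingCoeff (ev Q) := by
  classical
  obtain ⟨mom, -, hmom⟩ := exists_lift (σ := V) (Algebra.ofId k A) D hDD (fun g i => by
    simpa using Algebra.commutes g (D i))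
  let N : MvPolynomial V C₀ →ₗ[k] A :=
    (Finsupp.lsum k (fun b : V →₀ ℕ =>
      (LinearMap.mulRight k (mom (monomial b 1))) ∘ₗ pos.toLinearMap)) ∘ₗ
      (AddMonoidAlgebra.coeffLinearEquiv k).toLinearMap
  have hN : ∀ b g, N (monomial b g) = pos g * mom (monomial b 1) := by
    intro b g
    simp [N, monomial]
  have hmom' : ∀ b j, mom (monomial (Finsupp.single j 1 + b) 1) = D j * mom (monomial b 1) := by
    intro b j
    rw [monomial_single_add, pow_one, map_mul, hmom]
  have hNact : ∀ P : A, ∀ r, N (act P r) = P * N r := by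
    intro P
    have hP : P ∈ Algebra.adjoin k (Set.range pos ∪ Set.range D) := by rw [hgen]; trivial
    induction hP using Algebra.adjoin_induction with
    | mem x hx =>
      intro r
      rcases hx with ⟨g, rfl⟩ | ⟨j, rfl⟩
      · induction r using MvPolynomial.induction_on' with
        | monomial b h => rw [hap, mulC_apply, C_mul_monomial, hN, hN, map_mul, mul_assoc]
        | add p q hp hq => rw [map_add, map_add, hp, hq, map_add, mul_add]
      · induction r using MvPolynomial.induction_on' with
        | monomial b h =>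
          have : X j * monomial b h = monomial (Finsupp.single j 1 + b) h := by
            rw [monomial_single_add, pow_one]
          rw [haD, momOp_apply, MP_4da284_al.cmap_monomial, this, map_add, hN, hN, hN, hmom', ← mul_assoc,
            ← mul_assoc, hDp, add_mul]
          rfl
        | add p q hp hq => rw [map_add, map_add, hp, hq, map_add, mul_add]
    | algebraMap c =>
      intro r
      rw [AlgHom.commutes, Module.algebraMap_end_apply, map_smul, Algebra.smul_def]
    | add x y _ _ hx hy => intro r; rw [map_add, LinearMap.add_apply, map_add, hx, hy, add_mul]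
    | mul x y _ _ hx hy => intro r; rw [map_mul, Module.End.mul_apply, hx, hy, mul_assoc]
  let ev : A →ₗ[k] MvPolynomial V C₀ :=
    (LinearMap.applyₗ (1 : MvPolynomial V C₀)) ∘ₗ act.toLinearMap
  have hev : ∀ P, ev P = act P 1 := fun P => rfl
  have hNev : ∀ P, N (ev P) = P := by
    intro P
    rw [hev, hNact, one_def, hN, ← one_def, map_one, map_one, mul_one, mul_one]
  have hinj : Function.Injective ev := Function.LeftInverse.injective hNev
  have hA : ∀ b : V →₀ ℕ, ∀ (s : m.syn) (r : MvPolynomial V C₀), r ∈ filLE k C₀ m s →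
      act (mom (monomial b 1)) r - monomial b 1 * r ∈ filLT k C₀ m (m.toSyn b + s) := by
    intro b
    induction b using finsupp_ind with
    | h0 =>
      intro s r _
      rw [← one_def, ← one_def, map_one, map_one, Module.End.one_apply, one_mul, sub_self]
      exact zero_mem _
    | hs b j ih =>
      intro s r hr
      have h1 := ih s r hr
      have hX : (X j : MvPolynomial V C₀) ∈ filLE k C₀ m (m.toSyn (Finsupp.single j 1)) :=
        monomial_LE _ _
      have hpos : m.toSyn b + s < m.toSyn (Finsupp.single j 1 + b) + s := by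
        rw [map_add, add_assoc]
        apply lt_add_of_pos_left
        rw [m.toSyn_lt_iff_ne_zero, Ne, m.toSyn_eq_zero_iff]
        simp
      have h2 : act (mom (monomial b 1)) r ∈ filLE k C₀ m (m.toSyn b + s) := by
        have := add_mem (LT_LE h1) (mul_LE_LE (monomial_LE b (1 : C₀)) hr)
        simpa using this
      have h3 := mul_LE_LT hX h1
      rw [← add_assoc, ← map_add] at h3
      have h4 := LE_LT (cmap_LE (δ j).toLinearMap h2) hpos
      have := add_mem h3 h4
      convert this using 1
      rw [hmom', map_mul, Module.End.mul_apply, haD, momOp_apply, monomial_single_add, pow_one]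
      ring
  have hB : ∀ p r : MvPolynomial V C₀,
      act (N p) r - p * r ∈ filLT k C₀ m (m.toSyn (m.degree p) + m.toSyn (m.degree r)) := by
    intro p r
    have hp : p = ∑ b ∈ p.support, monomial b (coeff b p) := p.as_sum
    have : act (N p) r - p * r = ∑ b ∈ p.support,
        C (coeff b p) * (act (mom (monomial b 1)) r - monomial b 1 * r) := by
      conv_lhs => rw [hp]
      rw [map_sum, map_sum, LinearMap.sum_apply, Finset.sum_mul, ← Finset.sum_sub_distrib]
      refine Finset.sum_congr rfl fun b _ => ?_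
      rw [hN, map_mul, Module.End.mul_apply, hap, mulC_apply, mul_sub, ← mul_assoc,
        C_mul_monomial, mul_one]
    rw [this]
    refine Submodule.sum_mem _ fun b hb => ?_
    have h1 := mul_LE_LT (monomial_LE (k := k) (m := m) 0 (coeff b p)) (hA b _ r (self_LE r))
    refine LT_mono h1 ?_
    rw [map_zero, zero_add]
    exact add_le_add_left (m.le_degree hb) _
  refine ⟨ev, hinj, fun g => by rw [hev, hap, mulC_apply, mul_one], fun P Q hP hQ => ?_⟩
  have hP' : ev P ≠ 0 := fun h => hP (hinj (by rw [h, map_zero]))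
  have hQ' : ev Q ≠ 0 := fun h => hQ (hinj (by rw [h, map_zero]))
  have h1 := hB (ev P) (ev Q)
  rw [hNev, ← map_add, ← m.degree_mul hP' hQ'] at h1
  have h2 : ev (P * Q) = ev P * ev Q + (act P (ev Q) - ev P * ev Q) := by
    rw [hev, map_mul, Module.End.mul_apply, ← hev]; ring
  rw [← m.degree_mul hP' hQ', ← m.leadingCoeff_mul, h2]
  by_cases h0 : act P (ev Q) - ev P * ev Q = 0
  · rw [h0, add_zero]; exact ⟨rfl, rfl⟩
  · have h3 := h1 _ (mem_support_iff.mp (m.degree_mem_support h0))
    exact ⟨m.degree_add_of_lt h3, m.leadingCoeff_add_of_lt h3⟩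


/- The base field is algebraically closed inside the algebra. -/
def AC (k A : Type*) [Field k] [Ring A] [Algebra k A] : Prop :=
  ∀ z : A, IsAlgebraic k z → ∃ c : k, z = algebraMap k A c

theorem AC.step {k V C₀ A : Type*} [Field k] [CommRing C₀] [IsDomain C₀] [Algebra k C₀]
    [Ring A] [Algebra k A] (m : MonomialOrder V) (hC : AC k C₀) (pos : C₀ →ₐ[k] A)
    (ev : A →ₗ[k] MvPolynomial V C₀) (hinj : Function.Injective ev) (hpos : ∀ g, ev (pos g) = C g)
    (hmul : ∀ P Q : A, P ≠ 0 → Q ≠ 0 →
      m.degree (ev (P * Q)) = m.degree (ev P) + m.degree (ev Q) ∧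
      m.leadingCoeff (ev (P * Q)) = m.leadingCoeff (ev P) * m.leadingCoeff (ev Q)) :
    AC k A := by
  have hev : ∀ P : A, P ≠ 0 → m.leadingCoeff (ev P) ≠ 0 := by
    intro P hP
    rw [m.leadingCoeff_ne_zero_iff]
    exact fun h => hP (hinj (by rw [h, map_zero]))
  have hnz : ∀ P Q : A, P ≠ 0 → Q ≠ 0 → P * Q ≠ 0 := by
    intro P Q hP hQ h
    have := (hmul P Q hP hQ).2
    rw [h, map_zero, m.leadingCoeff_zero] at this
    exact mul_ne_zero (hev P hP) (hev Q hQ) this.symm
  have h1 : ev 1 = 1 := by rw [← map_one pos, hpos, map_one]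
  have hone : (1 : A) ≠ 0 := fun h => by
    rw [h, map_zero] at h1
    exact zero_ne_one h1
  have hposinj : Function.Injective pos := fun a b h => by
    have := congrArg ev h
    rw [hpos, hpos] at this
    exact C_injective V C₀ this
  intro z hz
  by_cases hz0 : z = 0
  · exact ⟨0, by rw [hz0, map_zero]⟩
  have hpow : ∀ n : ℕ, z ^ n ≠ 0 ∧ m.degree (ev (z ^ n)) = n • m.degree (ev z) := by
    intro n
    induction n with
    | zero => exact ⟨by rw [pow_zero]; exact hone, by rw [pow_zero, h1, m.degree_one, zero_smul]⟩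
    | succ n ih =>
      refine ⟨by rw [pow_succ]; exact hnz _ _ ih.1 hz0, ?_⟩
      rw [pow_succ, (hmul _ _ ih.1 hz0).1, ih.2, succ_nsmul]
  have hd : m.degree (ev z) = 0 := by
    by_contra hd
    obtain ⟨p, hp0, hp⟩ := hz
    rw [Polynomial.aeval_eq_sum_range, Finset.sum_range_succ] at hp
    have h2 := congrArg (fun x => coeff (p.natDegree • m.degree (ev z)) (ev x)) hp
    simp only [map_add, map_sum, map_smul, coeff_add, coeff_sum, coeff_smul, map_zero,
      coeff_zero] at h2
    rw [Finset.sum_eq_zero, zero_add] at h2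
    · have h3 := hev _ (hpow p.natDegree).1
      rw [MonomialOrder.leadingCoeff, (hpow p.natDegree).2] at h3
      rw [Algebra.smul_def] at h2
      rcases mul_eq_zero.1 h2 with h | h
      · have h4 : p.coeff p.natDegree = 0 := by
          by_contra h5
          exact ((IsUnit.mk0 _ h5).map (algebraMap k C₀)).ne_zero h
        exact hp0 (Polynomial.leadingCoeff_eq_zero.1 h4)
      · exact h3 h
    · intro i hi
      rw [m.coeff_eq_zero_of_lt, smul_zero]
      rw [(hpow i).2, map_nsmul, map_nsmul]
      refine nsmul_lt_nsmul_left ?_ (Finset.mem_range.1 hi)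
      rw [m.toSyn_lt_iff_ne_zero, Ne, m.toSyn_eq_zero_iff]
      exact hd
  have h4 := m.eq_C_of_degree_eq_zero hd
  have h5 : z = pos (m.leadingCoeff (ev z)) := hinj (by rw [hpos]; exact h4)
  rw [h5] at hz
  obtain ⟨c, hc⟩ := hC _ ((isAlgebraic_algHom_iff pos hposinj).1 hz)
  exact ⟨c, by rw [h5, hc, AlgHom.commutes]⟩

theorem ac_self (k : Type*) [Field k] : AC k k := fun z _ => ⟨z, rfl⟩

theorem ac_mv (k : Type*) [Field k] (n : ℕ) : AC k (MvPolynomial (Fin n) k) :=
  AC.step (V := Fin n) MonomialOrder.lex (ac_self k) (Algebra.ofId k _) LinearMap.id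
    (fun _ _ h => h) (fun _ => rfl)
    (fun _ _ hP hQ => ⟨MonomialOrder.lex.degree_mul hP hQ, MonomialOrder.lex.leadingCoeff_mul⟩)

theorem ac_weyl (k : Type u) [Field k] (n : ℕ) : AC k (Weyl k n) := by
  classical
  obtain ⟨pos, -, hposX⟩ := exists_lift (σ := Fin n) (Algebra.ofId k (Weyl k n))
    (fun i => H82Weyl.gen k n (.inl i)) (fun i j => H82Weyl.gen_ss k n i j)
    (fun g i => by simpa using Algebra.commutes g (H82Weyl.gen k n (.inl i)))
  let δ : Fin n → Derivation k (MvPolynomial (Fin n) k) (MvPolynomial (Fin n) k) :=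
    fun i => pderiv i
  have hδX : ∀ i j, δ i (X j) = if i = j then 1 else 0 := by
    intro i j
    simp [δ, pderiv_X, Pi.single_apply, eq_comm]
  have hδδ : ∀ i j g, δ i (δ j g) = δ j (δ i g) := by
    intro i j g
    have key : ⁅δ i, δ j⁆ = 0 := by
      refine derivation_ext fun l => ?_
      simp only [Derivation.commutator_apply, hδX]
      split_ifs <;> simp
    have := DFunLike.congr_fun key g
    rwa [Derivation.commutator_apply, Derivation.zero_apply, sub_eq_zero] at this
  let E := Module.End k (MvPolynomial (Fin n) (MvPolynomial (Fin n) k))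
  let fR : Fin n ⊕ Fin n → E := Sum.elim (fun i => mulC (X i)) (fun i => momOp δ i)
  let act : Weyl k n →ₐ[k] E := H82Weyl.lift k n fR
    (fun i j => by
      simp only [fR, Sum.elim_inl]
      rw [← map_mul, ← map_mul, mul_comm])
    (fun i j => momOp_comm _ _ _ (hδδ _ _))
    (fun i j => by
      simp only [fR, Sum.elim_inr, Sum.elim_inl]
      rw [momOp_mulC, hδX]
      split_ifs <;> simp)
  have hact : ∀ x, act (H82Weyl.gen k n x) = fR x := fun x => H82Weyl.lift_gen k n fR _ _ _ x
  obtain ⟨ev, h1, h2, h3⟩ := exists_symbol (V := Fin n) MonomialOrder.lex δ pos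
    (fun j => H82Weyl.gen k n (.inr j)) (fun i j => H82Weyl.gen_dd k n i j) (by
      intro j g
      induction g using MvPolynomial.induction_on with
      | C a =>
        have e1 : pos (C a) = algebraMap k _ a := pos.commutes a
        have e2 : δ j (C a) = 0 := by simp [δ]
        rw [e1, e2, map_zero, add_zero, Algebra.commutes]
      | add p q hp hq => simp only [map_add, mul_add, add_mul, hp, hq]; abel
      | mul_X p l hp =>
        have hX : H82Weyl.gen k n (.inr j) * pos (X l) =
            pos (X l) * H82Weyl.gen k n (.inr j) + pos (δ j (X l)) := by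
          rw [hδX, hposX, H82Weyl.gen_ds]
          split_ifs <;> simp
        rw [Derivation.leibniz, map_mul, ← mul_assoc, hp, add_mul, mul_assoc, hX, smul_eq_mul,
          smul_eq_mul, map_add, mul_comm (X l), map_mul, map_mul]
        noncomm_ring) (by
      rw [eq_top_iff]
      rintro x -
      refine H82Weyl.induction k n (P := fun x => x ∈ Algebra.adjoin k (Set.range pos ∪
        Set.range fun j => H82Weyl.gen k n (.inr j))) ?_ ?_ ?_ ?_ x
      · exact fun c => Subalgebra.algebraMap_mem _ c
      · rintro (i | i)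
        · exact Algebra.subset_adjoin (Or.inl ⟨X i, hposX i⟩)
        · exact Algebra.subset_adjoin (Or.inr ⟨i, rfl⟩)
      · exact fun a b ha hb => mul_mem ha hb
      · exact fun a b ha hb => add_mem ha hb) act (by
      intro g
      induction g using MvPolynomial.induction_on with
      | C a =>
        have e1 : pos (C a) = algebraMap k _ a := pos.commutes a
        rw [e1, AlgHom.commutes]
        exact ((mulC (k := k) (V := Fin n) (C₀ := MvPolynomial (Fin n) k)).commutes a).symm
      | add p q hp hq => simp only [map_add, hp, hq]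
      | mul_X p l hp => rw [map_mul, map_mul, hp, hposX, hact, map_mul]; rfl)
    (fun j => hact _)
  exact AC.step MonomialOrder.lex (ac_mv k n) pos ev h1 h2 h3

end Symbol

section Density

open Polynomial

variable {k K : Type u} [Field k] [Field K] [Algebra k K]

variable (k) in
/- The tensor density module of weight `a` on `K[X]`. -/
def dens (a : K) : k[X] →ₗ[k] Module.End k K[X] where
  toFun f := LinearMap.mulLeft k (f.map (algebraMap k K)) ∘ₗ
      (derivative : K[X] →ₗ[K] K[X]).restrictScalars k +
    LinearMap.mulLeft k (C a * derivative (f.map (algebraMap k K)))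
  map_add' f g := LinearMap.ext fun y => by
    simp [Polynomial.map_add, add_mul, mul_add]; ring
  map_smul' c f := LinearMap.ext fun y => by
    simp [Algebra.smul_def, Polynomial.algebraMap_apply]; ring

theorem dens_apply (a : K) (f : k[X]) (y : K[X]) :
    dens k a f y = f.map (algebraMap k K) * derivative y +
      C a * derivative (f.map (algebraMap k K)) * y := rfl

theorem isBr_dens (a : K) : IsBr (dens k a) := by
  intro f g
  refine LinearMap.ext fun y => ?_
  simp only [LinearMap.sub_apply, Module.End.mul_apply, dens_apply, derivative_add, derivative_mul,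
    derivative_C, Polynomial.map_sub, Polynomial.map_mul, derivative_sub, ← derivative_map]
  ring

theorem dens_casimir (a : K) (y : K[X]) :
    (dens k a X * dens k a X - dens k a X - dens k a (X ^ 2) * dens k a 1) y =
      C (a ^ 2 - a) * y := by
  simp only [LinearMap.sub_apply, Module.End.mul_apply, dens_apply, derivative_add, derivative_mul,
    derivative_C, Polynomial.map_pow, map_X, Polynomial.map_one, derivative_X, derivative_one,
    derivative_X_pow, map_sub, map_pow]
  simp only [Nat.cast_ofNat, map_ofNat, map_zero]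
  ring

theorem dens_simple [CharZero K] (a : K) (ha : a ≠ 0) (hgen : Algebra.adjoin k {a} = ⊤)
    (N : Submodule k K[X]) (hN : ∀ f y, y ∈ N → dens k a f y ∈ N) (h0 : N ≠ ⊥) : N = ⊤ := by
  have hder : ∀ y ∈ N, derivative y ∈ N := fun y hy => by
    simpa [dens_apply] using hN 1 y hy
  have hconst : ∀ n : ℕ, ∀ y ∈ N, y ≠ 0 → y.natDegree = n → ∃ b : K, b ≠ 0 ∧ C b ∈ N := by
    intro n
    induction n with
    | zero =>
      intro y hy hy0 hn
      rw [eq_C_of_natDegree_eq_zero hn] at hy hy0
      exact ⟨_, fun h => hy0 (by rw [h, map_zero]), hy⟩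
    | succ n ih =>
      intro y hy hy0 hn
      refine ih _ (hder y hy) (fun h => ?_) (by rw [natDegree_derivative, hn]; rfl)
      have := Polynomial.derivative_eq_zero.1 h
      omega
  obtain ⟨y, hy, hy0⟩ := Submodule.exists_mem_ne_zero_of_ne_bot h0
  obtain ⟨b, hb, hbN⟩ := hconst _ y hy hy0 rfl
  have hmul : ∀ c : K, ∀ d : K, C d ∈ N → C (c * d) ∈ N := by
    intro c
    have hc : c ∈ Algebra.adjoin k {a} := by rw [hgen]; trivial
    induction hc using Algebra.adjoin_induction with
    | mem x hx =>
      intro d hd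
      rw [Set.mem_singleton_iff.1 hx]
      simpa [dens_apply] using hN X _ hd
    | algebraMap r =>
      intro d hd
      have := N.smul_mem r hd
      rwa [smul_C, Algebra.smul_def] at this
    | add x y _ _ hx hy =>
      intro d hd
      rw [add_mul, map_add]
      exact N.add_mem (hx d hd) (hy d hd)
    | mul x y _ _ hx hy =>
      intro d hd
      rw [mul_assoc]
      exact hx _ (hy d hd)
  have hall : ∀ d : K, C d ∈ N := fun d => by
    have := hmul (d * b⁻¹) b hbN
    rwa [mul_assoc, inv_mul_cancel₀ hb, mul_one] at this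
  rw [eq_top_iff]
  rintro p -
  induction p using Polynomial.induction_on' with
  | add p q hp hq => exact N.add_mem hp hq
  | monomial n d =>
    have hn : ((n : K) + 1) ≠ 0 := Nat.cast_add_one_ne_zero n
    have := hN (X ^ (n + 1)) _ (hall (d * (a * ((n : K) + 1))⁻¹))
    rw [dens_apply, derivative_C, mul_zero, zero_add, Polynomial.map_pow, map_X, derivative_X_pow,
      Nat.add_sub_cancel, ← mul_assoc, ← map_mul, mul_right_comm, ← map_mul, Nat.cast_add,
      Nat.cast_one, mul_comm d, mul_inv_cancel_left₀ (mul_ne_zero ha hn), C_mul_X_pow_eq_monomial]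
      at this
    exact this

theorem counter [CharZero k] (a : K) (hint : IsIntegral k (a ^ 2 - a))
    (hgen : Algebra.adjoin k {a} = ⊤) (hc : a ^ 2 - a ∉ Set.range (algebraMap k K)) :
    ∃ Q : Ideal (UniversalEnvelopingAlgebra k (Derivation k k[X] k[X])),
      IsPrimitiveIdeal Q ∧ Q ≠ ⊥ ∧ ∀ (m : ℕ)
        (φ : UniversalEnvelopingAlgebra k (Derivation k k[X] k[X]) →ₐ[k] Weyl k m),
        RingHom.ker φ ≠ Q := by
  have : CharZero K := charZero_of_injective_algebraMap (algebraMap k K).injective
  obtain ⟨ψ, hψ⟩ := univ_eW (Module.End k K[X]) (dens k a) (isBr_dens a)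
  have ha : a ≠ 0 := by
    rintro rfl
    exact hc ⟨0, by simp⟩
  have hc0 : a ^ 2 - a ≠ 0 := fun h => hc ⟨0, by rw [h, map_zero]⟩
  set Ω := eW k X * eW k X - eW k X - eW k (X ^ 2) * eW k 1 with hΩ
  have hΩψ : ψ Ω = (Algebra.lmul k K[X]).comp (IsScalarTower.toAlgHom k K K[X]) (a ^ 2 - a) := by
    refine LinearMap.ext fun y => ?_
    rw [hΩ, map_sub, map_sub, map_mul, map_mul, hψ, hψ, hψ, dens_casimir]
    rfl
  have hμ : ψ (aeval Ω (minpoly k (a ^ 2 - a))) = 0 := by
    rw [← aeval_algHom_apply, hΩψ, aeval_algHom_apply, minpoly.aeval, map_zero]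
  refine ⟨RingHom.ker ψ, ?_, ?_, ?_⟩
  · let : Module (UniversalEnvelopingAlgebra k (Derivation k k[X] k[X])) K[X] :=
      Module.compHom K[X] ψ.toRingHom
    have hsm : ∀ (x : UniversalEnvelopingAlgebra k (Derivation k k[X] k[X])) (y : K[X]),
        x • y = ψ x y := fun _ _ => rfl
    refine ⟨K[X], inferInstance, inferInstance, ?_, ?_⟩
    · rw [isSimpleModule_iff]
      refine ⟨fun N => ?_⟩
      let N' : Submodule k K[X] :=
        { carrier := N
          add_mem' := fun h1 h2 => N.add_mem h1 h2
          zero_mem' := N.zero_mem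
          smul_mem' := fun c y hy => by
            have := N.smul_mem (algebraMap k _ c) hy
            rwa [hsm, AlgHom.commutes, Module.algebraMap_end_apply] at this }
      by_cases h : N' = ⊥
      · left
        rw [eq_bot_iff]
        intro y hy
        have : y ∈ N' := hy
        rw [h] at this
        exact this
      · right
        have := dens_simple a ha hgen N' (fun f y hy => by
          have := N.smul_mem (eW k f) hy
          rwa [hsm, hψ] at this) h
        rw [eq_top_iff]
        intro y _
        have h2 : y ∈ N' := by rw [this]; trivial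
        exact h2
    · ext x
      rw [Module.mem_annihilator, RingHom.mem_ker]
      exact ⟨fun h => LinearMap.ext h, fun h y => by rw [hsm, h]; rfl⟩
  · intro h
    obtain ⟨ε, hε⟩ := univ_eW (k := k) k 0 (fun f g => by simp)
    have h1 : aeval Ω (minpoly k (a ^ 2 - a)) = 0 := by
      have : aeval Ω (minpoly k (a ^ 2 - a)) ∈ RingHom.ker ψ := hμ
      rw [h] at this
      exact this
    have h2 := congrArg ε h1
    have h3 : ε Ω = 0 := by simp [hΩ, hε]
    rw [← aeval_algHom_apply, h3, map_zero, ← coeff_zero_eq_aeval_zero] at h2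
    exact minpoly.coeff_zero_ne_zero hint hc0 h2
  · intro m φ h
    have h1 : φ (aeval Ω (minpoly k (a ^ 2 - a))) = 0 := by
      have : aeval Ω (minpoly k (a ^ 2 - a)) ∈ RingHom.ker ψ := hμ
      rw [← h] at this
      exact this
    rw [← aeval_algHom_apply] at h1
    obtain ⟨κ, hκ⟩ := ac_weyl k m (φ Ω) ⟨_, minpoly.ne_zero hint, h1⟩
    have h2 : Ω - algebraMap k _ κ ∈ RingHom.ker φ := by
      rw [RingHom.mem_ker, map_sub, hκ, AlgHom.commutes, sub_self]
    rw [h, RingHom.mem_ker, map_sub, hΩψ, sub_eq_zero, AlgHom.commutes, ← AlgHom.commutes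
      ((Algebra.lmul k K[X]).comp (IsScalarTower.toAlgHom k K K[X]))] at h2
    have h3 := LinearMap.congr_fun h2 1
    simp only [AlgHom.comp_apply, Algebra.coe_lmul_eq_mul, LinearMap.mul_apply', mul_one,
      IsScalarTower.coe_toAlgHom'] at h3
    exact hc ⟨κ, ((algebraMap K K[X]).injective h3).symm⟩

theorem closed_of_kernels (k : Type u) [Field k] [CharZero k]
    (h : ∀ Q : Ideal (UniversalEnvelopingAlgebra k (Derivation k k[X] k[X])),
      IsPrimitiveIdeal Q → Q ≠ ⊥ → ∃ m ≥ 1,
        ∃ φ : UniversalEnvelopingAlgebra k (Derivation k k[X] k[X]) →ₐ[k] Weyl k m,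
          RingHom.ker φ = Q) : IsAlgClosed k := by
  refine IsAlgClosed.of_exists_root k fun p hp hirr => ?_
  by_contra hroot
  have : Fact (Irreducible p) := ⟨hirr⟩
  have : Module.Finite k (AdjoinRoot p) := (AdjoinRoot.powerBasis hirr.ne_zero).finite
  have hβ : AdjoinRoot.root p ∉ Set.range (algebraMap k (AdjoinRoot p)) := by
    rintro ⟨c, hc⟩
    refine hroot ⟨c, ?_⟩
    have := AdjoinRoot.aeval_eq (f := p) p
    rw [AdjoinRoot.mk_self, ← hc, aeval_algebraMap_apply, map_eq_zero_iff _
      (algebraMap k (AdjoinRoot p)).injective] at this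
    exact this
  have key : ∃ a : AdjoinRoot p, Algebra.adjoin k {a} = ⊤ ∧
      a ^ 2 - a ∉ Set.range (algebraMap k (AdjoinRoot p)) := by
    by_cases h1 : AdjoinRoot.root p ^ 2 - AdjoinRoot.root p ∈ Set.range (algebraMap k (AdjoinRoot p))
    · refine ⟨AdjoinRoot.root p + 1, ?_, ?_⟩
      · rw [eq_top_iff, ← AdjoinRoot.adjoinRoot_eq_top, Algebra.adjoin_le_iff,
          Set.singleton_subset_iff]
        have h2 : AdjoinRoot.root p + 1 ∈ Algebra.adjoin k {AdjoinRoot.root p + 1} :=
          Algebra.subset_adjoin rfl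
        simpa using sub_mem h2 (one_mem _)
      · rintro ⟨d, hd⟩
        obtain ⟨c, hc⟩ := h1
        refine hβ ⟨(d - c) / 2, ?_⟩
        have : CharZero (AdjoinRoot p) :=
          charZero_of_injective_algebraMap (algebraMap k (AdjoinRoot p)).injective
        rw [map_div₀, map_sub, hd, hc, map_ofNat]
        ring
    · exact ⟨_, AdjoinRoot.adjoinRoot_eq_top, h1⟩
  obtain ⟨a, h1, h2⟩ := key
  obtain ⟨Q, hQ, hQ0, hQk⟩ := counter a (Algebra.IsIntegral.isIntegral _) h1 h2
  obtain ⟨m, -, φ, hφ⟩ := h Q hQ hQ0
  exact hQk m φ hφ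

end Density

end

end Pool.Agent.Lib.MP_4da284_al.Q1
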