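import Mathlib

namespace Pool.Agent.Lib.MP_4da284_al

open MvPolynomial

/- An algebra is rigid when it holds no copy of a nonzero multiple of a rank two group algebra. -/
def Rigid (k A : Type*) [Field k] [Ring A] [Algebra k A] : Prop :=
  ∀ c : ℤ × ℤ → A, (∀ v w, c v * c w = c 0 * c (v + w)) → c 0 ≠ 0 →
    ∃ w : ℤ × ℤ, w ≠ 0 ∧ ∃ κ : k, c w = κ • c 0

section General

variable {k A : Type*} [Field k] [Ring A] [Algebra k A]

theorem span_mul (c : ℤ × ℤ → A) (hc : ∀ v w, c v * c w = c 0 * c (v + w))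
    (a : A) (ha : a ∈ Submodule.span k (Set.range c))
    (b : A) (hb : b ∈ Submodule.span k (Set.range c)) :
    ∃ s ∈ Submodule.span k (Set.range c), a * b = c 0 * s := by
  induction ha using Submodule.span_induction with
  | mem x hx =>
    obtain ⟨v, rfl⟩ := hx
    induction hb using Submodule.span_induction with
    | mem y hy =>
      obtain ⟨w, rfl⟩ := hy
      exact ⟨c (v + w), Submodule.subset_span ⟨_, rfl⟩, hc v w⟩
    | zero => exact ⟨0, zero_mem _, by simp⟩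
    | add y z _ _ hy hz =>
      obtain ⟨s, hs, e⟩ := hy
      obtain ⟨t, ht, f⟩ := hz
      exact ⟨s + t, add_mem hs ht, by rw [mul_add, mul_add, e, f]⟩
    | smul r y _ hy =>
      obtain ⟨s, hs, e⟩ := hy
      exact ⟨r • s, Submodule.smul_mem _ _ hs, by rw [mul_smul_comm, mul_smul_comm, e]⟩
  | zero => exact ⟨0, zero_mem _, by simp⟩
  | add y z _ _ hy hz =>
    obtain ⟨s, hs, e⟩ := hy
    obtain ⟨t, ht, f⟩ := hz
    exact ⟨s + t, add_mem hs ht, by rw [add_mul, mul_add, e, f]⟩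
  | smul r y _ hy =>
    obtain ⟨s, hs, e⟩ := hy
    exact ⟨r • s, Submodule.smul_mem _ _ hs, by rw [smul_mul_assoc, mul_smul_comm, e]⟩

theorem span_pow (c : ℤ × ℤ → A) (hc : ∀ v w, c v * c w = c 0 * c (v + w))
    (d : A) (hd : d ∈ Submodule.span k (Set.range c)) (n : ℕ) :
    ∃ s ∈ Submodule.span k (Set.range c), d ^ (n + 1) = c 0 ^ n * s := by
  induction n with
  | zero => exact ⟨d, hd, by simp⟩
  | succ n ih =>
    obtain ⟨s, hs, e⟩ := ih
    obtain ⟨t, ht, f⟩ := span_mul c hc s hs d hd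
    exact ⟨t, ht, by rw [pow_succ, e, mul_assoc, f, pow_succ, mul_assoc]⟩

theorem lower_bound (δ : A → ℕ) (hnz : ∀ P Q : A, P ≠ 0 → Q ≠ 0 → P * Q ≠ 0)
    (hδ : ∀ P Q : A, P ≠ 0 → Q ≠ 0 → δ (P * Q) = δ P + δ Q)
    (c : ℤ × ℤ → A) (hc : ∀ v w, c v * c w = c 0 * c (v + w)) (h0 : c 0 ≠ 0)
    (d : A) (hd : d ∈ Submodule.span k (Set.range c)) (hd0 : d ≠ 0) : δ (c 0) ≤ δ d := by
  have hpow : ∀ x : A, x ≠ 0 → ∀ n : ℕ, x ^ (n + 1) ≠ 0 ∧ δ (x ^ (n + 1)) = (n + 1) * δ x := by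
    intro x hx n
    induction n with
    | zero => simp [hx]
    | succ n ih =>
      refine ⟨by rw [pow_succ]; exact hnz _ _ ih.1 hx, ?_⟩
      rw [pow_succ, hδ _ _ ih.1 hx, ih.2]; ring
  by_contra hlt
  push Not at hlt
  obtain ⟨s, -, e⟩ := span_pow c hc d hd (δ (c 0) + 1)
  have hs : s ≠ 0 := by
    rintro rfl
    exact (hpow d hd0 _).1 (by rw [e, mul_zero])
  have h1 := (hpow d hd0 (δ (c 0) + 1)).2
  rw [e, hδ _ _ (hpow _ h0 _).1 hs, (hpow _ h0 _).2] at h1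
  nlinarith

theorem family_ne_zero (hnz : ∀ P Q : A, P ≠ 0 → Q ≠ 0 → P * Q ≠ 0)
    (c : ℤ × ℤ → A) (hc : ∀ v w, c v * c w = c 0 * c (v + w)) (h0 : c 0 ≠ 0) (w : ℤ × ℤ) :
    c w ≠ 0 := by
  intro h
  have := hc w (-w)
  rw [h, zero_mul, add_neg_cancel] at this
  exact hnz _ _ h0 h0 this.symm

theorem const_of_mul (δ : A → ℕ) (hnz : ∀ P Q : A, P ≠ 0 → Q ≠ 0 → P * Q ≠ 0)
    (hδ : ∀ P Q : A, P ≠ 0 → Q ≠ 0 → δ (P * Q) = δ P + δ Q)
    (c : ℤ × ℤ → A) (hc : ∀ v w, c v * c w = c 0 * c (v + w)) (h0 : c 0 ≠ 0) (w : ℤ × ℤ)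
    (k : Type*) [Field k] [Algebra k A] :
    δ (c w) = δ (c 0) := by
  have hn := family_ne_zero hnz c hc h0
  have h1 := lower_bound (k := k) δ hnz hδ c hc h0 (c w) (Submodule.subset_span ⟨_, rfl⟩) (hn _)
  have h2 := lower_bound (k := k) δ hnz hδ c hc h0 (c (-w)) (Submodule.subset_span ⟨_, rfl⟩) (hn _)
  have h3 := hδ _ _ (hn w) (hn (-w))
  rw [hc, add_neg_cancel, hδ _ _ h0 h0] at h3
  omega

theorem Rigid.step {V C : Type*} (m : MonomialOrder V) [CommRing C] [IsDomain C] [Algebra k C]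
    (hC : Rigid k C) (ev : A →ₗ[k] MvPolynomial V C) (hinj : Function.Injective ev)
    (hmul : ∀ P Q : A, P ≠ 0 → Q ≠ 0 →
      m.degree (ev (P * Q)) = m.degree (ev P) + m.degree (ev Q) ∧
      m.leadingCoeff (ev (P * Q)) = m.leadingCoeff (ev P) * m.leadingCoeff (ev Q)) :
    Rigid k A := by
  have hev : ∀ P : A, P ≠ 0 → m.leadingCoeff (ev P) ≠ 0 := by
    intro P hP
    rw [m.leadingCoeff_ne_zero_iff]
    exact fun h => hP (hinj (by rw [h, map_zero]))
  have hnz : ∀ P Q : A, P ≠ 0 → Q ≠ 0 → P * Q ≠ 0 := by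
    intro P Q hP hQ h
    have := (hmul P Q hP hQ).2
    rw [h, map_zero, m.leadingCoeff_zero] at this
    exact mul_ne_zero (hev P hP) (hev Q hQ) this.symm
  intro c hc h0
  have hn := family_ne_zero hnz c hc h0
  have hδ : ∀ j : V, ∀ P Q : A, P ≠ 0 → Q ≠ 0 →
      m.degree (ev (P * Q)) j = m.degree (ev P) j + m.degree (ev Q) j := by
    intro j P Q hP hQ
    rw [(hmul P Q hP hQ).1]; rfl
  have hdeg : ∀ w, m.degree (ev (c w)) = m.degree (ev (c 0)) := by
    intro w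
    ext j
    exact const_of_mul (fun P => m.degree (ev P) j) hnz (hδ j) c hc h0 w k
  obtain ⟨w, hw, κ, hκ⟩ := hC (fun w => m.leadingCoeff (ev (c w))) (by
    intro v w
    rw [← (hmul _ _ (hn v) (hn w)).2, hc, (hmul _ _ h0 (hn _)).2]) (hev _ h0)
  refine ⟨w, hw, κ, ?_⟩
  by_contra hne
  have hd0 : c w - κ • c 0 ≠ 0 := sub_ne_zero.mpr hne
  have hmem : c w - κ • c 0 ∈ Submodule.span k (Set.range c) :=
    sub_mem (Submodule.subset_span ⟨_, rfl⟩)
      (Submodule.smul_mem _ _ (Submodule.subset_span ⟨_, rfl⟩))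
  have hge : m.degree (ev (c 0)) ≤ m.degree (ev (c w - κ • c 0)) := by
    intro j
    exact lower_bound (k := k) (fun P => m.degree (ev P) j) hnz (hδ j) c hc h0 _ hmem hd0
  have hge' := m.toSyn_monotone hge
  have hcoef := m.leadingCoeff_ne_zero_iff.mp (hev _ hd0)
  have hsupp := m.degree_mem_support hcoef
  rw [mem_support_iff] at hsupp
  apply hsupp
  rw [map_sub, map_smul, coeff_sub, coeff_smul]
  rcases hge'.lt_or_eq with hlt | heq
  · rw [map_sub, map_smul] at hlt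
    rw [m.coeff_eq_zero_of_lt (by rw [hdeg w]; exact hlt), m.coeff_eq_zero_of_lt hlt]
    simp
  · have heq' := m.toSyn.injective heq
    rw [map_sub, map_smul] at heq'
    rw [← heq']
    simp only [MonomialOrder.leadingCoeff] at hκ
    rw [hdeg w] at hκ
    rw [hκ, sub_self]

theorem Rigid.mvPolynomial {V C : Type*} (m : MonomialOrder V) [CommRing C] [IsDomain C]
    [Algebra k C] (hC : Rigid k C) : Rigid k (MvPolynomial V C) :=
  Rigid.step m hC LinearMap.id (fun _ _ h => h)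
    (fun _ _ hP hQ => ⟨m.degree_mul hP hQ, m.leadingCoeff_mul⟩)

end General

section Laurent

variable {k : Type*} [Field k]

def IsTop (f : AddMonoidAlgebra k ℤ) (a : ℤ) : Prop :=
  f.coeff a ≠ 0 ∧ ∀ b, f.coeff b ≠ 0 → b ≤ a

def IsBot (f : AddMonoidAlgebra k ℤ) (a : ℤ) : Prop :=
  f.coeff a ≠ 0 ∧ ∀ b, f.coeff b ≠ 0 → a ≤ b

theorem exists_isTop (f : AddMonoidAlgebra k ℤ) (hf : f ≠ 0) : ∃ a, IsTop f a := by
  have hne : f.coeff.support.Nonempty := by
    rw [Finsupp.support_nonempty_iff]; simpa using hf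
  exact ⟨_, Finsupp.mem_support_iff.mp (f.coeff.support.max'_mem hne),
    fun b hb => f.coeff.support.le_max' b (Finsupp.mem_support_iff.mpr hb)⟩

theorem exists_isBot (f : AddMonoidAlgebra k ℤ) (hf : f ≠ 0) : ∃ a, IsBot f a := by
  have hne : f.coeff.support.Nonempty := by
    rw [Finsupp.support_nonempty_iff]; simpa using hf
  exact ⟨_, Finsupp.mem_support_iff.mp (f.coeff.support.min'_mem hne),
    fun b hb => f.coeff.support.min'_le b (Finsupp.mem_support_iff.mpr hb)⟩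

theorem coeff_mul_ne {f g : AddMonoidAlgebra k ℤ} {n : ℤ} (h : (f * g).coeff n ≠ 0) :
    ∃ a b, f.coeff a ≠ 0 ∧ g.coeff b ≠ 0 ∧ a + b = n := by
  have := AddMonoidAlgebra.support_coeff_mul_subset f g (Finsupp.mem_support_iff.mpr h)
  obtain ⟨a, ha, b, hb, e⟩ := Finset.mem_add.mp this
  exact ⟨a, b, Finsupp.mem_support_iff.mp ha, Finsupp.mem_support_iff.mp hb, e⟩

theorem IsTop.mul {f g : AddMonoidAlgebra k ℤ} {a b : ℤ} (hf : IsTop f a) (hg : IsTop g b) :
    IsTop (f * g) (a + b) := by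
  constructor
  · rw [AddMonoidAlgebra.coeff_mul_add_of_uniqueAdd]
    · exact mul_ne_zero hf.1 hg.1
    · intro x y hx hy e
      have h1 := hf.2 x (Finsupp.mem_support_iff.mp hx)
      have h2 := hg.2 y (Finsupp.mem_support_iff.mp hy)
      constructor <;> omega
  · intro n hn
    obtain ⟨x, y, hx, hy, rfl⟩ := coeff_mul_ne hn
    exact add_le_add (hf.2 x hx) (hg.2 y hy)

theorem IsBot.mul {f g : AddMonoidAlgebra k ℤ} {a b : ℤ} (hf : IsBot f a) (hg : IsBot g b) :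
    IsBot (f * g) (a + b) := by
  constructor
  · rw [AddMonoidAlgebra.coeff_mul_add_of_uniqueAdd]
    · exact mul_ne_zero hf.1 hg.1
    · intro x y hx hy e
      have h1 := hf.2 x (Finsupp.mem_support_iff.mp hx)
      have h2 := hg.2 y (Finsupp.mem_support_iff.mp hy)
      constructor <;> omega
  · intro n hn
    obtain ⟨x, y, hx, hy, rfl⟩ := coeff_mul_ne hn
    exact add_le_add (hf.2 x hx) (hg.2 y hy)

theorem IsTop.unique {f : AddMonoidAlgebra k ℤ} {a b : ℤ} (ha : IsTop f a) (hb : IsTop f b) :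
    a = b := le_antisymm (hb.2 a ha.1) (ha.2 b hb.1)

theorem IsBot.unique {f : AddMonoidAlgebra k ℤ} {a b : ℤ} (ha : IsBot f a) (hb : IsBot f b) :
    a = b := le_antisymm (ha.2 b hb.1) (hb.2 a ha.1)

theorem rigid_laurent : Rigid k (AddMonoidAlgebra k ℤ) := by
  classical
  choose hi' hhi' using exists_isTop (k := k)
  choose lo' hlo' using exists_isBot (k := k)
  let hi : AddMonoidAlgebra k ℤ → ℤ := fun f => if h : f ≠ 0 then hi' f h else 0
  let lo : AddMonoidAlgebra k ℤ → ℤ := fun f => if h : f ≠ 0 then lo' f h else 0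
  have hhi : ∀ f, f ≠ 0 → IsTop f (hi f) := fun f h => by
    simp only [hi, dif_pos h]; exact hhi' f h
  have hlo : ∀ f, f ≠ 0 → IsBot f (lo f) := fun f h => by
    simp only [lo, dif_pos h]; exact hlo' f h
  have hnz : ∀ P Q : AddMonoidAlgebra k ℤ, P ≠ 0 → Q ≠ 0 → P * Q ≠ 0 :=
    fun P Q hP hQ => mul_ne_zero hP hQ
  have hhim : ∀ P Q, P ≠ 0 → Q ≠ 0 → hi (P * Q) = hi P + hi Q := fun P Q hP hQ =>
    (hhi _ (hnz P Q hP hQ)).unique ((hhi P hP).mul (hhi Q hQ))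
  have hlom : ∀ P Q, P ≠ 0 → Q ≠ 0 → lo (P * Q) = lo P + lo Q := fun P Q hP hQ =>
    (hlo _ (hnz P Q hP hQ)).unique ((hlo P hP).mul (hlo Q hQ))
  have hle : ∀ P, P ≠ 0 → lo P ≤ hi P := fun P hP => (hhi P hP).2 _ (hlo P hP).1
  let δ : AddMonoidAlgebra k ℤ → ℕ := fun f => (hi f - lo f).toNat
  have hδ : ∀ P Q, P ≠ 0 → Q ≠ 0 → δ (P * Q) = δ P + δ Q := by
    intro P Q hP hQ
    have := hle P hP
    have := hle Q hQ
    simp only [δ, hhim P Q hP hQ, hlom P Q hP hQ]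
    omega
  intro c hc h0
  have hn := family_ne_zero hnz c hc h0
  let h : ℤ × ℤ →+ ℤ := AddMonoidHom.mk' (fun w => hi (c w) - hi (c 0)) (by
    intro v w
    have := hhim _ _ (hn v) (hn w)
    rw [hc, hhim _ _ h0 (hn _)] at this
    omega)
  obtain ⟨w, hw, hw0⟩ : ∃ w : ℤ × ℤ, w ≠ 0 ∧ h w = 0 := by
    by_cases h1 : h (1, 0) = 0
    · exact ⟨(1, 0), by simp, h1⟩
    · refine ⟨h (0, 1) • (1, 0) - h (1, 0) • (0, 1), ?_, ?_⟩
      · intro e
        have := congrArg Prod.snd e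
        simp at this
        exact h1 this
      · rw [map_sub, map_zsmul, map_zsmul, smul_eq_mul, smul_eq_mul, mul_comm, sub_self]
  have hhw : hi (c w) = hi (c 0) := by
    have : hi (c w) - hi (c 0) = 0 := hw0
    omega
  have hδw := const_of_mul δ hnz hδ c hc h0 w k
  have hlw : lo (c w) = lo (c 0) := by
    have := hle _ (hn w)
    have := hle _ h0
    simp only [δ] at hδw
    omega
  refine ⟨w, hw, (c w).coeff (hi (c 0)) / (c 0).coeff (hi (c 0)), ?_⟩
  set κ := (c w).coeff (hi (c 0)) / (c 0).coeff (hi (c 0)) with hκ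
  by_contra hne
  have hd0 : c w - κ • c 0 ≠ 0 := sub_ne_zero.mpr hne
  have hmem : c w - κ • c 0 ∈ Submodule.span k (Set.range c) :=
    sub_mem (Submodule.subset_span ⟨_, rfl⟩)
      (Submodule.smul_mem _ _ (Submodule.subset_span ⟨_, rfl⟩))
  have hge := lower_bound (k := k) δ hnz hδ c hc h0 _ hmem hd0
  have hco : ∀ n, (c w - κ • c 0).coeff n ≠ 0 → lo (c 0) ≤ n ∧ n < hi (c 0) := by
    intro n hn'
    have hor : (c w).coeff n ≠ 0 ∨ (c 0).coeff n ≠ 0 := by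
      by_contra hh
      push Not at hh
      apply hn'
      simp [hh.1, hh.2]
    have hb : lo (c 0) ≤ n ∧ n ≤ hi (c 0) := by
      rcases hor with h1 | h1
      · exact ⟨hlw ▸ (hlo _ (hn w)).2 n h1, hhw ▸ (hhi _ (hn w)).2 n h1⟩
      · exact ⟨(hlo _ h0).2 n h1, (hhi _ h0).2 n h1⟩
    refine ⟨hb.1, lt_of_le_of_ne hb.2 ?_⟩
    rintro rfl
    apply hn'
    have := (hhi _ h0).1
    simp [hκ]
    field_simp
    ring
  have h1 := hco _ (hhi _ hd0).1
  have h2 := hco _ (hlo _ hd0).1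
  have h3 := hle _ hd0
  simp only [δ] at hge
  omega

end Laurent

end Pool.Agent.Lib.MP_4da284_al
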